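import Pool.Agent.Lib_helper64.SS.Base
import Pool.Agent.Lib_helper64.SS.Notions

/-! Block OSG: Osgood's lemma in `n` variables. -/

set_option autoImplicit false
set_option linter.unusedSectionVars false

open Filter Topology Metric Set Complex MeasureTheory
open scoped Real BoundedContinuousFunction

namespace Pool.Agent.SS

/-- the closed polydisc -/
def osg_poly {n : ℕ} (c : Fin n → ℂ) (R : ℝ) : Set (Fin n → ℂ) := {z | ∀ i, z i ∈ closedBall (c i) R}

theorem osg_torus_mem {n : ℕ} (c : Fin n → ℂ) {R : ℝ} (hR : 0 ≤ R) (θ : Fin n → ℝ) :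
    torusMap c (fun _ => R) θ ∈ osg_poly c R := by
  intro i
  rw [mem_closedBall, dist_eq_norm, torusMap, add_sub_cancel_left, norm_mul,
    Complex.norm_exp_ofReal_mul_I, mul_one, Complex.norm_real, Real.norm_of_nonneg hR]

theorem osg_torus_cont {n : ℕ} (c : Fin n → ℂ) (R : Fin n → ℝ) : Continuous (torusMap c R) := by
  unfold torusMap
  fun_prop

theorem osg_cauchy {F : Type} [NormedAddCommGroup F] [NormedSpace ℂ F] [CompleteSpace F]
    {R : ℝ} (hR : 0 < R) : ∀ (n : ℕ) (c : Fin n → ℂ) (f : (Fin n → ℂ) → F),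
    ContinuousOn f (osg_poly c R) →
    (∀ z ∈ osg_poly c R, ∀ i, DiffContOnCl ℂ (fun w => f (Function.update z i w)) (ball (c i) R)) →
    ∀ z : Fin n → ℂ, (∀ i, z i ∈ ball (c i) R) →
    f z = ((2 * π * I : ℂ)⁻¹) ^ n •
      ∯ ζ in T(c, fun _ => R), (∏ i, (ζ i - z i)⁻¹) • f ζ := by
  intro n
  induction n with
  | zero =>
    intro c f _ _ z _
    rw [torusIntegral_dim0]
    simp [Subsingleton.elim c z]
  | succ n ih =>
    intro c f hf hd z hz
    -- one variable
    have hzc : ∀ w ∈ closedBall (c 0) R, ∀ y ∈ osg_poly (c ∘ Fin.succ) R,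
        (Fin.cons w y : Fin (n + 1) → ℂ) ∈ osg_poly c R := by
      intro w hw y hy i
      refine Fin.cases ?_ (fun j => ?_) i
      · simpa using hw
      · simpa using hy j
    have hz' : ∀ i, z i ∈ closedBall (c i) R := fun i => ball_subset_closedBall (hz i)
    have htail : (fun i : Fin n => z i.succ) ∈ osg_poly (c ∘ Fin.succ) R := fun i => hz' i.succ
    have h1 : f z = (2 * π * I : ℂ)⁻¹ •
        ∮ w in C(c 0, R), (w - z 0)⁻¹ • f (Fin.cons w fun i : Fin n => z i.succ) := by
      have h2 := (hd z hz' 0).two_pi_i_inv_smul_circleIntegral_sub_inv_smul (hz 0)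
      rw [Function.update_eq_self] at h2
      rw [← h2]
      congr 1
      refine circleIntegral.integral_congr hR.le fun w _ => ?_
      congr 2
      ext i
      refine Fin.cases ?_ (fun j => ?_) i
      · simp
      · rw [Function.update_of_ne (Fin.succ_ne_zero j)]
        simp
    have h3 : ∀ w ∈ sphere (c 0) R, f (Fin.cons w fun i : Fin n => z i.succ) =
        ((2 * π * I : ℂ)⁻¹) ^ n • ∯ ζ in T(c ∘ Fin.succ, fun _ => R),
          (∏ i, (ζ i - z i.succ)⁻¹) • f (Fin.cons w ζ) := by
      intro w hw
      have hw' : w ∈ closedBall (c 0) R := sphere_subset_closedBall hw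
      refine ih (c ∘ Fin.succ) (fun y => f (Fin.cons w y)) ?_ ?_ (fun i => z i.succ)
        (fun i => hz i.succ)
      · refine hf.comp ?_ (fun y hy => hzc w hw' y hy)
        refine Continuous.continuousOn ?_
        refine continuous_pi fun i => ?_
        refine Fin.cases ?_ (fun j => ?_) i
        · simpa using continuous_const
        · simpa using continuous_apply j
      · intro y hy i
        have h4 := hd (Fin.cons w y) (hzc w hw' y hy) i.succ
        have h5 : (fun u => f (Function.update (Fin.cons w y : Fin (n + 1) → ℂ) i.succ u)) =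
            fun u => f (Fin.cons w (Function.update y i u)) := by
          funext u
          rw [Fin.cons_update]
        rw [h5] at h4
        exact h4
    rw [h1]
    have hint : TorusIntegrable (fun ζ : Fin (n + 1) → ℂ => (∏ i, (ζ i - z i)⁻¹) • f ζ) c
        (fun _ => R) := by
      refine Continuous.integrableOn_Icc ?_
      refine Continuous.smul ?_ ?_
      · refine continuous_finsetProd _ fun i _ => ?_
        refine Continuous.inv₀ ?_ fun θ => ?_
        · have h5 : Continuous fun θ => torusMap c (fun _ => R) θ i :=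
            (continuous_apply i).comp (osg_torus_cont c (fun _ => R))
          exact h5.sub continuous_const
        · have h6 : torusMap c (fun _ => R) θ i ∈ sphere (c i) R := by
            rw [mem_sphere, dist_eq_norm, torusMap, add_sub_cancel_left, norm_mul,
              Complex.norm_exp_ofReal_mul_I, mul_one, Complex.norm_real, Real.norm_of_nonneg hR.le]
          intro h7
          have h8 := hz i
          rw [sub_eq_zero] at h7
          rw [← h7, mem_ball] at h8
          rw [mem_sphere] at h6
          exact absurd h6 h8.ne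
      · exact hf.comp_continuous (osg_torus_cont c _) (fun θ => osg_torus_mem c hR.le θ)
    rw [torusIntegral_succ hint]
    have h9 : (∮ w in C(c 0, R), (w - z 0)⁻¹ • f (Fin.cons w fun i : Fin n => z i.succ)) =
        ∮ w in C(c 0, R), ((2 * π * I : ℂ)⁻¹) ^ n • ∯ ζ in T(c ∘ Fin.succ, fun _ => R),
          (∏ i : Fin (n + 1), ((Fin.cons w ζ : Fin (n + 1) → ℂ) i - z i)⁻¹) •
            f (Fin.cons w ζ) := by
      refine circleIntegral.integral_congr hR.le fun w hw => ?_
      rw [h3 w hw, smul_comm, ← torusIntegral_smul]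
      congr 2
      funext ζ
      rw [Fin.prod_univ_succ, smul_smul]
      simp
    rw [h9]
    have h10 : ∀ g : ℂ → F, (∮ w in C(c 0, R), ((2 * π * I : ℂ)⁻¹) ^ n • g w) =
        ((2 * π * I : ℂ)⁻¹) ^ n • ∮ w in C(c 0, R), g w := by
      intro g
      exact circleIntegral.integral_smul _ _ _ _
    rw [h10, smul_smul, ← pow_succ']
    rfl

/-- The bounded continuous function `θ ↦ torusMap c 1 θ i`. -/
noncomputable def osg_circ {n : ℕ} (c : Fin n → ℂ) {R : ℝ} (hR : 0 ≤ R) (i : Fin n) :
    (Fin n → ℝ) →ᵇ ℂ :=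
  BoundedContinuousFunction.ofNormedAddCommGroup (fun θ => torusMap c (fun _ => R) θ i)
    ((continuous_apply i).comp (osg_torus_cont c (fun _ => R))) (‖c i‖ + R) (by
      intro θ
      have h := osg_torus_mem c hR θ i
      rw [mem_closedBall, dist_eq_norm] at h
      have h2 : torusMap c (fun _ => R) θ i = c i + (torusMap c (fun _ => R) θ i - c i) := by ring
      rw [h2]
      exact (norm_add_le _ _).trans (by gcongr))

/-- Integration functional. -/
noncomputable def osg_int {n : ℕ} {F : Type} [NormedAddCommGroup F] [NormedSpace ℂ F]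
    (g : (Fin n → ℝ) → F) (hg : Continuous g) : ((Fin n → ℝ) →ᵇ ℂ) →L[ℂ] F :=
  LinearMap.mkContinuous
    { toFun := fun φ => ∫ p in Icc (0 : Fin n → ℝ) (fun _ => 2 * π), φ p • g p
      map_add' := by
        intro φ ψ
        have hint : ∀ χ : (Fin n → ℝ) →ᵇ ℂ,
            IntegrableOn (fun p => χ p • g p) (Icc (0 : Fin n → ℝ) (fun _ => 2 * π)) := by
          intro χ
          exact (χ.continuous.smul hg).continuousOn.integrableOn_compact isCompact_Icc
        rw [← integral_add (hint φ) (hint ψ)]
        simp [add_smul]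
      map_smul' := by
        intro c φ
        simp only [BoundedContinuousFunction.coe_smul, RingHom.id_apply, smul_eq_mul, mul_smul]
        rw [integral_smul] }
    (∫ p in Icc (0 : Fin n → ℝ) (fun _ => 2 * π), ‖g p‖) (by
      intro φ
      simp only [LinearMap.coe_mk, AddHom.coe_mk]
      refine (norm_integral_le_integral_norm _).trans ?_
      rw [mul_comm (∫ p in Icc (0 : Fin n → ℝ) (fun _ => 2 * π), ‖g p‖) ‖φ‖,
        ← integral_const_mul]
      refine integral_mono_of_nonneg (Filter.Eventually.of_forall fun p => norm_nonneg _) ?_ ?_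
      · refine Integrable.const_mul ?_ _
        exact (hg.norm).continuousOn.integrableOn_compact isCompact_Icc
      · refine Filter.Eventually.of_forall fun p => ?_
        simp only [norm_smul]
        gcongr
        exact φ.norm_coe_le_norm p)

theorem osg_int_apply {n : ℕ} {F : Type} [NormedAddCommGroup F] [NormedSpace ℂ F]
    (g : (Fin n → ℝ) → F) (hg : Continuous g) (φ : (Fin n → ℝ) →ᵇ ℂ) :
    osg_int g hg φ = ∫ p in Icc (0 : Fin n → ℝ) (fun _ => 2 * π), φ p • g p := rfl

theorem osg_pi {F : Type} [NormedAddCommGroup F] [NormedSpace ℂ F] [CompleteSpace F]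
    {n : ℕ} {f : (Fin n → ℂ) → F} {U : Set (Fin n → ℂ)} (hU : IsOpen U)
    (hc : ContinuousOn f U)
    (hl : ∀ x ∈ U, ∀ v, DifferentiableAt ℂ (fun z : ℂ => f (x + z • v)) 0) (c : Fin n → ℂ)
    (hcU : c ∈ U) : AnalyticAt ℂ f c := by
  obtain ⟨ε, hε, hball⟩ := Metric.isOpen_iff.1 hU c hcU
  obtain ⟨R, hR, hRε⟩ : ∃ R, 0 < R ∧ R < ε := ⟨ε / 2, by linarith, by linarith⟩
  have hpoly : osg_poly c R ⊆ U := by
    intro z hz
    refine hball ?_
    rw [mem_ball]
    refine lt_of_le_of_lt ?_ hRε
    rw [dist_pi_le_iff hR.le]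
    exact fun i => mem_closedBall.1 (hz i)
  have hf : ContinuousOn f (osg_poly c R) := hc.mono hpoly
  have hd : ∀ z ∈ osg_poly c R, ∀ i,
      DiffContOnCl ℂ (fun w => f (Function.update z i w)) (ball (c i) R) := by
    intro z hz i
    refine DifferentiableOn.diffContOnCl ?_
    rw [closure_ball _ hR.ne']
    intro w hw
    refine DifferentiableAt.differentiableWithinAt ?_
    have h1 : Function.update z i w ∈ osg_poly c R := by
      intro j
      by_cases hj : j = i
      · subst hj
        simpa using hw
      · rw [Function.update_of_ne hj]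
        exact hz j
    have h2 := hl _ (hpoly h1) (Pi.single i 1)
    have h3 : (fun u => f (Function.update z i u)) =
        (fun t : ℂ => f (Function.update z i w + t • Pi.single i 1)) ∘ fun u => u - w := by
      funext u
      simp only [Function.comp]
      congr 1
      ext j
      by_cases hj : j = i
      · subst hj
        simp
      · simp [hj]
    rw [h3]
    refine DifferentiableAt.comp w ?_ (by fun_prop)
    simpa using h2
  -- the kernel
  set A : (Fin n → ℂ) → ((Fin n → ℝ) →ᵇ ℂ) := fun q =>
    ∏ i, (osg_circ c hR.le i - q i • (1 : (Fin n → ℝ) →ᵇ ℂ)) with hA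
  have hAapp : ∀ q θ, A q θ = ∏ i, (torusMap c (fun _ => R) θ i - q i) := by
    intro q θ
    rw [hA]
    simp only
    rw [BoundedContinuousFunction.coe_prod, Finset.prod_apply]
    refine Finset.prod_congr rfl fun i _ => ?_
    simp [osg_circ]
  have hAan : AnalyticAt ℂ A c := by
    rw [hA]
    refine Finset.analyticAt_fun_prod _ fun i _ => ?_
    have h1 : AnalyticAt ℂ (fun q : Fin n → ℂ => q i) c :=
      (ContinuousLinearMap.proj (R := ℂ) (φ := fun _ : Fin n => ℂ) i).analyticAt c
    have h2 : AnalyticAt ℂ (fun q : Fin n → ℂ => q i • (1 : (Fin n → ℝ) →ᵇ ℂ)) c :=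
      h1.fun_smul analyticAt_const
    exact analyticAt_const.fun_sub h2
  have hunit : IsUnit (A c) := by
    have hnorm : ∀ s, ‖A c s‖ = R ^ n := by
      intro s
      rw [hAapp, norm_prod]
      rw [Finset.prod_congr rfl (g := fun _ => R)]
      · simp
      · intro i _
        rw [torusMap, add_sub_cancel_left, norm_mul,
          Complex.norm_exp_ofReal_mul_I, mul_one, Complex.norm_real, Real.norm_of_nonneg hR.le]
    have hne : ∀ s, A c s ≠ 0 := by
      intro s hs
      have := hnorm s
      rw [hs, norm_zero] at this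
      exact (pow_pos hR n).ne this
    let B : (Fin n → ℝ) →ᵇ ℂ := BoundedContinuousFunction.ofNormedAddCommGroup
      (fun s => (A c s)⁻¹) ((A c).continuous.inv₀ hne) ((R ^ n)⁻¹) (by
        intro s
        rw [norm_inv, hnorm])
    refine IsUnit.of_mul_eq_one B ?_
    ext s
    simp only [BoundedContinuousFunction.coe_mul, Pi.mul_apply, BoundedContinuousFunction.coe_one,
      Pi.one_apply]
    exact mul_inv_cancel₀ (hne s)
  obtain ⟨u, hu⟩ := hunit
  have hinv : AnalyticAt ℂ (fun q => Ring.inverse (A q)) c := by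
    have := analyticAt_inverse (𝕜 := ℂ) u
    rw [hu] at this
    exact this.comp hAan
  set g : (Fin n → ℝ) → F := fun θ => (∏ i, ((R : ℝ) : ℂ) * exp (θ i * I) * I : ℂ) •
    f (torusMap c (fun _ => R) θ) with hgdef
  have hg : Continuous g := by
    refine Continuous.smul (by fun_prop) ?_
    exact hf.comp_continuous (osg_torus_cont c _) (fun θ => osg_torus_mem c hR.le θ)
  have hfan : AnalyticAt ℂ (fun q => ((2 * π * I : ℂ)⁻¹) ^ n •
      osg_int g hg (Ring.inverse (A q))) c := by
    refine AnalyticAt.const_smul ?_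
    exact ((osg_int g hg).analyticAt _).comp hinv
  refine hfan.congr ?_
  have hunits : ∀ᶠ q in 𝓝 c, IsUnit (A q) := by
    have : IsOpen {a : (Fin n → ℝ) →ᵇ ℂ | IsUnit a} := Units.isOpen
    exact hAan.continuousAt.eventually (this.mem_nhds ⟨u, hu⟩)
  filter_upwards [hunits, ball_mem_nhds c hR] with q hq hqb
  have hqb' : ∀ i, q i ∈ ball (c i) R := by
    intro i
    rw [mem_ball] at hqb ⊢
    exact (dist_le_pi_dist q c i).trans_lt hqb
  have hinvapp : ∀ s, (Ring.inverse (A q)) s = ∏ i, (torusMap c (fun _ => R) s i - q i)⁻¹ := by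
    intro s
    have := Ring.mul_inverse_cancel _ hq
    have h := congrArg (fun φ : (Fin n → ℝ) →ᵇ ℂ => φ s) this
    simp only [BoundedContinuousFunction.coe_mul, Pi.mul_apply, BoundedContinuousFunction.coe_one,
      Pi.one_apply, hAapp] at h
    rw [Finset.prod_inv_distrib]
    exact (eq_inv_of_mul_eq_one_right h)
  rw [osg_int_apply, osg_cauchy hR n c f hf hd q hqb']
  congr 1
  rw [torusIntegral]
  refine setIntegral_congr_fun measurableSet_Icc fun θ _ => ?_
  simp only [hinvapp, hgdef, smul_smul]
  congr 1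
  rw [mul_comm]

/-- OSG: Osgood's lemma in `n` variables -/
theorem osgood {E F : Type} [NormedAddCommGroup E] [NormedSpace ℂ E] [FiniteDimensional ℂ E]
    [NormedAddCommGroup F] [NormedSpace ℂ F] [CompleteSpace F] {f : E → F} {U : Set E}
    (hU : IsOpen U) (hc : ContinuousOn f U)
    (hl : ∀ x ∈ U, ∀ v : E, DifferentiableAt ℂ (fun z : ℂ => f (x + z • v)) 0) :
    AnalyticOnNhd ℂ f U := by
  intro x hx
  let e : E ≃L[ℂ] (Fin (Module.finrank ℂ E) → ℂ) :=
    ContinuousLinearEquiv.ofFinrankEq (by simp)
  have h1 : AnalyticAt ℂ (f ∘ e.symm) (e x) := by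
    refine osg_pi (U := e.symm ⁻¹' U) (hU.preimage e.symm.continuous) ?_ ?_ (e x) (by simpa)
    · exact hc.comp e.symm.continuous.continuousOn fun y hy => hy
    · intro y hy v
      have h2 := hl (e.symm y) hy (e.symm v)
      simpa using h2
  have h3 : f = (f ∘ e.symm) ∘ e := by
    funext y
    simp
  rw [h3]
  exact AnalyticAt.comp h1 (e.analyticAt x)

end Pool.Agent.SS
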