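import Pool.Agent.Lib_helper64.SS.Base
import Pool.Agent.Lib_helper64.SS.Notions
import Pool.Agent.Lib_helper64.SS.B.OSG

/-! IN1: a symmetric differential in charts -/

set_option autoImplicit false
set_option linter.unusedSectionVars false

open Filter Topology Metric Set
open scoped Manifold ContDiff

namespace Pool.Agent.SS

-- NEEDS: OSG

variable {E X : Type} [NormedAddCommGroup E] [NormedSpace ℂ E] [FiniteDimensional ℂ E]
  [TopologicalSpace X] {G : Geo E X}
  {V : Type} [NormedAddCommGroup V] [NormedSpace ℂ V] [FiniteDimensional ℂ V]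

section manifold

variable [ChartedSpace E X] [IsManifold 𝓘(ℂ, E) ω X]

theorem in1_symm (y : X) (ξ w : E) :
    (chartAt (ModelProd E E) (⟨y, 0⟩ : TangentBundle 𝓘(ℂ, E) X)).symm (ξ, w) =
      ⟨(chartAt E y).symm ξ, tangentCoordChange 𝓘(ℂ, E) y ((chartAt E y).symm ξ)
        ((chartAt E y).symm ξ) w⟩ := rfl

theorem in1_conv {f : ModelProd E E → ℂ} {p : ModelProd E E}
    (h : MDifferentiableAt 𝓘(ℂ, E).tangent 𝓘(ℂ, ℂ) f p) :
    DifferentiableAt ℂ (fun q : E × E => f q) p := by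
  have h1 := (mdifferentiableAt_iff _ _).1 h |>.2
  simp only [writtenInExtChartAt, extChartAt, OpenPartialHomeomorph.extend, chartAt_self_eq,
    mfld_simps, ModelWithCorners.tangent] at h1
  rw [Prod.map_id, range_id, differentiableWithinAt_univ] at h1
  exact h1

theorem in1_diff {σ : TangentBundle 𝓘(ℂ, E) X → ℂ}
    (hσ : MDifferentiable 𝓘(ℂ, E).tangent 𝓘(ℂ, ℂ) σ) (y : X) {ξ : E}
    (hξ : ξ ∈ (chartAt E y).target) (w : E) :
    DifferentiableAt ℂ (fun q : E × E => σ ((chartAt (ModelProd E E)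
      (⟨y, 0⟩ : TangentBundle 𝓘(ℂ, E) X)).symm q)) (ξ, w) := by
  have h1 : MDifferentiableAt 𝓘(ℂ, E).tangent 𝓘(ℂ, E).tangent
      (chartAt (ModelProd E E) (⟨y, 0⟩ : TangentBundle 𝓘(ℂ, E) X)).symm ((ξ, w) : ModelProd E E) :=
    mdifferentiableAt_atlas_symm (chart_mem_atlas _ _)
      ((TangentBundle.mem_chart_target_iff _ _).2 hξ)
  have h2 := (hσ _).comp _ h1
  exact in1_conv h2

theorem in1_line {E F : Type} [NormedAddCommGroup E] [NormedSpace ℂ E]
    [NormedAddCommGroup F] [NormedSpace ℂ F] {g : E → F} {x : E} (h : DifferentiableAt ℂ g x)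
    (v : E) : DifferentiableAt ℂ (fun z : ℂ => g (x + z • v)) 0 := by
  have h1 : DifferentiableAt ℂ (fun z : ℂ => x + z • v) 0 := by fun_prop
  have h2 : DifferentiableAt ℂ g (x + (0 : ℂ) • v) := by rwa [zero_smul, add_zero]
  exact DifferentiableAt.comp (g := g) (f := fun z : ℂ => x + z • v) (0 : ℂ) h2 h1

theorem in1_hom {m : ℕ} {p : E → ℂ} (hp : IsSymForm m p) (a : ℂ) (u : E) :
    p (a • u) = a ^ m * p u := by
  obtain ⟨P, hP⟩ := hp
  have h3 := P.map_smul_univ (fun _ => a) (fun _ => u)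
  rw [Finset.prod_const, Finset.card_univ, Fintype.card_fin, smul_eq_mul] at h3
  rw [hP, hP, ← h3]

theorem in1_an {σ : TangentBundle 𝓘(ℂ, E) X → ℂ}
    (hσ : MDifferentiable 𝓘(ℂ, E).tangent 𝓘(ℂ, ℂ) σ) (y : X) {ξ : E}
    (hξ : ξ ∈ (chartAt E y).target) (w : E) :
    AnalyticAt ℂ (fun q : E × E => σ ((chartAt (ModelProd E E)
      (⟨y, 0⟩ : TangentBundle 𝓘(ℂ, E) X)).symm q)) (ξ, w) := by
  have hU : IsOpen ((chartAt E y).target ×ˢ (univ : Set E)) :=
    (chartAt E y).open_target.prod isOpen_univ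
  refine osgood hU (fun x hx => ?_) (fun x hx v => ?_) (ξ, w) ⟨hξ, mem_univ _⟩
  · exact (in1_diff hσ y hx.1 x.2).continuousAt.continuousWithinAt
  · exact in1_line (in1_diff hσ y hx.1 x.2) v

/-- IN1: a symmetric differential in charts -/
theorem symDiff_chart {m : ℕ} {σ : TangentBundle 𝓘(ℂ, E) X → ℂ} (hσ : IsSymDiff E X m σ) :
    ∃ S : X → E → E → ℂ,
      (∀ y, ∀ ξ ∈ (chartAt E y).target, ∀ w, AnalyticAt ℂ (fun p : E × E => S y p.1 p.2) (ξ, w)) ∧
      (∀ y, ∀ ξ ∈ (chartAt E y).target, ∀ (a : ℂ) w, S y ξ (a • w) = a ^ m * S y ξ w) ∧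
      (∀ y y' x, x ∈ (chartAt E y).source → x ∈ (chartAt E y').source → ∀ w,
        S y (chartAt E y x) w = S y' (chartAt E y' x)
          (fderiv ℂ (fun ξ => chartAt E y' ((chartAt E y).symm ξ)) (chartAt E y x) w)) ∧
      ∀ x w, S x (chartAt E x x) w = σ ⟨x, w⟩ := by
  refine ⟨fun y ξ w => σ ((chartAt (ModelProd E E)
    (⟨y, 0⟩ : TangentBundle 𝓘(ℂ, E) X)).symm (ξ, w)), ?_, ?_, ?_, ?_⟩
  · intro y ξ hξ w
    exact in1_an hσ.hol y hξ w
  · intro y ξ _ a w
    simp only [in1_symm]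
    have h1 := in1_hom (hσ.fib ((chartAt E y).symm ξ)) a
      (tangentCoordChange 𝓘(ℂ, E) y ((chartAt E y).symm ξ) ((chartAt E y).symm ξ) w)
    have h2 := map_smul (tangentCoordChange 𝓘(ℂ, E) y ((chartAt E y).symm ξ)
      ((chartAt E y).symm ξ)) a w
    rw [h2]
    exact h1
  · intro y y' x hx hx' w
    simp only [in1_symm]
    rw [(chartAt E y).left_inv hx, (chartAt E y').left_inv hx']
    have h1 : fderiv ℂ (fun ξ => chartAt E y' ((chartAt E y).symm ξ)) (chartAt E y x) w =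
        tangentCoordChange 𝓘(ℂ, E) y y' x w := by
      rw [tangentCoordChange_def]
      simp only [mfld_simps]
      rw [fderivWithin_univ]
      rfl
    rw [h1, tangentCoordChange_comp]
    simp only [extChartAt_source]
    exact ⟨⟨hx, hx'⟩, mem_chart_source E x⟩
  · intro x w
    simp only [in1_symm]
    rw [(chartAt E x).left_inv (mem_chart_source E x), tangentCoordChange_self]
    simp only [extChartAt_source]
    exact mem_chart_source E x

end manifold

end Pool.Agent.SS
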