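import Pool.Agent.Lib_helper64.SS.Base
import Pool.Agent.Lib_helper64.SS.Notions
import Pool.Agent.Lib_helper64.SS.B.IN1

/-! IN2: the geometry of a manifold with immersive symmetric differentials -/

set_option autoImplicit false
set_option linter.unusedSectionVars false

open Filter Topology Metric Set
open scoped Manifold ContDiff

namespace Pool.Agent.SS

-- NEEDS: IN1

variable {E X : Type} [NormedAddCommGroup E] [NormedSpace ℂ E] [FiniteDimensional ℂ E]
  [TopologicalSpace X] {G : Geo E X}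
  {V : Type} [NormedAddCommGroup V] [NormedSpace ℂ V] [FiniteDimensional ℂ V]

/-! ### functions of a point and a vector -/

theorem in2_fd {f : E → E → ℂ} {ξ w : E} (hf : AnalyticAt ℂ (fun p : E × E => f p.1 p.2) (ξ, w))
    (u : E) : fderiv ℂ (f ξ) w u = fderiv ℂ (fun p : E × E => f p.1 p.2) (ξ, w) (0, u) := by
  have h1 : HasFDerivAt (fun w : E => (ξ, w)) (ContinuousLinearMap.inr ℂ E E) w :=
    hasFDerivAt_prodMk_right ξ w
  have h2 : HasFDerivAt (fun p : E × E => f p.1 p.2)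
      (fderiv ℂ (fun p : E × E => f p.1 p.2) (ξ, w)) ((fun w : E => (ξ, w)) w) :=
    hf.differentiableAt.hasFDerivAt
  have h3 : HasFDerivAt (f ξ) ((fderiv ℂ (fun p : E × E => f p.1 p.2) (ξ, w)).comp
      (ContinuousLinearMap.inr ℂ E E)) w := h2.comp w h1
  rw [h3.fderiv]
  rfl

theorem in2_diff {f : E → E → ℂ} {ξ w : E}
    (hf : AnalyticAt ℂ (fun p : E × E => f p.1 p.2) (ξ, w)) : DifferentiableAt ℂ (f ξ) w := by
  have h1 : AnalyticAt ℂ (fun w : E => (ξ, w)) w := analyticAt_const.prod analyticAt_id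
  have h2 : AnalyticAt ℂ (f ξ) w := hf.comp (f := fun w : E => (ξ, w)) h1
  exact h2.differentiableAt

theorem in2_scale {g : E → ℂ} {m : ℕ} (hg : Differentiable ℂ g)
    (hh : ∀ (a : ℂ) w, g (a • w) = a ^ m * g w) (a : ℂ) (w u : E) :
    fderiv ℂ g (a • w) (a • u) = a ^ m * fderiv ℂ g w u := by
  have h1 : HasFDerivAt (fun w : E => a • w) (a • ContinuousLinearMap.id ℂ E) w :=
    (hasFDerivAt_id w).const_smul a
  have h2 : HasFDerivAt g (fderiv ℂ g (a • w)) ((fun w : E => a • w) w) :=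
    (hg (a • w)).hasFDerivAt
  have h3 := h2.comp w h1
  have h4 : HasFDerivAt (fun w => a ^ m * g w) ((a ^ m) • fderiv ℂ g w) w :=
    (hg w).hasFDerivAt.const_mul (a ^ m)
  have h5 : (g ∘ fun w : E => a • w) = fun w => a ^ m * g w := by
    funext w
    exact hh a w
  rw [h5] at h3
  have h6 := congrArg (fun L : E →L[ℂ] ℂ => L u) (h3.unique h4)
  exact h6

/-- nonvanishing on the unit spheres implies nonvanishing -/
theorem in2_sphere {ι : Type} {F : ι → Prop} {g : ι → E → ℂ} {m : ι → ℕ}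
    (hg : ∀ i, Differentiable ℂ (g i)) (hh : ∀ i (a : ℂ) w, g i (a • w) = a ^ m i * g i w)
    (h : ∀ p ∈ sphere (0 : E) 1 ×ˢ sphere (0 : E) 1, ∃ i, F i ∧ fderiv ℂ (g i) p.1 p.2 ≠ 0)
    {w u : E} (hw : w ≠ 0) (hu : u ≠ 0) : ∃ i, F i ∧ fderiv ℂ (g i) w u ≠ 0 := by
  have hw0 : (‖w‖ : ℂ) ≠ 0 := by exact_mod_cast norm_ne_zero_iff.2 hw
  have hu0 : (‖u‖ : ℂ) ≠ 0 := by exact_mod_cast norm_ne_zero_iff.2 hu
  have hw1 : ((‖w‖ : ℂ)⁻¹ • w) ∈ sphere (0 : E) 1 := by
    rw [mem_sphere_zero_iff_norm, norm_smul, norm_inv, Complex.norm_real, norm_norm]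
    exact inv_mul_cancel₀ (norm_ne_zero_iff.2 hw)
  have hu1 : ((‖u‖ : ℂ)⁻¹ • u) ∈ sphere (0 : E) 1 := by
    rw [mem_sphere_zero_iff_norm, norm_smul, norm_inv, Complex.norm_real, norm_norm]
    exact inv_mul_cancel₀ (norm_ne_zero_iff.2 hu)
  obtain ⟨i, hi, h1⟩ := h ((‖w‖ : ℂ)⁻¹ • w, (‖u‖ : ℂ)⁻¹ • u) ⟨hw1, hu1⟩
  refine ⟨i, hi, fun h0 => h1 ?_⟩
  have h2 := in2_scale (hg i) (hh i) (‖w‖ : ℂ) ((‖w‖ : ℂ)⁻¹ • w) ((‖u‖ : ℂ)⁻¹ • u)
  rw [smul_inv_smul₀ hw0, map_smul, map_smul, h0, smul_zero, smul_zero] at h2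
  have h3 : (‖w‖ : ℂ) ^ m i ≠ 0 := pow_ne_zero _ hw0
  exact (mul_eq_zero.1 h2.symm).resolve_left h3

/-- openness -/
theorem in2_open {ι : Type} {y : X} {T : ι → E → E → ℂ} {U : Set E} (hU : IsOpen U)
    (hT : ∀ i, ∀ ξ ∈ U, ∀ w, AnalyticAt ℂ (fun p : E × E => T i p.1 p.2) (ξ, w)) {ξ₀ : E}
    (hξ₀ : ξ₀ ∈ U)
    (h : ∀ p ∈ sphere (0 : E) 1 ×ˢ sphere (0 : E) 1, ∃ i, fderiv ℂ (T i ξ₀) p.1 p.2 ≠ 0) :
    ∃ F : Finset ι, ∀ᶠ ξ in 𝓝 ξ₀, ∀ p ∈ sphere (0 : E) 1 ×ˢ sphere (0 : E) 1,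
      ∃ i, i ∈ F ∧ fderiv ℂ (T i ξ) p.1 p.2 ≠ 0 := by
  classical
  have : ProperSpace E := FiniteDimensional.proper ℂ E
  have hK : IsCompact (sphere (0 : E) 1 ×ˢ sphere (0 : E) 1) :=
    (isCompact_sphere 0 1).prod (isCompact_sphere 0 1)
  refine hK.induction_on (p := fun s => ∃ F : Finset ι, ∀ᶠ ξ in 𝓝 ξ₀, ∀ p ∈ s,
      ∃ i, i ∈ F ∧ fderiv ℂ (T i ξ) p.1 p.2 ≠ 0) ?_ ?_ ?_ ?_
  · exact ⟨∅, Eventually.of_forall fun _ p hp => absurd hp (notMem_empty p)⟩
  · rintro s t hst ⟨F, hF⟩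
    refine ⟨F, ?_⟩
    filter_upwards [hF] with ξ hξ p hp
    exact hξ p (hst hp)
  · rintro s t ⟨F, hF⟩ ⟨F', hF'⟩
    refine ⟨F ∪ F', ?_⟩
    filter_upwards [hF, hF'] with ξ hξ hξ' p hp
    rcases hp with hp | hp
    · obtain ⟨i, hi, h1⟩ := hξ p hp
      exact ⟨i, Finset.mem_union_left _ hi, h1⟩
    · obtain ⟨i, hi, h1⟩ := hξ' p hp
      exact ⟨i, Finset.mem_union_right _ hi, h1⟩
  · rintro ⟨w₀, u₀⟩ hp
    obtain ⟨i, hi⟩ := h _ hp
    have h1 : ContinuousAt (fun q : E × E × E =>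
        fderiv ℂ (fun p : E × E => T i p.1 p.2) (q.1, q.2.1) (0, q.2.2)) (ξ₀, w₀, u₀) := by
      have h2 : ContinuousAt (fderiv ℂ (fun p : E × E => T i p.1 p.2)) (ξ₀, w₀) :=
        (hT i ξ₀ hξ₀ w₀).fderiv.continuousAt
      have h3 : ContinuousAt (fun q : E × E × E => ((q.1, q.2.1) : E × E)) (ξ₀, w₀, u₀) := by
        fun_prop
      have h4 : ContinuousAt (fun q : E × E × E => ((0, q.2.2) : E × E)) (ξ₀, w₀, u₀) := by
        fun_prop
      have h5 : ContinuousAt (fun q : E × E × E =>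
          fderiv ℂ (fun p : E × E => T i p.1 p.2) (q.1, q.2.1)) (ξ₀, w₀, u₀) :=
        ContinuousAt.comp (g := fderiv ℂ (fun p : E × E => T i p.1 p.2))
          (f := fun q : E × E × E => ((q.1, q.2.1) : E × E)) h2 h3
      exact h5.clm_apply h4
    have h2 : fderiv ℂ (fun p : E × E => T i p.1 p.2) (ξ₀, w₀) (0, u₀) ≠ 0 := by
      rw [← in2_fd (hT i ξ₀ hξ₀ w₀)]
      exact hi
    have h3 := h1.eventually_ne h2
    rw [nhds_prod_eq, eventually_prod_iff] at h3
    obtain ⟨pa, ha, pb, hb, hab⟩ := h3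
    refine ⟨{p | pb p}, mem_nhdsWithin_of_mem_nhds hb, {i}, ?_⟩
    filter_upwards [ha, hU.mem_nhds hξ₀] with ξ hξ hξU p hp
    refine ⟨i, Finset.mem_singleton_self i, ?_⟩
    rw [in2_fd (hT i ξ hξU p.1)]
    exact hab hξ hp

section manifold

variable [ChartedSpace E X] [IsManifold 𝓘(ℂ, E) ω X]

theorem in2_tcc {y y' x : X} (w : E) :
    fderiv ℂ (fun ξ => chartAt E y' ((chartAt E y).symm ξ)) (chartAt E y x) w =
      tangentCoordChange 𝓘(ℂ, E) y y' x w := by
  rw [tangentCoordChange_def]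
  simp only [mfld_simps]
  rw [fderivWithin_univ]
  rfl

theorem in2_tcc_ne {y y' x : X} (hx : x ∈ (chartAt E y).source)
    (hx' : x ∈ (chartAt E y').source) {w : E} (hw : w ≠ 0) :
    fderiv ℂ (fun ξ => chartAt E y' ((chartAt E y).symm ξ)) (chartAt E y x) w ≠ 0 := by
  rw [in2_tcc]
  intro h
  have h1 : tangentCoordChange 𝓘(ℂ, E) y' y x (tangentCoordChange 𝓘(ℂ, E) y y' x w) =
      tangentCoordChange 𝓘(ℂ, E) y y x w := by
    refine tangentCoordChange_comp ?_
    simp only [extChartAt_source]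
    exact ⟨⟨hx, hx'⟩, hx⟩
  rw [h, map_zero, tangentCoordChange_self] at h1
  · exact hw h1.symm
  · simp only [extChartAt_source]
    exact hx

theorem in2_trans {y y' x : X} (hx : x ∈ (chartAt E y).source)
    (hx' : x ∈ (chartAt E y').source) :
    AnalyticAt ℂ (fun ξ => chartAt E y' ((chartAt E y).symm ξ)) (chartAt E y x) := by
  have : CompleteSpace E := FiniteDimensional.complete ℂ E
  have h1 := ModelWithCorners.contDiffWithinAt_extendCoordChange' (I := 𝓘(ℂ, E)) (n := ω)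
    (M := X) (IsManifold.chart_mem_maximalAtlas y) (IsManifold.chart_mem_maximalAtlas y') hx hx'
  have h2 := contDiffWithinAt_omega_iff_analyticWithinAt.1 h1
  simp only [mfld_simps] at h2
  rw [analyticWithinAt_univ] at h2
  exact h2

/-- the index set of all symmetric differentials of positive degree -/
def In2I (E X : Type) [NormedAddCommGroup E] [NormedSpace ℂ E] [TopologicalSpace X]
    [ChartedSpace E X] [IsManifold 𝓘(ℂ, E) ω X] : Type :=
  {p : ℕ × (TangentBundle 𝓘(ℂ, E) X → ℂ) // 0 < p.1 ∧ IsSymDiff E X p.1 p.2}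

/-- IN2: the geometry of a manifold with immersive symmetric differentials -/
theorem exists_geo [CompactSpace X] (h : Immersive E X) :
    ∃ G : Geo E X, ∀ y, G.ch y = chartAt E y := by
  classical
  choose T hol homog compat self using
    fun i : In2I E X => symDiff_chart (E := E) (X := X) i.2.2
  have hdiff : ∀ (i : In2I E X) y, ∀ ξ ∈ (chartAt E y).target, Differentiable ℂ (T i y ξ) :=
    fun i y ξ hξ w => in2_diff (hol i y ξ hξ w)
  -- the property for a finite set of forms at a point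
  let Good : Finset (In2I E X) → X → Prop := fun F x => ∀ y, x ∈ (chartAt E y).source →
    ∀ w u : E, w ≠ 0 → u ≠ 0 → ∃ i, i ∈ F ∧ fderiv ℂ (T i y (chartAt E y x)) w u ≠ 0
  -- transfer from one chart
  have transfer : ∀ (F : Finset (In2I E X)) (x y' : X), x ∈ (chartAt E y').source →
      (∀ w u : E, w ≠ 0 → u ≠ 0 → ∃ i, i ∈ F ∧
        fderiv ℂ (T i y' (chartAt E y' x)) w u ≠ 0) → Good F x := by
    intro F x y' hx' hF y hx w u hw hu
    set A : E →L[ℂ] E := fderiv ℂ (fun ξ => chartAt E y' ((chartAt E y).symm ξ)) (chartAt E y x)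
      with hA
    obtain ⟨i, hi, h1⟩ := hF (A w) (A u) (in2_tcc_ne hx hx' hw) (in2_tcc_ne hx hx' hu)
    refine ⟨i, hi, ?_⟩
    have h2 : T i y (chartAt E y x) = fun w => T i y' (chartAt E y' x) (A w) :=
      funext fun w => compat i y y' x hx hx' w
    have h3 : HasFDerivAt (T i y' (chartAt E y' x))
        (fderiv ℂ (T i y' (chartAt E y' x)) (A w)) (A w) :=
      (hdiff i y' _ ((chartAt E y').map_source hx') (A w)).hasFDerivAt
    have h4 : HasFDerivAt (fun w => T i y' (chartAt E y' x) (A w))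
        ((fderiv ℂ (T i y' (chartAt E y' x)) (A w)).comp A) w := h3.comp w A.hasFDerivAt
    rw [h2, h4.fderiv]
    exact h1
  -- the forms separate at every point
  have hpt : ∀ x : X, ∀ w u : E, w ≠ 0 → u ≠ 0 → ∃ i : In2I E X,
      fderiv ℂ (T i x (chartAt E x x)) w u ≠ 0 := by
    intro x w u hw hu
    by_contra hcon
    push Not at hcon
    refine hu (h x w hw u fun m σ hσ => ?_)
    rcases Nat.eq_zero_or_pos m with rfl | hm
    · obtain ⟨P, hP⟩ := hσ.fib x
      have h1 : (fun w : E => σ ⟨x, w⟩) = fun _ => P (fun _ => 0) := by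
        funext v
        exact (hP v).trans (congrArg P (Subsingleton.elim _ _))
      rw [h1]
      simp
    · have h1 : (fun w : E => σ ⟨x, w⟩) = T ⟨(m, σ), hm, hσ⟩ x (chartAt E x x) :=
        funext fun v => (self ⟨(m, σ), hm, hσ⟩ x v).symm
      rw [h1]
      exact hcon _
  -- finitely many forms suffice
  obtain ⟨F, hF⟩ : ∃ F : Finset (In2I E X), ∀ x ∈ (univ : Set X), Good F x := by
    refine isCompact_univ.induction_on (p := fun s => ∃ F : Finset (In2I E X), ∀ x ∈ s,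
      Good F x) ?_ ?_ ?_ ?_
    · exact ⟨∅, fun x hx => absurd hx (notMem_empty x)⟩
    · rintro s t hst ⟨F, hF⟩
      exact ⟨F, fun x hx => hF x (hst hx)⟩
    · rintro s t ⟨F, hF⟩ ⟨F', hF'⟩
      refine ⟨F ∪ F', fun x hx y hy w u hw hu => ?_⟩
      rcases hx with hx | hx
      · obtain ⟨i, hi, h1⟩ := hF x hx y hy w u hw hu
        exact ⟨i, Finset.mem_union_left _ hi, h1⟩
      · obtain ⟨i, hi, h1⟩ := hF' x hx y hy w u hw hu
        exact ⟨i, Finset.mem_union_right _ hi, h1⟩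
    · intro x _
      have hx := mem_chart_source E x
      obtain ⟨F, hF⟩ := in2_open (y := x) (T := fun i => T i x) (chartAt E x).open_target
        (fun i ξ hξ w => hol i x ξ hξ w) ((chartAt E x).map_source hx)
        (fun p hp => hpt x p.1 p.2 (ne_of_mem_sphere hp.1 one_ne_zero)
          (ne_of_mem_sphere hp.2 one_ne_zero))
      have h1 := ((chartAt E x).continuousAt hx).eventually hF
      have h2 := (chartAt E x).open_source.mem_nhds hx
      refine ⟨_, mem_nhdsWithin_of_mem_nhds (inter_mem h1 h2), F, ?_⟩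
      rintro x' ⟨hx1, hx2⟩
      refine transfer F x' x hx2 fun w u hw hu => ?_
      exact in2_sphere (F := fun i => i ∈ F) (g := fun i => T i x (chartAt E x x'))
        (m := fun i => i.1.1) (fun i => hdiff i x _ ((chartAt E x).map_source hx2))
        (fun i a w => homog i x _ ((chartAt E x).map_source hx2) a w) hx1 hw hu
  -- the geometry
  refine ⟨{ ch := fun y => chartAt E y
            L := F.card
            deg := fun k => (F.equivFin.symm k).1.1.1
            S := fun y k => T (F.equivFin.symm k).1 y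
            mem := fun y => mem_chart_source E y
            trans := fun y y' x hx hx' => in2_trans hx hx'
            deg_pos := fun k => (F.equivFin.symm k).1.2.1
            hol := fun y k ξ hξ w => hol _ y ξ hξ w
            homog := fun y k ξ hξ a w => homog _ y ξ hξ a w
            inj := ?_
            compat := fun y y' x hx hx' k w => compat _ y y' x hx hx' w }, fun y => rfl⟩
  intro y ξ hξ w hw u hall
  by_contra hu
  have hs : (chartAt E y).symm ξ ∈ (chartAt E y).source := (chartAt E y).map_target hξ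
  obtain ⟨i, hi, h1⟩ := hF ((chartAt E y).symm ξ) (mem_univ _) y hs w u hw hu
  rw [(chartAt E y).right_inv hξ] at h1
  refine h1 ?_
  have h2 := hall (F.equivFin ⟨i, hi⟩)
  rw [Equiv.symm_apply_apply] at h2
  exact h2

end manifold

end Pool.Agent.SS
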