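import Pool.Agent.Lib_helper64.SS.Base
import Pool.Agent.Lib_helper64.SS.Notions
import Pool.Agent.Lib_helper64.SS.B.OSG

set_option autoImplicit false
set_option linter.unusedSectionVars false

open Filter Topology Metric Set
open scoped Manifold ContDiff

namespace Pool.Agent.SS

variable {E X : Type} [NormedAddCommGroup E] [NormedSpace ℂ E] [FiniteDimensional ℂ E]
  [TopologicalSpace X] {G : Geo E X}
  {V : Type} [NormedAddCommGroup V] [NormedSpace ℂ V] [FiniteDimensional ℂ V]

-- NEEDS: OSG

section manifold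

variable [ChartedSpace E X] [IsManifold 𝓘(ℂ, E) ω X]

/-- a map differentiable on an open set is analytic -/
theorem hol_analytic {Y Y' : Type} [NormedAddCommGroup Y] [NormedSpace ℂ Y]
    [FiniteDimensional ℂ Y] [NormedAddCommGroup Y'] [NormedSpace ℂ Y'] [CompleteSpace Y']
    {f : Y → Y'} {U : Set Y} (hU : IsOpen U) (hf : ∀ x ∈ U, DifferentiableAt ℂ f x) {x : Y}
    (hx : x ∈ U) : AnalyticAt ℂ f x := by
  refine osgood hU (fun x hx => (hf x hx).continuousAt.continuousWithinAt) ?_ x hx
  intro x hx v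
  have h1 : DifferentiableAt ℂ (fun z : ℂ => x + z • v) 0 := by fun_prop
  have h2 : DifferentiableAt ℂ f ((fun z : ℂ => x + z • v) 0) := by
    simpa using hf x hx
  exact h2.comp (0 : ℂ) h1

/-- HOL: holomorphic maps -/
theorem holAt_iff (G : Geo E X) (hG : ∀ y, G.ch y = chartAt E y) (F : V → X) :
    MDifferentiable 𝓘(ℂ, V) 𝓘(ℂ, E) F ↔ ∀ t, G.HolAt F t := by
  haveI : IsManifold 𝓘(ℂ, E) 1 X := IsManifold.of_le (n := ω) le_top
  constructor
  · intro h t
    refine ⟨(h t).continuousAt, fun y hy => ?_⟩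
    have hFc : Continuous F := h.continuous
    have hU : IsOpen (F ⁻¹' (G.ch y).source) := (G.ch y).open_source.preimage hFc
    refine hol_analytic hU ?_ hy
    intro s hs
    have hs' : F s ∈ (chartAt E y).source := by rw [← hG y]; exact hs
    have h1 : MDifferentiableAt 𝓘(ℂ, E) 𝓘(ℂ, E) (chartAt E y) (F s) :=
      mdifferentiableAt_atlas (I := 𝓘(ℂ, E)) (chart_mem_atlas E y) hs'
    have h2 : MDifferentiableAt 𝓘(ℂ, V) 𝓘(ℂ, E) (chartAt E y ∘ F) s := h1.comp s (h s)
    rw [mdifferentiableAt_iff_differentiableAt] at h2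
    have h3 : G.loc y F = chartAt E y ∘ F := by
      funext r
      rw [Geo.loc, hG y]
      rfl
    rw [h3]
    exact h2
  · intro h t
    rw [mdifferentiableAt_iff]
    refine ⟨(h t).1, ?_⟩
    have hy : F t ∈ (G.ch (F t)).source := G.mem _
    have h1 := ((h t).2 (F t) hy).differentiableAt
    have h3 : writtenInExtChartAt 𝓘(ℂ, V) 𝓘(ℂ, E) t F = G.loc (F t) F := by
      funext r
      rw [Geo.loc, hG (F t)]
      simp [writtenInExtChartAt, extChartAt, chartAt_self_eq]
    rw [h3]
    simpa [chartAt_self_eq] using h1.differentiableWithinAt (s := univ)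

end manifold

end Pool.Agent.SS
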