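import Pool.Agent.Lib_helper64.SS.Base
import Pool.Agent.Lib_helper64.SS.Notions

-- NEEDS:
-- block BND (helper75)

set_option autoImplicit false
set_option linter.unusedSectionVars false

open Filter Topology Metric Set
open scoped Manifold ContDiff

namespace Pool.Agent.SS

variable {E X : Type} [NormedAddCommGroup E] [NormedSpace ℂ E] [FiniteDimensional ℂ E]
  [TopologicalSpace X] {G : Geo E X}

theorem bnd_sphere {y : X} {ξ₀ : E} (hξ : ξ₀ ∈ (G.ch y).target) :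
    ∃ m > 0, ∀ᶠ ξ in 𝓝 ξ₀, ∀ w ∈ sphere (0 : E) 1, ∃ i, m ≤ ‖G.S y i ξ w‖ := by
  haveI : ProperSpace E := FiniteDimensional.proper ℂ E
  have hc : IsCompact (sphere (0 : E) 1) := isCompact_sphere 0 1
  refine hc.induction_on (p := fun s => ∃ m > 0, ∀ᶠ ξ in 𝓝 ξ₀, ∀ w ∈ s, ∃ i, m ≤ ‖G.S y i ξ w‖)
    ?_ ?_ ?_ ?_
  · exact ⟨1, one_pos, Eventually.of_forall fun ξ w hw => absurd hw (notMem_empty w)⟩
  · rintro s t hst ⟨m, hm, h⟩
    exact ⟨m, hm, h.mono fun ξ hξ w hw => hξ w (hst hw)⟩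
  · rintro s t ⟨m, hm, h⟩ ⟨m', hm', h'⟩
    refine ⟨min m m', lt_min hm hm', ?_⟩
    filter_upwards [h, h'] with ξ h1 h2 w hw
    rcases hw with hw | hw
    · obtain ⟨i, hi⟩ := h1 w hw
      exact ⟨i, (min_le_left _ _).trans hi⟩
    · obtain ⟨i, hi⟩ := h2 w hw
      exact ⟨i, (min_le_right _ _).trans hi⟩
  · intro w hw
    have hw0 : w ≠ 0 := by
      rintro rfl
      simp at hw
    have h1 : ∃ i, G.S y i ξ₀ w ≠ 0 := by
      by_contra h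
      push Not at h
      exact hw0 (G.S_eq_zero hξ h)
    obtain ⟨i, hi⟩ := h1
    have h2 : ContinuousAt (fun p : E × E => ‖G.S y i p.1 p.2‖) (ξ₀, w) :=
      (G.hol y i ξ₀ hξ w).continuousAt.norm
    have h3 : ‖G.S y i ξ₀ w‖ / 2 < ‖G.S y i ξ₀ w‖ := by
      have : 0 < ‖G.S y i ξ₀ w‖ := norm_pos_iff.2 hi
      linarith
    have h4 : ∀ᶠ p : E × E in 𝓝 (ξ₀, w), ‖G.S y i ξ₀ w‖ / 2 < ‖G.S y i p.1 p.2‖ :=
      h2.eventually (lt_mem_nhds h3)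
    rw [nhds_prod_eq, eventually_prod_iff] at h4
    obtain ⟨pa, hpa, pb, hpb, h5⟩ := h4
    refine ⟨{w' | pb w'}, mem_nhdsWithin_of_mem_nhds hpb, ‖G.S y i ξ₀ w‖ / 2, ?_, ?_⟩
    · have : 0 < ‖G.S y i ξ₀ w‖ := norm_pos_iff.2 hi
      linarith
    · filter_upwards [hpa] with ξ h6 w' hw'
      exact ⟨i, (h5 h6 hw').le⟩

/-- BND: bounds for vectors in terms of the values of the forms -/
theorem vec_bound {y : X} {ξ₀ : E} (hξ : ξ₀ ∈ (G.ch y).target) :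
    ∃ C > 0, ∀ᶠ ξ in 𝓝 ξ₀, ∀ (w : E) (M : ℝ), 0 ≤ M → (∀ i, ‖G.S y i ξ w‖ ≤ M ^ G.deg i) →
      ‖w‖ ≤ C * M := by
  obtain ⟨m0, hm0, h0⟩ := bnd_sphere (G := G) hξ
  obtain ⟨m, hm⟩ : ∃ m : ℝ, m = min m0 1 := ⟨_, rfl⟩
  have hmpos : 0 < m := by rw [hm]; exact lt_min hm0 one_pos
  have hm1 : m ≤ 1 := by rw [hm]; exact min_le_right _ _
  have hmm0 : m ≤ m0 := by rw [hm]; exact min_le_left _ _
  refine ⟨m⁻¹, inv_pos.2 hmpos, ?_⟩
  filter_upwards [h0, G.target_mem hξ] with ξ h1 h2 w M hM hS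
  by_cases hw : w = 0
  · rw [hw, norm_zero]
    positivity
  · have hr : 0 < ‖w‖ := norm_pos_iff.2 hw
    obtain ⟨w', hw'⟩ : ∃ w', w' = ((‖w‖⁻¹ : ℝ) : ℂ) • w := ⟨_, rfl⟩
    have hn : w' ∈ sphere (0 : E) 1 := by
      rw [mem_sphere_zero_iff_norm, hw', norm_smul, Complex.norm_real, Real.norm_eq_abs,
        abs_of_pos (inv_pos.2 hr), inv_mul_cancel₀ hr.ne']
    obtain ⟨i, hi⟩ := h1 w' hn
    have h3 : w = ((‖w‖ : ℝ) : ℂ) • w' := by
      rw [hw', smul_smul, ← Complex.ofReal_mul, mul_inv_cancel₀ hr.ne', Complex.ofReal_one,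
        one_smul]
    have h4 : ‖G.S y i ξ w‖ = ‖w‖ ^ G.deg i * ‖G.S y i ξ w'‖ := by
      conv_lhs => rw [h3]
      rw [G.homog y i ξ h2, norm_mul, norm_pow, Complex.norm_real, Real.norm_eq_abs,
        abs_of_pos hr]
    have h5 : (m * ‖w‖) ^ G.deg i ≤ M ^ G.deg i := by
      calc (m * ‖w‖) ^ G.deg i = m ^ G.deg i * ‖w‖ ^ G.deg i := mul_pow _ _ _
        _ ≤ m * ‖w‖ ^ G.deg i := by
            apply mul_le_mul_of_nonneg_right _ (pow_nonneg hr.le _)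
            calc m ^ G.deg i ≤ m ^ 1 := pow_le_pow_of_le_one hmpos.le hm1 (G.deg_pos i)
              _ = m := pow_one m
        _ ≤ ‖G.S y i ξ w'‖ * ‖w‖ ^ G.deg i :=
            mul_le_mul_of_nonneg_right (hmm0.trans hi) (pow_nonneg hr.le _)
        _ = ‖G.S y i ξ w‖ := by rw [h4, mul_comm]
        _ ≤ M ^ G.deg i := hS i
    have h6 : m * ‖w‖ ≤ M :=
      (pow_le_pow_iff_left₀ (by positivity) hM (G.deg_pos i).ne').1 h5
    rw [inv_mul_eq_div, le_div_iff₀ hmpos, mul_comm]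
    exact h6

end Pool.Agent.SS
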