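import Pool.Agent.Lib_helper64.SS.Base
import Pool.Agent.Lib_helper64.SS.Notions
import Pool.Agent.Lib_helper64.SS.B.BND

-- NEEDS: BND
-- block LMB (helper75)

set_option autoImplicit false
set_option linter.unusedSectionVars false

open Filter Topology Metric Set
open scoped Manifold ContDiff

namespace Pool.Agent.SS

variable {E X : Type} [NormedAddCommGroup E] [NormedSpace ℂ E] [FiniteDimensional ℂ E]
  [TopologicalSpace X] {G : Geo E X}

/-- a curve with bounded velocity in a chart stays in the chart -/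
theorem lmb_curve [T2Space X] (e : OpenPartialHomeomorph X E) (h : ℝ → X)
    (hh : ∀ τ ∈ Icc (0 : ℝ) 1, ContinuousAt h τ) {ξ₀ : E} {ρ L : ℝ} (hL : 0 ≤ L)
    (hρ : closedBall ξ₀ ρ ⊆ e.target) (h0 : h 0 ∈ e.source) (h1 : ‖e (h 0) - ξ₀‖ + L < ρ)
    (hd : ∀ τ ∈ Icc (0 : ℝ) 1, h τ ∈ e.source → ‖e (h τ) - ξ₀‖ ≤ ρ →
      ∃ z' : E, HasDerivAt (fun σ => e (h σ)) z' τ ∧ ‖z'‖ ≤ L) :
    ∀ τ ∈ Icc (0 : ℝ) 1, h τ ∈ e.source ∧ ‖e (h τ) - e (h 0)‖ ≤ L * τ := by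
  haveI : ProperSpace E := FiniteDimensional.proper ℂ E
  obtain ⟨ξ₁, hξ₁⟩ : ∃ ξ₁, ξ₁ = e (h 0) := ⟨_, rfl⟩
  obtain ⟨s, hs⟩ : ∃ s : Set ℝ, s = {τ | h τ ∈ e.source ∧ ‖e (h τ) - ξ₁‖ ≤ L * τ} := ⟨_, rfl⟩
  have hball : closedBall ξ₁ L ⊆ e.target := by
    intro z hz
    apply hρ
    rw [mem_closedBall_iff_norm] at hz ⊢
    rw [← hξ₁] at h1
    calc ‖z - ξ₀‖ = ‖(z - ξ₁) + (ξ₁ - ξ₀)‖ := by congr 1; abel
      _ ≤ ‖z - ξ₁‖ + ‖ξ₁ - ξ₀‖ := norm_add_le _ _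
      _ ≤ ρ := by linarith
  have hclosed : IsClosed (s ∩ Icc 0 1) := by
    obtain ⟨T, hT⟩ : ∃ T : Set (ℝ × E), T = {p | p.1 ∈ Icc (0 : ℝ) 1 ∧ p.2 ∈ closedBall ξ₁ L ∧
      ‖p.2 - ξ₁‖ ≤ L * p.1 ∧ h p.1 = e.symm p.2} := ⟨_, rfl⟩
    have hTc : IsCompact T := by
      have hK : IsCompact (Icc (0 : ℝ) 1 ×ˢ closedBall ξ₁ L) :=
        isCompact_Icc.prod (isCompact_closedBall _ _)
      apply hK.of_isClosed_subset
      · have e1 : T = (Icc (0 : ℝ) 1 ×ˢ closedBall ξ₁ L) ∩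
            {p | ‖p.2 - ξ₁‖ ≤ L * p.1} ∩ ((Icc (0 : ℝ) 1 ×ˢ closedBall ξ₁ L) ∩
              (fun p : ℝ × E => (h p.1, e.symm p.2)) ⁻¹' diagonal X) := by
          ext p
          rw [hT]
          simp only [mem_setOf_eq, mem_inter_iff, mem_prod, mem_preimage, mem_diagonal_iff]
          tauto
        rw [e1]
        apply IsClosed.inter
        · apply IsClosed.inter hK.isClosed
          exact isClosed_le (by fun_prop) (by fun_prop)
        · apply ContinuousOn.preimage_isClosed_of_isClosed _ hK.isClosed isClosed_diagonal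
          intro p hp
          apply ContinuousAt.continuousWithinAt
          apply ContinuousAt.prodMk
          · exact (hh p.1 hp.1).comp (f := fun p : ℝ × E => p.1) continuousAt_fst
          · exact (e.continuousAt_symm (hball hp.2)).comp (f := fun p : ℝ × E => p.2)
              continuousAt_snd
      · intro p hp
        rw [hT] at hp
        exact ⟨hp.1, hp.2.1⟩
    have hproj : s ∩ Icc 0 1 = Prod.fst '' T := by
      ext τ
      constructor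
      · rintro ⟨hτ1, hτ2⟩
        rw [hs] at hτ1
        refine ⟨(τ, e (h τ)), ?_, rfl⟩
        rw [hT]
        refine ⟨hτ2, ?_, hτ1.2, (e.left_inv hτ1.1).symm⟩
        rw [mem_closedBall_iff_norm]
        refine hτ1.2.trans ?_
        calc L * τ ≤ L * 1 := mul_le_mul_of_nonneg_left hτ2.2 hL
          _ = L := mul_one L
      · rintro ⟨p, hp, rfl⟩
        rw [hT] at hp
        obtain ⟨hp1, hp2, hp3, hp4⟩ := hp
        refine ⟨?_, hp1⟩
        rw [hs]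
        have h5 : e (h p.1) = p.2 := by rw [hp4, e.right_inv (hball hp2)]
        refine ⟨?_, ?_⟩
        · rw [hp4]
          exact e.map_target (hball hp2)
        · rw [h5]
          exact hp3
    rw [hproj]
    exact (hTc.image continuous_fst).isClosed
  have h0s : (0 : ℝ) ∈ s := by
    rw [hs]
    refine ⟨h0, ?_⟩
    rw [hξ₁, sub_self, norm_zero, mul_zero]
  have hext : ∀ x ∈ s ∩ Ico 0 1, ∀ y ∈ Ioi x, (s ∩ Ioc x y).Nonempty := by
    rintro τ ⟨hτ, hτ01⟩ y hy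
    rw [hs] at hτ
    -- near τ the curve is in the chart and close to ξ₀
    have hτI : τ ∈ Icc (0 : ℝ) 1 := ⟨hτ01.1, hτ01.2.le⟩
    have hcτ : ContinuousAt (fun σ => e (h σ)) τ :=
      (e.continuousAt hτ.1).comp (hh τ hτI)
    have hnear : ∀ᶠ σ in 𝓝 τ, h σ ∈ e.source ∧ ‖e (h σ) - ξ₀‖ < ρ := by
      have h2 : ‖e (h τ) - ξ₀‖ < ρ := by
        rw [← hξ₁] at h1
        calc ‖e (h τ) - ξ₀‖ = ‖(e (h τ) - ξ₁) + (ξ₁ - ξ₀)‖ := by congr 1; abel
          _ ≤ ‖e (h τ) - ξ₁‖ + ‖ξ₁ - ξ₀‖ := norm_add_le _ _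
          _ ≤ L * τ + ‖ξ₁ - ξ₀‖ := by linarith [hτ.2]
          _ ≤ L * 1 + ‖ξ₁ - ξ₀‖ := by
              have := mul_le_mul_of_nonneg_left hτI.2 hL
              linarith
          _ < ρ := by linarith
      have h3 : ContinuousAt (fun σ => ‖e (h σ) - ξ₀‖) τ := (hcτ.sub continuousAt_const).norm
      exact ((hh τ hτI).eventually (e.open_source.mem_nhds hτ.1)).and
        (h3.eventually (gt_mem_nhds h2))
    rw [Metric.eventually_nhds_iff] at hnear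
    obtain ⟨r, hr, hnear⟩ := hnear
    obtain ⟨τ', hτ'⟩ : ∃ τ', τ' = min (min y 1) (τ + r / 2) := ⟨_, rfl⟩
    have hτ'1 : τ < τ' := by
      rw [hτ']
      exact lt_min (lt_min hy hτ01.2) (by linarith)
    have hτ'2 : τ' ≤ y := by rw [hτ']; exact (min_le_left _ _).trans (min_le_left _ _)
    have hτ'3 : τ' ≤ 1 := by rw [hτ']; exact (min_le_left _ _).trans (min_le_right _ _)
    have hτ'4 : τ' ≤ τ + r / 2 := by rw [hτ']; exact min_le_right _ _
    have hin : ∀ σ ∈ Icc τ τ', h σ ∈ e.source ∧ ‖e (h σ) - ξ₀‖ < ρ := by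
      intro σ hσ
      apply hnear
      rw [Real.dist_eq, abs_lt]
      constructor
      · linarith [hσ.1]
      · linarith [hσ.2]
    have hmv : ‖e (h τ') - e (h τ)‖ ≤ L * (τ' - τ) := by
      have hder : ∀ σ ∈ Icc τ τ', ∃ z' : E,
          HasDerivAt (fun σ => e (h σ)) z' σ ∧ ‖z'‖ ≤ L := by
        intro σ hσ
        exact hd σ ⟨hτ01.1.trans hσ.1, hσ.2.trans hτ'3⟩ (hin σ hσ).1 (hin σ hσ).2.le
      choose! z' hz1 hz2 using hder
      have := norm_image_sub_le_of_norm_deriv_le_segment' (f := fun σ => e (h σ)) (f' := z')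
        (a := τ) (b := τ') (C := L) (fun σ hσ => (hz1 σ hσ).hasDerivWithinAt)
        (fun σ hσ => hz2 σ ⟨hσ.1, hσ.2.le⟩) τ' ⟨hτ'1.le, le_rfl⟩
      exact this
    refine ⟨τ', ?_, hτ'1, hτ'2⟩
    rw [hs]
    refine ⟨(hin τ' ⟨hτ'1.le, le_rfl⟩).1, ?_⟩
    calc ‖e (h τ') - ξ₁‖ = ‖(e (h τ') - e (h τ)) + (e (h τ) - ξ₁)‖ := by congr 1; abel
      _ ≤ ‖e (h τ') - e (h τ)‖ + ‖e (h τ) - ξ₁‖ := norm_add_le _ _
      _ ≤ L * (τ' - τ) + L * τ := add_le_add hmv hτ.2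
      _ = L * τ' := by ring
  have hfin := hclosed.Icc_subset_of_forall_exists_gt h0s hext
  intro τ hτ
  have := hfin hτ
  rw [hs, hξ₁] at this
  exact this

/-- local control of the maps -/
theorem lmb_local [T2Space X] {ι : Type} (U : Filter ι)
    (f : ι → ℂ → X) (M : ℝ) (hM : 0 ≤ M)
    (hf : ∀ R : ℝ, ∀ᶠ n in U, ∀ t ∈ ball (0 : ℂ) R, G.HolAt (f n) t ∧
      ∀ y, f n t ∈ (G.ch y).source → ∀ i,
        ‖G.S y i (G.ch y (f n t)) (fderiv ℂ (G.loc y (f n)) t 1)‖ ≤ M ^ G.deg i)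
    (t₀ : ℂ) (y : X) (x₀ : X) (hx₀ : x₀ ∈ (G.ch y).source)
    (hlim : Tendsto (fun n => f n t₀) U (𝓝 x₀)) :
    ∃ δ > 0, ∃ ρ > 0, ∃ B ≥ 0, closedBall (G.ch y x₀) ρ ⊆ (G.ch y).target ∧
      ∀ᶠ n in U, ∀ t ∈ ball t₀ δ, f n t ∈ (G.ch y).source ∧
        G.loc y (f n) t ∈ closedBall (G.ch y x₀) ρ ∧ AnalyticAt ℂ (G.loc y (f n)) t ∧
        ‖deriv (G.loc y (f n)) t‖ ≤ B := by
  obtain ⟨ξ₀, hξ₀⟩ : ∃ ξ₀, ξ₀ = G.ch y x₀ := ⟨_, rfl⟩
  have hξt : ξ₀ ∈ (G.ch y).target := by rw [hξ₀]; exact (G.ch y).map_source hx₀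
  obtain ⟨C, hC, h1⟩ := vec_bound (G := G) hξt
  have h2 : ∀ᶠ ξ in 𝓝 ξ₀, ξ ∈ (G.ch y).target ∧ ∀ (w : E) (M : ℝ), 0 ≤ M →
      (∀ i, ‖G.S y i ξ w‖ ≤ M ^ G.deg i) → ‖w‖ ≤ C * M := by
    filter_upwards [G.target_mem hξt, h1] with ξ h3 h4
    exact ⟨h3, h4⟩
  obtain ⟨ρ, hρ, hρ2⟩ := Metric.nhds_basis_closedBall.mem_iff.mp h2
  have hCM : 0 ≤ C * M := mul_nonneg hC.le hM
  obtain ⟨δ, hδ⟩ : ∃ δ : ℝ, δ = min 1 (ρ / (4 * (C * M + 1))) := ⟨_, rfl⟩
  have hδ0 : 0 < δ := by rw [hδ]; exact lt_min one_pos (by positivity)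
  have hδ1 : δ ≤ 1 := by rw [hδ]; exact min_le_left _ _
  have hδ2 : δ ≤ ρ / (4 * (C * M + 1)) := by rw [hδ]; exact min_le_right _ _
  have hL : C * M * δ ≤ ρ / 4 := by
    have h3 : (C * M + 1) * δ ≤ ρ / 4 := by
      calc (C * M + 1) * δ ≤ (C * M + 1) * (ρ / (4 * (C * M + 1))) :=
            mul_le_mul_of_nonneg_left hδ2 (by positivity)
        _ = ρ / 4 := by field_simp
    nlinarith
  rw [← hξ₀]
  refine ⟨δ, hδ0, ρ, hρ, C * M, hCM, fun ξ hξ => (hρ2 hξ).1, ?_⟩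
  have hsrc : ∀ᶠ n in U, f n t₀ ∈ (G.ch y).source :=
    hlim.eventually ((G.ch y).open_source.mem_nhds hx₀)
  have hch : Tendsto (fun n => G.ch y (f n t₀)) U (𝓝 ξ₀) := by
    rw [hξ₀]
    exact ((G.ch y).continuousAt hx₀).tendsto.comp hlim
  have hnear : ∀ᶠ n in U, ‖G.ch y (f n t₀) - ξ₀‖ < ρ / 2 := by
    have h3 := hch.eventually (ball_mem_nhds ξ₀ (half_pos hρ))
    filter_upwards [h3] with n h4
    rwa [dist_eq_norm] at h4
  filter_upwards [hf (‖t₀‖ + 2), hsrc, hnear] with n hn1 hn2 hn3 t ht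
  have hdist : ‖t - t₀‖ < δ := by rwa [mem_ball_iff_norm] at ht
  have hp : ∀ τ ∈ Icc (0 : ℝ) 1, t₀ + (τ : ℂ) * (t - t₀) ∈ ball (0 : ℂ) (‖t₀‖ + 2) := by
    intro τ hτ
    rw [mem_ball_zero_iff]
    calc ‖t₀ + (τ : ℂ) * (t - t₀)‖ ≤ ‖t₀‖ + ‖(τ : ℂ) * (t - t₀)‖ := norm_add_le _ _
      _ = ‖t₀‖ + |τ| * ‖t - t₀‖ := by rw [norm_mul, Complex.norm_real, Real.norm_eq_abs]
      _ ≤ ‖t₀‖ + 1 * ‖t - t₀‖ := by
          have h4 : |τ| ≤ 1 := by rw [abs_le]; constructor <;> linarith [hτ.1, hτ.2]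
          have := mul_le_mul_of_nonneg_right h4 (norm_nonneg (t - t₀))
          linarith
      _ < ‖t₀‖ + 2 := by linarith
  have haff : ∀ τ : ℝ, HasDerivAt (fun σ : ℝ => t₀ + (σ : ℂ) * (t - t₀)) (t - t₀) τ := by
    intro τ
    have h4 : HasDerivAt (fun σ : ℝ => (σ : ℂ)) 1 τ := Complex.ofRealCLM.hasDerivAt
    have h5 := (h4.mul_const (t - t₀)).const_add t₀
    rwa [one_mul] at h5
  have hbound : ∀ s ∈ ball (0 : ℂ) (‖t₀‖ + 2), f n s ∈ (G.ch y).source →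
      ‖G.ch y (f n s) - ξ₀‖ ≤ ρ → ‖fderiv ℂ (G.loc y (f n)) s 1‖ ≤ C * M := by
    intro s hs hs1 hs2
    have h4 : G.ch y (f n s) ∈ closedBall ξ₀ ρ := by rwa [mem_closedBall_iff_norm]
    exact (hρ2 h4).2 _ M hM ((hn1 s hs).2 y hs1)
  have hcurve := lmb_curve (G.ch y) (fun τ : ℝ => f n (t₀ + (τ : ℂ) * (t - t₀)))
    (ξ₀ := ξ₀) (ρ := ρ) (L := C * M * δ)
    (fun τ hτ => by
      have h4 : ContinuousAt (f n) ((fun σ : ℝ => t₀ + (σ : ℂ) * (t - t₀)) τ) :=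
        (hn1 _ (hp τ hτ)).1.1
      exact h4.comp (f := fun σ : ℝ => t₀ + (σ : ℂ) * (t - t₀)) (haff τ).continuousAt)
    (mul_nonneg hCM hδ0.le) (fun ξ hξ => (hρ2 hξ).1)
    (by simpa using hn2)
    (by
      have h4 : (t₀ + ((0 : ℝ) : ℂ) * (t - t₀)) = t₀ := by simp
      rw [h4]
      linarith)
    (fun τ hτ hs1 hs2 => by
      refine ⟨fderiv ℂ (G.loc y (f n)) (t₀ + (τ : ℂ) * (t - t₀)) (t - t₀), ?_, ?_⟩
      · have h4 : HasFDerivAt (G.loc y (f n))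
            (fderiv ℂ (G.loc y (f n)) (t₀ + (τ : ℂ) * (t - t₀))) (t₀ + (τ : ℂ) * (t - t₀)) :=
          ((hn1 _ (hp τ hτ)).1.2 y hs1).differentiableAt.hasFDerivAt
        have h5 := (h4.restrictScalars ℝ).comp_hasDerivAt τ (haff τ)
        exact h5
      · have h4 : fderiv ℂ (G.loc y (f n)) (t₀ + (τ : ℂ) * (t - t₀)) (t - t₀) =
            (t - t₀) • fderiv ℂ (G.loc y (f n)) (t₀ + (τ : ℂ) * (t - t₀)) 1 := by
          rw [← map_smul, smul_eq_mul, mul_one]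
        rw [h4, norm_smul, mul_comm]
        exact mul_le_mul (hbound _ (hp τ hτ) hs1 hs2) hdist.le (norm_nonneg _) hCM)
    1 ⟨zero_le_one, le_rfl⟩
  have e1 : t₀ + ((1 : ℝ) : ℂ) * (t - t₀) = t := by push_cast; ring
  have e0 : t₀ + ((0 : ℝ) : ℂ) * (t - t₀) = t₀ := by simp
  simp only [e1, e0] at hcurve
  have htR : t ∈ ball (0 : ℂ) (‖t₀‖ + 2) := by
    have := hp 1 ⟨zero_le_one, le_rfl⟩
    rwa [e1] at this
  have hin : ‖G.ch y (f n t) - ξ₀‖ ≤ ρ := by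
    calc ‖G.ch y (f n t) - ξ₀‖ =
        ‖(G.ch y (f n t) - G.ch y (f n t₀)) + (G.ch y (f n t₀) - ξ₀)‖ := by congr 1; abel
      _ ≤ ‖G.ch y (f n t) - G.ch y (f n t₀)‖ + ‖G.ch y (f n t₀) - ξ₀‖ := norm_add_le _ _
      _ ≤ C * M * δ * 1 + ρ / 2 := add_le_add hcurve.2 hn3.le
      _ ≤ ρ := by linarith
  refine ⟨hcurve.1, ?_, (hn1 t htR).1.2 y hcurve.1, ?_⟩
  · rw [mem_closedBall_iff_norm]
    exact hin
  · rw [← fderiv_apply_one_eq_deriv]
    exact hbound t htR hcurve.1 hin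

/-- LMB: limits along an ultrafilter of maps with bounded derivative -/
theorem ultra_limit_maps [CompactSpace X] [T2Space X] {ι : Type} (U : Ultrafilter ι)
    (f : ι → ℂ → X) (M : ℝ) (hM : 0 ≤ M)
    (hf : ∀ R : ℝ, ∀ᶠ n in (U : Filter ι), ∀ t ∈ ball (0 : ℂ) R, G.HolAt (f n) t ∧
      ∀ y, f n t ∈ (G.ch y).source → ∀ i,
        ‖G.S y i (G.ch y (f n t)) (fderiv ℂ (G.loc y (f n)) t 1)‖ ≤ M ^ G.deg i) :
    ∃ g : ℂ → X, ∀ t, G.HolAt g t ∧ Tendsto (fun n => f n t) U (𝓝 (g t)) ∧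
      ∀ y, g t ∈ (G.ch y).source →
        Tendsto (fun n => fderiv ℂ (G.loc y (f n)) t 1) U (𝓝 (fderiv ℂ (G.loc y g) t 1)) := by
  haveI : ProperSpace E := FiniteDimensional.proper ℂ E
  have hex : ∀ t : ℂ, ∃ x, Tendsto (fun n => f n t) U (𝓝 x) := by
    intro t
    obtain ⟨x, -, hx⟩ := isCompact_univ.ultrafilter_le_nhds (U.map fun n => f n t)
      (by rw [principal_univ]; exact le_top)
    exact ⟨x, hx⟩
  choose g hg using hex
  refine ⟨g, fun t₀ => ?_⟩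
  obtain ⟨y, hy⟩ : ∃ y, y = g t₀ := ⟨_, rfl⟩
  have hys : g t₀ ∈ (G.ch y).source := by rw [hy]; exact G.mem _
  obtain ⟨δ, hδ, ρ, hρ, B, hB, hρt, hloc⟩ := lmb_local (U : Filter ι) f M hM hf t₀ y (g t₀) hys
    (hg t₀)
  -- pointwise convergence in the chart
  have hpt : ∀ t ∈ ball t₀ δ, g t ∈ (G.ch y).source ∧
      G.loc y g t ∈ closedBall (G.ch y (g t₀)) ρ ∧
      Tendsto (fun n => G.loc y (f n) t) U (𝓝 (G.loc y g t)) := by
    intro t ht
    have h1 : ∀ᶠ n in (U : Filter ι), G.loc y (f n) t ∈ closedBall (G.ch y (g t₀)) ρ := by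
      filter_upwards [hloc] with n hn
      exact (hn t ht).2.1
    obtain ⟨z, hz, hz2⟩ := (isCompact_closedBall (G.ch y (g t₀)) ρ).ultrafilter_le_nhds
      (U.map fun n => G.loc y (f n) t) (by
        rw [Ultrafilter.coe_map, le_principal_iff, mem_map]
        exact h1)
    have hz3 : Tendsto (fun n => G.loc y (f n) t) U (𝓝 z) := hz2
    have h2 : Tendsto (fun n => (G.ch y).symm (G.loc y (f n) t)) U (𝓝 ((G.ch y).symm z)) :=
      ((G.ch y).continuousAt_symm (hρt hz)).tendsto.comp hz3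
    have h3 : Tendsto (fun n => f n t) U (𝓝 ((G.ch y).symm z)) := by
      refine h2.congr' ?_
      filter_upwards [hloc] with n hn
      exact (G.ch y).left_inv (hn t ht).1
    have h4 : g t = (G.ch y).symm z := tendsto_nhds_unique (hg t) h3
    have h5 : G.loc y g t = z := by
      rw [Geo.loc, h4, (G.ch y).right_inv (hρt hz)]
    refine ⟨?_, ?_, ?_⟩
    · rw [h4]
      exact (G.ch y).map_target (hρt hz)
    · rw [h5]
      exact hz
    · rw [h5]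
      exact hz3
  -- Lipschitz bounds
  have hlip : ∀ᶠ n in (U : Filter ι), ∀ s ∈ ball t₀ δ, ∀ t ∈ ball t₀ δ,
      ‖G.loc y (f n) t - G.loc y (f n) s‖ ≤ B * ‖t - s‖ := by
    filter_upwards [hloc] with n hn s hs t ht
    exact Convex.norm_image_sub_le_of_norm_deriv_le
      (fun x hx => (hn x hx).2.2.1.differentiableAt) (fun x hx => (hn x hx).2.2.2)
      (convex_ball t₀ δ) hs ht
  have hlip' : ∀ s ∈ ball t₀ δ, ∀ t ∈ ball t₀ δ,
      ‖G.loc y g t - G.loc y g s‖ ≤ B * ‖t - s‖ := by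
    intro s hs t ht
    have h1 : Tendsto (fun n => ‖G.loc y (f n) t - G.loc y (f n) s‖) U
        (𝓝 ‖G.loc y g t - G.loc y g s‖) := ((hpt t ht).2.2.sub (hpt s hs).2.2).norm
    exact le_of_tendsto h1 (hlip.mono fun n hn => hn s hs t ht)
  have hunif : TendstoLocallyUniformlyOn (fun n => G.loc y (f n)) (G.loc y g) U (ball t₀ δ) := by
    rw [Metric.tendstoLocallyUniformlyOn_iff]
    intro ε hε x hx
    refine ⟨ball x (ε / (3 * (B + 1))) ∩ ball t₀ δ, ?_, ?_⟩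
    · rw [inter_comm]
      exact inter_mem_nhdsWithin _ (ball_mem_nhds x (by positivity))
    · have h1 : ∀ᶠ n in (U : Filter ι), ‖G.loc y g x - G.loc y (f n) x‖ < ε / 3 := by
        have h2 : Tendsto (fun n => ‖G.loc y g x - G.loc y (f n) x‖) U (𝓝 0) := by
          have h3 := ((hpt x hx).2.2.const_sub (G.loc y g x)).norm
          rwa [sub_self, norm_zero] at h3
        exact h2.eventually (gt_mem_nhds (by positivity))
      filter_upwards [h1, hlip] with n h2 h3 t ht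
      have h4 : ‖t - x‖ < ε / (3 * (B + 1)) := by
        have := ht.1
        rwa [mem_ball_iff_norm] at this
      have h5 : B * ‖t - x‖ ≤ ε / 3 := by
        calc B * ‖t - x‖ ≤ (B + 1) * ‖t - x‖ := by nlinarith [norm_nonneg (t - x)]
          _ ≤ (B + 1) * (ε / (3 * (B + 1))) := mul_le_mul_of_nonneg_left h4.le (by positivity)
          _ = ε / 3 := by field_simp
      have h6 := hlip' x hx t ht.2
      have h7 := h3 x hx t ht.2
      rw [dist_eq_norm]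
      calc ‖G.loc y g t - G.loc y (f n) t‖ =
          ‖(G.loc y g t - G.loc y g x) + (G.loc y g x - G.loc y (f n) x) -
            (G.loc y (f n) t - G.loc y (f n) x)‖ := by congr 1; abel
        _ ≤ ‖(G.loc y g t - G.loc y g x) + (G.loc y g x - G.loc y (f n) x)‖ +
            ‖G.loc y (f n) t - G.loc y (f n) x‖ := norm_sub_le _ _
        _ ≤ ‖G.loc y g t - G.loc y g x‖ + ‖G.loc y g x - G.loc y (f n) x‖ +
            ‖G.loc y (f n) t - G.loc y (f n) x‖ := by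
            have := norm_add_le (G.loc y g t - G.loc y g x) (G.loc y g x - G.loc y (f n) x)
            linarith
        _ < ε := by linarith
  have hdiffn : ∀ᶠ n in (U : Filter ι), DifferentiableOn ℂ (G.loc y (f n)) (ball t₀ δ) := by
    filter_upwards [hloc] with n hn t ht
    exact (hn t ht).2.2.1.differentiableAt.differentiableWithinAt
  have hdiff : DifferentiableOn ℂ (G.loc y g) (ball t₀ δ) :=
    hunif.differentiableOn hdiffn isOpen_ball
  have hderiv := hunif.deriv hdiffn isOpen_ball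
  have hda := hderiv.tendsto_at (mem_ball_self hδ)
  have han : AnalyticAt ℂ (G.loc y g) t₀ := hdiff.analyticAt (ball_mem_nhds t₀ hδ)
  have hcont : ContinuousAt g t₀ := by
    have h1 : ContinuousAt (fun t => (G.ch y).symm (G.loc y g t)) t₀ := by
      have h2 : ContinuousAt (G.ch y).symm (G.loc y g t₀) :=
        (G.ch y).continuousAt_symm ((G.ch y).map_source hys)
      exact h2.comp (f := G.loc y g) han.continuousAt
    refine h1.congr ?_
    filter_upwards [ball_mem_nhds t₀ hδ] with t ht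
    exact (G.ch y).left_inv (hpt t ht).1
  have hHol : G.HolAt g t₀ := Geo.holAt_of_chart hcont hys han
  refine ⟨hHol, hg t₀, fun y' hy' => ?_⟩
  have hfy : Tendsto (fun n => fderiv ℂ (G.loc y (f n)) t₀ 1) U
      (𝓝 (fderiv ℂ (G.loc y g) t₀ 1)) := by
    simp only [fderiv_apply_one_eq_deriv]
    exact hda
  have hθ : AnalyticAt ℂ (fun ξ => G.ch y' ((G.ch y).symm ξ)) (G.ch y (g t₀)) :=
    G.trans y y' (g t₀) hys hy'
  have hθ2 : ContinuousAt (fderiv ℂ (fun ξ => G.ch y' ((G.ch y).symm ξ))) (G.ch y (g t₀)) :=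
    hθ.fderiv.continuousAt
  have hch : Tendsto (fun n => G.ch y (f n t₀)) U (𝓝 (G.ch y (g t₀))) :=
    (hpt t₀ (mem_ball_self hδ)).2.2
  have h1 : Tendsto (fun n => fderiv ℂ (fun ξ => G.ch y' ((G.ch y).symm ξ)) (G.ch y (f n t₀))
      (fderiv ℂ (G.loc y (f n)) t₀ 1)) U
      (𝓝 (fderiv ℂ (fun ξ => G.ch y' ((G.ch y).symm ξ)) (G.ch y (g t₀))
        (fderiv ℂ (G.loc y g) t₀ 1))) := by
    have h2 := (hθ2.tendsto.comp hch).prodMk_nhds hfy
    have h3 := (isBoundedBilinearMap_apply (𝕜 := ℂ) (E := E) (F := E)).continuous.tendsto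
      (fderiv ℂ (fun ξ => G.ch y' ((G.ch y).symm ξ)) (G.ch y (g t₀)),
        fderiv ℂ (G.loc y g) t₀ 1)
    exact h3.comp h2
  rw [Geo.fderiv_loc hHol hys hy']
  refine h1.congr' ?_
  have hs' : ∀ᶠ n in (U : Filter ι), f n t₀ ∈ (G.ch y').source :=
    (hg t₀).eventually ((G.ch y').open_source.mem_nhds hy')
  filter_upwards [hloc, hs', hf (‖t₀‖ + 1)] with n hn hn2 hn3
  have h2 : G.HolAt (f n) t₀ := (hn3 t₀ (by rw [mem_ball_zero_iff]; linarith)).1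
  rw [Geo.fderiv_loc h2 (hn t₀ (mem_ball_self hδ)).1 hn2]

end Pool.Agent.SS
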