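import Pool.Agent.Lib_helper64.SS.Base
import Pool.Agent.Lib_helper64.SS.Notions
-- NEEDS:

set_option autoImplicit false
set_option linter.unusedSectionVars false

open Filter Topology Metric Set
open scoped Manifold ContDiff

namespace Pool.Agent.SS

theorem avg_swap (f : ℝ → ℝ → ℝ) (hf : Continuous (Function.uncurry f)) (a b c d : ℝ) :
    ∫ x in a..b, ∫ y in c..d, f x y = ∫ y in c..d, ∫ x in a..b, f x y := by
  apply MeasureTheory.intervalIntegral_intervalIntegral_swap
  have h1 : MeasureTheory.IntegrableOn (Function.uncurry f) (Icc (min a b) (max a b) ×ˢ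
      Icc (min c d) (max c d)) :=
    hf.continuousOn.integrableOn_compact (isCompact_Icc.prod isCompact_Icc)
  exact (h1.mono_set (prod_mono (Ioc_subset_Icc_self) (Ioc_subset_Icc_self)))

theorem avg_shift (g : ℝ → ℝ) (hg : Continuous g) (B : ℝ) (hB : ∀ x, |g x| ≤ B) (a R : ℝ)
    (ha : |a| ≤ 1) : ∫ x in (0 : ℝ)..R, (g (x + a) - g x) ≤ 2 * B := by
  have hB0 : 0 ≤ B := (abs_nonneg _).trans (hB 0)
  have hi : ∀ p q : ℝ, IntervalIntegrable g MeasureTheory.volume p q := fun p q =>
    hg.intervalIntegrable p q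
  have hga : Continuous fun x => g (x + a) := hg.comp (continuous_id.add continuous_const)
  rw [intervalIntegral.integral_sub (hga.intervalIntegrable _ _) (hi _ _),
    intervalIntegral.integral_comp_add_right g a, zero_add,
    intervalIntegral.integral_interval_sub_interval_comm (hi _ _) (hi _ _) (hi _ _)]
  have h1 : |∫ x in a..(0 : ℝ), g x| ≤ B := by
    have := intervalIntegral.norm_integral_le_of_norm_le_const (a := a) (b := 0) (C := B)
      (f := g) (fun x _ => hB x)
    rw [zero_sub, abs_neg] at this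
    exact this.trans (mul_le_of_le_one_right hB0 ha)
  have h2 : |∫ x in (R + a)..R, g x| ≤ B := by
    have := intervalIntegral.norm_integral_le_of_norm_le_const (a := R + a) (b := R) (C := B)
      (f := g) (fun x _ => hB x)
    rw [sub_add_cancel_left, abs_neg] at this
    exact this.trans (mul_le_of_le_one_right hB0 ha)
  have h3 := (abs_le.1 h1).2
  have h4 := (abs_le.1 h2).1
  linarith

/-- the point with coordinates `x`, `y` -/
noncomputable def avg_s (x y : ℝ) : ℂ := (x : ℂ) + y * Complex.I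

theorem avg_s_cont : Continuous (Function.uncurry avg_s) := by
  unfold avg_s Function.uncurry
  fun_prop

theorem avg_int_le (f : ℝ → ℝ → ℝ) (hf : Continuous (Function.uncurry f)) (R M : ℝ) (hR : 0 ≤ R)
    (h : ∀ x, ∫ y in (0 : ℝ)..R, f x y ≤ M) :
    ∫ x in (0 : ℝ)..R, ∫ y in (0 : ℝ)..R, f x y ≤ M * R := by
  have h1 : ∫ x in (0 : ℝ)..R, ∫ y in (0 : ℝ)..R, f x y ≤ ∫ _ in (0 : ℝ)..R, M := by
    apply intervalIntegral.integral_mono_on hR
      ((intervalIntegral.continuous_parametric_intervalIntegral_of_continuous'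
        hf 0 R).intervalIntegrable _ _) intervalIntegrable_const
    intro x _
    exact h x
  rw [intervalIntegral.integral_const, sub_zero, smul_eq_mul, mul_comm] at h1
  exact h1

theorem avg_two (e : ℂ → ℝ) (he : Continuous e) (B : ℝ) (hB : ∀ s, |e s| ≤ B) (w : ℂ)
    (hw : ‖w‖ ≤ 1) (R : ℝ) (hR : 0 ≤ R) :
    ∫ x in (0 : ℝ)..R, ∫ y in (0 : ℝ)..R, (e (avg_s x y + w) - e (avg_s x y)) ≤ 4 * B * R := by
  have hre : |w.re| ≤ 1 := (Complex.abs_re_le_norm w).trans hw
  have him : |w.im| ≤ 1 := (Complex.abs_im_le_norm w).trans hw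
  have hsw : ∀ x y, avg_s x y + w = avg_s (x + w.re) (y + w.im) := by
    intro x y
    apply Complex.ext <;> simp [avg_s]
  set f1 : ℝ → ℝ → ℝ := fun x y =>
    e (avg_s (x + w.re) (y + w.im)) - e (avg_s (x + w.re) y) with hf1
  set f2 : ℝ → ℝ → ℝ := fun x y => e (avg_s (x + w.re) y) - e (avg_s x y) with hf2
  have hes : Continuous fun p : ℝ × ℝ => e (avg_s p.1 p.2) := he.comp avg_s_cont
  have hc1 : Continuous (Function.uncurry f1) := by
    have h1 : Continuous fun p : ℝ × ℝ => (p.1 + w.re, p.2 + w.im) := by fun_prop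
    have h2 : Continuous fun p : ℝ × ℝ => (p.1 + w.re, p.2) := by fun_prop
    exact (hes.comp h1).sub (hes.comp h2)
  have hc2 : Continuous (Function.uncurry f2) := by
    have h2 : Continuous fun p : ℝ × ℝ => (p.1 + w.re, p.2) := by fun_prop
    exact (hes.comp h2).sub hes
  have hx : ∀ x, Continuous fun y => e (avg_s x y) := fun x =>
    hes.comp (continuous_const.prodMk continuous_id)
  have hy : ∀ y, Continuous fun x => e (avg_s x y) := fun y =>
    hes.comp (continuous_id.prodMk continuous_const)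
  have b1 : ∫ x in (0 : ℝ)..R, ∫ y in (0 : ℝ)..R, f1 x y ≤ 2 * B * R := by
    apply avg_int_le f1 hc1 R _ hR
    intro x
    exact avg_shift (fun y => e (avg_s (x + w.re) y)) (hx _) B (fun y => hB _) w.im R him
  have b2 : ∫ x in (0 : ℝ)..R, ∫ y in (0 : ℝ)..R, f2 x y ≤ 2 * B * R := by
    rw [avg_swap f2 hc2]
    have hc2' : Continuous (Function.uncurry fun y x => f2 x y) := hc2.comp continuous_swap
    apply avg_int_le (fun y x => f2 x y) hc2' R _ hR
    intro y
    exact avg_shift (fun x => e (avg_s x y)) (hy _) B (fun y => hB _) w.re R hre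
  have hsum : ∫ x in (0 : ℝ)..R, ∫ y in (0 : ℝ)..R, (e (avg_s x y + w) - e (avg_s x y)) =
      (∫ x in (0 : ℝ)..R, ∫ y in (0 : ℝ)..R, f1 x y) +
        ∫ x in (0 : ℝ)..R, ∫ y in (0 : ℝ)..R, f2 x y := by
    rw [← intervalIntegral.integral_add
      ((intervalIntegral.continuous_parametric_intervalIntegral_of_continuous'
        hc1 0 R).intervalIntegrable _ _)
      ((intervalIntegral.continuous_parametric_intervalIntegral_of_continuous'
        hc2 0 R).intervalIntegrable _ _)]
    apply intervalIntegral.integral_congr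
    intro x _
    simp only
    have k1 : Continuous (f1 x) := hc1.comp (continuous_const.prodMk continuous_id)
    have k2 : Continuous (f2 x) := hc2.comp (continuous_const.prodMk continuous_id)
    rw [← intervalIntegral.integral_add (k1.intervalIntegrable _ _)
      (k2.intervalIntegrable _ _)]
    apply intervalIntegral.integral_congr
    intro y _
    simp only [hf1, hf2, hsw]
    ring
  rw [hsum]
  linarith

/-- AVG: the averages over squares of the circle averages of a cocycle are small -/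
theorem avg_cocycle {T : Type} (act : ℂ → T → T) (φ : T → ℂ → ℝ) (B : ℝ)
    (hB : ∀ F w, ‖w‖ ≤ 1 → |φ F w| ≤ B) (hcont : ∀ F, Continuous (φ F))
    (hcoc : ∀ F z z', φ (act z' F) z = φ F (z + z') - φ F z') (F : T) (R : ℝ) (hR : 0 ≤ R) :
    ∫ x in (0 : ℝ)..R, ∫ y in (0 : ℝ)..R,
      Real.circleAverage (φ (act (x + y * Complex.I) F)) 0 1 ≤ 4 * B * R := by
  have hB0 : 0 ≤ B := (abs_nonneg _).trans (hB F 0 (by simp))
  set ψ : ℂ → ℝ := φ F with hψ
  have hψc : Continuous ψ := hcont F
  set c : ℝ → ℂ := circleMap 0 1 with hc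
  have hcc : Continuous c := continuous_circleMap 0 1
  have hcn : ∀ θ, ‖c θ‖ ≤ 1 := fun θ => by simp [hc]
  have hcpi : ∀ θ, c (θ + Real.pi) = -c θ := by
    intro θ
    simp only [hc, circleMap, Complex.ofReal_add, add_mul, Complex.exp_add,
      Complex.exp_pi_mul_I]
    ring
  set H : ℝ → ℝ → ℝ → ℝ := fun x y θ =>
    ψ (avg_s x y + c θ) - ψ (avg_s x y) + (ψ (avg_s x y - c θ) - ψ (avg_s x y)) with hH
  -- the circle average
  have hav : ∀ x y : ℝ, Real.circleAverage (φ (act (x + y * Complex.I) F)) 0 1 =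
      (2 * (2 * Real.pi))⁻¹ * ∫ θ in (0 : ℝ)..(2 * Real.pi), H x y θ := by
    intro x y
    have h1 : Real.circleAverage (φ (act (x + y * Complex.I) F)) 0 1 =
        (2 * Real.pi)⁻¹ * ∫ θ in (0 : ℝ)..(2 * Real.pi),
          (ψ (avg_s x y + c θ) - ψ (avg_s x y)) := by
      rw [Real.circleAverage, smul_eq_mul]
      congr 1
      apply intervalIntegral.integral_congr
      intro θ _
      simp only
      rw [hcoc, add_comm]
      rfl
    have h2 : Real.circleAverage (φ (act (x + y * Complex.I) F)) 0 1 =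
        (2 * Real.pi)⁻¹ * ∫ θ in (0 : ℝ)..(2 * Real.pi),
          (ψ (avg_s x y - c θ) - ψ (avg_s x y)) := by
      rw [Real.circleAverage_eq_integral_add Real.pi, smul_eq_mul]
      congr 1
      apply intervalIntegral.integral_congr
      intro θ _
      simp only
      rw [hcoc, add_comm, ← hc, hcpi, ← sub_eq_add_neg]
      rfl
    have h3 : ∫ θ in (0 : ℝ)..(2 * Real.pi), H x y θ =
        (∫ θ in (0 : ℝ)..(2 * Real.pi), (ψ (avg_s x y + c θ) - ψ (avg_s x y))) +
        ∫ θ in (0 : ℝ)..(2 * Real.pi), (ψ (avg_s x y - c θ) - ψ (avg_s x y)) := by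
      apply intervalIntegral.integral_add
      · apply Continuous.intervalIntegrable
        exact (hψc.comp (continuous_const.add hcc)).sub continuous_const
      · apply Continuous.intervalIntegrable
        exact (hψc.comp (continuous_const.sub hcc)).sub continuous_const
    rw [h3, mul_inv, mul_add]
    have h4 : (2 : ℝ)⁻¹ * (2 * Real.pi)⁻¹ *
        (∫ θ in (0 : ℝ)..(2 * Real.pi), (ψ (avg_s x y + c θ) - ψ (avg_s x y))) =
        2⁻¹ * Real.circleAverage (φ (act (x + y * Complex.I) F)) 0 1 := by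
      rw [h1]; ring
    have h5 : (2 : ℝ)⁻¹ * (2 * Real.pi)⁻¹ *
        (∫ θ in (0 : ℝ)..(2 * Real.pi), (ψ (avg_s x y - c θ) - ψ (avg_s x y))) =
        2⁻¹ * Real.circleAverage (φ (act (x + y * Complex.I) F)) 0 1 := by
      rw [h2]; ring
    rw [h4, h5]
    ring
  -- continuity
  have hHc : Continuous fun p : ℝ × ℝ × ℝ => H p.1 p.2.1 p.2.2 := by
    have hs : Continuous fun p : ℝ × ℝ × ℝ => avg_s p.1 p.2.1 :=
      avg_s_cont.comp (continuous_fst.prodMk (continuous_fst.comp continuous_snd))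
    have hc' : Continuous fun p : ℝ × ℝ × ℝ => c p.2.2 :=
      hcc.comp (continuous_snd.comp continuous_snd)
    exact ((hψc.comp (hs.add hc')).sub (hψc.comp hs)).add
      ((hψc.comp (hs.sub hc')).sub (hψc.comp hs))
  have hinner : ∀ θ, ∫ x in (0 : ℝ)..R, ∫ y in (0 : ℝ)..R, H x y θ ≤ 4 * B * R := by
    intro θ
    have h1 := avg_two (fun s => ψ s - ψ (s - c θ)) (hψc.sub (hψc.comp
      (continuous_id.sub continuous_const))) B (by
        intro s
        have h2 := hcoc F (-c θ) s
        have h3 := hB (act s F) (-c θ) (by rw [norm_neg]; exact hcn θ)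
        rw [h2] at h3
        rw [abs_sub_comm]
        have h4 : s - c θ = -c θ + s := by ring
        rw [h4]
        exact h3) (c θ) (hcn θ) R hR
    refine le_trans (le_of_eq ?_) h1
    apply intervalIntegral.integral_congr
    intro x _
    apply intervalIntegral.integral_congr
    intro y _
    simp only [hH]
    rw [add_sub_cancel_right]
    ring
  have hswap1 : ∀ x, ∫ y in (0 : ℝ)..R, ∫ θ in (0 : ℝ)..(2 * Real.pi), H x y θ =
      ∫ θ in (0 : ℝ)..(2 * Real.pi), ∫ y in (0 : ℝ)..R, H x y θ := by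
    intro x
    apply avg_swap (fun y θ => H x y θ)
    exact hHc.comp (continuous_const.prodMk continuous_id)
  have hmid : Continuous (Function.uncurry fun x θ => ∫ y in (0 : ℝ)..R, H x y θ) := by
    have : (Function.uncurry fun x θ => ∫ y in (0 : ℝ)..R, H x y θ) =
        fun p : ℝ × ℝ => ∫ y in (0 : ℝ)..R, H p.1 y p.2 := rfl
    rw [this]
    apply intervalIntegral.continuous_parametric_intervalIntegral_of_continuous'
      (f := fun (p : ℝ × ℝ) y => H p.1 y p.2)
    have h2 : Continuous fun q : (ℝ × ℝ) × ℝ => (q.1.1, q.2, q.1.2) := by fun_prop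
    exact hHc.comp h2
  have hswap2 : ∫ x in (0 : ℝ)..R, ∫ y in (0 : ℝ)..R, ∫ θ in (0 : ℝ)..(2 * Real.pi), H x y θ =
      ∫ θ in (0 : ℝ)..(2 * Real.pi), ∫ x in (0 : ℝ)..R, ∫ y in (0 : ℝ)..R, H x y θ := by
    rw [← avg_swap (fun x θ => ∫ y in (0 : ℝ)..R, H x y θ) hmid]
    apply intervalIntegral.integral_congr
    intro x _
    exact hswap1 x
  have hLHS : ∫ x in (0 : ℝ)..R, ∫ y in (0 : ℝ)..R,
      Real.circleAverage (φ (act (x + y * Complex.I) F)) 0 1 =
      (2 * (2 * Real.pi))⁻¹ *
        ∫ x in (0 : ℝ)..R, ∫ y in (0 : ℝ)..R, ∫ θ in (0 : ℝ)..(2 * Real.pi), H x y θ := by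
    simp only [hav, intervalIntegral.integral_const_mul]
  have hout : Continuous fun θ => ∫ x in (0 : ℝ)..R, ∫ y in (0 : ℝ)..R, H x y θ := by
    apply intervalIntegral.continuous_parametric_intervalIntegral_of_continuous'
      (f := fun θ x => ∫ y in (0 : ℝ)..R, H x y θ)
    exact hmid.comp continuous_swap
  have hbound : ∫ θ in (0 : ℝ)..(2 * Real.pi), ∫ x in (0 : ℝ)..R, ∫ y in (0 : ℝ)..R, H x y θ ≤
      (2 * Real.pi) * (4 * B * R) := by
    have h1 : ∫ θ in (0 : ℝ)..(2 * Real.pi), ∫ x in (0 : ℝ)..R, ∫ y in (0 : ℝ)..R, H x y θ ≤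
        ∫ _ in (0 : ℝ)..(2 * Real.pi), 4 * B * R :=
      intervalIntegral.integral_mono_on Real.two_pi_pos.le (hout.intervalIntegrable _ _)
        intervalIntegrable_const (fun θ _ => hinner θ)
    rwa [intervalIntegral.integral_const, sub_zero, smul_eq_mul] at h1
  rw [hLHS, hswap2]
  calc (2 * (2 * Real.pi))⁻¹ * _ ≤ (2 * (2 * Real.pi))⁻¹ * ((2 * Real.pi) * (4 * B * R)) :=
      mul_le_mul_of_nonneg_left hbound (by positivity)
    _ = 2 * B * R := by
      have := Real.pi_pos.ne'
      field_simp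
      ring
    _ ≤ 4 * B * R := by nlinarith [mul_nonneg hB0 hR]

end Pool.Agent.SS
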