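import Pool.Agent.Lib_helper64.SS.Base
import Pool.Agent.Lib_helper64.SS.Notions
import Pool.Agent.Lib_helper64.SS.B.LMB

-- NEEDS: LMB
/-! Block BRO (MP_45e720_ag), by helper69. -/

set_option autoImplicit false
set_option linter.unusedSectionVars false

open Filter Topology Metric Set
open scoped Manifold ContDiff

namespace Pool.Agent.SS

variable {E X : Type} [NormedAddCommGroup E] [NormedSpace ℂ E] [FiniteDimensional ℂ E]
  [TopologicalSpace X] {G : Geo E X}
  {V : Type} [NormedAddCommGroup V] [NormedSpace ℂ V] [FiniteDimensional ℂ V]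

/-- the point lemma of Brody (as in Lib_helper83/KCA/BRP.lean, by helper80) -/
theorem bro_point (g : ℂ → ℝ) (c : ℂ) (ρ R : ℝ) (hR : 0 < R) (hρ : 0 < ρ)
    (hg : ContinuousOn g (closedBall c ρ)) (h0 : ∀ z ∈ closedBall c ρ, 0 ≤ g z)
    (hc : 2 * R ≤ ρ * g c) :
    ∃ a ∈ ball c ρ, 0 < g a ∧ ∀ z, ‖z - a‖ < R / g a → z ∈ ball c ρ ∧ g z ≤ 2 * g a := by
  have hcont : ContinuousOn (fun z => (ρ - ‖z - c‖) * g z) (closedBall c ρ) := by
    refine ContinuousOn.mul ?_ hg
    fun_prop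
  obtain ⟨a, ha, hmax⟩ := (isCompact_closedBall c ρ).exists_isMaxOn
    ⟨c, mem_closedBall_self hρ.le⟩ hcont
  have h1 : ρ * g c ≤ (ρ - ‖a - c‖) * g a := by
    have := hmax (mem_closedBall_self hρ.le : c ∈ closedBall c ρ)
    simpa using this
  have hac : ‖a - c‖ ≤ ρ := by
    rw [mem_closedBall, dist_eq_norm] at ha
    exact ha
  have hga := h0 a ha
  have hpos : 0 < (ρ - ‖a - c‖) * g a := by linarith
  have hga' : 0 < g a := by
    rcases hga.eq_or_lt with h | h
    · rw [← h, mul_zero] at hpos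
      exact absurd hpos (lt_irrefl _)
    · exact h
  have hd : 0 < ρ - ‖a - c‖ := (pos_iff_pos_of_mul_pos hpos).2 hga'
  refine ⟨a, ?_, hga', fun z hz => ?_⟩
  · rw [mem_ball, dist_eq_norm]
    linarith
  · have h2 : R / g a ≤ (ρ - ‖a - c‖) / 2 := by
      rw [div_le_div_iff₀ hga' two_pos]
      linarith
    have h3 : ‖z - c‖ ≤ ‖z - a‖ + ‖a - c‖ := by
      have := norm_add_le (z - a) (a - c)
      simpa using this
    have h4 : (ρ - ‖a - c‖) / 2 ≤ ρ - ‖z - c‖ := by linarith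
    have hz1 : z ∈ ball c ρ := by
      rw [mem_ball, dist_eq_norm]
      linarith
    refine ⟨hz1, ?_⟩
    have h5 := hmax (ball_subset_closedBall hz1)
    simp only at h5
    have h6 := h0 z (ball_subset_closedBall hz1)
    have h7 : (ρ - ‖a - c‖) / 2 * g z ≤ (ρ - ‖a - c‖) * g a :=
      (mul_le_mul_of_nonneg_right h4 h6).trans h5
    have h8 : (ρ - ‖a - c‖) * (g z) ≤ (ρ - ‖a - c‖) * (2 * g a) := by linarith
    exact le_of_mul_le_mul_left h8 hd

theorem bro_affine_an (a b t : ℂ) : AnalyticAt ℂ (fun z : ℂ => a + b * z) t :=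
  analyticAt_const.add (analyticAt_const.mul analyticAt_id)

theorem bro_hol {F : ℂ → X} {a b t : ℂ} (h : G.HolAt F (a + b * t)) :
    G.HolAt (fun z => F (a + b * z)) t := by
  have h1 := bro_affine_an a b t
  have h2 : ContinuousAt F ((fun z : ℂ => a + b * z) t) := h.1
  refine ⟨h2.comp (f := fun z : ℂ => a + b * z) h1.continuousAt, fun y hy => ?_⟩
  have h3 : AnalyticAt ℂ (G.loc y F) ((fun z : ℂ => a + b * z) t) := h.2 y hy
  exact h3.comp (f := fun z : ℂ => a + b * z) h1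

theorem bro_deriv {F : ℂ → X} {a b t : ℂ} (h : G.HolAt F (a + b * t)) {y : X}
    (hy : F (a + b * t) ∈ (G.ch y).source) :
    fderiv ℂ (G.loc y fun z => F (a + b * z)) t 1 = b • fderiv ℂ (G.loc y F) (a + b * t) 1 := by
  have h1 : HasDerivAt (fun z : ℂ => a + b * z) b t := by
    simpa using ((hasDerivAt_id t).const_mul b).const_add a
  have h2 : HasFDerivAt (G.loc y F) (fderiv ℂ (G.loc y F) (a + b * t)) (a + b * t) :=
    (h.2 y hy).differentiableAt.hasFDerivAt
  have h3 : HasDerivAt (fun z => G.loc y F (a + b * z)) (fderiv ℂ (G.loc y F) (a + b * t) b) t :=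
    HasFDerivAt.comp_hasDerivAt (f := fun z : ℂ => a + b * z) t h2 h1
  have h4 : (G.loc y fun z => F (a + b * z)) = fun z => G.loc y F (a + b * z) := rfl
  rw [h4, fderiv_apply_one_eq_deriv, h3.deriv]
  have h5 : b = b • (1 : ℂ) := by simp
  rw [h5, map_smul]
  simp

/-- the values of the forms on the velocity, in the chart centred at the point -/
noncomputable def broPhi (G : Geo E X) (F : ℂ → X) (t : ℂ) (i : Fin G.L) : ℂ :=
  G.S (F t) i (G.ch (F t) (F t)) (fderiv ℂ (G.loc (F t) F) t 1)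

theorem bro_phi_eq {F : ℂ → X} {t : ℂ} (h : G.HolAt F t) {y : X}
    (hy : F t ∈ (G.ch y).source) (i : Fin G.L) :
    broPhi G F t i = G.S y i (G.ch y (F t)) (fderiv ℂ (G.loc y F) t 1) := by
  rw [broPhi, G.compat (F t) y (F t) (G.mem _) hy, ← Geo.fderiv_loc h (G.mem _) hy]

theorem bro_phi_affine {F : ℂ → X} {a b t : ℂ} (h : G.HolAt F (a + b * t)) (i : Fin G.L) :
    broPhi G (fun z => F (a + b * z)) t i = b ^ G.deg i * broPhi G F (a + b * t) i := by
  rw [broPhi, broPhi, bro_deriv h (G.mem _)]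
  exact G.homog _ i _ ((G.ch _).map_source (G.mem _)) _ _

theorem bro_cont {F : ℂ → X} (hF : ∀ t, G.HolAt F t) (i : Fin G.L) :
    Continuous fun t => broPhi G F t i := by
  rw [continuous_iff_continuousAt]
  intro t₀
  have hy : F t₀ ∈ (G.ch (F t₀)).source := G.mem _
  have he : (fun t => broPhi G F t i) =ᶠ[𝓝 t₀]
      fun t => G.S (F t₀) i (G.loc (F t₀) F t) (fderiv ℂ (G.loc (F t₀) F) t 1) := by
    filter_upwards [(hF t₀).loc_mem hy] with t ht
    exact bro_phi_eq (hF t) ht i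
  refine ContinuousAt.congr ?_ he.symm
  have h1 : AnalyticAt ℂ (G.loc (F t₀) F) t₀ := (hF t₀).2 _ hy
  have h2 : ContinuousAt (fun t => (G.loc (F t₀) F t, fderiv ℂ (G.loc (F t₀) F) t 1)) t₀ :=
    h1.continuousAt.prodMk (h1.fderiv.continuousAt.clm_apply continuousAt_const)
  have h3 : ContinuousAt (fun p : E × E => G.S (F t₀) i p.1 p.2)
      (G.loc (F t₀) F t₀, fderiv ℂ (G.loc (F t₀) F) t₀ 1) :=
    (G.hol (F t₀) i _ ((G.ch _).map_source hy) _).continuousAt
  exact ContinuousAt.comp (g := fun p : E × E => G.S (F t₀) i p.1 p.2)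
    (f := fun t => (G.loc (F t₀) F t, fderiv ℂ (G.loc (F t₀) F) t 1)) h3 h2

/-- the gauge of the velocity -/
noncomputable def broG (G : Geo E X) (F : ℂ → X) (t : ℂ) : ℝ :=
  ∑ i, ‖broPhi G F t i‖ ^ ((G.deg i : ℝ)⁻¹)

theorem broG_nonneg (F : ℂ → X) (t : ℂ) : 0 ≤ broG G F t :=
  Finset.sum_nonneg fun _ _ => Real.rpow_nonneg (norm_nonneg _) _

theorem broG_cont {F : ℂ → X} (hF : ∀ t, G.HolAt F t) : Continuous (broG G F) := by
  unfold broG
  refine continuous_finsetSum _ fun i _ => ?_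
  refine (bro_cont hF i).norm.rpow_const fun t => Or.inr ?_
  positivity

theorem broG_term (F : ℂ → X) (t : ℂ) (i : Fin G.L) :
    ‖broPhi G F t i‖ ^ ((G.deg i : ℝ)⁻¹) ≤ broG G F t :=
  Finset.single_le_sum (f := fun i => ‖broPhi G F t i‖ ^ ((G.deg i : ℝ)⁻¹))
    (fun _ _ => Real.rpow_nonneg (norm_nonneg _) _) (Finset.mem_univ i)

theorem bro_phi_le {F : ℂ → X} {t : ℂ} {M : ℝ} (h : broG G F t ≤ M) (i : Fin G.L) :
    ‖broPhi G F t i‖ ≤ M ^ G.deg i := by
  have h1 := (broG_term F t i).trans h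
  have h2 : ‖broPhi G F t i‖ = (‖broPhi G F t i‖ ^ ((G.deg i : ℝ)⁻¹)) ^ G.deg i := by
    rw [Real.rpow_inv_natCast_pow (norm_nonneg _) (G.deg_pos i).ne']
  rw [h2]
  exact pow_le_pow_left₀ (Real.rpow_nonneg (norm_nonneg _) _) h1 _

theorem broG_affine {F : ℂ → X} {a t : ℂ} {r : ℝ} (hr : 0 ≤ r)
    (h : G.HolAt F (a + (r : ℂ) * t)) :
    broG G (fun z => F (a + (r : ℂ) * z)) t = r * broG G F (a + (r : ℂ) * t) := by
  unfold broG
  rw [Finset.mul_sum]
  refine Finset.sum_congr rfl fun i _ => ?_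
  rw [bro_phi_affine h, norm_mul, norm_pow, Complex.norm_real, Real.norm_of_nonneg hr,
    Real.mul_rpow (pow_nonneg hr _) (norm_nonneg _), Real.pow_rpow_inv_natCast hr (G.deg_pos i).ne']

/-- if the gauge vanishes identically, then the map is constant -/
theorem bro_const {F : ℂ → X} (hF : ∀ t, G.HolAt F t) (h : ∀ t, broG G F t = 0) (z z' : ℂ) :
    F z = F z' := by
  have hφ : ∀ t i, broPhi G F t i = 0 := by
    intro t i
    have h1 := bro_phi_le (h t).le i
    rw [zero_pow (G.deg_pos i).ne'] at h1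
    exact norm_le_zero_iff.1 h1
  have hloc : IsLocallyConstant F := by
    rw [IsLocallyConstant.iff_eventually_eq]
    intro t₀
    have hy : F t₀ ∈ (G.ch (F t₀)).source := G.mem _
    have h1 : AnalyticAt ℂ (G.loc (F t₀) F) t₀ := (hF t₀).2 _ hy
    have h2 := h1.eventually_analyticAt.and ((hF t₀).loc_mem hy)
    obtain ⟨r, hr, hb⟩ := Metric.eventually_nhds_iff_ball.1 h2
    have hd : ∀ t ∈ ball t₀ r, HasFDerivWithinAt (G.loc (F t₀) F) (0 : ℂ →L[ℂ] E) (ball t₀ r) t := by
      intro t ht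
      have h3 := (hb t ht).1.differentiableAt.hasFDerivAt
      have h4 : fderiv ℂ (G.loc (F t₀) F) t = 0 := by
        have h5 : fderiv ℂ (G.loc (F t₀) F) t 1 = 0 := by
          refine G.S_eq_zero ((G.ch _).map_source (hb t ht).2) fun i => ?_
          rw [← bro_phi_eq (hF t) (hb t ht).2 i, hφ]
        ext
        simpa using h5
      rw [h4] at h3
      exact h3.hasFDerivWithinAt
    filter_upwards [ball_mem_nhds t₀ hr] with t ht
    have h6 : G.loc (F t₀) F t = G.loc (F t₀) F t₀ := by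
      have h7 := (convex_ball t₀ r).norm_image_sub_le_of_norm_hasFDerivWithin_le (C := 0) hd
        (fun x _ => by simp) (mem_ball_self hr) ht
      rw [zero_mul] at h7
      exact sub_eq_zero.1 (norm_le_zero_iff.1 h7)
    exact (G.ch (F t₀)).injOn (hb t ht).2 hy h6
  exact hloc.apply_eq_of_preconnectedSpace z z'

/-- BRO: Brody's reparametrisation -/
theorem brody_curve [CompactSpace X] [T2Space X] (f : ℂ → X) (hf : ∀ t, G.HolAt f t)
    (hne : ∃ z z', f z ≠ f z') :
    ∃ g : ℂ → X, (∀ t, G.HolAt g t) ∧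
      (∀ t y, g t ∈ (G.ch y).source → ∀ i,
        ‖G.S y i (G.ch y (g t)) (fderiv ℂ (G.loc y g) t 1)‖ ≤ 1) ∧
      ∀ y, g 0 ∈ (G.ch y).source → ∃ i,
        G.S y i (G.ch y (g 0)) (fderiv ℂ (G.loc y g) 0 1) ≠ 0 := by
  obtain ⟨z, z', hzz⟩ := hne
  obtain ⟨c, hc⟩ : ∃ c, 0 < broG G f c := by
    by_contra hno
    push Not at hno
    exact hzz (bro_const hf (fun t => le_antisymm (hno t) (broG_nonneg f t)) z z')
  have key : ∀ n : ℕ, ∃ a : ℂ, 0 < broG G f a ∧ ∀ z, ‖z - a‖ < (n + 1 : ℝ) / broG G f a →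
      broG G f z ≤ 2 * broG G f a := by
    intro n
    have hn : (0 : ℝ) < n + 1 := by positivity
    obtain ⟨a, -, h1, h2⟩ := bro_point (broG G f) c (2 * (n + 1) / broG G f c) (n + 1) hn
      (by positivity) (broG_cont hf).continuousOn (fun z _ => broG_nonneg f z)
      (by rw [div_mul_cancel₀ _ hc.ne'])
    exact ⟨a, h1, fun z hz => (h2 z hz).2⟩
  choose a ha hmax using key
  set r : ℕ → ℝ := fun n => (broG G f (a n))⁻¹ with hr
  have hr0 : ∀ n, 0 < r n := fun n => inv_pos.2 (ha n)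
  set F : ℕ → ℂ → X := fun n z => f (a n + (r n : ℂ) * z) with hF
  have hFh : ∀ n t, G.HolAt (F n) t := fun n t => bro_hol (hf _)
  have hFG : ∀ n t, broG G (F n) t = r n * broG G f (a n + (r n : ℂ) * t) := fun n t =>
    broG_affine (hr0 n).le (hf _)
  have hF0 : ∀ n, broG G (F n) 0 = 1 := by
    intro n
    rw [hFG, mul_zero, add_zero, hr]
    exact inv_mul_cancel₀ (ha n).ne'
  have hFle : ∀ (n : ℕ) (t : ℂ), ‖t‖ < (n : ℝ) + 1 → broG G (F n) t ≤ 2 := by
    intro n t ht
    rw [hFG]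
    have h1 : broG G f (a n + (r n : ℂ) * t) ≤ 2 * broG G f (a n) := by
      refine hmax n _ ?_
      rw [add_sub_cancel_left, norm_mul, Complex.norm_real, Real.norm_of_nonneg (hr0 n).le,
        div_eq_inv_mul]
      exact mul_lt_mul_of_pos_left ht (hr0 n)
    calc r n * broG G f (a n + (r n : ℂ) * t) ≤ r n * (2 * broG G f (a n)) :=
          mul_le_mul_of_nonneg_left h1 (hr0 n).le
      _ = 2 * (r n * broG G f (a n)) := by ring
      _ = 2 := by
          rw [hr]
          simp only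
          rw [inv_mul_cancel₀ (ha n).ne', mul_one]
  let U : Ultrafilter ℕ := Ultrafilter.of atTop
  have hU : (U : Filter ℕ) ≤ atTop := Ultrafilter.of_le _
  obtain ⟨g, hg⟩ := ultra_limit_maps (G := G) U F 2 (by norm_num) (by
    intro R
    have h1 : ∀ᶠ n : ℕ in atTop, R ≤ n := by
      obtain ⟨N, hN⟩ := exists_nat_ge R
      filter_upwards [eventually_ge_atTop N] with n hn
      exact hN.trans (by exact_mod_cast hn)
    filter_upwards [hU h1] with n hn t ht
    refine ⟨hFh n t, fun y hy i => ?_⟩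
    rw [← bro_phi_eq (hFh n t) hy i]
    refine bro_phi_le (hFle n t ?_) i
    have ht' : ‖t‖ < R := by simpa using ht
    have hn' : R ≤ (n : ℝ) := hn
    linarith)
  have hgh : ∀ t, G.HolAt g t := fun t => (hg t).1
  -- the values of the forms converge
  have hlim : ∀ t i, Tendsto (fun n => broPhi G (F n) t i) U (𝓝 (broPhi G g t i)) := by
    intro t i
    obtain ⟨-, h1, h2⟩ := hg t
    have hy : g t ∈ (G.ch (g t)).source := G.mem _
    have h3 : ∀ᶠ n in (U : Filter ℕ), F n t ∈ (G.ch (g t)).source :=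
      h1.eventually ((G.ch (g t)).open_source.mem_nhds hy)
    have h4 : Tendsto (fun n => G.ch (g t) (F n t)) U (𝓝 (G.ch (g t) (g t))) :=
      ((G.ch (g t)).continuousAt hy).tendsto.comp h1
    have h5 := (G.hol (g t) i _ ((G.ch _).map_source hy)
      (fderiv ℂ (G.loc (g t) g) t 1)).continuousAt
    have h6 : Tendsto (fun n => G.S (g t) i (G.ch (g t) (F n t))
        (fderiv ℂ (G.loc (g t) (F n)) t 1)) U
        (𝓝 (G.S (g t) i (G.ch (g t) (g t)) (fderiv ℂ (G.loc (g t) g) t 1))) :=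
      h5.tendsto.comp (h4.prodMk_nhds (h2 (g t) hy))
    refine h6.congr' ?_
    filter_upwards [h3] with n hn
    rw [bro_phi_eq (hFh n t) hn i]
  have hlimG : ∀ t, Tendsto (fun n => broG G (F n) t) U (𝓝 (broG G g t)) := by
    intro t
    unfold broG
    refine tendsto_finsetSum _ fun i _ => ?_
    exact (hlim t i).norm.rpow_const (Or.inr (by positivity))
  have hg0 : broG G g 0 = 1 := by
    have h1 := hlimG 0
    simp only [hF0] at h1
    exact (tendsto_nhds_unique h1 tendsto_const_nhds)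
  have hg2 : ∀ t, broG G g t ≤ 2 := by
    intro t
    refine le_of_tendsto (hlimG t) ?_
    have h1 : ∀ᶠ n : ℕ in atTop, ‖t‖ < (n : ℝ) + 1 := by
      obtain ⟨N, hN⟩ := exists_nat_ge ‖t‖
      filter_upwards [eventually_ge_atTop N] with n hn
      have h2 : (N : ℝ) ≤ n := by exact_mod_cast hn
      linarith
    filter_upwards [hU h1] with n hn
    exact hFle n t hn
  -- the final map
  have hkh : ∀ t, G.HolAt (fun z => g (0 + ((1 / 2 : ℝ) : ℂ) * z)) t := fun t => bro_hol (hgh _)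
  have hkG : ∀ t, broG G (fun z => g (0 + ((1 / 2 : ℝ) : ℂ) * z)) t =
      (1 / 2 : ℝ) * broG G g (0 + ((1 / 2 : ℝ) : ℂ) * t) := fun t =>
    broG_affine (by norm_num) (hgh _)
  refine ⟨fun z => g (0 + ((1 / 2 : ℝ) : ℂ) * z), hkh, ?_, ?_⟩
  · intro t y hy i
    rw [← bro_phi_eq (hkh t) hy i]
    have h1 : broG G (fun z => g (0 + ((1 / 2 : ℝ) : ℂ) * z)) t ≤ 1 := by
      rw [hkG]
      have := hg2 (0 + ((1 / 2 : ℝ) : ℂ) * t)
      linarith
    have h2 := bro_phi_le h1 i
    rwa [one_pow] at h2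
  · intro y hy
    by_contra hno
    push Not at hno
    have h1 : broG G (fun z => g (0 + ((1 / 2 : ℝ) : ℂ) * z)) 0 = 0 := by
      unfold broG
      refine Finset.sum_eq_zero fun i _ => ?_
      rw [bro_phi_eq (hkh 0) hy i, hno i, norm_zero, Real.zero_rpow]
      have := G.deg_pos i
      positivity
    rw [hkG, mul_zero, add_zero, hg0] at h1
    norm_num at h1

end Pool.Agent.SS
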