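import Pool.Agent.Lib_helper64.SS.Base
import Pool.Agent.Lib_helper64.SS.Notions
-- NEEDS:

set_option autoImplicit false
set_option linter.unusedSectionVars false

open Filter Topology Metric Set
open scoped Manifold ContDiff

namespace Pool.Agent.SS

/-- COV: a nonnegative function with small averages over squares on a minimal system vanishes -/
theorem cov_zero {T V : Type} [TopologicalSpace T] [CompactSpace T] [NormedAddCommGroup V]
    [NormedSpace ℂ V] (act : V → T → T) (hadd : ∀ s t F, act (s + t) F = act s (act t F))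
    (hc : ∀ t, Continuous (act t))
    (hmin : ∀ (F : T) (U : Set T), IsOpen U → U.Nonempty → ∃ t, act t F ∈ U)
    (ρ : T → ℝ) (hρ : Continuous ρ) (h0 : ∀ F, 0 ≤ ρ F) (v : V)
    (hcz : ∀ F, Continuous fun z : ℂ => ρ (act (z • v) F)) (C : ℝ)
    (h : ∀ (F : T) (R : ℝ), 0 ≤ R → ∫ x in (0 : ℝ)..R, ∫ y in (0 : ℝ)..R,
      ρ (act (((x : ℂ) + y * Complex.I) • v) F) ≤ C * R) :
    ∀ F, ρ F = 0 := by
  by_contra hcon
  push Not at hcon
  obtain ⟨F1, hF1⟩ := hcon
  have hpos : 0 < ρ F1 := lt_of_le_of_ne (h0 F1) (Ne.symm hF1)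
  set ε := ρ F1 / 2 with hε
  have hε0 : 0 < ε := half_pos hpos
  set U : Set T := {F | ε < ρ F} with hU
  have hUo : IsOpen U := isOpen_lt continuous_const hρ
  have hUne : U.Nonempty := ⟨F1, half_lt_self hpos⟩
  obtain ⟨s, hs⟩ := isCompact_univ.elim_finite_subcover (fun t : V => act t ⁻¹' U)
    (fun t => hUo.preimage (hc t)) (by
      intro F _
      obtain ⟨t, ht⟩ := hmin F U hUo hUne
      exact mem_iUnion.2 ⟨t, ht⟩)
  -- the sum is at least `ε`
  have hsum : ∀ z : ℂ, ε ≤ ∑ t ∈ s, ρ (act (z • v) (act t F1)) := by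
    intro z
    have h1 := hs (mem_univ (act (z • v) F1))
    rw [mem_iUnion₂] at h1
    obtain ⟨t, ht, htU⟩ := h1
    have h2 : ε < ρ (act t (act (z • v) F1)) := htU
    rw [← hadd, add_comm, hadd] at h2
    exact h2.le.trans (Finset.single_le_sum
      (f := fun t => ρ (act (z • v) (act t F1))) (fun t _ => h0 _) ht)
  set f : V → ℝ → ℝ → ℝ := fun t x y => ρ (act (((x : ℂ) + y * Complex.I) • v) (act t F1))
    with hf
  have hfc : ∀ t, Continuous (Function.uncurry (f t)) := by
    intro t
    have h1 : Continuous (fun p : ℝ × ℝ => (p.1 : ℂ) + p.2 * Complex.I) := by fun_prop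
    exact (hcz (act t F1)).comp h1
  have hfy : ∀ t x, Continuous (f t x) := by
    intro t x
    exact (hfc t).comp (continuous_const.prodMk continuous_id)
  have hfx : ∀ (t : V) (R : ℝ), Continuous fun x => ∫ y in (0 : ℝ)..R, f t x y := by
    intro t R
    exact intervalIntegral.continuous_parametric_intervalIntegral_of_continuous' (hfc t) 0 R
  have key : ∀ R : ℝ, 0 ≤ R → R * (R * ε) ≤ s.card * (C * R) := by
    intro R hR
    have h1 : ∫ x in (0 : ℝ)..R, ∫ y in (0 : ℝ)..R, ∑ t ∈ s, f t x y =
        ∑ t ∈ s, ∫ x in (0 : ℝ)..R, ∫ y in (0 : ℝ)..R, f t x y := by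
      rw [← intervalIntegral.integral_finset_sum]
      · apply intervalIntegral.integral_congr
        intro x _
        exact intervalIntegral.integral_finset_sum (fun t _ => (hfy t x).intervalIntegrable _ _)
      · intro t _
        exact (hfx t R).intervalIntegrable _ _
    have h2 : ∑ t ∈ s, ∫ x in (0 : ℝ)..R, ∫ y in (0 : ℝ)..R, f t x y ≤ s.card * (C * R) := by
      rw [← nsmul_eq_mul, ← Finset.sum_const]
      exact Finset.sum_le_sum fun t _ => h (act t F1) R hR
    have hsc : Continuous (Function.uncurry fun x y : ℝ => ∑ t ∈ s, f t x y) := by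
      have : (Function.uncurry fun x y : ℝ => ∑ t ∈ s, f t x y) =
          fun p => ∑ t ∈ s, Function.uncurry (f t) p := rfl
      rw [this]
      exact continuous_finset_sum s fun t _ => hfc t
    have h3 : ∫ x in (0 : ℝ)..R, (R * ε) ≤
        ∫ x in (0 : ℝ)..R, ∫ y in (0 : ℝ)..R, ∑ t ∈ s, f t x y := by
      apply intervalIntegral.integral_mono_on hR (intervalIntegrable_const)
        ((intervalIntegral.continuous_parametric_intervalIntegral_of_continuous'
          hsc 0 R).intervalIntegrable _ _)
      intro x _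
      have h4 : ∫ y in (0 : ℝ)..R, ε ≤ ∫ y in (0 : ℝ)..R, ∑ t ∈ s, f t x y := by
        apply intervalIntegral.integral_mono_on hR (intervalIntegrable_const)
          ((hsc.comp (continuous_const.prodMk continuous_id)).intervalIntegrable _ _)
        intro y _
        exact hsum _
      simpa using h4
    rw [h1] at h3
    have h5 : ∫ x in (0 : ℝ)..R, (R * ε) = R * (R * ε) := by simp
    rw [h5] at h3
    exact h3.trans h2
  -- contradiction
  set R := (s.card * |C| + 1) / ε with hR
  have hR0 : 0 < R := by positivity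
  have h1 := key R hR0.le
  have h2 : R * ε ≤ s.card * C := by
    have h3 : R * (R * ε) ≤ R * (s.card * C) := by
      calc R * (R * ε) ≤ s.card * (C * R) := h1
        _ = _ := by ring
    exact le_of_mul_le_mul_left h3 hR0
  have h3 : R * ε = s.card * |C| + 1 := by
    rw [hR]
    field_simp
  rw [h3] at h2
  have h4 : (s.card : ℝ) * C ≤ s.card * |C| := mul_le_mul_of_nonneg_left (le_abs_self C) (by positivity)
  linarith

end Pool.Agent.SS
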