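import Pool.Agent.Lib_helper64.SS.Base
import Pool.Agent.Lib_helper64.SS.Notions
-- NEEDS:

/-! Block LOC (helper66): the states near a given state are an analytic function of the point. -/

set_option autoImplicit false
set_option linter.unusedSectionVars false

open Filter Topology Metric Set
open scoped Manifold ContDiff

namespace Pool.Agent.SS

variable {E X : Type} [NormedAddCommGroup E] [NormedSpace ℂ E] [FiniteDimensional ℂ E]
  [TopologicalSpace X] {G : Geo E X}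
  {V : Type} [NormedAddCommGroup V] [NormedSpace ℂ V] [FiniteDimensional ℂ V]

/-- an abstract version of the implicit function theorem for an equation whose derivative in the
second variable is injective -/
theorem loc_implicit {A B C : Type} [NormedAddCommGroup A] [NormedSpace ℂ A] [CompleteSpace A]
    [NormedAddCommGroup B] [NormedSpace ℂ B] [FiniteDimensional ℂ B]
    [NormedAddCommGroup C] [NormedSpace ℂ C] [FiniteDimensional ℂ C]
    (Φ : A × B → C) (a₀ : A) (b₀ : B) (hΦ : AnalyticAt ℂ Φ (a₀, b₀))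
    (hinj : ∀ δ : B, fderiv ℂ Φ (a₀, b₀) (0, δ) = 0 → δ = 0) :
    ∃ v : A → B, AnalyticAt ℂ v a₀ ∧ v a₀ = b₀ ∧
      ∀ᶠ p : A × B in 𝓝 (a₀, b₀), Φ p = Φ (a₀, b₀) → p.2 = v p.1 := by
  have hB : CompleteSpace B := FiniteDimensional.complete ℂ B
  have hC : CompleteSpace C := FiniteDimensional.complete ℂ C
  set D : B →L[ℂ] C := (fderiv ℂ Φ (a₀, b₀)).comp (ContinuousLinearMap.inr ℂ A B) with hD
  have hDker : LinearMap.ker D.toLinearMap = ⊥ := by
    rw [LinearMap.ker_eq_bot']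
    intro δ hδ
    exact hinj δ hδ
  obtain ⟨π', hπ'⟩ := D.toLinearMap.exists_leftInverse_of_injective hDker
  set π : C →L[ℂ] B := LinearMap.toContinuousLinearMap π' with hπ
  have hπD : ∀ δ, π (D δ) = δ := fun δ => by
    have := congrArg (fun f => f δ) hπ'
    exact this
  set h : A × B → B := fun p => π (Φ p) with hh
  have han : AnalyticAt ℂ h (a₀, b₀) := (π.analyticAt _).comp hΦ
  have hcd : ContDiffAt ℂ ω h (a₀, b₀) := han.contDiffAt
  have hfd : fderiv ℂ h (a₀, b₀) = π.comp (fderiv ℂ Φ (a₀, b₀)) := by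
    exact (π.hasFDerivAt.comp (a₀, b₀) hΦ.differentiableAt.hasFDerivAt).fderiv
  have hinv : (fderiv ℂ h (a₀, b₀) ∘L .inr ℂ A B).IsInvertible := by
    have : fderiv ℂ h (a₀, b₀) ∘L .inr ℂ A B = ContinuousLinearMap.id ℂ B := by
      ext δ
      rw [hfd]
      exact hπD δ
    rw [this]
    exact ⟨ContinuousLinearEquiv.refl ℂ B, rfl⟩
  have hω : (ω : WithTop ℕ∞) ≠ 0 := by decide
  refine ⟨hcd.implicitFunction hω hinv, ?_, hcd.implicitFunction_apply_self hω hinv, ?_⟩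
  · have := hcd.contDiffAt_implicitFunction hω hinv
    exact this.analyticAt
  · filter_upwards [hcd.eventually_apply_eq_iff_implicitFunction hω hinv] with p hp hpp
    have h1 : h p = h (a₀, b₀) := by
      simp only [hh, hpp]
    exact (hp.1 h1).symm

/-- LOC: the states near a given state are an analytic function of the point -/
theorem loc_state (c : V → Fin G.L → ℂ) (hc : ∀ u, c u = 0 → u = 0) {y : X} {ξ₀ : E}
    (hξ : ξ₀ ∈ (G.ch y).target) {b₀ : V →L[ℂ] E} (hb : G.State c y ξ₀ b₀) :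
    ∃ v : E → V →L[ℂ] E, AnalyticAt ℂ v ξ₀ ∧ v ξ₀ = b₀ ∧
      ∀ᶠ p : E × (V →L[ℂ] E) in 𝓝 (ξ₀, b₀), G.State c y p.1 p.2 → p.2 = v p.1 := by
  classical
  have hcE : CompleteSpace E := FiniteDimensional.complete ℂ E
  set bs := Module.finBasis ℂ V with hbs
  set Φ : E × (V →L[ℂ] E) → (Fin G.L × Fin (Module.finrank ℂ V) → ℂ) :=
    fun p ij => G.S y ij.1 p.1 (p.2 (bs ij.2)) with hΦdef
  have hΦ : AnalyticAt ℂ Φ (ξ₀, b₀) := by
    refine AnalyticAt.pi fun ij => ?_
    have h1 : AnalyticAt ℂ (fun p : E × (V →L[ℂ] E) => (p.1, p.2 (bs ij.2))) (ξ₀, b₀) :=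
      analyticAt_fst.prod
        (((ContinuousLinearMap.apply ℂ E (bs ij.2)).comp
          (ContinuousLinearMap.snd ℂ E (V →L[ℂ] E))).analyticAt (ξ₀, b₀))
    have h2 : AnalyticAt ℂ (fun p : E × E => G.S y ij.1 p.1 p.2)
        ((fun p : E × (V →L[ℂ] E) => (p.1, p.2 (bs ij.2))) (ξ₀, b₀)) :=
      G.hol y ij.1 ξ₀ hξ (b₀ (bs ij.2))
    exact AnalyticAt.comp (g := fun p : E × E => G.S y ij.1 p.1 p.2)
      (f := fun p : E × (V →L[ℂ] E) => (p.1, p.2 (bs ij.2))) h2 h1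
  have hder : ∀ (δ : V →L[ℂ] E) (ij : Fin G.L × Fin (Module.finrank ℂ V)),
      fderiv ℂ Φ (ξ₀, b₀) (0, δ) ij =
        fderiv ℂ (G.S y ij.1 ξ₀) (b₀ (bs ij.2)) (δ (bs ij.2)) := by
    intro δ ij
    have h1 : HasFDerivAt (fun b : V →L[ℂ] E => Φ (ξ₀, b))
        ((fderiv ℂ Φ (ξ₀, b₀)).comp (ContinuousLinearMap.inr ℂ E (V →L[ℂ] E))) b₀ := by
      have h2 : HasFDerivAt (fun b : V →L[ℂ] E => (ξ₀, b))
          (ContinuousLinearMap.inr ℂ E (V →L[ℂ] E)) b₀ := hasFDerivAt_prodMk_right ξ₀ b₀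
      exact (hΦ.differentiableAt.hasFDerivAt).comp b₀ h2
    have h3 := (hasFDerivAt_pi'.1 h1) ij
    have h4 : HasFDerivAt (fun b : V →L[ℂ] E => G.S y ij.1 ξ₀ (b (bs ij.2)))
        ((fderiv ℂ (G.S y ij.1 ξ₀) (b₀ (bs ij.2))).comp
          (ContinuousLinearMap.apply ℂ E (bs ij.2))) b₀ := by
      have h5 : HasFDerivAt (fun b : V →L[ℂ] E => b (bs ij.2))
          (ContinuousLinearMap.apply ℂ E (bs ij.2)) b₀ :=
        (ContinuousLinearMap.apply ℂ E (bs ij.2)).hasFDerivAt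
      exact (G.S_an hξ ij.1 (b₀ (bs ij.2))).differentiableAt.hasFDerivAt.comp b₀ h5
    have h6 := congrArg (fun f => f δ) (h3.unique h4)
    exact h6
  obtain ⟨v, hv1, hv2, hv3⟩ := loc_implicit Φ ξ₀ b₀ hΦ (by
    intro δ hδ
    have h0 : ∀ j, δ (bs j) = 0 := by
      intro j
      refine G.inj y ξ₀ hξ (b₀ (bs j)) ?_ (δ (bs j)) fun i => ?_
      · intro h
        exact bs.ne_zero j (hb.ne_zero hc hξ h)
      · rw [← hder δ (i, j), hδ]
        rfl
    have h1 : δ.toLinearMap = 0 := bs.ext fun j => by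
      rw [LinearMap.zero_apply]
      exact h0 j
    ext u
    exact congrArg (fun f => f u) h1)
  refine ⟨v, hv1, hv2, ?_⟩
  filter_upwards [hv3] with p hp hs
  refine hp ?_
  funext ij
  simp only [hΦdef]
  rw [hs ij.1 (bs ij.2), hb ij.1 (bs ij.2)]

end Pool.Agent.SS
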