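import Pool.Agent.Lib_helper64.SS.Base
import Pool.Agent.Lib_helper64.SS.Notions
import Pool.Agent.Lib_helper64.SS.B.OSG
-- NEEDS: OSG

set_option autoImplicit false
set_option linter.unusedSectionVars false

open Filter Topology Metric Set
open scoped Manifold ContDiff

namespace Pool.Agent.SS

/-- the parameters -/
abbrev ode_K : Type := Set.Icc (0 : ℝ) 1

/-- integration -/
noncomputable def ode_J (F : Type) [NormedAddCommGroup F] [NormedSpace ℂ F] :
    C(ode_K, F) →L[ℂ] F :=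
  LinearMap.mkContinuous
    { toFun := fun φ => ∫ θ in (0 : ℝ)..1, IccExtend zero_le_one φ θ
      map_add' := by
        intro φ φ'
        rw [← intervalIntegral.integral_add]
        · apply intervalIntegral.integral_congr
          intro θ _
          simp only [IccExtend, Function.comp_apply, ContinuousMap.add_apply]
        · exact (φ.continuous.Icc_extend' (h := zero_le_one)).intervalIntegrable _ _
        · exact (φ'.continuous.Icc_extend' (h := zero_le_one)).intervalIntegrable _ _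
      map_smul' := by
        intro c φ
        rw [RingHom.id_apply, ← intervalIntegral.integral_smul]
        apply intervalIntegral.integral_congr
        intro θ _
        simp only [IccExtend, Function.comp_apply, ContinuousMap.smul_apply] } 1
    (by
      intro φ
      have h1 := intervalIntegral.norm_integral_le_of_norm_le_const (a := (0 : ℝ))
        (b := 1) (C := ‖φ‖) (f := fun θ => IccExtend zero_le_one φ θ)
        (by intro θ _; exact φ.norm_coe_le_norm _)
      simpa using h1)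

theorem ode_J_apply {F : Type} [NormedAddCommGroup F] [NormedSpace ℂ F] (φ : C(ode_K, F)) :
    ode_J F φ = ∫ θ in (0 : ℝ)..1, IccExtend zero_le_one φ θ := rfl

/-- a continuous family of continuous functions which is pointwise holomorphic is holomorphic -/
theorem ode_weak {F : Type} [NormedAddCommGroup F] [NormedSpace ℂ F] [CompleteSpace F]
    (h : ℂ → C(ode_K, F)) {ρ : ℝ} (hρ : 0 < ρ) (hc : ContinuousOn h (closedBall 0 ρ))
    (hd : ∀ θ, DifferentiableOn ℂ (fun z => h z θ) (closedBall 0 ρ)) :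
    DifferentiableAt ℂ h 0 := by
  have hci : CircleIntegrable h 0 ρ :=
    (hc.mono sphere_subset_closedBall).circleIntegrable hρ.le
  have hps := hasFPowerSeriesOn_cauchy_integral (R := ⟨ρ, hρ.le⟩) hci (by exact_mod_cast hρ)
  have han := hps.analyticAt
  refine han.differentiableAt.congr_of_eventuallyEq ?_
  filter_upwards [ball_mem_nhds (0 : ℂ) hρ] with z hz
  ext θ
  have h1 := (hd θ).circleIntegral_sub_inv_smul hz
  have hcz : ContinuousOn (fun w : ℂ => (w - z)⁻¹ • h w) (sphere 0 ρ) := by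
    have hci : ContinuousOn (fun w : ℂ => (w - z)⁻¹) (sphere 0 ρ) := by
      refine ContinuousOn.inv₀ (continuousOn_id.sub continuousOn_const) ?_
      intro w hw h0
      rw [sub_eq_zero] at h0
      rw [mem_sphere] at hw
      rw [mem_ball] at hz
      have : w = z := h0
      rw [this] at hw
      linarith
    exact hci.smul (hc.mono sphere_subset_closedBall)
  have h2 : (∮ w in C(0, ρ), (w - z)⁻¹ • h w) θ = ∮ w in C(0, ρ), (w - z)⁻¹ • h w θ := by
    have h3 := (ContinuousMap.evalCLM ℂ θ : C(ode_K, F) →L[ℂ] F).intervalIntegral_comp_comm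
      (hcz.circleIntegrable hρ.le).out
    rw [circleIntegral, circleIntegral]
    exact h3.symm
  show h z θ = ((2 * Real.pi * Complex.I : ℂ)⁻¹ • ∮ w in C(0, ρ), (w - z)⁻¹ • h w) θ
  rw [ContinuousMap.smul_apply, h2, h1, smul_smul, inv_mul_cancel₀, one_smul]
  simp [Real.pi_ne_zero]

theorem ode_shift {F : Type} [NormedAddCommGroup F] [NormedSpace ℂ F] {E : Type}
    [NormedAddCommGroup E] [NormedSpace ℂ E] (f : E → F) (x v : E) (z : ℂ)
    (h : DifferentiableAt ℂ (fun w : ℂ => f ((x + z • v) + w • v)) 0) :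
    DifferentiableAt ℂ (fun w : ℂ => f (x + w • v)) z := by
  have h1 : DifferentiableAt ℂ (fun w : ℂ => w - z) z := differentiableAt_id.sub_const z
  have h0 : (fun w : ℂ => w - z) z = 0 := by simp
  have h2 : DifferentiableAt ℂ (fun w : ℂ => f ((x + z • v) + w • v)) ((fun w : ℂ => w - z) z) := by
    rw [h0]; exact h
  have h3 := DifferentiableAt.comp (f := fun w : ℂ => w - z) z h2 h1
  have h4 : (fun w : ℂ => f ((x + z • v) + w • v)) ∘ (fun w : ℂ => w - z) =
      fun w : ℂ => f (x + w • v) := by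
    funext w
    simp only [Function.comp_apply, sub_smul]
    congr 1
    abel
  rwa [h4] at h3

/-- holomorphic along the lines -/
def ode_L {E F : Type} [NormedAddCommGroup E] [NormedSpace ℂ E] [NormedAddCommGroup F]
    [NormedSpace ℂ F] (f : E → F) (U : Set E) : Prop :=
  ∀ x ∈ U, ∀ v : E, DifferentiableAt ℂ (fun z : ℂ => f (x + z • v)) 0

theorem ode_line {E : Type} [NormedAddCommGroup E] [NormedSpace ℂ E] {U : Set E} (hU : IsOpen U)
    {x : E} (hx : x ∈ U) (v : E) : ∃ ρ > 0, ∀ z ∈ closedBall (0 : ℂ) ρ, x + z • v ∈ U := by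
  have hcont : Continuous (fun z : ℂ => x + z • v) := by fun_prop
  have h1 : (fun z : ℂ => x + z • v) ⁻¹' U ∈ 𝓝 (0 : ℂ) :=
    (hU.preimage hcont).mem_nhds (by simpa using hx)
  exact Metric.nhds_basis_closedBall.mem_iff.1 h1

section

variable {P V : Type} [NormedAddCommGroup P] [NormedSpace ℂ P] [NormedAddCommGroup V]
    [NormedSpace ℂ V]

/-- the domain -/
def ode_D (p₀ : P) (a b : ℝ) : Set (P × V) := ball p₀ a ×ˢ ball 0 b

theorem ode_D_open (p₀ : P) (a b : ℝ) : IsOpen (ode_D (V := V) p₀ a b) :=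
  isOpen_ball.prod isOpen_ball

theorem ode_D_smul {p₀ : P} {a b : ℝ} {q : P × V} (hq : q ∈ ode_D p₀ a b) {σ : ℝ}
    (hσ : σ ∈ Icc (0 : ℝ) 1) : (q.1, (σ : ℂ) • q.2) ∈ ode_D p₀ a b := by
  refine ⟨hq.1, ?_⟩
  have h2 := hq.2
  rw [mem_ball_zero_iff] at h2 ⊢
  rw [norm_smul]
  have : ‖(σ : ℂ)‖ ≤ 1 := by
    rw [Complex.norm_real, Real.norm_of_nonneg hσ.1]
    exact hσ.2
  exact (mul_le_of_le_one_left (norm_nonneg _) this).trans_lt h2

/-- the ray integral -/
theorem ode_int [CompleteSpace P] {p₀ : P} {a b : ℝ} (H : P × V → V →L[ℂ] P)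
    (hc : ContinuousOn H (ode_D p₀ a b)) (hl : ode_L H (ode_D p₀ a b)) :
    ContinuousOn (fun q : P × V => ∫ σ in (0 : ℝ)..1, H (q.1, (σ : ℂ) • q.2) q.2)
      (ode_D p₀ a b) ∧
    ode_L (fun q : P × V => ∫ σ in (0 : ℝ)..1, H (q.1, (σ : ℂ) • q.2) q.2) (ode_D p₀ a b) := by
  classical
  set D : Set (P × V) := ode_D p₀ a b with hD
  have hDo : IsOpen D := ode_D_open p₀ a b
  have hcl : ∀ σ : ℝ, Continuous fun q : P × V => (q.1, (σ : ℂ) • q.2) := by
    intro σ
    fun_prop
  let g : P × V → C(ode_K, P) := fun q => if hq : q ∈ D then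
    ⟨fun σ => H (q.1, ((σ : ℝ) : ℂ) • q.2) q.2, by
      have h1 : Continuous fun σ : ode_K => H (q.1, ((σ : ℝ) : ℂ) • q.2) := by
        refine hc.comp_continuous (f := fun σ : ode_K => (q.1, ((σ : ℝ) : ℂ) • q.2)) ?_ ?_
        · fun_prop
        · intro σ
          exact ode_D_smul hq σ.2
      exact h1.clm_apply continuous_const⟩ else 0
  have hg : ∀ q ∈ D, ∀ σ : ode_K, g q σ = H (q.1, ((σ : ℝ) : ℂ) • q.2) q.2 := by
    intro q hq σ
    simp only [g, dif_pos hq, ContinuousMap.coe_mk]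
  have hJ : ∀ q ∈ D, ode_J P (g q) = ∫ σ in (0 : ℝ)..1, H (q.1, (σ : ℂ) • q.2) q.2 := by
    intro q hq
    rw [ode_J_apply]
    apply intervalIntegral.integral_congr
    intro σ hσ
    rw [uIcc_of_le zero_le_one] at hσ
    simp only
    rw [IccExtend_of_mem zero_le_one _ hσ, hg q hq]
  have hgc : ContinuousOn g D := by
    rw [continuousOn_iff_continuous_domRestrict]
    apply ContinuousMap.continuous_of_continuous_uncurry
    have : (Function.uncurry fun (q : D) (σ : ode_K) => (D.domRestrict g q) σ) =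
        fun p : D × ode_K => H (p.1.1.1, ((p.2 : ℝ) : ℂ) • p.1.1.2) p.1.1.2 := by
      funext p
      exact hg p.1 p.1.2 p.2
    rw [this]
    have h1 : Continuous fun p : D × ode_K => H (p.1.1.1, ((p.2 : ℝ) : ℂ) • p.1.1.2) := by
      refine hc.comp_continuous (f := fun p : D × ode_K =>
        (p.1.1.1, ((p.2 : ℝ) : ℂ) • p.1.1.2)) ?_ ?_
      · fun_prop
      · intro p
        exact ode_D_smul p.1.2 p.2.2
    exact h1.clm_apply (by fun_prop)
  refine ⟨((ode_J P).continuous.comp_continuousOn hgc).congr fun q hq => (hJ q hq).symm, ?_⟩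
  intro q hq v
  obtain ⟨ρ, hρ, hρb⟩ := ode_line hDo hq v
  have h1 : DifferentiableAt ℂ (fun z : ℂ => g (q + z • v)) 0 := by
    apply ode_weak _ hρ
    · exact hgc.comp (by fun_prop) fun z hz => hρb z hz
    · intro σ z hz
      have h2 : DifferentiableAt ℂ (fun w : ℂ => H ((q.1, ((σ : ℝ) : ℂ) • q.2) +
          w • (v.1, ((σ : ℝ) : ℂ) • v.2))) z := by
        apply ode_shift
        apply hl
        have : (q.1, ((σ : ℝ) : ℂ) • q.2) + z • (v.1, ((σ : ℝ) : ℂ) • v.2) =
            ((q + z • v).1, ((σ : ℝ) : ℂ) • (q + z • v).2) := by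
          ext1
          · rfl
          · simp only [Prod.snd_add, Prod.smul_snd, smul_add]
            rw [smul_comm]
        rw [this]
        exact ode_D_smul (hρb z hz) σ.2
      have h3 : DifferentiableAt ℂ (fun w : ℂ => (q + w • v).2) z := by
        simp only [Prod.snd_add, Prod.smul_snd]
        fun_prop
      have h4 := h2.clm_apply h3
      have h5 : DifferentiableWithinAt ℂ (fun w : ℂ => g (q + w • v) σ) (closedBall 0 ρ) z := by
        refine h4.differentiableWithinAt.congr ?_ ?_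
        · intro w hw
          rw [hg _ (hρb w hw)]
          congr 2
          ext1
          · rfl
          · simp only [Prod.snd_add, Prod.smul_snd, smul_add]
            rw [smul_comm]
        · rw [hg _ (hρb z hz)]
          congr 2
          ext1
          · rfl
          · simp only [Prod.snd_add, Prod.smul_snd, smul_add]
            rw [smul_comm]
      exact h5
  have h2 : DifferentiableAt ℂ (fun z : ℂ => ode_J P (g (q + z • v))) 0 :=
    (ode_J P).differentiableAt.comp (0 : ℂ) h1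
  refine h2.congr_of_eventuallyEq ?_
  filter_upwards [closedBall_mem_nhds (0 : ℂ) hρ] with z hz
  exact (hJ _ (hρb z hz)).symm

/-- the Picard operator -/
noncomputable def ode_T (f : P → V →L[ℂ] P) (Ψ : P × V → P) : P × V → P := fun q =>
  q.1 + ∫ σ in (0 : ℝ)..1, f (Ψ (q.1, (σ : ℂ) • q.2)) q.2

/-- the invariant -/
structure ode_I (p₀ : P) (a b r : ℝ) (Ψ : P × V → P) : Prop where
  c : ContinuousOn Ψ (ode_D p₀ a b)
  l : ode_L Ψ (ode_D p₀ a b)
  m : ∀ q ∈ ode_D p₀ a b, Ψ q ∈ closedBall p₀ r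

/-- the constants -/
structure ode_C (f : P → V →L[ℂ] P) (p₀ : P) (a b r K M : ℝ) : Prop where
  a0 : 0 < a
  b0 : 0 < b
  r0 : 0 < r
  M0 : 0 ≤ M
  K0 : 0 ≤ K
  an : ∀ p ∈ closedBall p₀ r, AnalyticAt ℂ f p
  lip : ∀ p ∈ closedBall p₀ r, ∀ p' ∈ closedBall p₀ r, ‖f p - f p'‖ ≤ K * ‖p - p'‖
  bd : ∀ p ∈ closedBall p₀ r, ‖f p‖ ≤ M
  ha : a ≤ r / 2
  hb : M * b ≤ r / 2
  hK : K * b ≤ 1 / 2

theorem ode_comp {f : P → V →L[ℂ] P} {p₀ : P} {a b r K M : ℝ} (hC : ode_C f p₀ a b r K M)
    {Ψ : P × V → P} (hI : ode_I p₀ a b r Ψ) :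
    ContinuousOn (fun q => f (Ψ q)) (ode_D p₀ a b) ∧ ode_L (fun q => f (Ψ q)) (ode_D p₀ a b) := by
  constructor
  · have h1 : ContinuousOn f (closedBall p₀ r) := fun p hp => (hC.an p hp).continuousAt.continuousWithinAt
    exact h1.comp hI.c hI.m
  · intro q hq v
    have h1 := hI.l q hq v
    have h0 : (fun z : ℂ => Ψ (q + z • v)) 0 = Ψ q := by simp
    have h2 : DifferentiableAt ℂ f ((fun z : ℂ => Ψ (q + z • v)) 0) := by
      rw [h0]
      exact (hC.an _ (hI.m q hq)).differentiableAt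
    exact DifferentiableAt.comp (f := fun z : ℂ => Ψ (q + z • v)) (0 : ℂ) h2 h1

theorem ode_norm {f : P → V →L[ℂ] P} {p₀ : P} {a b r K M : ℝ} (hC : ode_C f p₀ a b r K M)
    {Ψ : P × V → P} (hI : ode_I p₀ a b r Ψ) {q : P × V} (hq : q ∈ ode_D p₀ a b) :
    ‖∫ σ in (0 : ℝ)..1, f (Ψ (q.1, (σ : ℂ) • q.2)) q.2‖ ≤ M * b := by
  have h1 := intervalIntegral.norm_integral_le_of_norm_le_const (a := (0 : ℝ)) (b := 1)
    (C := M * b) (f := fun σ : ℝ => f (Ψ (q.1, (σ : ℂ) • q.2)) q.2) (by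
      intro σ hσ
      rw [uIoc_of_le zero_le_one] at hσ
      have h2 := hC.bd _ (hI.m _ (ode_D_smul hq (Ioc_subset_Icc_self hσ)))
      have h3 : ‖q.2‖ ≤ b := by
        have := hq.2
        rw [mem_ball_zero_iff] at this
        exact this.le
      exact (ContinuousLinearMap.le_opNorm _ _).trans
        (mul_le_mul h2 h3 (norm_nonneg _) hC.M0))
  simpa using h1

theorem ode_step [CompleteSpace P] {f : P → V →L[ℂ] P} {p₀ : P} {a b r K M : ℝ}
    (hC : ode_C f p₀ a b r K M) {Ψ : P × V → P} (hI : ode_I p₀ a b r Ψ) :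
    ode_I p₀ a b r (ode_T f Ψ) := by
  obtain ⟨h1, h2⟩ := ode_comp hC hI
  obtain ⟨h3, h4⟩ := ode_int (fun q => f (Ψ q)) h1 h2
  refine ⟨continuousOn_fst.add h3, ?_, ?_⟩
  · intro q hq v
    have h5 : DifferentiableAt ℂ (fun z : ℂ => (q + z • v).1) 0 := by
      simp only [Prod.fst_add, Prod.smul_fst]
      fun_prop
    exact h5.add (h4 q hq v)
  · intro q hq
    rw [mem_closedBall_iff_norm]
    have h5 := ode_norm hC hI hq
    have h6 : ‖q.1 - p₀‖ ≤ a := by
      have := hq.1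
      rw [mem_ball_iff_norm] at this
      exact this.le
    have h7 : ode_T f Ψ q - p₀ = (q.1 - p₀) +
        ∫ σ in (0 : ℝ)..1, f (Ψ (q.1, (σ : ℂ) • q.2)) q.2 := by
      rw [ode_T]; abel
    rw [h7]
    refine (norm_add_le _ _).trans ?_
    linarith [hC.ha, hC.hb]

theorem ode_cont {f : P → V →L[ℂ] P} {p₀ : P} {a b r K M : ℝ} (hC : ode_C f p₀ a b r K M)
    {Ψ : P × V → P} (hI : ode_I p₀ a b r Ψ) {q : P × V} (hq : q ∈ ode_D p₀ a b) :
    IntervalIntegrable (fun σ : ℝ => f (Ψ (q.1, (σ : ℂ) • q.2)) q.2) MeasureTheory.volume 0 1 := by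
  apply ContinuousOn.intervalIntegrable
  rw [uIcc_of_le zero_le_one]
  have h1 : ContinuousOn (fun σ : ℝ => f (Ψ (q.1, (σ : ℂ) • q.2))) (Icc 0 1) := by
    refine (ode_comp hC hI).1.comp (f := fun σ : ℝ => (q.1, (σ : ℂ) • q.2)) ?_ ?_
    · fun_prop
    · intro σ hσ
      exact ode_D_smul hq hσ
  exact h1.clm_apply continuousOn_const

theorem ode_contr {f : P → V →L[ℂ] P} {p₀ : P} {a b r K M : ℝ} (hC : ode_C f p₀ a b r K M)
    {Ψ Ψ' : P × V → P} (hI : ode_I p₀ a b r Ψ) (hI' : ode_I p₀ a b r Ψ') {c : ℝ}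
    (h : ∀ q ∈ ode_D p₀ a b, ‖Ψ q - Ψ' q‖ ≤ c) {q : P × V} (hq : q ∈ ode_D p₀ a b) :
    ‖ode_T f Ψ q - ode_T f Ψ' q‖ ≤ c / 2 := by
  have hc0 : 0 ≤ c := (norm_nonneg _).trans (h q hq)
  have h1 : ode_T f Ψ q - ode_T f Ψ' q = ∫ σ in (0 : ℝ)..1,
      (f (Ψ (q.1, (σ : ℂ) • q.2)) q.2 - f (Ψ' (q.1, (σ : ℂ) • q.2)) q.2) := by
    rw [intervalIntegral.integral_sub (ode_cont hC hI hq) (ode_cont hC hI' hq), ode_T, ode_T]
    abel
  rw [h1]
  have h2 := intervalIntegral.norm_integral_le_of_norm_le_const (a := (0 : ℝ)) (b := 1)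
    (C := K * c * b) (f := fun σ : ℝ =>
      (f (Ψ (q.1, (σ : ℂ) • q.2)) q.2 - f (Ψ' (q.1, (σ : ℂ) • q.2)) q.2)) (by
      intro σ hσ
      rw [uIoc_of_le zero_le_one] at hσ
      have hm := ode_D_smul hq (Ioc_subset_Icc_self hσ)
      have h2 := hC.lip _ (hI.m _ hm) _ (hI'.m _ hm)
      have h3 : ‖q.2‖ ≤ b := by
        have := hq.2
        rw [mem_ball_zero_iff] at this
        exact this.le
      rw [← _root_.sub_apply]
      refine (ContinuousLinearMap.le_opNorm _ _).trans ?_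
      refine mul_le_mul (h2.trans ?_) h3 (norm_nonneg _) (mul_nonneg hC.K0 hc0)
      exact mul_le_mul_of_nonneg_left (h _ hm) hC.K0)
  have h3 : ‖∫ σ in (0 : ℝ)..1,
      (f (Ψ (q.1, (σ : ℂ) • q.2)) q.2 - f (Ψ' (q.1, (σ : ℂ) • q.2)) q.2)‖ ≤ K * c * b := by
    simpa using h2
  refine h3.trans ?_
  have h4 : K * c * b = (K * b) * c := by ring
  rw [h4]
  have := mul_le_mul_of_nonneg_right hC.hK hc0
  linarith

/-- existence of the fixed point -/
theorem ode_fix [CompleteSpace P] {f : P → V →L[ℂ] P} {p₀ : P} {a b r K M : ℝ}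
    (hC : ode_C f p₀ a b r K M) :
    ∃ Ψ : P × V → P, ode_I p₀ a b r Ψ ∧ ∀ q ∈ ode_D p₀ a b, Ψ q = ode_T f Ψ q := by
  classical
  set D : Set (P × V) := ode_D p₀ a b with hD
  set S : ℕ → P × V → P := fun n => (ode_T f)^[n] (fun q => q.1) with hS
  have hS0 : S 0 = fun q => q.1 := rfl
  have hSs : ∀ n, S (n + 1) = ode_T f (S n) := fun n => by
    simp only [hS, Function.iterate_succ_apply']
  have hI0 : ode_I p₀ a b r (S 0) := by
    rw [hS0]
    refine ⟨continuousOn_fst, ?_, ?_⟩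
    · intro q hq v
      simp only [Prod.fst_add, Prod.smul_fst]
      fun_prop
    · intro q hq
      exact closedBall_subset_closedBall (by linarith [hC.ha, hC.r0])
        (ball_subset_closedBall hq.1)
  have hI : ∀ n, ode_I p₀ a b r (S n) := by
    intro n
    induction n with
    | zero => exact hI0
    | succ n ih => rw [hSs]; exact ode_step hC ih
  have hdist : ∀ n, ∀ q ∈ D, ‖S (n + 1) q - S n q‖ ≤ r / 2 ^ n := by
    intro n
    induction n with
    | zero =>
      intro q hq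
      rw [hSs, hS0]
      have h1 : ode_T f (fun q : P × V => q.1) q - q.1 =
          ∫ σ in (0 : ℝ)..1, f ((fun q : P × V => q.1) (q.1, (σ : ℂ) • q.2)) q.2 := by
        rw [ode_T]; abel
      rw [h1]
      have h2 := ode_norm hC hI0 hq
      rw [hS0] at h2
      refine h2.trans ?_
      have := hC.hb
      have := hC.r0
      simp
      linarith
    | succ n ih =>
      intro q hq
      rw [hSs (n + 1), hSs n]
      have := ode_contr hC (hI (n + 1)) (hI n) ih hq
      rw [hSs n] at this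
      refine this.trans (le_of_eq ?_)
      rw [pow_succ]
      field_simp
  have hgeo : ∀ q ∈ D, ∀ n, dist (S n q) (S (n + 1) q) ≤ (2 * r) / 2 / 2 ^ n := by
    intro q hq n
    rw [dist_comm, dist_eq_norm]
    refine (hdist n q hq).trans (le_of_eq ?_)
    congr 1
    ring
  have hlim : ∀ q ∈ D, ∃ x, Tendsto (fun n => S n q) atTop (𝓝 x) := fun q hq =>
    cauchySeq_tendsto_of_complete (cauchySeq_of_le_geometric_two (hgeo q hq))
  choose! Ψ hΨ using hlim
  have hd2 : ∀ q ∈ D, ∀ n, dist (S n q) (Ψ q) ≤ (2 * r) / 2 ^ n := fun q hq n =>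
    dist_le_of_le_geometric_two_of_tendsto (hgeo q hq) (hΨ q hq) n
  have hpow : Tendsto (fun n : ℕ => (2 * r) / 2 ^ n) atTop (𝓝 0) := by
    have h1 := (tendsto_pow_atTop_nhds_zero_of_lt_one (r := (1 / 2 : ℝ)) (by norm_num)
      (by norm_num)).const_mul (2 * r)
    rw [mul_zero] at h1
    refine h1.congr fun n => ?_
    rw [one_div, inv_pow, div_eq_mul_inv]
  have hunif : TendstoUniformlyOn S Ψ atTop D := by
    rw [Metric.tendstoUniformlyOn_iff]
    intro ε hε
    filter_upwards [hpow.eventually (gt_mem_nhds hε)] with n hn q hq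
    rw [dist_comm]
    exact (hd2 q hq n).trans_lt hn
  have hIΨ : ode_I p₀ a b r Ψ := by
    refine ⟨hunif.continuousOn (Frequently.of_forall fun n => (hI n).c), ?_, ?_⟩
    · intro q hq v
      obtain ⟨ρ, hρ, hρb⟩ := ode_line (ode_D_open (V := V) p₀ a b) hq v
      have h1 : TendstoUniformlyOn (fun n (z : ℂ) => S n (q + z • v))
          (fun z : ℂ => Ψ (q + z • v)) atTop (ball 0 ρ) := by
        have := hunif.comp (fun z : ℂ => q + z • v)
        refine this.mono ?_
        intro z hz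
        exact hρb z (ball_subset_closedBall hz)
      have h2 := h1.tendstoLocallyUniformlyOn.differentiableOn
        (Eventually.of_forall fun n z hz => by
          exact (ode_shift (S n) q v z ((hI n).l _
            (hρb z (ball_subset_closedBall hz)) v)).differentiableWithinAt) isOpen_ball
      exact h2.differentiableAt (ball_mem_nhds 0 hρ)
    · intro q hq
      exact isClosed_closedBall.mem_of_tendsto (hΨ q hq)
        (Eventually.of_forall fun n => (hI n).m q hq)
  refine ⟨Ψ, hIΨ, ?_⟩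
  intro q hq
  have h1 : Tendsto (fun n => S (n + 1) q) atTop (𝓝 (Ψ q)) :=
    (hΨ q hq).comp (tendsto_add_atTop_nat 1)
  have h2 : Tendsto (fun n => S (n + 1) q) atTop (𝓝 (ode_T f Ψ q)) := by
    rw [tendsto_iff_dist_tendsto_zero]
    refine squeeze_zero (fun _ => dist_nonneg) (fun n => ?_) hpow
    rw [hSs, dist_eq_norm]
    have h3 := ode_contr hC (hI n) hIΨ (c := (2 * r) / 2 ^ n)
      (fun q hq => by rw [← dist_eq_norm]; exact hd2 q hq n) hq
    refine h3.trans ?_
    have : 0 ≤ (2 * r) / 2 ^ n := by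
      have := hC.r0
      positivity
    linarith
  exact tendsto_nhds_unique h1 h2

end

/-- primitives on a disc -/
theorem ode_prim {P : Type} [NormedAddCommGroup P] [NormedSpace ℂ P] [CompleteSpace P]
    (h : ℂ → P) (ρ : ℝ) (hd : DifferentiableOn ℂ h (ball 0 ρ)) (τ : ℂ) (hτ : τ ∈ ball (0 : ℂ) ρ) :
    HasDerivAt (fun z : ℂ => ∫ σ in (0 : ℝ)..1, z • h ((σ : ℂ) * z)) (h τ) τ := by
  obtain ⟨H0, hH0⟩ := hd.isExactOn_ball
  have hray : ∀ z ∈ ball (0 : ℂ) ρ, ∀ σ ∈ Icc (0 : ℝ) 1, (σ : ℂ) * z ∈ ball (0 : ℂ) ρ := by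
    intro z hz σ hσ
    rw [mem_ball_zero_iff] at hz ⊢
    rw [norm_mul, Complex.norm_real, Real.norm_of_nonneg hσ.1]
    exact (mul_le_of_le_one_left (norm_nonneg _) hσ.2).trans_lt hz
  have hform : ∀ z ∈ ball (0 : ℂ) ρ, ∫ σ in (0 : ℝ)..1, z • h ((σ : ℂ) * z) = H0 z - H0 0 := by
    intro z hz
    have h1 : ∀ σ ∈ uIcc (0 : ℝ) 1, HasDerivAt (fun σ : ℝ => H0 ((σ : ℂ) * z))
        (z • h ((σ : ℂ) * z)) σ := by
      intro σ hσ
      rw [uIcc_of_le zero_le_one] at hσ
      have h2 := hH0 _ (hray z hz σ hσ)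
      have h3 : HasDerivAt (fun w : ℝ => (w : ℂ) * z) z σ := by
        simpa using (Complex.ofRealCLM.hasDerivAt (x := σ)).mul_const z
      exact HasDerivAt.scomp (h := fun w : ℝ => (w : ℂ) * z) σ h2 h3
    have h5 := intervalIntegral.integral_eq_sub_of_hasDerivAt h1 (by
      apply ContinuousOn.intervalIntegrable
      rw [uIcc_of_le zero_le_one]
      refine ContinuousOn.const_smul ?_ z
      refine hd.continuousOn.comp (f := fun σ : ℝ => (σ : ℂ) * z) (by fun_prop) ?_
      intro σ hσ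
      exact hray z hz σ hσ)
    rw [h5]
    simp
  have h1 : HasDerivAt (fun z => H0 z - H0 0) (h τ) τ := (hH0 τ hτ).sub_const _
  refine h1.congr_of_eventuallyEq ?_
  filter_upwards [isOpen_ball.mem_nhds hτ] with z hz
  exact hform z hz

/-- ODE: the analytic flow of `dΨ = f(Ψ)` along the rays -/
theorem ode_flow {P V : Type} [NormedAddCommGroup P] [NormedSpace ℂ P] [FiniteDimensional ℂ P]
    [NormedAddCommGroup V] [NormedSpace ℂ V] [FiniteDimensional ℂ V]
    (f : P → V →L[ℂ] P) (p₀ : P) (hf : AnalyticAt ℂ f p₀) :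
    ∃ Ψ : P × V → P, ∃ δ > 0,
      (∀ p ∈ ball p₀ δ, ∀ u ∈ ball (0 : V) δ, AnalyticAt ℂ Ψ (p, u)) ∧
      (∀ p ∈ ball p₀ δ, Ψ (p, 0) = p) ∧
      ∀ p ∈ ball p₀ δ, ∀ (u : V) (τ : ℂ), ‖τ • u‖ < δ →
        HasDerivAt (fun τ : ℂ => Ψ (p, τ • u)) (f (Ψ (p, τ • u)) u) τ := by
  have hPc : CompleteSpace P := FiniteDimensional.complete ℂ P
  obtain ⟨K, t, ht, hlip⟩ := (hf.contDiffAt (n := 1)).exists_lipschitzOnWith
  have hbd : ∀ᶠ p in 𝓝 p₀, ‖f p‖ ≤ ‖f p₀‖ + 1 := by
    have := hf.continuousAt.norm.eventually (gt_mem_nhds (lt_add_one ‖f p₀‖))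
    filter_upwards [this] with p hp using hp.le
  obtain ⟨r, hr, hrs⟩ := Metric.nhds_basis_closedBall.mem_iff.1
    (inter_mem (inter_mem ht hf.eventually_analyticAt) hbd)
  set M := ‖f p₀‖ + 1 with hM
  have hM0 : 0 < M := by positivity
  set b := min (r / (2 * M)) (1 / (2 * ((K : ℝ) + 1))) with hb
  have hK0 : (0 : ℝ) ≤ K := K.2
  have hb0 : 0 < b := lt_min (by positivity) (by positivity)
  have hC : ode_C f p₀ (r / 2) b r K M := by
    refine ⟨half_pos hr, hb0, hr, hM0.le, hK0, fun p hp => (hrs hp).1.2, ?_,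
      fun p hp => (hrs hp).2, le_rfl, ?_, ?_⟩
    · intro p hp p' hp'
      have := hlip.dist_le_mul p (hrs hp).1.1 p' (hrs hp').1.1
      rwa [dist_eq_norm, dist_eq_norm] at this
    · calc M * b ≤ M * (r / (2 * M)) := mul_le_mul_of_nonneg_left (min_le_left _ _) hM0.le
        _ = r / 2 := by field_simp
    · calc (K : ℝ) * b ≤ K * (1 / (2 * ((K : ℝ) + 1))) :=
          mul_le_mul_of_nonneg_left (min_le_right _ _) hK0
        _ ≤ 1 / 2 := by
          rw [mul_one_div, div_le_div_iff₀ (by positivity) (by norm_num)]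
          linarith
  obtain ⟨Ψ, hI, hfix⟩ := ode_fix hC
  have han : AnalyticOnNhd ℂ Ψ (ode_D p₀ (r / 2) b) := osgood (ode_D_open _ _ _) hI.c hI.l
  refine ⟨Ψ, min (r / 2) b, lt_min (half_pos hr) hb0, ?_, ?_, ?_⟩
  · intro p hp u hu
    exact han _ ⟨ball_subset_ball (min_le_left _ _) hp, ball_subset_ball (min_le_right _ _) hu⟩
  · intro p hp
    rw [hfix _ ⟨ball_subset_ball (min_le_left _ _) hp, mem_ball_self hb0⟩, ode_T]
    simp
  · intro p hp u τ hτ
    have hpa : p ∈ ball p₀ (r / 2) := ball_subset_ball (min_le_left _ _) hp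
    have hτb : ‖τ • u‖ < b := hτ.trans_le (min_le_right _ _)
    obtain ⟨ρ, hρτ, hρ⟩ : ∃ ρ : ℝ, τ ∈ ball (0 : ℂ) ρ ∧
        ∀ z ∈ ball (0 : ℂ) ρ, (p, z • u) ∈ ode_D p₀ (r / 2) b := by
      rcases eq_or_ne u 0 with rfl | hu
      · refine ⟨‖τ‖ + 1, by rw [mem_ball_zero_iff]; linarith, ?_⟩
        intro z _
        refine ⟨hpa, ?_⟩
        simpa using hb0
      · have hu' : 0 < ‖u‖ := norm_pos_iff.2 hu
        refine ⟨b / ‖u‖, ?_, ?_⟩
        · rw [mem_ball_zero_iff, lt_div_iff₀ hu']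
          rwa [norm_smul] at hτb
        · intro z hz
          refine ⟨hpa, ?_⟩
          rw [mem_ball_zero_iff, lt_div_iff₀ hu'] at hz
          rw [mem_ball_zero_iff, norm_smul]
          exact hz
    have hd : DifferentiableOn ℂ (fun z : ℂ => f (Ψ (p, z • u)) u) (ball 0 ρ) := by
      intro z hz
      have h1 := (han _ (hρ z hz)).differentiableAt
      have h2 : DifferentiableAt ℂ (fun z : ℂ => (p, z • u)) z := by fun_prop
      have h3 := DifferentiableAt.comp (f := fun z : ℂ => (p, z • u)) z h1 h2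
      have h4 := (hC.an _ (hI.m _ (hρ z hz))).differentiableAt
      have h5 : DifferentiableAt ℂ (fun z : ℂ => f (Ψ (p, z • u))) z :=
        DifferentiableAt.comp (f := fun z : ℂ => Ψ (p, z • u)) z h4 h3
      exact (h5.clm_apply (differentiableAt_const u)).differentiableWithinAt
    have h1 := (ode_prim _ ρ hd τ hρτ).const_add p
    refine h1.congr_of_eventuallyEq ?_
    filter_upwards [isOpen_ball.mem_nhds hρτ] with z hz
    rw [hfix _ (hρ z hz), ode_T]
    congr 1
    apply intervalIntegral.integral_congr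
    intro σ _
    simp only
    rw [map_smul, smul_smul]

end Pool.Agent.SS
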