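import Pool.Agent.Lib_helper64.SS.Base
import Pool.Agent.Lib_helper64.SS.Notions
import Pool.Agent.Lib_helper64.SS.B.LOC
import Pool.Agent.Lib_helper64.SS.B.ODE
-- NEEDS: LOC ODE

/-! Block RIG (helper66): flat maps are locally determined by the initial point, if the initial
state is near a given one. -/

set_option autoImplicit false
set_option linter.unusedSectionVars false

open Filter Topology Metric Set
open scoped Manifold ContDiff

namespace Pool.Agent.SS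

variable {E X : Type} [NormedAddCommGroup E] [NormedSpace ℂ E] [FiniteDimensional ℂ E]
  [TopologicalSpace X] {G : Geo E X}
  {V : Type} [NormedAddCommGroup V] [NormedSpace ℂ V] [FiniteDimensional ℂ V]

/-- the vector field of the flow -/
noncomputable def rigF (v : E → V →L[ℂ] E) (Θ : V → V →L[ℂ] V) (p : E × V) : V →L[ℂ] (E × V) :=
  (ContinuousLinearMap.inl ℂ E V).comp ((v p.1).comp (Θ p.2)) + ContinuousLinearMap.inr ℂ E V

theorem rigF_apply (v : E → V →L[ℂ] E) (Θ : V → V →L[ℂ] V) (p : E × V) (u : V) :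
    rigF v Θ p u = (v p.1 (Θ p.2 u), u) := by
  simp [rigF]

theorem rigF_an {v : E → V →L[ℂ] E} {Θ : V → V →L[ℂ] V} {ξ₀ : E} {s₀ : V}
    (hv : AnalyticAt ℂ v ξ₀) (hΘ : AnalyticAt ℂ Θ s₀) :
    AnalyticAt ℂ (rigF v Θ) (ξ₀, s₀) := by
  have h0 : AnalyticAt ℂ (fun p : E × V => (v p.1, Θ p.2)) (ξ₀, s₀) := by
    have h1 : AnalyticAt ℂ (fun p : E × V => v p.1) (ξ₀, s₀) :=
      AnalyticAt.comp (g := v) (f := fun p : E × V => p.1) hv analyticAt_fst
    have h2 : AnalyticAt ℂ (fun p : E × V => Θ p.2) (ξ₀, s₀) :=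
      AnalyticAt.comp (g := Θ) (f := fun p : E × V => p.2) hΘ analyticAt_snd
    exact h1.prod h2
  have h1 : AnalyticAt ℂ (fun p : E × V => (v p.1).comp (Θ p.2)) (ξ₀, s₀) :=
    AnalyticAt.comp (g := fun q : (V →L[ℂ] E) × (V →L[ℂ] V) =>
      ContinuousLinearMap.compL ℂ V V E q.1 q.2) (f := fun p : E × V => (v p.1, Θ p.2))
      ((ContinuousLinearMap.compL ℂ V V E).analyticAt_bilinear _) h0
  have h2 : AnalyticAt ℂ (fun p : E × V =>
      (ContinuousLinearMap.inl ℂ E V).comp ((v p.1).comp (Θ p.2))) (ξ₀, s₀) :=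
    AnalyticAt.comp (g := ContinuousLinearMap.compL ℂ V E (E × V) (ContinuousLinearMap.inl ℂ E V))
      (f := fun p : E × V => (v p.1).comp (Θ p.2)) (ContinuousLinearMap.analyticAt _ _) h1
  exact h2.add analyticAt_const

/-- the derivative of a map along the path `τ ↦ s + τ u` -/
theorem rig_path {Y : Type} [NormedAddCommGroup Y] [NormedSpace ℂ Y] {g : V → Y} {s u : V}
    {τ : ℝ} (hg : DifferentiableAt ℂ g (s + (τ : ℂ) • u)) :
    HasDerivAt (fun τ : ℝ => g (s + (τ : ℂ) • u)) (fderiv ℂ g (s + (τ : ℂ) • u) u) τ := by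
  have h1 : HasDerivAt (fun z : ℂ => s + z • u) u (τ : ℂ) := by
    simpa using ((hasDerivAt_id (τ : ℂ)).smul_const u).const_add s
  have h2 : HasDerivAt (fun z : ℂ => g (s + z • u)) (fderiv ℂ g (s + (τ : ℂ) • u) u) (τ : ℂ) :=
    hg.hasFDerivAt.comp_hasDerivAt (τ : ℂ) h1
  have h3 : HasDerivAt (fun τ : ℝ => (τ : ℂ)) 1 τ := Complex.ofRealCLM.hasDerivAt
  have h4 := HasDerivAt.scomp τ h2 h3
  rw [one_smul] at h4
  exact h4

theorem rig_prop [T2Space X] {c : V → Fin G.L → ℂ} {Θ Θi : V → V →L[ℂ] V}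
    (hΘ : ∀ t, AnalyticAt ℂ Θ t) (hΘi : Continuous Θi)
    (hi : ∀ t u, Θ t (Θi t u) = u) (hi' : ∀ t u, Θi t (Θ t u) = u) {y : X}
    {v : E → V →L[ℂ] E} {N : Set (E × (V →L[ℂ] E))} (hN : IsOpen N)
    (hNv : ∀ p ∈ N, G.State c y p.1 p.2 → p.2 = v p.1) {s u : V} {F : V → X} {γ : ℝ → E}
    {I : Set ℝ} (hI : IsOpen I) (hI1 : Icc 0 1 ⊆ I)
    (hγ : ∀ τ ∈ I, γ τ ∈ (G.ch y).target ∧ AnalyticAt ℂ v (γ τ) ∧ (γ τ, v (γ τ)) ∈ N ∧
      HasDerivAt γ (v (γ τ) (Θ (s + (τ : ℂ) • u) u)) τ)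
    (hF : ∀ τ ∈ I, G.FlAt c Θ F (s + (τ : ℂ) • u))
    (h0 : F s = (G.ch y).symm (γ 0))
    (h0' : (fderiv ℂ (G.loc y F) s).comp (Θi s) = v (γ 0)) :
    ∀ τ ∈ Icc (0 : ℝ) 1, F (s + (τ : ℂ) • u) = (G.ch y).symm (γ τ) := by
  have hcE : CompleteSpace E := FiniteDimensional.complete ℂ E
  have hcV : CompleteSpace V := FiniteDimensional.complete ℂ V
  set p : ℝ → V := fun τ => s + (τ : ℂ) • u with hp
  have hpc : Continuous p := by
    rw [hp]
    exact continuous_const.add (Complex.continuous_ofReal.smul continuous_const)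
  set b : ℝ → V →L[ℂ] E := fun τ => (fderiv ℂ (G.loc y F) (p τ)).comp (Θi (p τ)) with hb
  set T : Set ℝ := {τ | F (p τ) = (G.ch y).symm (γ τ) ∧ b τ = v (γ τ)} with hT
  have hbc : ∀ τ ∈ I, F (p τ) ∈ (G.ch y).source → ContinuousAt b τ := by
    intro τ hτ hs
    have h1 : ContinuousAt (fderiv ℂ (G.loc y F)) (p τ) := ((hF τ hτ).1.2 y hs).fderiv.continuousAt
    have h2 : ContinuousAt (fun τ => fderiv ℂ (G.loc y F) (p τ)) τ :=
      ContinuousAt.comp (g := fderiv ℂ (G.loc y F)) (f := p) h1 hpc.continuousAt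
    have h3 : ContinuousAt (fun τ => Θi (p τ)) τ := (hΘi.comp hpc).continuousAt
    exact h2.clm_comp h3
  have hmain : Icc (0 : ℝ) 1 ⊆ T := by
    refine IsClosed.Icc_subset_of_forall_mem_nhdsWithin ?_ ?_ ?_
    · -- closed
      refine isClosed_of_closure_subset fun τ₁ hτ₁ => ?_
      have hτI : τ₁ ∈ Icc (0 : ℝ) 1 := closure_minimal inter_subset_right isClosed_Icc hτ₁
      have hne : (𝓝[T ∩ Icc 0 1] τ₁).NeBot := mem_closure_iff_nhdsWithin_neBot.1 hτ₁
      have hτ : τ₁ ∈ I := hI1 hτI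
      obtain ⟨hg1, hg2, hg3, hg4⟩ := hγ τ₁ hτ
      have hle : 𝓝[T ∩ Icc 0 1] τ₁ ≤ 𝓝 τ₁ := nhdsWithin_le_nhds
      have hmem : ∀ᶠ τ in 𝓝[T ∩ Icc 0 1] τ₁, τ ∈ T := by
        filter_upwards [self_mem_nhdsWithin] with τ hτ using hτ.1
      have e1 : F (p τ₁) = (G.ch y).symm (γ τ₁) := by
        have hFc : ContinuousAt (fun τ => F (p τ)) τ₁ :=
          ContinuousAt.comp (g := F) (f := p) (hF τ₁ hτ).1.1 hpc.continuousAt
        have hsc : ContinuousAt (fun τ => (G.ch y).symm (γ τ)) τ₁ :=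
          ContinuousAt.comp (g := (G.ch y).symm) (f := γ)
            ((G.ch y).symm.continuousAt (by simpa using hg1)) hg4.continuousAt
        refine tendsto_nhds_unique_of_eventuallyEq (hFc.tendsto.mono_left hle)
          (hsc.tendsto.mono_left hle) ?_
        filter_upwards [hmem] with τ hτ using hτ.1
      have hsrc : F (p τ₁) ∈ (G.ch y).source := by
        rw [e1]
        exact (G.ch y).map_target hg1
      have e2 : b τ₁ = v (γ τ₁) := by
        have hvc : ContinuousAt (fun τ => v (γ τ)) τ₁ :=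
          ContinuousAt.comp (g := v) (f := γ) hg2.continuousAt hg4.continuousAt
        refine tendsto_nhds_unique_of_eventuallyEq ((hbc τ₁ hτ hsrc).tendsto.mono_left hle)
          (hvc.tendsto.mono_left hle) ?_
        filter_upwards [hmem] with τ hτ using hτ.2
      exact ⟨⟨e1, e2⟩, hτI⟩
    · -- zero
      have hp0 : p 0 = s := by simp [hp]
      refine ⟨?_, ?_⟩
      · rw [hp0, h0]
      · rw [hb]
        simp only
        rw [hp0, h0']
    · -- open
      rintro τ ⟨⟨e1, e2⟩, hτ0⟩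
      refine mem_nhdsWithin_of_mem_nhds ?_
      have hτ : τ ∈ I := hI1 ⟨hτ0.1, hτ0.2.le⟩
      obtain ⟨hg1, hg2, hg3, hg4⟩ := hγ τ hτ
      have hsrc : F (p τ) ∈ (G.ch y).source := by
        rw [e1]
        exact (G.ch y).map_target hg1
      have hloc : G.loc y F (p τ) = γ τ := by
        rw [Geo.loc, e1, (G.ch y).right_inv hg1]
      have hFc : ContinuousAt (fun τ => F (p τ)) τ :=
        ContinuousAt.comp (g := F) (f := p) (hF τ hτ).1.1 hpc.continuousAt
      have ev1 : ∀ᶠ τ' in 𝓝 τ, τ' ∈ I := hI.mem_nhds hτ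
      have ev2 : ∀ᶠ τ' in 𝓝 τ, F (p τ') ∈ (G.ch y).source :=
        hFc.eventually ((G.ch y).open_source.mem_nhds hsrc)
      have hlc : ContinuousAt (fun τ => G.loc y F (p τ)) τ :=
        ContinuousAt.comp (g := G.loc y F) (f := p) ((hF τ hτ).1.2 y hsrc).continuousAt
          hpc.continuousAt
      have ev3 : ∀ᶠ τ' in 𝓝 τ, (G.loc y F (p τ'), b τ') ∈ N := by
        have hcc : ContinuousAt (fun τ => (G.loc y F (p τ), b τ)) τ :=
          hlc.prodMk (hbc τ hτ hsrc)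
        refine hcc.eventually (hN.mem_nhds ?_)
        simp only
        rw [hloc, e2]
        exact hg3
      have ev4 : ∀ᶠ τ' in 𝓝 τ, b τ' = v (G.loc y F (p τ')) := by
        filter_upwards [ev1, ev2, ev3] with τ' h1 h2 h3
        refine hNv _ h3 ?_
        exact (hF τ' h1).state h2 (hi (p τ'))
      -- the vector field
      obtain ⟨K, t, ht, hK⟩ := (hg2.contDiffAt (n := 1)).exists_lipschitzOnWith
      set M : NNReal := ‖Θ (p τ) u‖₊ + 1 with hM
      have ev5 : ∀ᶠ τ' in 𝓝 τ, ‖Θ (p τ') u‖₊ ≤ M := by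
        have h1 : ContinuousAt (fun τ' => ‖Θ (p τ') u‖₊) τ := by
          have h2 : ContinuousAt (fun τ' => Θ (p τ')) τ :=
            ContinuousAt.comp (g := Θ) (f := p) (hΘ (p τ)).continuousAt hpc.continuousAt
          exact (h2.clm_apply continuousAt_const).nnnorm
        have h3 : ‖Θ (p τ) u‖₊ < M := by
          rw [hM]
          exact lt_add_of_pos_right _ one_pos
        filter_upwards [h1.eventually (gt_mem_nhds h3)] with τ' h using h.le
      have hvL : ∀ᶠ τ' in 𝓝 τ, LipschitzOnWith (K * M) (fun e => v e (Θ (p τ') u)) t := by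
        filter_upwards [ev5] with τ' h5
        refine LipschitzOnWith.of_dist_le_mul fun e he e' he' => ?_
        have h6 : ‖v e - v e'‖ ≤ K * dist e e' := by
          rw [← dist_eq_norm]
          exact hK.dist_le_mul e he e' he'
        have h7 : ‖Θ (p τ') u‖ ≤ M := by
          exact_mod_cast h5
        calc dist (v e (Θ (p τ') u)) (v e' (Θ (p τ') u))
            = ‖(v e - v e') (Θ (p τ') u)‖ := by rw [dist_eq_norm]; rfl
          _ ≤ ‖v e - v e'‖ * ‖Θ (p τ') u‖ := (v e - v e').le_opNorm _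
          _ ≤ (K * dist e e') * M := by
              refine mul_le_mul h6 h7 (norm_nonneg _) ?_
              exact mul_nonneg K.2 dist_nonneg
          _ = ((K * M : NNReal) : ℝ) * dist e e' := by
              push_cast
              ring
      have hode : (fun τ => G.loc y F (p τ)) =ᶠ[𝓝 τ] γ := by
        refine ODE_solution_unique_of_eventually (v := fun τ' e => v e (Θ (p τ') u))
          (s := fun _ => t) (K := K * M) hvL ?_ ?_ hloc
        · have ht' : ∀ᶠ τ' in 𝓝 τ, G.loc y F (p τ') ∈ t := by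
            refine hlc.eventually ?_
            change t ∈ 𝓝 (G.loc y F (p τ))
            rw [hloc]
            exact ht
          filter_upwards [ev1, ev2, ev4, ht'] with τ' h1 h2 h4 h5
          refine ⟨?_, h5⟩
          have h6 := rig_path (s := s) (u := u) (τ := τ') ((hF τ' h1).1.2 y h2).differentiableAt
          have h7 : fderiv ℂ (G.loc y F) (p τ') u = v (G.loc y F (p τ')) (Θ (p τ') u) := by
            rw [← h4, hb]
            simp only [ContinuousLinearMap.comp_apply]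
            rw [hi']
          rw [← h7]
          exact h6
        · have ht' : ∀ᶠ τ' in 𝓝 τ, γ τ' ∈ t := hg4.continuousAt.eventually ht
          filter_upwards [ev1, ht'] with τ' h1 h5
          exact ⟨(hγ τ' h1).2.2.2, h5⟩
      filter_upwards [hode, ev2, ev4] with τ' h1 h2 h4
      refine ⟨?_, ?_⟩
      · rw [← h1, Geo.loc, (G.ch y).left_inv h2]
      · rw [← h1]
        exact h4
  intro τ hτ
  exact (hmain hτ).1

/-- RIG: flat maps are locally determined by the initial point, if the initial state is near a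
given one -/
theorem rigid [T2Space X] (c : V → Fin G.L → ℂ) (hc : ∀ u, c u = 0 → u = 0)
    (Θ Θi : V → V →L[ℂ] V) (hΘ : ∀ t, AnalyticAt ℂ Θ t) (hΘi : Continuous Θi)
    (hi : ∀ t u, Θ t (Θi t u) = u) (hi' : ∀ t u, Θi t (Θ t u) = u)
    {y : X} {ξ₀ : E} (hξ : ξ₀ ∈ (G.ch y).target) {b₀ : V →L[ℂ] E} (hb : G.State c y ξ₀ b₀)
    (s₀ : V) :
    ∃ (δ : ℝ) (v : E → V →L[ℂ] E) (Ψ : E × V × V → E), 0 < δ ∧
      (∀ ξ ∈ ball ξ₀ δ, AnalyticAt ℂ v ξ) ∧ v ξ₀ = b₀ ∧
      (∀ ξ ∈ ball ξ₀ δ, ∀ s ∈ ball s₀ δ, ∀ u ∈ ball (0 : V) δ,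
        AnalyticAt ℂ Ψ (ξ, s, u) ∧ Ψ (ξ, s, u) ∈ (G.ch y).target) ∧
      (∀ ξ ∈ ball ξ₀ δ, ∀ s ∈ ball s₀ δ, Ψ (ξ, s, 0) = ξ ∧
        HasFDerivAt (fun u => Ψ (ξ, s, u)) ((v ξ).comp (Θ s)) 0) ∧
      ∀ᶠ q : E × V × (V →L[ℂ] E) in 𝓝 (ξ₀, s₀, b₀),
        (G.State c y q.1 q.2.2 → q.2.2 = v q.1) ∧
        ∀ (F : V → X) (r : ℝ), F q.2.1 ∈ (G.ch y).source → G.ch y (F q.2.1) = q.1 →
          (fderiv ℂ (G.loc y F) q.2.1).comp (Θi q.2.1) = q.2.2 →
          (∀ t ∈ ball q.2.1 r, G.FlAt c Θ F t) →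
          ∀ u ∈ ball (0 : V) (min r δ), F (q.2.1 + u) = (G.ch y).symm (Ψ (q.1, q.2.1, u)) := by
  classical
  have hcE : CompleteSpace E := FiniteDimensional.complete ℂ E
  have hcV : CompleteSpace V := FiniteDimensional.complete ℂ V
  obtain ⟨v, hv, hv0, hvu⟩ := loc_state c hc hξ hb
  obtain ⟨Ψ', δ₁, hδ₁, hΨan, hΨ0, hΨd⟩ := ode_flow (rigF v Θ) (ξ₀, s₀) (rigF_an hv (hΘ s₀))
  -- the uniqueness neighbourhood
  obtain ⟨N, hNsub, hNo, hNm⟩ := _root_.mem_nhds_iff.1 hvu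
  have hNv : ∀ p ∈ N, G.State c y p.1 p.2 → p.2 = v p.1 := fun p hp => hNsub hp
  -- the second component of the flow
  have hsnd : ∀ q ∈ ball (ξ₀, s₀) δ₁, ∀ u ∈ ball (0 : V) δ₁, (Ψ' (q, u)).2 = q.2 + u := by
    intro q hq u hu
    have hu' : ‖u‖ < δ₁ := by simpa using hu
    set I : Set ℂ := {τ | ‖τ • u‖ < δ₁} with hI
    have hIo : IsOpen I := isOpen_lt (by fun_prop) continuous_const
    have hIc : IsPreconnected I := by
      have h1 : Convex ℝ I := by
        intro a ha b hb α β hα hβ hαβ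
        have ha' : ‖a • u‖ < δ₁ := ha
        have hb' : ‖b • u‖ < δ₁ := hb
        change ‖(α • a + β • b) • u‖ < δ₁
        have h2 : (α • a + β • b) • u = α • (a • u) + β • (b • u) := by
          rw [add_smul, smul_assoc, smul_assoc]
        rw [h2]
        have h3 : α • (a • u) + β • (b • u) ∈ ball (0 : V) δ₁ :=
          (convex_ball (0 : V) δ₁) (by simpa using ha') (by simpa using hb') hα hβ hαβ
        simpa using h3
      exact h1.isPreconnected
    have hd : ∀ τ ∈ I, HasDerivAt (fun τ : ℂ => (Ψ' (q, τ • u)).2 - τ • u) 0 τ := by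
      intro τ hτ
      have h1 := hΨd q hq u τ hτ
      have h2 : HasDerivAt (fun τ : ℂ => (Ψ' (q, τ • u)).2) u τ := by
        have h3 := (ContinuousLinearMap.snd ℂ E V).hasFDerivAt.comp_hasDerivAt τ h1
        have h4 : (ContinuousLinearMap.snd ℂ E V) (rigF v Θ (Ψ' (q, τ • u)) u) = u := by
          rw [rigF_apply]
          rfl
        rw [h4] at h3
        exact h3
      have h5 : HasDerivAt (fun τ : ℂ => τ • u) u τ := by
        simpa using (hasDerivAt_id τ).smul_const u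
      have h6 := h2.sub h5
      rw [sub_self] at h6
      exact h6
    have h0 : (0 : ℂ) ∈ I := by
      change ‖(0 : ℂ) • u‖ < δ₁
      simpa using hδ₁
    have h1 : (1 : ℂ) ∈ I := by
      change ‖(1 : ℂ) • u‖ < δ₁
      simpa using hu'
    have h2 := hIo.is_const_of_deriv_eq_zero hIc
      (fun τ hτ => (hd τ hτ).differentiableAt.differentiableWithinAt)
      (fun τ hτ => (hd τ hτ).deriv) h1 h0
    simp only [one_smul, zero_smul, sub_zero] at h2
    rw [hΨ0 q hq] at h2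
    rw [← h2]
    abel
  -- the choice of δ
  have hbase : AnalyticAt ℂ Ψ' ((ξ₀, s₀), (0 : V)) :=
    hΨan _ (mem_ball_self hδ₁) _ (mem_ball_self hδ₁)
  have hbase0 : Ψ' ((ξ₀, s₀), (0 : V)) = (ξ₀, s₀) := hΨ0 _ (mem_ball_self hδ₁)
  have hfc : ContinuousAt (fun q : (E × V) × V => (Ψ' q).1) ((ξ₀, s₀), (0 : V)) :=
    hbase.continuousAt.fst
  have hev : ∀ᶠ q in 𝓝 (((ξ₀, s₀), (0 : V)) : (E × V) × V), (Ψ' q).1 ∈ (G.ch y).target ∧
      AnalyticAt ℂ v (Ψ' q).1 ∧ ((Ψ' q).1, v (Ψ' q).1) ∈ N := by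
    have e0 : (Ψ' ((ξ₀, s₀), (0 : V))).1 = ξ₀ := by rw [hbase0]
    have e1 : ∀ᶠ q in 𝓝 (((ξ₀, s₀), (0 : V)) : (E × V) × V), (Ψ' q).1 ∈ (G.ch y).target := by
      refine hfc.eventually ?_
      change (G.ch y).target ∈ 𝓝 (Ψ' ((ξ₀, s₀), (0 : V))).1
      rw [e0]
      exact (G.ch y).open_target.mem_nhds hξ
    have e2 : ∀ᶠ q in 𝓝 (((ξ₀, s₀), (0 : V)) : (E × V) × V), AnalyticAt ℂ v (Ψ' q).1 := by
      refine hfc.eventually (p := fun ξ => AnalyticAt ℂ v ξ) ?_
      change ∀ᶠ ξ in 𝓝 (Ψ' ((ξ₀, s₀), (0 : V))).1, AnalyticAt ℂ v ξ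
      rw [e0]
      exact hv.eventually_analyticAt
    have e3 : ∀ᶠ q in 𝓝 (((ξ₀, s₀), (0 : V)) : (E × V) × V), ((Ψ' q).1, v (Ψ' q).1) ∈ N := by
      have h1 : ContinuousAt (fun q : (E × V) × V => ((Ψ' q).1, v (Ψ' q).1))
          ((ξ₀, s₀), (0 : V)) := by
        refine hfc.prodMk ?_
        refine ContinuousAt.comp (g := v) (f := fun q : (E × V) × V => (Ψ' q).1) ?_ hfc
        rw [e0]
        exact hv.continuousAt
      refine h1.eventually (hNo.mem_nhds ?_)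
      change ((Ψ' ((ξ₀, s₀), (0 : V))).1, v (Ψ' ((ξ₀, s₀), (0 : V))).1) ∈ N
      rw [e0, hv0]
      exact hNm
    filter_upwards [e1, e2, e3] with q h1 h2 h3 using ⟨h1, h2, h3⟩
  obtain ⟨ε, hε, hεb⟩ := Metric.eventually_nhds_iff_ball.1 hev
  set δ : ℝ := min δ₁ ε with hδ
  have hδp : 0 < δ := lt_min hδ₁ hε
  have hmem : ∀ ξ ∈ ball ξ₀ δ, ∀ s ∈ ball s₀ δ, ∀ u ∈ ball (0 : V) δ,
      (ξ, s) ∈ ball (ξ₀, s₀) δ₁ ∧ u ∈ ball (0 : V) δ₁ ∧
        ((ξ, s), u) ∈ ball (((ξ₀, s₀), (0 : V)) : (E × V) × V) ε := by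
    intro ξ hξ' s hs u hu
    have h1 := mem_ball.1 hξ'
    have h2 := mem_ball.1 hs
    have h3 := mem_ball.1 hu
    have hd1 : δ ≤ δ₁ := min_le_left _ _
    have hd2 : δ ≤ ε := min_le_right _ _
    refine ⟨?_, ?_, ?_⟩
    · rw [mem_ball, Prod.dist_eq]
      exact max_lt (h1.trans_le hd1) (h2.trans_le hd1)
    · exact mem_ball.2 (h3.trans_le hd1)
    · rw [mem_ball, Prod.dist_eq, Prod.dist_eq]
      exact max_lt (max_lt (h1.trans_le hd2) (h2.trans_le hd2)) (h3.trans_le hd2)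
  refine ⟨δ, v, fun q => (Ψ' ((q.1, q.2.1), q.2.2)).1, hδp, ?_, hv0, ?_, ?_, ?_⟩
  · -- v is analytic
    intro ξ hξ'
    obtain ⟨h1, h2, h3⟩ := hmem ξ hξ' s₀ (mem_ball_self hδp) 0 (mem_ball_self hδp)
    have h4 := (hεb _ h3).2.1
    rwa [hΨ0 _ h1] at h4
  · -- Ψ is analytic with values in the target
    intro ξ hξ' s hs u hu
    obtain ⟨h1, h2, h3⟩ := hmem ξ hξ' s hs u hu
    refine ⟨?_, (hεb _ h3).1⟩
    have h4 : AnalyticAt ℂ (fun q : E × V × V => ((q.1, q.2.1), q.2.2)) (ξ, s, u) :=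
      (analyticAt_fst.prod (analyticAt_fst.comp analyticAt_snd)).prod
        (analyticAt_snd.comp analyticAt_snd)
    have h5 : AnalyticAt ℂ Ψ' ((ξ, s), u) := hΨan _ h1 _ h2
    have h6 : AnalyticAt ℂ (fun q : E × V × V => Ψ' ((q.1, q.2.1), q.2.2)) (ξ, s, u) :=
      AnalyticAt.comp (g := Ψ') (f := fun q : E × V × V => ((q.1, q.2.1), q.2.2)) h5 h4
    exact AnalyticAt.comp (g := fun q : E × V => q.1) analyticAt_fst h6
  · -- initial value and derivative
    intro ξ hξ' s hs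
    obtain ⟨h1, h2, h3⟩ := hmem ξ hξ' s hs 0 (mem_ball_self hδp)
    have h00 : Ψ' ((ξ, s), (0 : V)) = (ξ, s) := hΨ0 _ h1
    refine ⟨?_, ?_⟩
    · change (Ψ' ((ξ, s), (0 : V))).1 = ξ
      rw [h00]
    · have h4 : AnalyticAt ℂ Ψ' ((ξ, s), (0 : V)) := hΨan _ h1 _ h2
      have h5 : HasFDerivAt (fun u : V => Ψ' ((ξ, s), u))
          ((fderiv ℂ Ψ' ((ξ, s), (0 : V))).comp (ContinuousLinearMap.inr ℂ (E × V) V)) 0 :=
        h4.differentiableAt.hasFDerivAt.comp (0 : V) (hasFDerivAt_prodMk_right (ξ, s) (0 : V))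
      have h6 : HasFDerivAt (fun u : V => (Ψ' ((ξ, s), u)).1)
          ((ContinuousLinearMap.fst ℂ E V).comp
            ((fderiv ℂ Ψ' ((ξ, s), (0 : V))).comp (ContinuousLinearMap.inr ℂ (E × V) V))) 0 :=
        (ContinuousLinearMap.fst ℂ E V).hasFDerivAt.comp (0 : V) h5
      have h7 : (ContinuousLinearMap.fst ℂ E V).comp
            ((fderiv ℂ Ψ' ((ξ, s), (0 : V))).comp (ContinuousLinearMap.inr ℂ (E × V) V)) =
          (v ξ).comp (Θ s) := by
        ext u
        have h8 : HasDerivAt (fun τ : ℂ => Ψ' ((ξ, s), τ • u))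
            (((fderiv ℂ Ψ' ((ξ, s), (0 : V))).comp (ContinuousLinearMap.inr ℂ (E × V) V)) u)
            (0 : ℂ) := by
          have h9 : HasDerivAt (fun τ : ℂ => τ • u) u (0 : ℂ) := by
            simpa using (hasDerivAt_id (0 : ℂ)).smul_const u
          have h10 : HasFDerivAt (fun u : V => Ψ' ((ξ, s), u))
              ((fderiv ℂ Ψ' ((ξ, s), (0 : V))).comp (ContinuousLinearMap.inr ℂ (E × V) V))
              ((0 : ℂ) • u) := by
            rw [zero_smul]
            exact h5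
          exact HasFDerivAt.comp_hasDerivAt (l := fun u : V => Ψ' ((ξ, s), u))
            (f := fun τ : ℂ => τ • u) (0 : ℂ) h10 h9
        have h11 := hΨd (ξ, s) h1 u 0 (by simpa using hδ₁)
        have h12 := h8.unique h11
        rw [zero_smul, h00, rigF_apply] at h12
        change (((fderiv ℂ Ψ' ((ξ, s), (0 : V))).comp
          (ContinuousLinearMap.inr ℂ (E × V) V)) u).1 = v ξ (Θ s u)
        rw [h12]
      rw [← h7]
      exact h6
  · -- uniqueness
    have hev2 : ∀ᶠ q : E × V × (V →L[ℂ] E) in 𝓝 (ξ₀, s₀, b₀), (q.1, q.2.2) ∈ N := by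
      have h1 : ContinuousAt (fun q : E × V × (V →L[ℂ] E) => (q.1, q.2.2)) (ξ₀, s₀, b₀) := by
        fun_prop
      exact h1.eventually (hNo.mem_nhds hNm)
    have hev3 : ∀ᶠ q : E × V × (V →L[ℂ] E) in 𝓝 (ξ₀, s₀, b₀), q.1 ∈ ball ξ₀ δ := by
      have h1 : ContinuousAt (fun q : E × V × (V →L[ℂ] E) => q.1) (ξ₀, s₀, b₀) := by
        fun_prop
      exact h1.eventually (ball_mem_nhds ξ₀ hδp)
    have hev4 : ∀ᶠ q : E × V × (V →L[ℂ] E) in 𝓝 (ξ₀, s₀, b₀), q.2.1 ∈ ball s₀ δ := by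
      have h1 : ContinuousAt (fun q : E × V × (V →L[ℂ] E) => q.2.1) (ξ₀, s₀, b₀) := by
        fun_prop
      exact h1.eventually (ball_mem_nhds s₀ hδp)
    filter_upwards [hev2, hev3, hev4] with q hqN hq1 hq2
    refine ⟨hNv _ hqN, ?_⟩
    intro F r hFs hFq hFb hFl u hu
    obtain ⟨ξ, s, b⟩ := q
    simp only at hqN hq1 hq2 hFs hFq hFb hFl ⊢
    have hu' : ‖u‖ < min r δ := by simpa using hu
    have hur : ‖u‖ < r := hu'.trans_le (min_le_left _ _)
    have hud : ‖u‖ < δ := hu'.trans_le (min_le_right _ _)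
    have hr : 0 < r := (norm_nonneg u).trans_lt hur
    set I : Set ℝ := {τ | ‖(τ : ℂ) • u‖ < min r δ} with hI
    have hIo : IsOpen I := by
      refine isOpen_lt ?_ continuous_const
      exact (Complex.continuous_ofReal.smul continuous_const).norm
    have hI1 : Icc (0 : ℝ) 1 ⊆ I := by
      intro τ hτ
      change ‖(τ : ℂ) • u‖ < min r δ
      rw [norm_smul, Complex.norm_real, Real.norm_of_nonneg hτ.1]
      calc τ * ‖u‖ ≤ 1 * ‖u‖ := mul_le_mul_of_nonneg_right hτ.2 (norm_nonneg u)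
        _ = ‖u‖ := one_mul _
        _ < min r δ := hu'
    have hstate : G.State c y ξ b := by
      have h1 := (hFl s (mem_ball_self hr)).state hFs (hi s)
      rwa [hFb, hFq] at h1
    have hbv : b = v ξ := hNv _ hqN hstate
    have h00 : Ψ' ((ξ, s), (0 : V)) = (ξ, s) :=
      hΨ0 _ (hmem ξ hq1 s hq2 0 (mem_ball_self hδp)).1
    have hfin := rig_prop (G := G) (c := c) (y := y) (F := F) (s := s) (u := u)
      (γ := fun τ : ℝ => (Ψ' ((ξ, s), (τ : ℂ) • u)).1) hΘ hΘi hi hi' hNo hNv hIo hI1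
      (by
        intro τ hτ
        have hτ1 : ‖(τ : ℂ) • u‖ < δ := lt_of_lt_of_le hτ (min_le_right _ _)
        obtain ⟨h1, h2, h3⟩ := hmem ξ hq1 s hq2 ((τ : ℂ) • u) (by simpa using hτ1)
        obtain ⟨h4, h5, h6⟩ := hεb _ h3
        refine ⟨h4, h5, h6, ?_⟩
        have h7 := hΨd (ξ, s) h1 u (τ : ℂ) (by simpa using h2)
        have h8 : HasDerivAt (fun z : ℂ => (Ψ' ((ξ, s), z • u)).1)
            (rigF v Θ (Ψ' ((ξ, s), (τ : ℂ) • u)) u).1 (τ : ℂ) :=
          (ContinuousLinearMap.fst ℂ E V).hasFDerivAt.comp_hasDerivAt (τ : ℂ) h7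
        have h9 : (rigF v Θ (Ψ' ((ξ, s), (τ : ℂ) • u)) u).1 =
            v (Ψ' ((ξ, s), (τ : ℂ) • u)).1 (Θ (s + (τ : ℂ) • u) u) := by
          rw [rigF_apply, hsnd _ h1 _ h2]
        rw [h9] at h8
        have h10 : HasDerivAt (fun τ : ℝ => (τ : ℂ)) 1 τ := Complex.ofRealCLM.hasDerivAt
        have h11 := HasDerivAt.scomp τ h8 h10
        rw [one_smul] at h11
        exact h11)
      (by
        intro τ hτ
        refine hFl _ ?_
        rw [mem_ball, dist_eq_norm, add_sub_cancel_left]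
        exact lt_of_lt_of_le hτ (min_le_left _ _))
      (by
        simp only [Complex.ofReal_zero, zero_smul]
        rw [h00, ← hFq, (G.ch y).left_inv hFs])
      (by
        simp only [Complex.ofReal_zero, zero_smul]
        rw [h00, hFb]
        exact hbv)
      1 ⟨zero_le_one, le_refl 1⟩
    simpa using hfin

end Pool.Agent.SS
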