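import Pool.Agent.Lib_helper64.SS.Base
import Pool.Agent.Lib_helper64.SS.Notions
import Pool.Agent.Lib_helper64.SS.B.BND
import Pool.Agent.Lib_helper64.SS.B.RIG

-- NEEDS: RIG BND
-- block CPT (helper75)

set_option autoImplicit false
set_option linter.unusedSectionVars false

open Filter Topology Metric Set
open scoped Manifold ContDiff

namespace Pool.Agent.SS

variable {E X : Type} [NormedAddCommGroup E] [NormedSpace ℂ E] [FiniteDimensional ℂ E]
  [TopologicalSpace X] {G : Geo E X}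
  {V : Type} [NormedAddCommGroup V] [NormedSpace ℂ V] [FiniteDimensional ℂ V]

/-- the initial states of flat maps near a point are bounded -/
theorem cpt_bound (c : V → Fin G.L → ℂ) {y : X} {ξ₀ : E} (hξ : ξ₀ ∈ (G.ch y).target) :
    ∃ R : ℝ, ∀ᶠ ξ in 𝓝 ξ₀, ∀ b : V →L[ℂ] E, G.State c y ξ b → ‖b‖ ≤ R := by
  obtain ⟨C, hC, h1⟩ := vec_bound (G := G) hξ
  obtain ⟨bas⟩ : Nonempty (Module.Basis (Fin (Module.finrank ℂ V)) ℂ V) :=
    ⟨Module.finBasis ℂ V⟩
  obtain ⟨C', hC', h2⟩ := bas.exists_opNorm_le (F := E)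
  obtain ⟨N, hN⟩ : ∃ N : ℝ, N = ∑ j, ∑ i, ‖c (bas j) i‖ := ⟨_, rfl⟩
  have hN0 : 0 ≤ N := by
    rw [hN]
    exact Finset.sum_nonneg fun j _ => Finset.sum_nonneg fun i _ => norm_nonneg _
  have hNij : ∀ j i, ‖c (bas j) i‖ ≤ N := by
    intro j i
    rw [hN]
    calc ‖c (bas j) i‖ ≤ ∑ i, ‖c (bas j) i‖ :=
          Finset.single_le_sum (f := fun i => ‖c (bas j) i‖) (fun i _ => norm_nonneg _)
            (Finset.mem_univ i)
      _ ≤ _ := Finset.single_le_sum (f := fun j => ∑ i, ‖c (bas j) i‖)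
            (fun j _ => Finset.sum_nonneg fun i _ => norm_nonneg _) (Finset.mem_univ j)
  refine ⟨C' * (C * (1 + N)), ?_⟩
  filter_upwards [h1] with ξ h3 b hb
  refine h2 (by positivity) fun j => ?_
  refine h3 (b (bas j)) (1 + N) (by positivity) fun i => ?_
  rw [hb i (bas j)]
  calc ‖c (bas j) i‖ ≤ N := hNij j i
    _ ≤ 1 + N := by linarith
    _ = (1 + N) ^ 1 := (pow_one _).symm
    _ ≤ (1 + N) ^ G.deg i := pow_le_pow_right₀ (by linarith) (G.deg_pos i)

/-- a limit of flat maps along an ultrafilter is flat at `0` -/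
theorem cpt_core [CompactSpace X] [T2Space X] (c : V → Fin G.L → ℂ)
    (hc : ∀ u, c u = 0 → u = 0) (U : Ultrafilter (V → X)) (hU : G.K c ∈ U) (F₀ : V → X)
    (hF₀ : (U : Filter (V → X)) ≤ 𝓝 F₀) :
    G.FlAt c (fun _ => ContinuousLinearMap.id ℂ V) F₀ 0 := by
  have hpt : ∀ t, Tendsto (fun F : V → X => F t) U (𝓝 (F₀ t)) := fun t =>
    ((continuous_apply t).tendsto F₀).mono_left hF₀
  obtain ⟨y, hy⟩ : ∃ y, y = F₀ 0 := ⟨_, rfl⟩
  have hys : F₀ 0 ∈ (G.ch y).source := by rw [hy]; exact G.mem _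
  obtain ⟨ξ₀, hξ₀⟩ : ∃ ξ₀, ξ₀ = G.ch y (F₀ 0) := ⟨_, rfl⟩
  have hξt : ξ₀ ∈ (G.ch y).target := by rw [hξ₀]; exact (G.ch y).map_source hys
  have hsrc : ∀ᶠ F in (U : Filter (V → X)), F 0 ∈ (G.ch y).source :=
    (hpt 0).eventually ((G.ch y).open_source.mem_nhds hys)
  have hch : Tendsto (fun F : V → X => G.ch y (F 0)) U (𝓝 ξ₀) := by
    rw [hξ₀]
    exact ((G.ch y).continuousAt hys).tendsto.comp (hpt 0)
  -- states
  have hst : ∀ᶠ F in (U : Filter (V → X)),
      G.State c y (G.ch y (F 0)) (fderiv ℂ (G.loc y F) 0) := by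
    filter_upwards [hsrc, hU] with F h1 h2 i u
    exact (h2 0).2 y h1 i u
  obtain ⟨R, hR⟩ := cpt_bound c hξt
  have hbd : ∀ᶠ F in (U : Filter (V → X)), fderiv ℂ (G.loc y F) 0 ∈
      closedBall (0 : V →L[ℂ] E) R := by
    filter_upwards [hst, hch.eventually hR] with F h1 h2
    rw [mem_closedBall_zero_iff]
    exact h2 _ h1
  haveI : ProperSpace (V →L[ℂ] E) := FiniteDimensional.proper ℂ _
  obtain ⟨b, -, hb⟩ : ∃ b ∈ closedBall (0 : V →L[ℂ] E) R,
      Tendsto (fun F : V → X => fderiv ℂ (G.loc y F) 0) U (𝓝 b) := by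
    have h1 := (isCompact_closedBall (0 : V →L[ℂ] E) R).ultrafilter_le_nhds
      (U.map fun F => fderiv ℂ (G.loc y F) 0) (by
        rw [Ultrafilter.coe_map, le_principal_iff, mem_map]
        exact hbd)
    obtain ⟨b, hb1, hb2⟩ := h1
    exact ⟨b, hb1, hb2⟩
  have hbst : G.State c y ξ₀ b := by
    intro i u
    have h1 : ContinuousAt (fun p : E × E => G.S y i p.1 p.2) (ξ₀, b u) :=
      (G.hol y i ξ₀ hξt (b u)).continuousAt
    have h2 : Tendsto (fun F : V → X => (fderiv ℂ (G.loc y F) 0) u) U (𝓝 (b u)) :=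
      ((ContinuousLinearMap.apply ℂ E u).continuous.tendsto b).comp hb
    have h3 : Tendsto (fun F : V → X => (G.ch y (F 0), (fderiv ℂ (G.loc y F) 0) u)) U
        (𝓝 (ξ₀, b u)) := hch.prodMk_nhds h2
    have h4 := h1.tendsto.comp h3
    have h5 : Tendsto (fun _ : V → X => c u i) U (𝓝 (c u i)) := tendsto_const_nhds
    have h6 : Tendsto (fun _ : V → X => c u i) U (𝓝 (G.S y i ξ₀ (b u))) := by
      refine h4.congr' ?_
      filter_upwards [hst] with F h7
      exact h7 i u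
    exact tendsto_nhds_unique h6 h5
  -- rigidity
  obtain ⟨δ, v, Ψ, hδ, -, hvb, hΨ, hΨ0, hev⟩ := rigid c hc
    (fun _ => ContinuousLinearMap.id ℂ V) (fun _ => ContinuousLinearMap.id ℂ V)
    (fun _ => analyticAt_const) continuous_const (fun _ _ => rfl) (fun _ _ => rfl) hξt hbst 0
  have hq : Tendsto (fun F : V → X => (G.ch y (F 0), (0 : V), fderiv ℂ (G.loc y F) 0)) U
      (𝓝 (ξ₀, 0, b)) := hch.prodMk_nhds (tendsto_const_nhds.prodMk_nhds hb)
  have hloc : ∀ u ∈ ball (0 : V) δ, F₀ u = (G.ch y).symm (Ψ (ξ₀, 0, u)) := by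
    intro u hu
    have h1 : Tendsto (fun F : V → X => (G.ch y).symm (Ψ (G.ch y (F 0), 0, u))) U
        (𝓝 ((G.ch y).symm (Ψ (ξ₀, 0, u)))) := by
      have h2 := hΨ ξ₀ (mem_ball_self hδ) 0 (mem_ball_self hδ) u hu
      have h3 : ContinuousAt (fun p : E => Ψ (p, (0 : V), u)) ξ₀ := by
        have h4 : ContinuousAt Ψ ((fun p : E => (p, (0 : V), u)) ξ₀) := h2.1.continuousAt
        exact h4.comp (f := fun p : E => (p, (0 : V), u)) (by fun_prop)
      have h5 : Tendsto (fun F : V → X => Ψ (G.ch y (F 0), 0, u)) U (𝓝 (Ψ (ξ₀, 0, u))) :=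
        h3.tendsto.comp hch
      exact ((G.ch y).continuousAt_symm h2.2).tendsto.comp h5
    have h2 : Tendsto (fun F : V → X => F u) U (𝓝 ((G.ch y).symm (Ψ (ξ₀, 0, u)))) := by
      refine h1.congr' ?_
      filter_upwards [hq.eventually hev, hsrc, hU] with F h3 h4 h5
      have h6 := h3.2 F δ h4 rfl (ContinuousLinearMap.comp_id _) (fun t _ => h5 t) u
        (by rw [min_self]; exact hu)
      simp only [zero_add] at h6
      exact h6.symm
    exact tendsto_nhds_unique (hpt u) h2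
  have hev0 : ∀ᶠ u in 𝓝 (0 : V), F₀ u = (G.ch y).symm (Ψ (ξ₀, 0, u)) := by
    filter_upwards [ball_mem_nhds (0 : V) hδ] with u hu
    exact hloc u hu
  have hΨu : AnalyticAt ℂ (fun u : V => Ψ (ξ₀, (0 : V), u)) 0 := by
    have h1 := (hΨ ξ₀ (mem_ball_self hδ) 0 (mem_ball_self hδ) 0 (mem_ball_self hδ)).1
    have h2 : AnalyticAt ℂ (fun u : V => (ξ₀, (0 : V), u)) 0 :=
      analyticAt_const.prod (analyticAt_const.prod analyticAt_id)
    exact h1.comp (f := fun u : V => (ξ₀, (0 : V), u)) h2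
  have hΨ00 : Ψ (ξ₀, (0 : V), (0 : V)) = ξ₀ := (hΨ0 ξ₀ (mem_ball_self hδ) 0 (mem_ball_self hδ)).1
  have hlocy : G.loc y F₀ =ᶠ[𝓝 0] fun u : V => Ψ (ξ₀, (0 : V), u) := by
    filter_upwards [hev0, ball_mem_nhds (0 : V) hδ] with u h1 h2
    rw [Geo.loc, h1, (G.ch y).right_inv]
    exact (hΨ ξ₀ (mem_ball_self hδ) 0 (mem_ball_self hδ) u h2).2
  have hcont : ContinuousAt F₀ 0 := by
    have h1 : ContinuousAt (fun u : V => (G.ch y).symm (Ψ (ξ₀, (0 : V), u))) 0 := by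
      have h2 : ContinuousAt (G.ch y).symm (Ψ (ξ₀, (0 : V), (0 : V))) := by
        rw [hΨ00]
        exact (G.ch y).continuousAt_symm hξt
      exact h2.comp (f := fun u : V => Ψ (ξ₀, (0 : V), u)) hΨu.continuousAt
    exact h1.congr (hev0.mono fun u hu => hu.symm)
  have hfd : fderiv ℂ (G.loc y F₀) 0 = b := by
    rw [hlocy.fderiv_eq, (hΨ0 ξ₀ (mem_ball_self hδ) 0 (mem_ball_self hδ)).2.fderiv, hvb]
    exact ContinuousLinearMap.comp_id _
  refine Geo.flAt_of_chart hcont hys (hΨu.congr hlocy.symm) ?_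
  intro i u
  rw [hfd, ← hξ₀]
  exact hbst i u

/-- CPT: the space of flat maps with a given symbol is compact -/
theorem isCompact_K [CompactSpace X] [T2Space X] (c : V → Fin G.L → ℂ)
    (hc : ∀ u, c u = 0 → u = 0) : IsCompact (G.K c) := by
  apply IsClosed.isCompact
  rw [isClosed_iff_ultrafilter]
  intro F₀ U hU hK t₀
  have h1 : G.K c ∈ U.map (tr t₀) := by
    rw [Ultrafilter.mem_map]
    exact mem_of_superset hK fun F hF => Geo.K_tr hF t₀
  have h2 : ((U.map (tr t₀) : Ultrafilter (V → X)) : Filter (V → X)) ≤ 𝓝 (tr t₀ F₀) := by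
    rw [Ultrafilter.coe_map]
    exact ((continuous_tr t₀).tendsto F₀).mono_left hU
  have h3 := cpt_core c hc _ h1 _ h2
  have h4 : tr (-t₀) (tr t₀ F₀) = F₀ := by
    rw [tr_tr, neg_add_cancel, tr_zero]
  rw [← h4]
  apply Geo.FlAt.tr (s := -t₀) (t := t₀)
    (Θ := fun _ => ContinuousLinearMap.id ℂ V)
  rw [add_neg_cancel]
  exact h3

end Pool.Agent.SS
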