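import Pool.Agent.Lib_helper64.SS.Base
import Pool.Agent.Lib_helper64.SS.Notions
import Pool.Agent.Lib_helper64.SS.B.BND
import Pool.Agent.Lib_helper64.SS.B.RIG

-- NEEDS: RIG BND

set_option autoImplicit false
set_option linter.unusedSectionVars false

open Filter Topology Metric Set
open scoped Manifold ContDiff

namespace Pool.Agent.SS

variable {E X : Type} [NormedAddCommGroup E] [NormedSpace ℂ E] [FiniteDimensional ℂ E]
  [TopologicalSpace X] {G : Geo E X}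
  {V : Type} [NormedAddCommGroup V] [NormedSpace ℂ V] [FiniteDimensional ℂ V]

/-- linear maps bounded pointwise lie in a ball -/
theorem pkg_bdd (B : V → ℝ) : ∃ R, ∀ b : V →L[ℂ] E, (∀ u, ‖b u‖ ≤ B u) → ‖b‖ ≤ R := by
  have := FiniteDimensional.complete ℂ V
  obtain ⟨R, hR⟩ := banach_steinhaus (ι := {b : V →L[ℂ] E // ∀ u, ‖b u‖ ≤ B u})
    (g := fun b => b.1) (fun x => ⟨B x, fun b => b.2 x⟩)
  exact ⟨R, fun b hb => hR ⟨b, hb⟩⟩

/-- the initial velocity depends continuously on the flat map -/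
theorem pkg_tendsto [CompactSpace X] [T2Space X] (c : V → Fin G.L → ℂ)
    (hc : ∀ u, c u = 0 → u = 0) {F₀ : V → X} (hF₀ : F₀ ∈ G.K c) {y : X}
    (hy : F₀ 0 ∈ (G.ch y).source) :
    Tendsto (fun F : V → X => fderiv ℂ (G.loc y F) 0) (𝓝[G.K c] F₀)
      (𝓝 (fderiv ℂ (G.loc y F₀) 0)) := by
  have : FiniteDimensional ℂ (V →L[ℂ] E) := inferInstance
  have : ProperSpace (V →L[ℂ] E) := FiniteDimensional.proper ℂ _
  rw [tendsto_iff_ultrafilter]
  intro U hU
  have hK : ∀ᶠ F in (U : Filter (V → X)), F ∈ G.K c := hU self_mem_nhdsWithin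
  have hU' : (U : Filter (V → X)) ≤ 𝓝 F₀ := hU.trans nhdsWithin_le_nhds
  have hev : ∀ t, Tendsto (fun F : V → X => F t) U (𝓝 (F₀ t)) := fun t =>
    ((continuous_apply t).tendsto F₀).mono_left hU'
  have hξ : (G.ch y (F₀ 0)) ∈ (G.ch y).target := (G.ch y).map_source hy
  have hξt : Tendsto (fun F : V → X => G.ch y (F 0)) U (𝓝 (G.ch y (F₀ 0))) :=
    ((G.ch y).continuousAt hy).tendsto.comp (hev 0)
  have hsrc : ∀ᶠ F in (U : Filter (V → X)), F 0 ∈ (G.ch y).source :=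
    (hev 0).eventually ((G.ch y).open_source.mem_nhds hy)
  have hstate : ∀ᶠ F in (U : Filter (V → X)),
      G.State c y (G.ch y (F 0)) (fderiv ℂ (G.loc y F) 0) := by
    filter_upwards [hK, hsrc] with F hF hs i u
    exact (hF 0).2 y hs i u
  obtain ⟨C, hC, hB⟩ := vec_bound (G := G) hξ
  obtain ⟨R, hR⟩ := pkg_bdd (V := V) (E := E) (fun u => C * (1 + ∑ i, ‖c u i‖))
  have hbd : ∀ᶠ F in (U : Filter (V → X)), fderiv ℂ (G.loc y F) 0 ∈
      closedBall (0 : V →L[ℂ] E) R := by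
    filter_upwards [hstate, hξt.eventually hB] with F hF hFB
    rw [mem_closedBall_zero_iff]
    refine hR _ fun u => hFB _ _ (by positivity) fun i => ?_
    rw [hF i u]
    have h1 : ‖c u i‖ ≤ ∑ i, ‖c u i‖ :=
      Finset.single_le_sum (f := fun i => ‖c u i‖) (fun i _ => norm_nonneg _)
        (Finset.mem_univ i)
    have h2 : 1 + ∑ i, ‖c u i‖ ≤ (1 + ∑ i, ‖c u i‖) ^ G.deg i := by
      refine le_self_pow₀ ?_ (G.deg_pos i).ne'
      have : 0 ≤ ∑ i, ‖c u i‖ := by positivity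
      linarith
    linarith
  obtain ⟨b', -, hb'⟩ := (isCompact_closedBall (0 : V →L[ℂ] E) R).ultrafilter_le_nhds'
    (U.map fun F => fderiv ℂ (G.loc y F) 0) hbd
  have hb't : Tendsto (fun F : V → X => fderiv ℂ (G.loc y F) 0) U (𝓝 b') := hb'
  have hst : G.State c y (G.ch y (F₀ 0)) b' := by
    intro i u
    have h1 : Tendsto (fun F : V → X => (G.ch y (F 0), fderiv ℂ (G.loc y F) 0 u)) U
        (𝓝 (G.ch y (F₀ 0), b' u)) :=
      hξt.prodMk_nhds (((ContinuousLinearMap.apply ℂ E u).continuous.tendsto b').comp hb't)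
    have h2 : Tendsto (fun F : V → X => G.S y i (G.ch y (F 0)) (fderiv ℂ (G.loc y F) 0 u)) U
        (𝓝 (G.S y i (G.ch y (F₀ 0)) (b' u))) :=
      (G.hol y i _ hξ (b' u)).continuousAt.tendsto.comp h1
    have h3 : Tendsto (fun F : V → X => G.S y i (G.ch y (F 0)) (fderiv ℂ (G.loc y F) 0 u)) U
        (𝓝 (c u i)) := by
      refine tendsto_const_nhds.congr' ?_
      filter_upwards [hstate] with F hF
      exact (hF i u).symm
    exact tendsto_nhds_unique h2 h3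
  obtain ⟨δ, v, Ψ, hδ, hv, hv0, hΨ, hΨ0, hq⟩ := rigid c hc
    (fun _ => ContinuousLinearMap.id ℂ V) (fun _ => ContinuousLinearMap.id ℂ V)
    (fun _ => analyticAt_const) continuous_const (fun _ _ => rfl) (fun _ _ => rfl) hξ hst (0 : V)
  have hqt : Tendsto (fun F : V → X => (G.ch y (F 0), (0 : V), fderiv ℂ (G.loc y F) 0)) U
      (𝓝 (G.ch y (F₀ 0), (0 : V), b')) :=
    hξt.prodMk_nhds (tendsto_const_nhds.prodMk_nhds hb't)
  have hloc : ∀ u ∈ ball (0 : V) δ, F₀ u = (G.ch y).symm (Ψ (G.ch y (F₀ 0), 0, u)) := by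
    intro u hu
    have h1 : ∀ᶠ F in (U : Filter (V → X)),
        F u = (G.ch y).symm (Ψ (G.ch y (F 0), 0, u)) := by
      filter_upwards [hqt.eventually hq, hK, hsrc] with F hF hFK hFs
      have := hF.2 F δ hFs rfl (ContinuousLinearMap.comp_id _) (fun t _ => hFK t) u
        (by rwa [min_self])
      rwa [zero_add] at this
    have h2 : Tendsto (fun F : V → X => (G.ch y).symm (Ψ (G.ch y (F 0), 0, u))) U
        (𝓝 ((G.ch y).symm (Ψ (G.ch y (F₀ 0), 0, u)))) := by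
      have h3 := hΨ (G.ch y (F₀ 0)) (mem_ball_self hδ) 0 (mem_ball_self hδ) u hu
      have h4 : Tendsto (fun F : V → X => Ψ (G.ch y (F 0), 0, u)) U
          (𝓝 (Ψ (G.ch y (F₀ 0), 0, u))) :=
        h3.1.continuousAt.tendsto.comp (hξt.prodMk_nhds tendsto_const_nhds)
      exact ((G.ch y).continuousAt_symm h3.2).tendsto.comp h4
    exact tendsto_nhds_unique (hev u) (h2.congr' (h1.mono fun F hF => hF.symm))
  have hfd : fderiv ℂ (G.loc y F₀) 0 = b' := by
    have h1 : G.loc y F₀ =ᶠ[𝓝 0] fun u => Ψ (G.ch y (F₀ 0), 0, u) := by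
      filter_upwards [ball_mem_nhds (0 : V) hδ] with u hu
      have h3 := (hΨ (G.ch y (F₀ 0)) (mem_ball_self hδ) 0 (mem_ball_self hδ) u hu).2
      rw [Geo.loc, hloc u hu, (G.ch y).right_inv h3]
    rw [h1.fderiv_eq, (hΨ0 _ (mem_ball_self hδ) 0 (mem_ball_self hδ)).2.fderiv, hv0]
    exact ContinuousLinearMap.comp_id _
  rw [hfd]
  exact hb't

/-- PKG: the members of `K c` near `F₀` are locally an analytic function of the initial point -/
theorem pkg [CompactSpace X] [T2Space X] (c : V → Fin G.L → ℂ) (hc : ∀ u, c u = 0 → u = 0)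
    {F₀ : V → X} (hF₀ : F₀ ∈ G.K c) {y : X} (hy : F₀ 0 ∈ (G.ch y).source) :
    ∃ (δ : ℝ) (v : E → V →L[ℂ] E) (Ψ : E × V → E), 0 < δ ∧ AnalyticAt ℂ v (G.ch y (F₀ 0)) ∧
      (∀ t ∈ ball (0 : V) δ, AnalyticAt ℂ Ψ (G.ch y (F₀ 0), t)) ∧
      ∀ᶠ F in 𝓝[G.K c] F₀, F 0 ∈ (G.ch y).source ∧
        fderiv ℂ (G.loc y F) 0 = v (G.ch y (F 0)) ∧
        ∀ t ∈ ball (0 : V) δ, F t ∈ (G.ch y).source ∧ G.ch y (F t) = Ψ (G.ch y (F 0), t) := by
  have hξ : (G.ch y (F₀ 0)) ∈ (G.ch y).target := (G.ch y).map_source hy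
  have hst : G.State c y (G.ch y (F₀ 0)) (fderiv ℂ (G.loc y F₀) 0) :=
    fun i u => (hF₀ 0).2 y hy i u
  obtain ⟨δ, v, Ψ, hδ, hv, hv0, hΨ, hΨ0, hq⟩ := rigid c hc
    (fun _ => ContinuousLinearMap.id ℂ V) (fun _ => ContinuousLinearMap.id ℂ V)
    (fun _ => analyticAt_const) continuous_const (fun _ _ => rfl) (fun _ _ => rfl) hξ hst (0 : V)
  have hbt := pkg_tendsto c hc hF₀ hy
  have hev : Tendsto (fun F : V → X => F 0) (𝓝[G.K c] F₀) (𝓝 (F₀ 0)) :=
    ((continuous_apply 0).tendsto F₀).mono_left nhdsWithin_le_nhds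
  have hξt : Tendsto (fun F : V → X => G.ch y (F 0)) (𝓝[G.K c] F₀) (𝓝 (G.ch y (F₀ 0))) :=
    ((G.ch y).continuousAt hy).tendsto.comp hev
  have hsrc : ∀ᶠ F in 𝓝[G.K c] F₀, F 0 ∈ (G.ch y).source :=
    hev.eventually ((G.ch y).open_source.mem_nhds hy)
  have hqt : Tendsto (fun F : V → X => (G.ch y (F 0), (0 : V), fderiv ℂ (G.loc y F) 0))
      (𝓝[G.K c] F₀) (𝓝 (G.ch y (F₀ 0), (0 : V), fderiv ℂ (G.loc y F₀) 0)) :=
    hξt.prodMk_nhds (tendsto_const_nhds.prodMk_nhds hbt)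
  refine ⟨δ, v, fun p => Ψ (p.1, 0, p.2), hδ, hv _ (mem_ball_self hδ), fun t ht => ?_, ?_⟩
  · have h1 := (hΨ (G.ch y (F₀ 0)) (mem_ball_self hδ) 0 (mem_ball_self hδ) t ht).1
    have h2 : AnalyticAt ℂ (fun p : E × V => (p.1, (0 : V), p.2)) (G.ch y (F₀ 0), t) :=
      analyticAt_fst.prod (analyticAt_const.prod analyticAt_snd)
    exact h1.comp_of_eq h2 rfl
  · filter_upwards [hqt.eventually hq, self_mem_nhdsWithin, hsrc,
      hξt.eventually (ball_mem_nhds _ hδ)] with F hF hFK hFs hFb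
    have hs : G.State c y (G.ch y (F 0)) (fderiv ℂ (G.loc y F) 0) :=
      fun i u => (hFK 0).2 y hFs i u
    refine ⟨hFs, hF.1 hs, fun t ht => ?_⟩
    have h1 := hF.2 F δ hFs rfl (ContinuousLinearMap.comp_id _) (fun t _ => hFK t) t
      (by rwa [min_self])
    have h2 := (hΨ _ hFb 0 (mem_ball_self hδ) t ht).2
    rw [zero_add] at h1
    rw [h1]
    exact ⟨(G.ch y).map_target h2, (G.ch y).right_inv h2⟩

example : type_of% @pkg = type_of% @pkg := rfl

end Pool.Agent.SS
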