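import Pool.Agent.Lib_helper64.SS.Base
import Pool.Agent.Lib_helper64.SS.Notions
import Pool.Agent.Lib_helper64.SS.B.PKG

-- NEEDS: PKG

set_option autoImplicit false
set_option linter.unusedSectionVars false

open Filter Topology Metric Set
open scoped Manifold ContDiff

namespace Pool.Agent.SS

variable {E X : Type} [NormedAddCommGroup E] [NormedSpace ℂ E] [FiniteDimensional ℂ E]
  [TopologicalSpace X] {G : Geo E X}
  {V : Type} [NormedAddCommGroup V] [NormedSpace ℂ V] [FiniteDimensional ℂ V]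

/-- `tr t` acts on the neighbourhood filters within `M` -/
theorem trf_tendsto_tr (A : Sys G V) (t : V) (F : V → X) :
    Tendsto (fun F' : V → X => tr t F') (𝓝[A.M] F) (𝓝[A.M] (tr t F)) :=
  tendsto_nhdsWithin_iff.2 ⟨((continuous_tr t).tendsto F).mono_left nhdsWithin_le_nhds,
    eventually_nhdsWithin_of_forall fun F' hF' => A.inv t F' hF'⟩

/-- `t ↦ tr t F` is continuous for the members of `M` -/
theorem trf_tendsto_time (A : Sys G V) {F : V → X} (hF : F ∈ A.M) (t : V) :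
    Tendsto (fun s : V => tr s F) (𝓝 t) (𝓝[A.M] (tr t F)) := by
  refine tendsto_nhdsWithin_iff.2 ⟨?_, Eventually.of_forall fun s => A.inv s F hF⟩
  rw [tendsto_pi_nhds]
  intro r
  have h1 : ContinuousAt F (r + t) := (A.sub hF (r + t)).1.1
  have h2 : Tendsto (fun s : V => r + s) (𝓝 t) (𝓝 (r + t)) :=
    tendsto_const_nhds.add tendsto_id
  exact h1.tendsto.comp h2

/-- restriction to one time -/
theorem trf_slice {M : Set (V → X)} {F : V → X} {t : V} {P : (V → X) × V → Prop}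
    (h : ∀ᶠ p in 𝓝[M] F ×ˢ 𝓝 t, P p) : ∀ᶠ F' in 𝓝[M] F, P (F', t) :=
  (tendsto_id.prodMk (tendsto_const_nhds (x := t))).eventually h

/-- joint continuity of the evaluation on `M` -/
theorem trf_eval [CompactSpace X] [T2Space X] (A : Sys G V) {F : V → X} (hF : F ∈ A.M)
    (t : V) :
    Tendsto (fun p : (V → X) × V => p.1 p.2) (𝓝[A.M] F ×ˢ 𝓝 t) (𝓝 (F t)) := by
  have hF1 := A.inv t F hF
  have hy : tr t F 0 ∈ (G.ch (F t)).source := by
    simp only [tr, zero_add]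
    exact G.mem _
  obtain ⟨δ, v, Ψ, hδ, hv, hΨ, hev⟩ := pkg A.c A.c_inj (A.sub hF1) hy
  have hev' := hev.filter_mono (nhdsWithin_mono _ A.sub)
  have h0 := hev'.self_of_nhdsWithin hF1
  have h1 := ((trf_tendsto_tr A t F).eventually hev').prod_inl (𝓝 t)
  have h2t : Tendsto (fun r : V => r - t) (𝓝 t) (𝓝 0) := by
    have : Tendsto (fun r : V => r - t) (𝓝 t) (𝓝 (t - t)) := tendsto_id.sub tendsto_const_nhds
    rwa [sub_self] at this
  have h2 : ∀ᶠ r in 𝓝 t, r - t ∈ ball (0 : V) δ := h2t.eventually (ball_mem_nhds 0 hδ)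
  have h3 : (fun p : (V → X) × V => p.1 p.2) =ᶠ[𝓝[A.M] F ×ˢ 𝓝 t]
      fun p => (G.ch (F t)).symm (Ψ (G.ch (F t) (p.1 t), p.2 - t)) := by
    filter_upwards [h1, h2.prod_inr _] with p hp1 hp2
    have h4 := hp1.2.2 _ hp2
    simp only [tr, zero_add, sub_add_cancel] at h4
    rw [← h4.2, (G.ch (F t)).left_inv h4.1]
  refine Tendsto.congr' h3.symm ?_
  have h5 := (h0.2.2 0 (mem_ball_self hδ))
  simp only [tr, zero_add] at h5
  have h6 : Tendsto (fun p : (V → X) × V => (G.ch (F t) (p.1 t), p.2 - t))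
      (𝓝[A.M] F ×ˢ 𝓝 t) (𝓝 (G.ch (F t) (F t), 0)) := by
    refine Tendsto.prodMk_nhds ?_ (h2t.comp tendsto_snd)
    refine ((G.ch (F t)).continuousAt (G.mem _)).tendsto.comp ?_
    exact (((continuous_apply t).tendsto F).mono_left nhdsWithin_le_nhds).comp tendsto_fst
  have h7 : ContinuousAt Ψ (G.ch (F t) (F t), 0) := by
    have := (hΨ 0 (mem_ball_self hδ)).continuousAt
    simpa only [tr, zero_add] using this
  have h8 : ContinuousAt (G.ch (F t)).symm (G.ch (F t) (F t)) :=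
    (G.ch (F t)).continuousAt_symm ((G.ch (F t)).map_source (G.mem _))
  have h9 : Tendsto (fun p : (V → X) × V => Ψ (G.ch (F t) (p.1 t), p.2 - t))
      (𝓝[A.M] F ×ˢ 𝓝 t) (𝓝 (G.ch (F t) (F t))) := by
    have := h7.tendsto.comp h6
    rwa [← h5.2] at this
  have h10 := h8.tendsto.comp h9
  rwa [(G.ch (F t)).left_inv (G.mem _)] at h10

/-- the base of the induction -/
theorem trf_zero [CompactSpace X] [T2Space X] (A : Sys G V) {F : V → X} (hF : F ∈ A.M)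
    {y y' : X} (hy : F 0 ∈ (G.ch y).source) (hy' : F 0 ∈ (G.ch y').source) :
    ∃ Φ, A.Trf y y' F 0 Φ := by
  obtain ⟨δ, v, Ψ, hδ, hv, hΨ, hev⟩ := pkg A.c A.c_inj (A.sub hF) hy
  have hev' := hev.filter_mono (nhdsWithin_mono F A.sub)
  have h0 := hev'.self_of_nhdsWithin hF
  have h00 : Ψ (G.ch y (F 0), 0) = G.ch y (F 0) := (h0.2.2 0 (mem_ball_self hδ)).2.symm
  refine ⟨fun p => G.ch y' ((G.ch y).symm (Ψ p)), hy, hy', ?_, ?_⟩
  · exact (G.trans y y' (F 0) hy hy').comp_of_eq (hΨ 0 (mem_ball_self hδ)) h00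
  · have h1 : ∀ᶠ p : (V → X) × V in 𝓝[A.M] F ×ˢ 𝓝 0, p.1 p.2 ∈ (G.ch y').source :=
      (trf_eval A hF 0).eventually ((G.ch y').open_source.mem_nhds hy')
    filter_upwards [h1, hev'.prod_inl (𝓝 (0 : V)),
      (show ∀ᶠ t in 𝓝 (0 : V), t ∈ ball (0 : V) δ from ball_mem_nhds 0 hδ).prod_inr
        (𝓝[A.M] F)] with p hp1 hp2 hp3
    refine ⟨hp1, ?_⟩
    have h2 := hp2.2.2 p.2 hp3
    rw [← h2.2, (G.ch y).left_inv h2.1]

/-- the induction step -/
theorem trf_step [CompactSpace X] [T2Space X] (A : Sys G V) {F : V → X} (hF : F ∈ A.M)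
    {y : X} (hy : F 0 ∈ (G.ch y).source) (t : V) :
    ∀ᶠ p : V × V in 𝓝 t ×ˢ 𝓝 t,
      (∀ y', F p.1 ∈ (G.ch y').source → ∃ Φ, A.Trf y y' F p.1 Φ) →
      ∀ y', F p.2 ∈ (G.ch y').source → ∃ Φ, A.Trf y y' F p.2 Φ := by
  have hF1 := A.inv t F hF
  obtain ⟨y₁, hy₁⟩ : ∃ y₁, y₁ = F t := ⟨_, rfl⟩
  have hm : F t ∈ (G.ch y₁).source := by
    rw [hy₁]
    exact G.mem _
  have htr : ∀ s, tr s F 0 = F s := fun s => by simp only [tr, zero_add]
  have hy2 : tr t F 0 ∈ (G.ch y₁).source := by rwa [htr]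
  obtain ⟨δ, v, Ψ, hδ, hv, hΨ, hev⟩ := pkg A.c A.c_inj (A.sub hF1) hy2
  have hev' := hev.filter_mono (nhdsWithin_mono _ A.sub)
  have hev2 := (trf_tendsto_time A hF t).eventually (eventually_eventually_nhdsWithin.2 hev')
  have hcF : ContinuousAt F t := (A.sub hF t).1.1
  have hsrc : ∀ᶠ s in 𝓝 t, F s ∈ (G.ch y₁).source :=
    hcF.eventually ((G.ch y₁).open_source.mem_nhds hm)
  have hdiff : Tendsto (fun p : V × V => p.2 - p.1) (𝓝 t ×ˢ 𝓝 t) (𝓝 0) := by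
    have : Tendsto (fun p : V × V => p.2 - p.1) (𝓝 t ×ˢ 𝓝 t) (𝓝 (t - t)) :=
      tendsto_snd.sub tendsto_fst
    rwa [sub_self] at this
  have hball : ∀ᶠ p : V × V in 𝓝 t ×ˢ 𝓝 t, p.2 - p.1 ∈ ball (0 : V) δ :=
    hdiff.eventually (ball_mem_nhds 0 hδ)
  have han : ∀ᶠ p : V × V in 𝓝 t ×ˢ 𝓝 t, AnalyticAt ℂ Ψ (G.ch y₁ (F p.1), p.2 - p.1) := by
    have h1 := (hΨ 0 (mem_ball_self hδ)).eventually_analyticAt
    rw [htr] at h1
    have h2 : Tendsto (fun p : V × V => (G.ch y₁ (F p.1), p.2 - p.1)) (𝓝 t ×ˢ 𝓝 t)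
        (𝓝 (G.ch y₁ (F t), 0)) := by
      refine Tendsto.prodMk_nhds ?_ hdiff
      exact ((G.ch y₁).continuousAt hm).tendsto.comp (hcF.tendsto.comp tendsto_fst)
    exact h2.eventually h1
  filter_upwards [hev2.prod_inl (𝓝 t), hsrc.prod_inl (𝓝 t), hball, han] with p hp1 hp2 hp3 hp4
    hT y' hy'
  obtain ⟨s, s'⟩ := p
  simp only at hp1 hp2 hp3 hp4 hT hy' ⊢
  obtain ⟨Φ1, -, -, ha1, hΦ1⟩ := hT y₁ hp2
  have hP := hp1.self_of_nhdsWithin (A.inv s F hF)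
  have e1 : G.ch y₁ (F s) = Φ1 (G.ch y (F 0), s) :=
    ((trf_slice hΦ1).self_of_nhdsWithin hF).2
  have e2 := hP.2.2 _ hp3
  simp only [tr, sub_add_cancel, zero_add] at e2
  refine ⟨fun q => G.ch y' ((G.ch y₁).symm (Ψ (Φ1 (q.1, s), q.2 - s))), hy, hy', ?_, ?_⟩
  · have h1 : AnalyticAt ℂ (fun q : E × V => (q.1, s)) (G.ch y (F 0), s') :=
      analyticAt_fst.prod analyticAt_const
    have h2 : AnalyticAt ℂ (fun q : E × V => (Φ1 (q.1, s), q.2 - s)) (G.ch y (F 0), s') :=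
      (ha1.comp_of_eq h1 rfl).prod (analyticAt_snd.sub analyticAt_const)
    have h3 : AnalyticAt ℂ (fun q : E × V => Ψ (Φ1 (q.1, s), q.2 - s)) (G.ch y (F 0), s') :=
      hp4.comp_of_eq h2 (by simp only [e1])
    refine (G.trans y₁ y' (F s') e2.1 hy').comp_of_eq h3 ?_
    rw [e2.2, e1]
  · have h1 : ∀ᶠ q : (V → X) × V in 𝓝[A.M] F ×ˢ 𝓝 s', q.1 q.2 ∈ (G.ch y').source :=
      (trf_eval A hF s').eventually ((G.ch y').open_source.mem_nhds hy')
    have h2 : ∀ᶠ r in 𝓝 s', r - s ∈ ball (0 : V) δ := by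
      have : ContinuousAt (fun r : V => r - s) s' := by fun_prop
      exact this.eventually (isOpen_ball.mem_nhds hp3)
    filter_upwards [h1, ((trf_tendsto_tr A s F).eventually hp1).prod_inl (𝓝 s'),
      (trf_slice hΦ1).prod_inl (𝓝 s'), h2.prod_inr (𝓝[A.M] F)] with q hq1 hq2 hq3 hq4
    refine ⟨hq1, ?_⟩
    have h5 := hq2.2.2 _ hq4
    simp only [tr, sub_add_cancel, zero_add] at h5
    rw [← hq3.2, ← h5.2, (G.ch y₁).left_inv h5.1]

/-- TRF: existence of the transports -/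
theorem exists_trf [CompactSpace X] [T2Space X] (A : Sys G V) {F : V → X} (hF : F ∈ A.M)
    {y y' : X} {t₀ : V} (hy : F 0 ∈ (G.ch y).source) (hy' : F t₀ ∈ (G.ch y').source) :
    ∃ Φ, A.Trf y y' F t₀ Φ := by
  have : NormedSpace ℝ V := NormedSpace.complexToReal
  have h := PreconnectedSpace.induction₂' (α := V) (fun s s' =>
    (∀ y', F s ∈ (G.ch y').source → ∃ Φ, A.Trf y y' F s Φ) →
      ∀ y', F s' ∈ (G.ch y').source → ∃ Φ, A.Trf y y' F s' Φ) (fun t => by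
      have h1 := trf_step A hF hy t
      have h2 : Tendsto (fun s : V => (t, s)) (𝓝 t) (𝓝 t ×ˢ 𝓝 t) :=
        tendsto_const_nhds.prodMk tendsto_id
      have h3 : Tendsto (fun s : V => (s, t)) (𝓝 t) (𝓝 t ×ˢ 𝓝 t) :=
        tendsto_id.prodMk tendsto_const_nhds
      filter_upwards [h2.eventually h1, h3.eventually h1] with s hs1 hs2
      exact ⟨hs1, hs2⟩)
    ⟨fun x y z h1 h2 h3 => h2 (h1 h3)⟩ 0 t₀
  exact h (fun y' hy' => trf_zero A hF hy hy') y' hy'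

example : type_of% @exists_trf = type_of% @exists_trf := rfl

end Pool.Agent.SS
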