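import Pool.Agent.Lib_helper64.SS.Base
import Pool.Agent.Lib_helper64.SS.Notions
import Pool.Agent.Lib_helper64.SS.B.TRF

-- NEEDS: TRF

set_option autoImplicit false
set_option linter.unusedSectionVars false

open Filter Topology Metric Set
open scoped Manifold ContDiff

namespace Pool.Agent.SS

variable {E X : Type} [NormedAddCommGroup E] [NormedSpace ℂ E] [FiniteDimensional ℂ E]
  [TopologicalSpace X] {G : Geo E X}
  {V : Type} [NormedAddCommGroup V] [NormedSpace ℂ V] [FiniteDimensional ℂ V]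

/-- `tr t` acts on the neighbourhood filters within `M` -/
theorem der_tendsto_tr (A : Sys G V) (t : V) (F : V → X) :
    Tendsto (fun F' : V → X => tr t F') (𝓝[A.M] F) (𝓝[A.M] (tr t F)) :=
  tendsto_nhdsWithin_iff.2 ⟨((continuous_tr t).tendsto F).mono_left nhdsWithin_le_nhds,
    eventually_nhdsWithin_of_forall fun F' hF' => A.inv t F' hF'⟩

/-- `t ↦ tr t F` is continuous for the members of `M` -/
theorem der_tendsto_time (A : Sys G V) {F : V → X} (hF : F ∈ A.M) (t : V) :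
    Tendsto (fun s : V => tr s F) (𝓝 t) (𝓝[A.M] (tr t F)) := by
  refine tendsto_nhdsWithin_iff.2 ⟨?_, Eventually.of_forall fun s => A.inv s F hF⟩
  rw [tendsto_pi_nhds]
  intro r
  have h1 : ContinuousAt F (r + t) := (A.sub hF (r + t)).1.1
  have h2 : Tendsto (fun s : V => r + s) (𝓝 t) (𝓝 (r + t)) :=
    tendsto_const_nhds.add tendsto_id
  exact h1.tendsto.comp h2

/-- restriction to one time -/
theorem der_slice {M : Set (V → X)} {F : V → X} {t : V} {P : (V → X) × V → Prop}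
    (h : ∀ᶠ p in 𝓝[M] F ×ˢ 𝓝 t, P p) : ∀ᶠ F' in 𝓝[M] F, P (F', t) :=
  (tendsto_id.prodMk (tendsto_const_nhds (x := t))).eventually h

theorem der_tr0 (F : V → X) (t : V) : tr t F 0 = F t := by simp only [tr, zero_add]

/-- two analytic maps which agree on `M` near `F` have the same derivative on the Zariski tangent
space -/
theorem der_agree (A : Sys G V) {F : V → X} {y : X} {Y : Type} [NormedAddCommGroup Y]
    [NormedSpace ℂ Y] {f g : E → Y} (hf : AnalyticAt ℂ f (G.ch y (F 0)))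
    (hg : AnalyticAt ℂ g (G.ch y (F 0)))
    (h : ∀ᶠ F' in 𝓝[A.M] F, f (G.ch y (F' 0)) = g (G.ch y (F' 0))) {u : E}
    (hu : u ∈ A.Z y F) :
    fderiv ℂ f (G.ch y (F 0)) u = fderiv ℂ g (G.ch y (F 0)) u := by
  rw [SeparatingDual.eq_iff_forall_dual_eq (R := ℂ)]
  intro ℓ
  have hv : A.Van y F (fun ξ => ℓ (f ξ) - ℓ (g ξ)) := by
    refine ⟨(ℓ.analyticAt _ |>.comp hf).sub (ℓ.analyticAt _ |>.comp hg), ?_⟩
    filter_upwards [h] with F' hF'
    rw [hF', sub_self]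
  have h1 := hu _ hv
  have h2 : HasFDerivAt (fun ξ => ℓ (f ξ) - ℓ (g ξ))
      (ℓ.comp (fderiv ℂ f (G.ch y (F 0))) - ℓ.comp (fderiv ℂ g (G.ch y (F 0))))
      (G.ch y (F 0)) :=
    (ℓ.hasFDerivAt.comp _ hf.differentiableAt.hasFDerivAt).sub
      (ℓ.hasFDerivAt.comp _ hg.differentiableAt.hasFDerivAt)
  rw [h2.fderiv] at h1
  exact sub_eq_zero.1 h1

theorem der_an {y y' : X} {F : V → X} {t : V} {Φ : E × V → E} {A : Sys G V}
    (h : A.Trf y y' F t Φ) : AnalyticAt ℂ (fun ξ => Φ (ξ, t)) (G.ch y (F 0)) :=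
  h.2.2.1.comp_of_eq (analyticAt_id.prod analyticAt_const) rfl

/-- DER -/
theorem d_eq (A : Sys G V) {F : V → X} (_hF : F ∈ A.M) {y y' : X} {t : V} {Φ : E × V → E}
    (h : A.Trf y y' F t Φ) {u : E} (hu : u ∈ A.Z y F) :
    A.D y y' F t u = fderiv ℂ (fun ξ => Φ (ξ, t)) (G.ch y (F 0)) u := by
  have hex : ∃ Φ, A.Trf y y' F t Φ := ⟨Φ, h⟩
  rw [Sys.D, dif_pos hex]
  have h1 := hex.choose_spec
  refine der_agree A (der_an h1) (der_an h) ?_ hu
  filter_upwards [der_slice h1.2.2.2, der_slice h.2.2.2] with F' ha hb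
  rw [← ha.2, ← hb.2]

theorem d_mem [CompactSpace X] [T2Space X] (A : Sys G V) {F : V → X} (hF : F ∈ A.M) {y y' : X}
    {t : V} (hy : F 0 ∈ (G.ch y).source) (hy' : F t ∈ (G.ch y').source) {u : E}
    (hu : u ∈ A.Z y F) : A.D y y' F t u ∈ A.Z y' (tr t F) := by
  obtain ⟨Φ, hΦ⟩ := exists_trf A hF hy hy'
  rw [d_eq A hF hΦ hu]
  intro f hf
  have e1 : G.ch y' (F t) = Φ (G.ch y (F 0), t) := ((der_slice hΦ.2.2.2).self_of_nhdsWithin hF).2
  have e2 : G.ch y' (tr t F 0) = Φ (G.ch y (F 0), t) := by rw [der_tr0, e1]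
  have h1 : A.Van y F (fun ξ => f (Φ (ξ, t))) := by
    refine ⟨hf.1.comp_of_eq (der_an hΦ) e2.symm, ?_⟩
    filter_upwards [(der_tendsto_tr A t F).eventually hf.2, der_slice hΦ.2.2.2] with F' ha hb
    rw [← hb.2, ← ha, der_tr0]
  have h2 := hu _ h1
  have h3 : HasFDerivAt (fun ξ => f (Φ (ξ, t)))
      ((fderiv ℂ f (G.ch y' (tr t F 0))).comp (fderiv ℂ (fun ξ => Φ (ξ, t)) (G.ch y (F 0))))
      (G.ch y (F 0)) := by
    refine HasFDerivAt.comp (f := fun ξ => Φ (ξ, t)) _ ?_ (der_an hΦ).differentiableAt.hasFDerivAt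
    rw [← e2]
    exact hf.1.differentiableAt.hasFDerivAt
  rw [h3.fderiv] at h2
  exact h2

theorem d_comp [CompactSpace X] [T2Space X] (A : Sys G V) {F : V → X} (hF : F ∈ A.M)
    {y y' y'' : X} {s t : V} (hy : F 0 ∈ (G.ch y).source) (hy' : F t ∈ (G.ch y').source)
    (hy'' : F (s + t) ∈ (G.ch y'').source) {u : E} (hu : u ∈ A.Z y F) :
    A.D y' y'' (tr t F) s (A.D y y' F t u) = A.D y y'' F (s + t) u := by
  obtain ⟨Φ1, h1⟩ := exists_trf A hF hy hy'
  obtain ⟨Φ3, h3⟩ := exists_trf A hF hy hy''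
  have hF1 := A.inv t F hF
  have hy1 : tr t F 0 ∈ (G.ch y').source := by rwa [der_tr0]
  obtain ⟨Φ2, h2⟩ := exists_trf A hF1 hy1 (show tr t F s ∈ (G.ch y'').source from hy'')
  rw [d_eq A hF1 h2 (d_mem A hF hy hy' hu), d_eq A hF h1 hu, d_eq A hF h3 hu]
  have e1 : G.ch y' (F t) = Φ1 (G.ch y (F 0), t) := ((der_slice h1.2.2.2).self_of_nhdsWithin hF).2
  have e2 : G.ch y' (tr t F 0) = Φ1 (G.ch y (F 0), t) := by rw [der_tr0, e1]
  have a1 : AnalyticAt ℂ (fun ξ => Φ2 (Φ1 (ξ, t), s)) (G.ch y (F 0)) :=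
    (der_an h2).comp_of_eq (der_an h1) e2.symm
  have h4 : ∀ᶠ F' in 𝓝[A.M] F, Φ2 (Φ1 (G.ch y (F' 0), t), s) = Φ3 (G.ch y (F' 0), s + t) := by
    filter_upwards [der_slice h1.2.2.2, der_slice h3.2.2.2,
      (der_tendsto_tr A t F).eventually (der_slice h2.2.2.2)] with F' ha hb hc
    have hc2 := hc.2
    simp only [tr, zero_add] at hc2
    rw [← ha.2, ← hb.2, ← hc2]
  rw [← der_agree A a1 (der_an h3) h4 hu]
  have h5 : HasFDerivAt (fun ξ => Φ2 (Φ1 (ξ, t), s))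
      ((fderiv ℂ (fun ξ => Φ2 (ξ, s)) (G.ch y' (tr t F 0))).comp
        (fderiv ℂ (fun ξ => Φ1 (ξ, t)) (G.ch y (F 0)))) (G.ch y (F 0)) := by
    refine HasFDerivAt.comp (g := fun ξ => Φ2 (ξ, s)) (f := fun ξ => Φ1 (ξ, t)) _ ?_
      (der_an h1).differentiableAt.hasFDerivAt
    rw [← e2]
    exact (der_an h2).differentiableAt.hasFDerivAt
  rw [h5.fderiv]
  rfl

theorem d_zero [CompactSpace X] [T2Space X] (A : Sys G V) {F : V → X} (hF : F ∈ A.M) {y : X}
    (hy : F 0 ∈ (G.ch y).source) {u : E} (hu : u ∈ A.Z y F) : A.D y y F 0 u = u := by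
  obtain ⟨Φ, hΦ⟩ := exists_trf A hF hy hy
  rw [d_eq A hF hΦ hu]
  have h1 : ∀ᶠ F' in 𝓝[A.M] F, Φ (G.ch y (F' 0), 0) = id (G.ch y (F' 0)) := by
    filter_upwards [der_slice hΦ.2.2.2] with F' ha
    exact ha.2.symm
  rw [der_agree A (der_an hΦ) analyticAt_id h1 hu, fderiv_id]
  rfl

theorem vel_mem (A : Sys G V) {F : V → X} (hF : F ∈ A.M) {y : X}
    (hy : F 0 ∈ (G.ch y).source) (τ : V) : fderiv ℂ (G.loc y F) 0 τ ∈ A.Z y F := by
  intro f hf
  have h0 : tr 0 F = F := tr_zero F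
  have h1 := der_tendsto_time A hF 0
  rw [h0] at h1
  have h2 : (fun s => f (G.loc y F s)) =ᶠ[𝓝 0] fun _ => 0 := by
    filter_upwards [h1.eventually hf.2] with s hs
    rw [der_tr0] at hs
    exact hs
  have h3 : HasFDerivAt (fun s => f (G.loc y F s))
      ((fderiv ℂ f (G.ch y (F 0))).comp (fderiv ℂ (G.loc y F) 0)) 0 :=
    HasFDerivAt.comp (f := G.loc y F) (0 : V) hf.1.differentiableAt.hasFDerivAt
      ((A.sub hF 0).1.2 y hy).differentiableAt.hasFDerivAt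
  have h4 := h3.fderiv
  rw [h2.fderiv_eq, fderiv_const_apply] at h4
  have h5 := congrArg (fun L : V →L[ℂ] ℂ => L τ) h4
  exact h5.symm

theorem d_vel [CompactSpace X] [T2Space X] (A : Sys G V) {F : V → X} (hF : F ∈ A.M) {y y' : X}
    {t : V} (hy : F 0 ∈ (G.ch y).source) (hy' : F t ∈ (G.ch y').source) (τ : V) :
    A.D y y' F t (fderiv ℂ (G.loc y F) 0 τ) = fderiv ℂ (G.loc y' (tr t F)) 0 τ := by
  obtain ⟨Φ, hΦ⟩ := exists_trf A hF hy hy'
  rw [d_eq A hF hΦ (vel_mem A hF hy τ)]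
  have h1 := der_tendsto_time A hF 0
  rw [tr_zero F] at h1
  have h2 : (fun s => Φ (G.loc y F s, t)) =ᶠ[𝓝 0] G.loc y' (tr t F) := by
    filter_upwards [h1.eventually (der_slice hΦ.2.2.2)] with s hs
    have h3 := hs.2
    simp only [tr, zero_add] at h3
    simp only [Geo.loc, tr]
    rw [← h3, add_comm]
  have h3 : HasFDerivAt (fun s => Φ (G.loc y F s, t))
      ((fderiv ℂ (fun ξ => Φ (ξ, t)) (G.ch y (F 0))).comp (fderiv ℂ (G.loc y F) 0)) 0 :=
    HasFDerivAt.comp (g := fun ξ => Φ (ξ, t)) (f := G.loc y F) (0 : V)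
      (der_an hΦ).differentiableAt.hasFDerivAt
      ((A.sub hF 0).1.2 y hy).differentiableAt.hasFDerivAt
  rw [← h2.fderiv_eq, h3.fderiv]
  rfl

example : type_of% @d_eq = type_of% @d_eq := rfl
example : type_of% @d_mem = type_of% @d_mem := rfl
example : type_of% @d_comp = type_of% @d_comp := rfl
example : type_of% @d_zero = type_of% @d_zero := rfl
example : type_of% @vel_mem = type_of% @vel_mem := rfl
example : type_of% @d_vel = type_of% @d_vel := rfl

end Pool.Agent.SS
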