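import Pool.Agent.Lib_helper64.SS.Base
import Pool.Agent.Lib_helper64.SS.Notions
import Pool.Agent.Lib_helper64.SS.B.DER
import Pool.Agent.Lib_helper64.SS.B.PKG
import Pool.Agent.Lib_helper64.SS.B.TRF

-- NEEDS: PKG TRF DER

set_option autoImplicit false
set_option linter.unusedSectionVars false

open Filter Topology Metric Set
open scoped Manifold ContDiff

namespace Pool.Agent.SS

variable {E X : Type} [NormedAddCommGroup E] [NormedSpace ℂ E] [FiniteDimensional ℂ E]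
  [TopologicalSpace X] {G : Geo E X}
  {V : Type} [NormedAddCommGroup V] [NormedSpace ℂ V] [FiniteDimensional ℂ V]

/-- restriction to one time -/
theorem jmp_slice {M : Set (V → X)} {F : V → X} {t : V} {P : (V → X) × V → Prop}
    (h : ∀ᶠ p in 𝓝[M] F ×ˢ 𝓝 t, P p) : ∀ᶠ F' in 𝓝[M] F, P (F', t) :=
  (tendsto_id.prodMk (tendsto_const_nhds (x := t))).eventually h

/-- two analytic maps which agree on `M` near `F` have the same derivative on the Zariski tangent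
space -/
theorem jmp_agree (A : Sys G V) {F : V → X} {y : X} {Y : Type} [NormedAddCommGroup Y]
    [NormedSpace ℂ Y] {f g : E → Y} (hf : AnalyticAt ℂ f (G.ch y (F 0)))
    (hg : AnalyticAt ℂ g (G.ch y (F 0)))
    (h : ∀ᶠ F' in 𝓝[A.M] F, f (G.ch y (F' 0)) = g (G.ch y (F' 0))) {u : E}
    (hu : u ∈ A.Z y F) :
    fderiv ℂ f (G.ch y (F 0)) u = fderiv ℂ g (G.ch y (F 0)) u := by
  rw [SeparatingDual.eq_iff_forall_dual_eq (R := ℂ)]
  intro ℓ
  have hv : A.Van y F (fun ξ => ℓ (f ξ) - ℓ (g ξ)) := by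
    refine ⟨(ℓ.analyticAt _ |>.comp hf).sub (ℓ.analyticAt _ |>.comp hg), ?_⟩
    filter_upwards [h] with F' hF'
    rw [hF', sub_self]
  have h1 := hu _ hv
  have h2 : HasFDerivAt (fun ξ => ℓ (f ξ) - ℓ (g ξ))
      (ℓ.comp (fderiv ℂ f (G.ch y (F 0))) - ℓ.comp (fderiv ℂ g (G.ch y (F 0))))
      (G.ch y (F 0)) :=
    (ℓ.hasFDerivAt.comp _ hf.differentiableAt.hasFDerivAt).sub
      (ℓ.hasFDerivAt.comp _ hg.differentiableAt.hasFDerivAt)
  rw [h2.fderiv] at h1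
  exact sub_eq_zero.1 h1

/-- JMP -/
theorem jm_inj (A : Sys G V) {F : V → X} (hF : F ∈ A.M) {y : X}
    (hy : F 0 ∈ (G.ch y).source) :
    Function.Injective (A.jm y F) := by
  rw [injective_iff_map_eq_zero]
  intro u hu
  have hξ : G.ch y (F 0) ∈ (G.ch y).target := (G.ch y).map_source hy
  have hst : G.State A.c y (G.ch y (F 0)) (fderiv ℂ (G.loc y F) 0) :=
    fun i u => (A.sub hF 0).2 y hy i u
  refine G.inj y _ hξ (fderiv ℂ (G.loc y F) 0 A.e₀) (fun h0 => A.e₀_ne ?_) u fun i => ?_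
  · exact Geo.State.ne_zero A.c_inj hξ hst h0
  · exact congrFun hu i

theorem jm_chart [CompactSpace X] [T2Space X] (A : Sys G V) {F : V → X} (hF : F ∈ A.M)
    {y y' : X} (hy : F 0 ∈ (G.ch y).source) (hy' : F 0 ∈ (G.ch y').source) {u : E}
    (hu : u ∈ A.Z y F) : A.jm y' F (A.D y y' F 0 u) = A.jm y F u := by
  obtain ⟨Φ, hΦ⟩ := exists_trf A hF hy hy'
  have hθ : AnalyticAt ℂ (fun ξ => G.ch y' ((G.ch y).symm ξ)) (G.ch y (F 0)) :=
    G.trans y y' (F 0) hy hy'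
  have han : AnalyticAt ℂ (fun ξ => Φ (ξ, 0)) (G.ch y (F 0)) :=
    hΦ.2.2.1.comp_of_eq (analyticAt_id.prod analyticAt_const) rfl
  have hsrc : ∀ᶠ F' in 𝓝[A.M] F, F' 0 ∈ (G.ch y).source :=
    (((continuous_apply 0).tendsto F).mono_left nhdsWithin_le_nhds).eventually
      ((G.ch y).open_source.mem_nhds hy)
  have hD : A.D y y' F 0 u =
      fderiv ℂ (fun ξ => G.ch y' ((G.ch y).symm ξ)) (G.ch y (F 0)) u := by
    rw [d_eq A hF hΦ hu]
    refine jmp_agree A han hθ ?_ hu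
    filter_upwards [jmp_slice hΦ.2.2.2, hsrc] with F' ha hs
    rw [← ha.2, (G.ch y).left_inv hs]
  rw [hD]
  have hξ : G.ch y (F 0) ∈ (G.ch y).target := (G.ch y).map_source hy
  have hξ' : G.ch y' (F 0) ∈ (G.ch y').target := (G.ch y').map_source hy'
  funext i
  have hc := fun w => G.compat y y' (F 0) hy hy' i w
  set L := fderiv ℂ (fun ξ => G.ch y' ((G.ch y).symm ξ)) (G.ch y (F 0)) with hL
  set w := fderiv ℂ (G.loc y F) 0 A.e₀ with hw
  have hw' : fderiv ℂ (G.loc y' F) 0 A.e₀ = L w := Geo.fderiv_loc (A.sub hF 0).1 hy hy' _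
  show fderiv ℂ (G.S y' i (G.ch y' (F 0))) (fderiv ℂ (G.loc y' F) 0 A.e₀) (L u) =
    fderiv ℂ (G.S y i (G.ch y (F 0))) w u
  rw [hw']
  have h1 : G.S y i (G.ch y (F 0)) = fun w => G.S y' i (G.ch y' (F 0)) (L w) := funext hc
  have h2 : HasFDerivAt (fun w => G.S y' i (G.ch y' (F 0)) (L w))
      ((fderiv ℂ (G.S y' i (G.ch y' (F 0))) (L w)).comp L) w :=
    HasFDerivAt.comp (g := G.S y' i (G.ch y' (F 0))) w
      (G.S_an hξ' i (L w)).differentiableAt.hasFDerivAt L.hasFDerivAt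
  rw [h1, h2.fderiv]
  rfl

theorem jmp_fderiv {y : X} {ξ : E} (h : ξ ∈ (G.ch y).target) (i : Fin G.L) (w : E) :
    fderiv ℂ (G.S y i ξ) w =
      (fderiv ℂ (fun p : E × E => G.S y i p.1 p.2) (ξ, w)).comp
        (ContinuousLinearMap.inr ℂ E E) := by
  have h1 : HasFDerivAt (fun w : E => (ξ, w)) (ContinuousLinearMap.inr ℂ E E) w :=
    hasFDerivAt_prodMk_right ξ w
  exact (HasFDerivAt.comp (g := fun p : E × E => G.S y i p.1 p.2) w
    (G.hol y i ξ h w).differentiableAt.hasFDerivAt h1).fderiv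

theorem jmp_pi {n : ℕ} {f : Fin n → E → E →L[ℂ] ℂ} {ξ : E} (h : ∀ i, AnalyticAt ℂ (f i) ξ) :
    AnalyticAt ℂ (fun ξ => ContinuousLinearMap.pi fun i => f i ξ) ξ := by
  have h1 : (fun ξ => ContinuousLinearMap.pi fun i => f i ξ) = fun ξ =>
      ∑ i, (ContinuousLinearMap.single ℂ (fun _ : Fin n => ℂ) i).comp (f i ξ) := by
    funext ξ
    ext u j
    simp [Finset.sum_apply, Pi.single_apply]
  rw [h1]
  refine Finset.analyticAt_fun_sum _ fun i _ => ?_
  exact ((ContinuousLinearMap.compL ℂ E ℂ (Fin n → ℂ)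
    (ContinuousLinearMap.single ℂ (fun _ : Fin n => ℂ) i)).analyticAt _).comp (h i)

theorem jm_loc [CompactSpace X] [T2Space X] (A : Sys G V) {F : V → X} (hF : F ∈ A.M) {y : X}
    (hy : F 0 ∈ (G.ch y).source) :
    ∃ j : E → E →L[ℂ] (Fin G.L → ℂ), AnalyticAt ℂ j (G.ch y (F 0)) ∧
      ∀ᶠ F' in 𝓝[A.M] F, A.jm y F' = j (G.ch y (F' 0)) := by
  obtain ⟨δ, v, Ψ, hδ, hv, hΨ, hev⟩ := pkg A.c A.c_inj (A.sub hF) hy
  have hev' := hev.filter_mono (nhdsWithin_mono F A.sub)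
  have hξ : G.ch y (F 0) ∈ (G.ch y).target := (G.ch y).map_source hy
  refine ⟨fun ξ => ContinuousLinearMap.pi fun i =>
    (fderiv ℂ (fun p : E × E => G.S y i p.1 p.2) (ξ, v ξ A.e₀)).comp
      (ContinuousLinearMap.inr ℂ E E), ?_, ?_⟩
  · refine jmp_pi fun i => ?_
    have h1 : AnalyticAt ℂ (fun ξ => (ξ, v ξ A.e₀)) (G.ch y (F 0)) :=
      analyticAt_id.prod (((ContinuousLinearMap.apply ℂ E A.e₀).analyticAt _).comp hv)
    have h2 : AnalyticAt ℂ (fun ξ => fderiv ℂ (fun p : E × E => G.S y i p.1 p.2) (ξ, v ξ A.e₀))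
        (G.ch y (F 0)) :=
      (G.hol y i _ hξ _).fderiv.comp_of_eq h1 rfl
    exact (((ContinuousLinearMap.compL ℂ E (E × E) ℂ).flip
      (ContinuousLinearMap.inr ℂ E E)).analyticAt _).comp h2
  · filter_upwards [hev'] with F' hF'
    have hξ' : G.ch y (F' 0) ∈ (G.ch y).target := (G.ch y).map_source hF'.1
    rw [Sys.jm]
    congr 1
    funext i
    rw [jmp_fderiv hξ', hF'.2.1]

theorem jm_vel (A : Sys G V) {F : V → X} (hF : F ∈ A.M) {y : X} (hy : F 0 ∈ (G.ch y).source)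
    (τ : V) (i : Fin G.L) :
    A.jm y F (fderiv ℂ (G.loc y F) 0 τ) i = fderiv ℂ (fun u => A.c u i) A.e₀ τ := by
  have hξ : G.ch y (F 0) ∈ (G.ch y).target := (G.ch y).map_source hy
  set L := fderiv ℂ (G.loc y F) 0 with hL
  have h1 : (fun u => A.c u i) = fun u => G.S y i (G.ch y (F 0)) (L u) :=
    funext fun u => ((A.sub hF 0).2 y hy i u).symm
  have h2 : HasFDerivAt (fun u => G.S y i (G.ch y (F 0)) (L u))
      ((fderiv ℂ (G.S y i (G.ch y (F 0))) (L A.e₀)).comp L) A.e₀ :=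
    HasFDerivAt.comp (g := G.S y i (G.ch y (F 0))) A.e₀
      (G.S_an hξ i (L A.e₀)).differentiableAt.hasFDerivAt L.hasFDerivAt
  rw [h1, h2.fderiv]
  rfl

example : type_of% @jm_inj = type_of% @jm_inj := rfl
example : type_of% @jm_chart = type_of% @jm_chart := rfl
example : type_of% @jm_loc = type_of% @jm_loc := rfl
example : type_of% @jm_vel = type_of% @jm_vel := rfl

end Pool.Agent.SS
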