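import Pool.Agent.Lib_helper64.SS.Base
import Pool.Agent.Lib_helper64.SS.Notions

/-! ZFN: finitely many functions define the Zariski tangent space (MP_45e720_ag). -/
-- NEEDS:

set_option autoImplicit false
set_option linter.unusedSectionVars false
set_option linter.unusedVariables false

open Filter Topology Metric Set
open scoped Manifold ContDiff

namespace Pool.Agent.SS

variable {E X : Type} [NormedAddCommGroup E] [NormedSpace ℂ E] [FiniteDimensional ℂ E]
  [TopologicalSpace X] {G : Geo E X}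
  {V : Type} [NormedAddCommGroup V] [NormedSpace ℂ V] [FiniteDimensional ℂ V]

/-- the differentials of the functions vanishing on `M` near `F` -/
def zfnS (A : Sys G V) (y : X) (F : V → X) : Submodule ℂ (E →L[ℂ] ℂ) where
  carrier := {φ | ∃ f, A.Van y F f ∧ fderiv ℂ f (G.ch y (F 0)) = φ}
  add_mem' := by
    rintro _ _ ⟨f, hf, rfl⟩ ⟨g, hg, rfl⟩
    refine ⟨fun x => f x + g x, ⟨hf.1.add hg.1, ?_⟩, ?_⟩
    · filter_upwards [hf.2, hg.2] with F' h1 h2
      rw [h1, h2, add_zero]
    · exact fderiv_fun_add hf.1.differentiableAt hg.1.differentiableAt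
  zero_mem' := by
    refine ⟨fun _ => 0, ⟨analyticAt_const, Eventually.of_forall fun _ => rfl⟩, ?_⟩
    exact fderiv_const_apply 0
  smul_mem' := by
    rintro a _ ⟨f, hf, rfl⟩
    refine ⟨fun x => a • f x, ⟨analyticAt_const.fun_smul hf.1, ?_⟩, ?_⟩
    · filter_upwards [hf.2] with F' h1
      rw [h1, smul_zero]
    · exact fderiv_fun_const_smul hf.1.differentiableAt a

theorem zfn_gen {W : Type} [AddCommGroup W] [Module ℂ W] [Module.Finite ℂ W]
    (S : Submodule ℂ W) : ∃ (r : ℕ) (b : Fin r → W), LinearIndependent ℂ b ∧ (∀ i, b i ∈ S) ∧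
      ∀ φ ∈ S, ∃ a : Fin r → ℂ, φ = ∑ i, a i • b i := by
  have hfin2 : Module.Finite ℂ S := Module.IsNoetherian.finite _ _
  have hfree : Module.Free ℂ S := Module.Free.of_divisionRing ℂ S
  let b := Module.finBasis ℂ S
  refine ⟨_, fun i => (b i : W), ?_, fun i => (b i).2, ?_⟩
  · exact b.linearIndependent.map' (Submodule.subtype _) (Submodule.ker_subtype _)
  · intro φ hφ
    refine ⟨fun i => b.repr ⟨φ, hφ⟩ i, ?_⟩
    have h1 := congrArg (Submodule.subtype S) (b.sum_repr ⟨φ, hφ⟩)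
    rw [map_sum] at h1
    exact h1.symm

theorem zfn_surj {r : ℕ} (b : Fin r → E →L[ℂ] ℂ) (hb : LinearIndependent ℂ b) :
    Function.Surjective (ContinuousLinearMap.pi b) := by
  by_contra hs
  have h1 : LinearMap.range (ContinuousLinearMap.pi b : E →L[ℂ] Fin r → ℂ).toLinearMap < ⊤ := by
    rw [lt_top_iff_ne_top]
    intro h2
    exact hs (LinearMap.range_eq_top.1 h2)
  obtain ⟨ℓ, hℓ0, hℓ⟩ := Submodule.exists_le_ker_of_lt_top _ h1
  have h3 : ∀ u : E, ∑ i, ℓ (Pi.single i 1) * b i u = 0 := by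
    intro u
    have h4 : ℓ (fun i => b i u) = 0 := hℓ ⟨u, rfl⟩
    have h5 : (fun i => b i u) = ∑ i, (b i u) • (Pi.single i (1 : ℂ) : Fin r → ℂ) := by
      rw [← pi_eq_sum_univ']
    rw [h5, map_sum] at h4
    rw [← h4]
    refine Finset.sum_congr rfl fun i _ => ?_
    rw [map_smul, smul_eq_mul, mul_comm]
  have h6 : ∑ i, ℓ (Pi.single i 1) • b i = 0 := by
    ext u
    simpa using h3 u
  have h7 := Fintype.linearIndependent_iff.1 hb _ h6
  apply hℓ0
  apply LinearMap.pi_ext'
  intro i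
  ext
  simp [h7 i]

theorem z_fun (A : Sys G V) {F : V → X} (hF : F ∈ A.M) {y : X} (hy : F 0 ∈ (G.ch y).source) :
    ∃ (r : ℕ) (f : E → Fin r → ℂ), AnalyticAt ℂ f (G.ch y (F 0)) ∧
      (∀ᶠ F' in 𝓝[A.M] F, f (G.ch y (F' 0)) = 0) ∧
      Function.Surjective (fderiv ℂ f (G.ch y (F 0))) ∧
      ∀ u, u ∈ A.Z y F ↔ fderiv ℂ f (G.ch y (F 0)) u = 0 := by
  obtain ⟨r, b, hind, hb, hrep⟩ := zfn_gen (zfnS A y F)
  have hb' : ∀ i, ∃ f, A.Van y F f ∧ fderiv ℂ f (G.ch y (F 0)) = b i := hb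
  choose f hf hfd using hb'
  have hfder : fderiv ℂ (fun x i => f i x) (G.ch y (F 0)) =
      ContinuousLinearMap.pi b := by
    rw [fderiv_pi fun i => (hf i).1.differentiableAt]
    congr 1
    funext i
    exact hfd i
  refine ⟨r, fun x i => f i x, ?_, ?_, ?_, ?_⟩
  · exact AnalyticAt.pi fun i => (hf i).1
  · have h1 : ∀ᶠ F' in 𝓝[A.M] F, ∀ i, f i (G.ch y (F' 0)) = 0 :=
      eventually_all.2 fun i => (hf i).2
    filter_upwards [h1] with F' h2
    funext i
    exact h2 i
  · rw [hfder]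
    exact zfn_surj _ hind
  · intro u
    rw [hfder]
    constructor
    · intro hu
      funext i
      have := hu (f i) (hf i)
      rw [hfd] at this
      exact this
    · intro hu g hg
      obtain ⟨a, ha⟩ := hrep (fderiv ℂ g (G.ch y (F 0))) ⟨g, hg, rfl⟩
      rw [ha]
      have h3 : ∀ i, b i u = 0 := fun i => congrFun hu i
      rw [ContinuousLinearMap.sum_apply]
      refine Finset.sum_eq_zero fun i _ => ?_
      rw [ContinuousLinearMap.smul_apply, h3, smul_zero]

end Pool.Agent.SS
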