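import Pool.Agent.Lib_helper64.SS.Base
import Pool.Agent.Lib_helper64.SS.Notions
import Pool.Agent.Lib_helper64.SS.B.ZFN

/-! ZFR: local analytic frames of the Zariski tangent spaces (MP_45e720_ag). -/
-- NEEDS: ZFN

set_option autoImplicit false
set_option linter.unusedSectionVars false
set_option linter.unusedVariables false

open Filter Topology Metric Set
open scoped Manifold ContDiff

namespace Pool.Agent.SS

variable {E X : Type} [NormedAddCommGroup E] [NormedSpace ℂ E] [FiniteDimensional ℂ E]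
  [TopologicalSpace X] {G : Geo E X}
  {V : Type} [NormedAddCommGroup V] [NormedSpace ℂ V] [FiniteDimensional ℂ V]

/-- linear algebra of the moving kernel -/
theorem zfr_frame {r e : ℕ} (D : E → E →L[ℂ] (Fin r → ℂ)) (ξ₀ : E) (hD : AnalyticAt ℂ D ξ₀)
    (hs : Function.Surjective (D ξ₀)) (u : Fin e → E) (hu : LinearIndependent ℂ u)
    (hker : ∀ b, D ξ₀ (u b) = 0) :
    ∃ ζ : E → Fin e → E, AnalyticAt ℂ ζ ξ₀ ∧ ∀ᶠ ξ in 𝓝 ξ₀, LinearIndependent ℂ (ζ ξ) ∧
      (∀ b, D ξ (ζ ξ b) = 0) ∧ Function.Surjective (D ξ) := by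
  obtain ⟨R₀, hR₀⟩ := (D ξ₀).toLinearMap.exists_rightInverse_of_surjective
    (LinearMap.range_eq_top.2 hs)
  let R : (Fin r → ℂ) →L[ℂ] E := LinearMap.toContinuousLinearMap R₀
  have hR : ∀ x, D ξ₀ (R x) = x := fun x => LinearMap.congr_fun hR₀ x
  let M : E → (Fin r → ℂ) →L[ℂ] (Fin r → ℂ) := fun ξ => (D ξ).comp R
  have hMan : AnalyticAt ℂ M ξ₀ := by
    have h1 : AnalyticAt ℂ (fun ξ => ((ContinuousLinearMap.compL ℂ (Fin r → ℂ) E
      (Fin r → ℂ)).flip R) (D ξ)) ξ₀ :=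
      (ContinuousLinearMap.analyticAt _ _).comp hD
    exact h1
  have hM0 : M ξ₀ = 1 := by
    ext x
    simp [M, hR]
  have hinv : AnalyticAt ℂ (fun ξ => Ring.inverse (M ξ)) ξ₀ := by
    have h1 : AnalyticAt ℂ (Ring.inverse : ((Fin r → ℂ) →L[ℂ] (Fin r → ℂ)) → _)
        ((1 : ((Fin r → ℂ) →L[ℂ] (Fin r → ℂ))ˣ) : (Fin r → ℂ) →L[ℂ] (Fin r → ℂ)) :=
      analyticAt_inverse 1
    have h2 : AnalyticAt ℂ (Ring.inverse : ((Fin r → ℂ) →L[ℂ] (Fin r → ℂ)) → _) (M ξ₀) := by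
      rw [hM0]
      exact h1
    exact h2.comp hMan
  have hunit : ∀ᶠ ξ in 𝓝 ξ₀, IsUnit (M ξ) := by
    have h1 : IsUnit (M ξ₀) := by
      rw [hM0]
      exact isUnit_one
    exact hMan.continuousAt.eventually (Units.isOpen.mem_nhds h1)
  let ζ : E → Fin e → E := fun ξ b => u b - R (Ring.inverse (M ξ) (D ξ (u b)))
  have hζan : AnalyticAt ℂ ζ ξ₀ := by
    refine AnalyticAt.pi fun b => ?_
    refine analyticAt_const.fun_sub ?_
    have h1 : AnalyticAt ℂ (fun ξ => D ξ (u b)) ξ₀ :=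
      (ContinuousLinearMap.analyticAt (ContinuousLinearMap.apply ℂ (Fin r → ℂ) (u b)) _).comp hD
    have h2 : AnalyticAt ℂ (fun ξ => Ring.inverse (M ξ) (D ξ (u b))) ξ₀ := by
      have h3 := ContinuousLinearMap.analyticAt_bilinear
        (ContinuousLinearMap.id ℂ ((Fin r → ℂ) →L[ℂ] (Fin r → ℂ)))
        (Ring.inverse (M ξ₀), D ξ₀ (u b))
      exact h3.comp (f := fun ξ => (Ring.inverse (M ξ), D ξ (u b))) (hinv.prod h1)
    exact (ContinuousLinearMap.analyticAt R _).comp h2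
  have hζ0 : ζ ξ₀ = u := by
    funext b
    simp [ζ, hker]
  refine ⟨ζ, hζan, ?_⟩
  have hopen : ∀ᶠ ξ in 𝓝 ξ₀, LinearIndependent ℂ (ζ ξ) := by
    have h1 : IsOpen {v : Fin e → E | LinearIndependent ℂ v} := isOpen_setOfPred_linearIndependent
    have h2 : {v : Fin e → E | LinearIndependent ℂ v} ∈ 𝓝 (ζ ξ₀) := by
      rw [hζ0]
      exact h1.mem_nhds hu
    exact hζan.continuousAt.eventually h2
  filter_upwards [hopen, hunit] with ξ h1 h2
  have h3 : ∀ x, D ξ (R (Ring.inverse (M ξ) x)) = x := by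
    intro x
    have h4 : M ξ * Ring.inverse (M ξ) = 1 := Ring.mul_inverse_cancel _ h2
    have h5 := congrArg (fun T : (Fin r → ℂ) →L[ℂ] (Fin r → ℂ) => T x) h4
    exact h5
  refine ⟨h1, fun b => ?_, fun x => ⟨_, h3 x⟩⟩
  simp only [ζ, map_sub]
  rw [h3, sub_self]

theorem z_frame [CompactSpace X] [T2Space X] (A : Sys G V) {e : ℕ}
    (he : ∀ F ∈ A.M, ∀ y, F 0 ∈ (G.ch y).source → Module.finrank ℂ (A.Z y F) = e)
    {F : V → X} (hF : F ∈ A.M) {y : X} (hy : F 0 ∈ (G.ch y).source) :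
    ∃ ζ : E → Fin e → E, AnalyticAt ℂ ζ (G.ch y (F 0)) ∧
      ∀ᶠ F' in 𝓝[A.M] F, LinearIndependent ℂ (ζ (G.ch y (F' 0))) ∧
        ∀ b, ζ (G.ch y (F' 0)) b ∈ A.Z y F' := by
  obtain ⟨r, f, hfan, hfz, hfs, hfk⟩ := z_fun A hF hy
  -- a basis of the Zariski tangent space at `F`
  have hfin : Module.Finite ℂ (A.Z y F) := Module.IsNoetherian.finite _ _
  have hfree : Module.Free ℂ (A.Z y F) := Module.Free.of_divisionRing ℂ _
  let b₀ := Module.finBasisOfFinrankEq ℂ (A.Z y F) (he F hF y hy)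
  let u : Fin e → E := fun i => (b₀ i : E)
  have hu : LinearIndependent ℂ u :=
    b₀.linearIndependent.map' (Submodule.subtype _) (Submodule.ker_subtype _)
  have hker : ∀ b, fderiv ℂ f (G.ch y (F 0)) (u b) = 0 := fun b => (hfk _).1 (b₀ b).2
  obtain ⟨ζ, hζan, hζ⟩ := zfr_frame (fderiv ℂ f) (G.ch y (F 0)) hfan.fderiv hfs u hu hker
  -- the dimension formula
  have hdim : ∀ T : E →L[ℂ] (Fin r → ℂ), Function.Surjective T →
      Module.finrank ℂ (LinearMap.ker T.toLinearMap) + r = Module.finrank ℂ E := by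
    intro T hT
    have h1 := T.toLinearMap.finrank_range_add_finrank_ker
    rw [LinearMap.range_eq_top.2 hT, finrank_top, Module.finrank_fin_fun] at h1
    omega
  have hkerF : LinearMap.ker (fderiv ℂ f (G.ch y (F 0))).toLinearMap = A.Z y F := by
    ext v
    rw [hfk]
    exact LinearMap.mem_ker
  have he1 : e + r = Module.finrank ℂ E := by
    have h1 := hdim _ hfs
    rw [hkerF, he F hF y hy] at h1
    exact h1
  refine ⟨ζ, hζan, ?_⟩
  have hev : Tendsto (fun F' : V → X => G.ch y (F' 0)) (𝓝[A.M] F) (𝓝 (G.ch y (F 0))) := by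
    have h2 : ContinuousAt (fun F' : V → X => F' 0) F := (continuous_apply 0).continuousAt
    have h3 : ContinuousAt (G.ch y) (F 0) := (G.ch y).continuousAt hy
    have h4 : ContinuousAt (fun F' : V → X => G.ch y (F' 0)) F :=
      ContinuousAt.comp (f := fun F' : V → X => F' 0) h3 h2
    exact h4.mono_left nhdsWithin_le_nhds
  have hsrc : ∀ᶠ F' in 𝓝[A.M] F, F' 0 ∈ (G.ch y).source := by
    have h2 : Tendsto (fun F' : V → X => F' 0) (𝓝[A.M] F) (𝓝 (F 0)) :=
      (continuous_apply 0).continuousAt.mono_left nhdsWithin_le_nhds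
    exact h2.eventually ((G.ch y).open_source.mem_nhds hy)
  have hmem : ∀ᶠ F' in 𝓝[A.M] F, F' ∈ A.M := eventually_mem_nhdsWithin
  have hvan : ∀ᶠ F' in 𝓝[A.M] F, ∀ᶠ F'' in 𝓝[A.M] F', f (G.ch y (F'' 0)) = 0 :=
    eventually_eventually_nhdsWithin.2 hfz
  filter_upwards [hev.eventually hζ, hev.eventually hfan.eventually_analyticAt, hsrc, hmem, hvan]
    with F' h1 h2 h3 h4 h5
  obtain ⟨h11, h12, h13⟩ := h1
  refine ⟨h11, fun b => ?_⟩
  have hle : A.Z y F' ≤ LinearMap.ker (fderiv ℂ f (G.ch y (F' 0))).toLinearMap := by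
    intro v hv
    rw [LinearMap.mem_ker]
    have h6 : ∀ i, A.Van y F' fun x => f x i := by
      intro i
      refine ⟨?_, ?_⟩
      · exact (analyticAt_pi_iff.1 h2) i
      · filter_upwards [h5] with F'' h7
        rw [h7]
        rfl
    change fderiv ℂ f (G.ch y (F' 0)) v = 0
    funext i
    have h7 := hv _ (h6 i)
    have h8 : fderiv ℂ (fun x => f x i) (G.ch y (F' 0)) v = fderiv ℂ f (G.ch y (F' 0)) v i := by
      have h9 : HasFDerivAt (fun x => f x i)
          ((ContinuousLinearMap.proj i).comp (fderiv ℂ f (G.ch y (F' 0)))) (G.ch y (F' 0)) :=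
        (hasFDerivAt_pi'.1 h2.differentiableAt.hasFDerivAt) i
      rw [h9.fderiv]
      rfl
    rw [← h8, h7]
    rfl
  have heq : A.Z y F' = LinearMap.ker (fderiv ℂ f (G.ch y (F' 0))).toLinearMap := by
    apply Submodule.eq_of_le_of_finrank_eq hle
    have h6 := hdim _ h13
    rw [he F' h4 y h3]
    omega
  rw [heq, LinearMap.mem_ker]
  exact h12 b

end Pool.Agent.SS
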