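import Pool.Agent.Lib_helper64.SS.Base
import Pool.Agent.Lib_helper64.SS.Notions
import Pool.Agent.Lib_helper64.SS.B.DER
import Pool.Agent.Lib_helper64.SS.B.JMP
import Pool.Agent.Lib_helper64.SS.B.TRF
import Pool.Agent.Lib_helper64.SS.B.ZFR

/-! # Block FRM (MP_45e720_ag) -/
-- NEEDS: DER JMP TRF ZFR

set_option autoImplicit false
set_option linter.unusedSectionVars false

open Filter Topology Metric Set
open scoped Manifold ContDiff

namespace Pool.Agent.SS

variable {E X : Type} [NormedAddCommGroup E] [NormedSpace ℂ E] [FiniteDimensional ℂ E]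
  [TopologicalSpace X] {G : Geo E X}
  {V : Type} [NormedAddCommGroup V] [NormedSpace ℂ V] [FiniteDimensional ℂ V]

theorem frm_tr0 (F : V → X) (t : V) : tr t F 0 = F t := by simp [tr]

theorem frm_pure (A : Sys G V) {F : V → X} (hF : F ∈ A.M) (t : V) :
    pure (F, t) ≤ 𝓝[A.M] F ×ˢ 𝓝 t := by
  rw [← Filter.prod_pure_pure]
  exact Filter.prod_mono (pure_le_nhdsWithin hF) (pure_le_nhds t)

theorem frm_src (A : Sys G V) {F : V → X} {y : X} (hy : F 0 ∈ (G.ch y).source) :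
    ∀ᶠ F' in 𝓝[A.M] F, F' 0 ∈ (G.ch y).source :=
  ((continuous_apply (0 : V)).continuousAt.eventually
    ((G.ch y).open_source.mem_nhds hy)).filter_mono nhdsWithin_le_nhds

theorem frm_xi (A : Sys G V) {F : V → X} {y : X} (hy : F 0 ∈ (G.ch y).source) :
    Tendsto (fun F' : V → X => G.ch y (F' 0)) (𝓝[A.M] F) (𝓝 (G.ch y (F 0))) := by
  have h1 : Tendsto (fun F' : V → X => F' 0) (𝓝 F) (𝓝 (F 0)) :=
    (continuous_apply (0 : V)).tendsto F
  exact (((G.ch y).continuousAt hy).tendsto.comp h1).mono_left nhdsWithin_le_nhds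

theorem frm_trf_ev (A : Sys G V) {F : V → X} {y y' : X} {t₀ : V} {Φ : E × V → E}
    (h : A.Trf y y' F t₀ Φ) :
    ∀ᶠ p : (V → X) × V in 𝓝[A.M] F ×ˢ 𝓝 t₀, p.1 ∈ A.M ∧ A.Trf y y' p.1 p.2 Φ ∧
      G.ch y' (p.1 p.2) = Φ (G.ch y (p.1 0), p.2) := by
  obtain ⟨h1, h2, h3, h4⟩ := h
  have e1 : ∀ᶠ p : (V → X) × V in 𝓝[A.M] F ×ˢ 𝓝 t₀, p.1 ∈ A.M ∧ p.1 0 ∈ (G.ch y).source :=
    ((eventually_mem_nhdsWithin (a := F) (s := A.M)).and (frm_src A h1)).prod_inl _
  have e2 : ∀ᶠ p : (V → X) × V in 𝓝[A.M] F ×ˢ 𝓝 t₀,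
      AnalyticAt ℂ Φ (G.ch y (p.1 0), p.2) := by
    have h5 : Tendsto (fun p : (V → X) × V => (G.ch y (p.1 0), p.2)) (𝓝[A.M] F ×ˢ 𝓝 t₀)
        (𝓝 (G.ch y (F 0), t₀)) := by
      rw [nhds_prod_eq]
      exact ((frm_xi A h1).comp tendsto_fst).prodMk tendsto_snd
    exact h5.eventually h3.eventually_analyticAt
  have e3 : ∀ᶠ p : (V → X) × V in 𝓝[A.M] F ×ˢ 𝓝 t₀,
      ∀ᶠ q : (V → X) × V in 𝓝[A.M] p.1 ×ˢ 𝓝 p.2, q.1 q.2 ∈ (G.ch y').source ∧
        G.ch y' (q.1 q.2) = Φ (G.ch y (q.1 0), q.2) := by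
    obtain ⟨pa, ha, pb, hb, hab⟩ := Filter.eventually_prod_iff.1 h4
    have ha' := eventually_eventually_nhdsWithin.2 ha
    have hb' := eventually_eventually_nhds.2 hb
    filter_upwards [ha'.prod_mk hb'] with p hp
    exact Filter.eventually_prod_iff.2 ⟨pa, hp.1, pb, hp.2, fun hx y hy => hab hx hy⟩
  filter_upwards [e1, e2, e3, h4] with p k1 k2 k3 k4
  exact ⟨k1.1, ⟨k1.2, k4.1, k2, k3⟩, k4.2⟩

/-- evaluation is jointly continuous on `M` -/
theorem frm_joint [CompactSpace X] [T2Space X] (A : Sys G V) {F : V → X} (hF : F ∈ A.M) (t₀ : V) :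
    Tendsto (fun p : (V → X) × V => p.1 p.2) (𝓝[A.M] F ×ˢ 𝓝 t₀) (𝓝 (F t₀)) := by
  obtain ⟨Φ, hΦ⟩ := exists_trf A hF (y := F 0) (y' := F t₀) (t₀ := t₀) (G.mem _) (G.mem _)
  obtain ⟨h1, h2, h3, h4⟩ := hΦ
  have h0 : G.ch (F t₀) (F t₀) = Φ (G.ch (F 0) (F 0), t₀) :=
    (Filter.eventually_pure.1 (h4.filter_mono (frm_pure A hF t₀))).2
  have h5 : Tendsto (fun p : (V → X) × V => (G.ch (F 0) (p.1 0), p.2)) (𝓝[A.M] F ×ˢ 𝓝 t₀)
      (𝓝 (G.ch (F 0) (F 0), t₀)) := by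
    rw [nhds_prod_eq]
    exact ((frm_xi A h1).comp tendsto_fst).prodMk tendsto_snd
  have h6 := h3.continuousAt.tendsto.comp h5
  rw [← h0] at h6
  have h7 : Tendsto (G.ch (F t₀)).symm (𝓝 (G.ch (F t₀) (F t₀))) (𝓝 (F t₀)) := by
    have h8 := ((G.ch (F t₀)).continuousAt_symm ((G.ch (F t₀)).map_source (G.mem (F t₀)))).tendsto
    rwa [(G.ch (F t₀)).left_inv (G.mem (F t₀))] at h8
  refine (h7.comp h6).congr' ?_
  filter_upwards [h4] with p hp
  simp only [Function.comp_apply]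
  rw [← hp.2, (G.ch (F t₀)).left_inv hp.1]

theorem frm_tend [CompactSpace X] [T2Space X] (A : Sys G V) {F : V → X} (hF : F ∈ A.M) (t₀ : V) :
    Tendsto (fun p : (V → X) × V => tr p.2 p.1) (𝓝[A.M] F ×ˢ 𝓝 t₀) (𝓝[A.M] (tr t₀ F)) := by
  rw [tendsto_nhdsWithin_iff]
  constructor
  · rw [tendsto_pi_nhds]
    intro r
    have h1 : Tendsto (fun p : (V → X) × V => (p.1, r + p.2)) (𝓝[A.M] F ×ˢ 𝓝 t₀)
        (𝓝[A.M] F ×ˢ 𝓝 (r + t₀)) := by
      refine tendsto_fst.prodMk ?_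
      have h2 : Tendsto (fun s : V => r + s) (𝓝 t₀) (𝓝 (r + t₀)) :=
        (continuous_const.add continuous_id).tendsto t₀
      exact h2.comp tendsto_snd
    exact (frm_joint A hF (r + t₀)).comp h1
  · have h3 : ∀ᶠ p : (V → X) × V in 𝓝[A.M] F ×ˢ 𝓝 t₀, p.1 ∈ A.M :=
      (eventually_mem_nhdsWithin (a := F) (s := A.M)).prod_inl _
    filter_upwards [h3] with p hp
    exact A.inv _ _ hp

/-- analyticity of the composition of two families of linear maps -/
theorem frm_comp {E₁ E₂ E₃ P : Type} [NormedAddCommGroup E₁] [NormedSpace ℂ E₁]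
    [NormedAddCommGroup E₂] [NormedSpace ℂ E₂] [NormedAddCommGroup E₃] [NormedSpace ℂ E₃]
    [NormedAddCommGroup P] [NormedSpace ℂ P] {f : P → E₂ →L[ℂ] E₃} {g : P → E₁ →L[ℂ] E₂} {p : P}
    (hf : AnalyticAt ℂ f p) (hg : AnalyticAt ℂ g p) :
    AnalyticAt ℂ (fun x => (f x).comp (g x)) p :=
  ((ContinuousLinearMap.compL ℂ E₁ E₂ E₃).analyticAt_bilinear _).comp₂ hf hg

theorem frm_apply {E₁ E₂ P : Type} [NormedAddCommGroup E₁] [NormedSpace ℂ E₁]
    [NormedAddCommGroup E₂] [NormedSpace ℂ E₂]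
    [NormedAddCommGroup P] [NormedSpace ℂ P] {f : P → E₁ →L[ℂ] E₂} {g : P → E₁} {p : P}
    (hf : AnalyticAt ℂ f p) (hg : AnalyticAt ℂ g p) :
    AnalyticAt ℂ (fun x => (f x) (g x)) p :=
  ((ContinuousLinearMap.id ℂ (E₁ →L[ℂ] E₂)).analyticAt_bilinear _).comp₂ hf hg

/-- the transport composed with the fundamental forms is analytic -/
theorem frm_main [CompactSpace X] [T2Space X] (A : Sys G V) {F : V → X} (hF : F ∈ A.M)
    {y y' : X} {t₀ : V} (hy : F 0 ∈ (G.ch y).source) (hy' : F t₀ ∈ (G.ch y').source) :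
    ∃ a : E × V → E →L[ℂ] (Fin G.L → ℂ), AnalyticAt ℂ a (G.ch y (F 0), t₀) ∧
      ∀ᶠ p : (V → X) × V in 𝓝[A.M] F ×ˢ 𝓝 t₀, p.1 ∈ A.M ∧ p.1 0 ∈ (G.ch y).source ∧
        p.1 p.2 ∈ (G.ch y').source ∧ ∀ u ∈ A.Z y p.1,
          A.jm y' (tr p.2 p.1) (A.D y y' p.1 p.2 u) = a (G.ch y (p.1 0), p.2) u := by
  obtain ⟨Φ, hΦ⟩ := exists_trf A hF hy hy'
  have hFt : tr t₀ F ∈ A.M := A.inv _ _ hF
  have hy0 : tr t₀ F 0 ∈ (G.ch y').source := by rw [frm_tr0]; exact hy'
  obtain ⟨j, hj, hje⟩ := jm_loc A hFt hy0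
  have hΦ0 : G.ch y' (F t₀) = Φ (G.ch y (F 0), t₀) :=
    (Filter.eventually_pure.1 (hΦ.2.2.2.filter_mono (frm_pure A hF t₀))).2
  rw [frm_tr0, hΦ0] at hj
  have hcs : CompleteSpace E := FiniteDimensional.complete ℂ E
  refine ⟨fun q => (j (Φ q)).comp ((fderiv ℂ Φ q).comp (ContinuousLinearMap.inl ℂ E V)), ?_, ?_⟩
  · refine frm_comp ?_ (frm_comp ?_ analyticAt_const)
    · exact hj.comp hΦ.2.2.1
    · exact hΦ.2.2.1.fderiv
  · filter_upwards [frm_trf_ev A hΦ, (frm_tend A hF t₀).eventually hje] with p hp hq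
    obtain ⟨h1, h2, h3⟩ := hp
    refine ⟨h1, h2.1, h2.2.1, fun u hu => ?_⟩
    rw [d_eq A h1 h2 hu, hq, frm_tr0, h3]
    have h4 : HasFDerivAt (fun ξ => Φ (ξ, p.2))
        ((fderiv ℂ Φ (G.ch y (p.1 0), p.2)).comp (ContinuousLinearMap.inl ℂ E V))
        (G.ch y (p.1 0)) := by
      have h5 : HasFDerivAt (fun ξ : E => (ξ, p.2)) (ContinuousLinearMap.inl ℂ E V)
          (G.ch y (p.1 0)) := hasFDerivAt_prodMk_left _ _
      exact (h2.2.2.1.differentiableAt.hasFDerivAt).comp (G.ch y (p.1 0)) h5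
    rw [h4.fderiv]
    rfl

/-- independence of the chart at the endpoint -/
theorem frm_chart [CompactSpace X] [T2Space X] (A : Sys G V) {F : V → X} (hF : F ∈ A.M)
    {y y' y'' : X} {t : V} (hy : F 0 ∈ (G.ch y).source) (hy' : F t ∈ (G.ch y').source)
    (hy'' : F t ∈ (G.ch y'').source) {u : E} (hu : u ∈ A.Z y F) :
    A.jm y'' (tr t F) (A.D y y'' F t u) = A.jm y' (tr t F) (A.D y y' F t u) := by
  have hz := d_mem A hF hy hy' hu
  have h0' : tr t F 0 ∈ (G.ch y').source := by rw [frm_tr0]; exact hy'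
  have h0'' : tr t F 0 ∈ (G.ch y'').source := by rw [frm_tr0]; exact hy''
  have h1 := jm_chart A (A.inv t F hF) h0' h0'' hz
  have h2 := d_comp A hF (s := 0) (t := t) hy hy' (by rw [zero_add]; exact hy'') hu
  rw [zero_add] at h2
  rw [← h1, h2]

/-- the initial chart -/
theorem frm_init [CompactSpace X] [T2Space X] (A : Sys G V) {F : V → X} (hF : F ∈ A.M)
    {y y' y'' : X} {t : V} (hy : F 0 ∈ (G.ch y).source) (hy' : F 0 ∈ (G.ch y').source)
    (hy'' : F t ∈ (G.ch y'').source) {u : E} (hu : u ∈ A.Z y F) :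
    A.D y' y'' F t (A.D y y' F 0 u) = A.D y y'' F t u := by
  have h2 := d_comp A hF (s := t) (t := 0) hy hy' (by rw [add_zero]; exact hy'') hu
  rwa [add_zero, tr_zero] at h2

theorem frm_init_mem [CompactSpace X] [T2Space X] (A : Sys G V) {F : V → X} (hF : F ∈ A.M)
    {y y' : X} (hy : F 0 ∈ (G.ch y).source) (hy' : F 0 ∈ (G.ch y').source) {u : E}
    (hu : u ∈ A.Z y F) : A.D y y' F 0 u ∈ A.Z y' F := by
  have := d_mem A hF hy hy' hu
  rwa [tr_zero] at this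

/-- the transports are injective on the Zariski tangent spaces -/
theorem frm_inj [CompactSpace X] [T2Space X] (A : Sys G V) {F : V → X} (hF : F ∈ A.M)
    {y y' : X} {t : V} (hy : F 0 ∈ (G.ch y).source) (hy' : F t ∈ (G.ch y').source) {u : E}
    (hu : u ∈ A.Z y F) (h0 : A.D y y' F t u = 0) : u = 0 := by
  have h2 := d_comp A hF (s := -t) (t := t) hy hy' (y'' := y) (by rw [neg_add_cancel]; exact hy) hu
  rw [neg_add_cancel, h0, map_zero, d_zero A hF hy hu] at h2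
  exact h2.symm

/-- vectors of a subspace are combinations of as many independent vectors as the dimension -/
theorem frm_span {e : ℕ} {S : Submodule ℂ E} (hS : Module.finrank ℂ S = e) {z : Fin e → E}
    (hz : LinearIndependent ℂ z) (hzS : ∀ b, z b ∈ S) {u : E} (hu : u ∈ S) :
    ∃ g : Fin e → ℂ, u = ∑ b, g b • z b := by
  have h1 : Submodule.span ℂ (range z) ≤ S := by
    rw [Submodule.span_le]
    rintro _ ⟨b, rfl⟩
    exact hzS b
  have h2 : Submodule.span ℂ (range z) = S := by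
    apply Submodule.eq_of_le_of_finrank_eq h1
    rw [finrank_span_eq_card hz, hS, Fintype.card_fin]
  rw [← h2] at hu
  obtain ⟨g, hg⟩ := (Submodule.mem_span_range_iff_exists_fun ℂ).1 hu
  exact ⟨g, hg.symm⟩

theorem frm_basis {e : ℕ} {S : Submodule ℂ E} (hS : Module.finrank ℂ S = e) :
    ∃ z : Fin e → E, LinearIndependent ℂ z ∧ ∀ b, z b ∈ S := by
  let B := Module.finBasisOfFinrankEq ℂ S hS
  refine ⟨fun b => (B b : E), ?_, fun b => (B b).2⟩
  exact B.linearIndependent.map' S.subtype S.ker_subtype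

theorem exists_frames [CompactSpace X] [T2Space X] (A : Sys G V) {e : ℕ}
    (he : ∀ F ∈ A.M, ∀ y, F 0 ∈ (G.ch y).source → Module.finrank ℂ (A.Z y F) = e) :
    ∃ al : (V → X) → V → Fin e → Fin G.L → ℂ, ∀ F ∈ A.M,
      Differentiable ℂ (al F) ∧ (∀ t, LinearIndependent ℂ (al F t)) ∧
      (∀ t y, F t ∈ (G.ch y).source → Submodule.span ℂ (range (al F t)) =
        (A.Z y (tr t F)).map (A.jm y (tr t F)).toLinearMap) ∧
      (∀ s, ∃ g : Fin e → Fin e → ℂ, ∀ t b, al (tr s F) t b = ∑ b', g b b' • al F (t + s) b') ∧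
      ∀ t₀, ∃ (y : X) (a : E × V → Fin e → Fin G.L → ℂ) (a₀ : E → Fin e → Fin G.L → ℂ),
        F 0 ∈ (G.ch y).source ∧ AnalyticAt ℂ a (G.ch y (F 0), t₀) ∧
        AnalyticAt ℂ a₀ (G.ch y (F 0)) ∧
        ∀ᶠ p : (V → X) × V in 𝓝[A.M] F ×ˢ 𝓝 t₀, ∃ g : Fin e → Fin e → ℂ,
          (∀ b, al p.1 p.2 b = ∑ b', g b b' • a (G.ch y (p.1 0), p.2) b') ∧
          ∀ b, al p.1 0 b = ∑ b', g b b' • a₀ (G.ch y (p.1 0)) b' := by
  classical
  have hu0 : ∀ F : V → X, ∃ u : Fin e → E, F ∈ A.M → LinearIndependent ℂ u ∧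
      ∀ b, u b ∈ A.Z (F 0) F := by
    intro F
    by_cases hF : F ∈ A.M
    · obtain ⟨z, h1, h2⟩ := frm_basis (he F hF (F 0) (G.mem _))
      exact ⟨z, fun _ => ⟨h1, h2⟩⟩
    · exact ⟨0, fun h => absurd h hF⟩
  choose u hu using hu0
  let al : (V → X) → V → Fin e → Fin G.L → ℂ := fun F t b =>
    A.jm (F t) (tr t F) (A.D (F 0) (F t) F t (u F b))
  have hal : ∀ F ∈ A.M, ∀ t y', F t ∈ (G.ch y').source → ∀ b,
      al F t b = A.jm y' (tr t F) (A.D (F 0) y' F t (u F b)) := by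
    intro F hF t y' hy' b
    exact frm_chart A hF (G.mem _) hy' (G.mem _) ((hu F hF).2 b)
  -- the vectors transported are independent
  have hind : ∀ F ∈ A.M, ∀ t y', F t ∈ (G.ch y').source →
      LinearIndependent ℂ (fun b => A.D (F 0) y' F t (u F b)) := by
    intro F hF t y' hy'
    rw [Fintype.linearIndependent_iff]
    intro c hc
    have h1 : A.D (F 0) y' F t (∑ b, c b • u F b) = 0 := by
      rw [map_sum, ← hc]
      simp only [map_smul]
    have h2 : ∑ b, c b • u F b ∈ A.Z (F 0) F :=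
      Submodule.sum_mem _ fun b _ => Submodule.smul_mem _ _ ((hu F hF).2 b)
    have h3 := frm_inj A hF (G.mem _) hy' h2 h1
    exact (Fintype.linearIndependent_iff.1 (hu F hF).1) c h3
  refine ⟨al, fun F hF => ⟨?_, ?_, ?_, ?_, ?_⟩⟩
  · -- differentiability
    intro t₁
    obtain ⟨a, ha, hae⟩ := frm_main A hF (y := F 0) (y' := F t₁) (t₀ := t₁) (G.mem _) (G.mem _)
    have h1 : ∀ᶠ t in 𝓝 t₁, al F t = fun b => a (G.ch (F 0) (F 0), t) (u F b) := by
      have h2 : Tendsto (fun t : V => (F, t)) (𝓝 t₁) (𝓝[A.M] F ×ˢ 𝓝 t₁) := by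
        refine Tendsto.prodMk ?_ tendsto_id
        exact tendsto_const_pure.mono_right (pure_le_nhdsWithin hF)
      filter_upwards [h2.eventually hae] with t ht
      funext b
      rw [hal F hF t (F t₁) ht.2.2.1 b]
      exact ht.2.2.2 _ ((hu F hF).2 b)
    have h3 : DifferentiableAt ℂ (fun t : V => fun b => a (G.ch (F 0) (F 0), t) (u F b)) t₁ := by
      rw [differentiableAt_pi]
      intro b
      have h4 : AnalyticAt ℂ (fun t : V => (G.ch (F 0) (F 0), t)) t₁ :=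
        analyticAt_const.prod analyticAt_id
      have h5 : AnalyticAt ℂ (fun t : V => a (G.ch (F 0) (F 0), t)) t₁ :=
        AnalyticAt.comp (f := fun t : V => (G.ch (F 0) (F 0), t)) ha h4
      exact (frm_apply h5 analyticAt_const).differentiableAt
    exact h3.congr_of_eventuallyEq h1
  · -- independence
    intro t
    rw [Fintype.linearIndependent_iff]
    intro c hc
    have hFt : tr t F ∈ A.M := A.inv t F hF
    have h0 : tr t F 0 ∈ (G.ch (F t)).source := by rw [frm_tr0]; exact G.mem _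
    have h1 : A.jm (F t) (tr t F) (∑ b, c b • A.D (F 0) (F t) F t (u F b)) = 0 := by
      rw [map_sum, ← hc]
      simp only [map_smul]
      rfl
    have h2 : ∑ b, c b • A.D (F 0) (F t) F t (u F b) = 0 :=
      jm_inj A hFt h0 (h1.trans (map_zero _).symm)
    exact (Fintype.linearIndependent_iff.1 (hind F hF t (F t) (G.mem _))) c h2
  · -- the span
    intro t y hy
    have hFt : tr t F ∈ A.M := A.inv t F hF
    have h0 : tr t F 0 ∈ (G.ch y).source := by rw [frm_tr0]; exact hy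
    have hin := hind F hF t y hy
    have hD : ∀ b, A.D (F 0) y F t (u F b) ∈ A.Z y (tr t F) := fun b =>
      d_mem A hF (G.mem _) hy ((hu F hF).2 b)
    apply le_antisymm
    · rw [Submodule.span_le]
      rintro _ ⟨b, rfl⟩
      rw [hal F hF t y hy b]
      exact Submodule.mem_map_of_mem (hD b)
    · rintro _ ⟨z, hz, rfl⟩
      obtain ⟨g, hg⟩ := frm_span (he _ hFt y h0) hin hD hz
      have : (A.jm y (tr t F)).toLinearMap z = ∑ b, g b • al F t b := by
        rw [hg, map_sum]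
        refine Finset.sum_congr rfl fun b _ => ?_
        rw [map_smul, hal F hF t y hy b]
        rfl
      rw [this]
      exact Submodule.sum_mem _ fun b _ => Submodule.smul_mem _ _
        (Submodule.subset_span (mem_range_self b))
  · -- the cocycle
    intro s
    have hFs : tr s F ∈ A.M := A.inv s F hF
    have h00 : tr s F 0 = F s := frm_tr0 F s
    have hDs : ∀ b, A.D (F 0) (F s) F s (u F b) ∈ A.Z (F s) (tr s F) := fun b =>
      d_mem A hF (G.mem _) (G.mem _) ((hu F hF).2 b)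
    have h01 : tr s F 0 ∈ (G.ch (F s)).source := by rw [h00]; exact G.mem _
    have hus : ∀ b, u (tr s F) b ∈ A.Z (F s) (tr s F) := by
      intro b
      have := (hu (tr s F) hFs).2 b
      rwa [h00] at this
    have hg : ∀ b, ∃ g : Fin e → ℂ,
        u (tr s F) b = ∑ b', g b' • A.D (F 0) (F s) F s (u F b') := fun b =>
      frm_span (he _ hFs (F s) h01) (hind F hF s (F s) (G.mem _)) hDs (hus b)
    choose g hg using hg
    refine ⟨g, fun t b => ?_⟩
    have h1 : al (tr s F) t b = A.jm (F (t + s)) (tr (t + s) F)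
        (A.D (F s) (F (t + s)) (tr s F) t (u (tr s F) b)) := by
      have h2 : tr s F t ∈ (G.ch (F (t + s))).source := G.mem _
      rw [hal (tr s F) hFs t (F (t + s)) h2 b, tr_tr, h00]
    rw [h1, hg b, map_sum, map_sum]
    refine Finset.sum_congr rfl fun b' _ => ?_
    rw [map_smul, map_smul]
    congr 1
    rw [d_comp A hF (s := t) (t := s) (G.mem _) (G.mem _) (G.mem _) ((hu F hF).2 b')]
  · -- the local form
    intro t₀
    obtain ⟨a, ha, hae⟩ := frm_main A hF (y := F 0) (y' := F t₀) (t₀ := t₀) (G.mem _) (G.mem _)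
    obtain ⟨ζ, hζ, hζe⟩ := z_frame A he hF (y := F 0) (G.mem _)
    obtain ⟨j, hj, hje⟩ := jm_loc A hF (y := F 0) (G.mem _)
    refine ⟨F 0, fun q b => a q (ζ q.1 b), fun ξ b => j ξ (ζ ξ b), G.mem _, ?_, ?_, ?_⟩
    · rw [analyticAt_pi_iff]
      intro b
      refine frm_apply ha ?_
      have h1 : AnalyticAt ℂ (fun ξ : E => ζ ξ b) (G.ch (F 0) (F 0)) :=
        (analyticAt_pi_iff.1 hζ) b
      exact AnalyticAt.comp (g := fun ξ : E => ζ ξ b) (f := Prod.fst) h1 analyticAt_fst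
    · rw [analyticAt_pi_iff]
      intro b
      exact frm_apply hj ((analyticAt_pi_iff.1 hζ) b)
    · filter_upwards [hae, (hζe.and hje).prod_inl (𝓝 t₀)] with p hp hq
      obtain ⟨p1, p2, p3, p4⟩ := hp
      obtain ⟨⟨q1, q2⟩, q3⟩ := hq
      have hin : ∀ b, A.D (p.1 0) (F 0) p.1 0 (u p.1 b) ∈ A.Z (F 0) p.1 := fun b =>
        frm_init_mem A p1 (G.mem _) p2 ((hu p.1 p1).2 b)
      have hg : ∀ b, ∃ g : Fin e → ℂ, A.D (p.1 0) (F 0) p.1 0 (u p.1 b) =
          ∑ b', g b' • ζ (G.ch (F 0) (p.1 0)) b' := fun b =>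
        frm_span (he _ p1 (F 0) p2) q1 q2 (hin b)
      choose g hg using hg
      refine ⟨g, fun b => ?_, fun b => ?_⟩
      · rw [hal p.1 p1 p.2 (F t₀) p3 b, ← frm_init A p1 (G.mem _) p2 p3 ((hu p.1 p1).2 b),
          hg b, map_sum, map_sum]
        refine Finset.sum_congr rfl fun b' _ => ?_
        rw [map_smul, map_smul, p4 _ (q2 b')]
      · rw [hal p.1 p1 0 (F 0) p2 b, hg b, tr_zero, q3, map_sum]
        refine Finset.sum_congr rfl fun b' _ => ?_
        rw [map_smul]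

end Pool.Agent.SS
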