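import Pool.Agent.Lib_helper64.SS.Base
import Pool.Agent.Lib_helper64.SS.Notions
-- NEEDS:

set_option autoImplicit false
set_option linter.unusedSectionVars false

open Filter Topology Metric Set
open scoped Manifold ContDiff

namespace Pool.Agent.SS

/-- PLU: some minor is not zero -/
theorem exists_minor {L e : ℕ} (a : Fin e → Fin L → ℂ) (ha : LinearIndependent ℂ a) :
    ∃ J : Fin e → Fin L, (Matrix.of fun i j => a i (J j)).det ≠ 0 := by
  classical
  set A : Matrix (Fin e) (Fin L) ℂ := Matrix.of a with hA
  have hr : A.rank = e := by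
    have h1 : LinearIndependent ℂ A.row := ha
    have h2 := h1.rank_matrix
    simpa using h2
  have h3 := Matrix.rank_eq_finrank_span_cols A
  rw [hr] at h3
  obtain ⟨f, hf, -, hli⟩ := Submodule.exists_fun_fin_finrank_span_eq ℂ (Set.range A.col)
  choose J hJ using hf
  refine ⟨fun j => J (Fin.cast h3 j), ?_⟩
  set B : Matrix (Fin e) (Fin e) ℂ := Matrix.of fun i j => a i (J (Fin.cast h3 j)) with hB
  have hcol : B.col = f ∘ Fin.cast h3 := by
    funext j
    rw [Function.comp_apply, ← hJ]
    rfl
  have hli2 : LinearIndependent ℂ B.col := by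
    rw [hcol]
    exact hli.comp _ (Fin.cast_injective h3)
  have hu := Matrix.linearIndependent_cols_iff_isUnit.1 hli2
  exact ((Matrix.isUnit_iff_isUnit_det B).1 hu).ne_zero

theorem plu_range {L e : ℕ} (a : Fin e → Fin L → ℂ) (ha : LinearIndependent ℂ a)
    (J : Fin e → Fin L) (hJ : (Matrix.of fun i j => a i (J j)).det ≠ 0)
    (x : Fin L → Fin e → ℂ)
    (hx : ∀ l j, (Matrix.of fun i j' => a i (Function.update J j l j')).det =
      (Matrix.of fun i j => a i (J j)).det * x l j) :
    Submodule.span ℂ (range a) = LinearMap.range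
      (LinearMap.pi fun l => ∑ j, x l j • LinearMap.proj (R := ℂ) (φ := fun _ : Fin e => ℂ) j) := by
  classical
  set Lx : (Fin e → ℂ) →ₗ[ℂ] (Fin L → ℂ) :=
    LinearMap.pi fun l => ∑ j, x l j • LinearMap.proj (R := ℂ) (φ := fun _ : Fin e => ℂ) j with hLx
  have hLxa : ∀ u l, Lx u l = ∑ j, x l j * u j := by
    intro u l
    simp [hLx]
  apply Submodule.eq_of_le_of_finrank_le
  · rw [Submodule.span_le]
    rintro _ ⟨i, rfl⟩
    refine ⟨fun j => a i (J j), ?_⟩
    funext l
    rw [hLxa]
    have h1 := Matrix.mulVec_cramer (Matrix.of fun i j => a i (J j)) (fun i => a i l)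
    have h2 := congrFun h1 i
    simp only [Matrix.mulVec, dotProduct, Matrix.of_apply, Pi.smul_apply, smul_eq_mul,
      Matrix.cramer_apply] at h2
    have h3 : ∀ j, ((Matrix.of fun i j => a i (J j)).updateCol j fun i => a i l) =
        (Matrix.of fun i j' => a i (Function.update J j l j')) := by
      intro j
      ext i' j'
      rw [Matrix.updateCol_apply, Matrix.of_apply, Matrix.of_apply]
      by_cases h : j' = j
      · subst h; simp
      · simp [h]
    simp only [h3, hx] at h2
    have h4 : (Matrix.of fun i j => a i (J j)).det * ∑ j, x l j * a i (J j) =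
        (Matrix.of fun i j => a i (J j)).det * a i l := by
      rw [← h2, Finset.mul_sum]
      apply Finset.sum_congr rfl
      intro j _
      ring
    exact mul_left_cancel₀ hJ h4
  · rw [finrank_span_eq_card ha, Fintype.card_fin]
    calc Module.finrank ℂ (LinearMap.range Lx) ≤ Module.finrank ℂ (Fin e → ℂ) :=
        LinearMap.finrank_range_le Lx
      _ = e := by simp

/-- PLU: two systems of `e` independent vectors with proportional `e × e`-minors span the same
subspace -/
theorem plucker {L e : ℕ} (a b : Fin e → Fin L → ℂ) (ha : LinearIndependent ℂ a)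
    (hb : LinearIndependent ℂ b) (r : ℂ)
    (h : ∀ J : Fin e → Fin L, (Matrix.of fun i j => b i (J j)).det =
      r * (Matrix.of fun i j => a i (J j)).det) :
    Submodule.span ℂ (range a) = Submodule.span ℂ (range b) := by
  obtain ⟨J, hJ⟩ := exists_minor a ha
  obtain ⟨J', hJ'⟩ := exists_minor b hb
  have hr : r ≠ 0 := by
    intro h0
    rw [h J', h0, zero_mul] at hJ'
    exact hJ' rfl
  have hJb : (Matrix.of fun i j => b i (J j)).det ≠ 0 := by
    rw [h J]
    exact mul_ne_zero hr hJ
  set x : Fin L → Fin e → ℂ := fun l j =>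
    (Matrix.of fun i j' => a i (Function.update J j l j')).det /
      (Matrix.of fun i j => a i (J j)).det with hx
  rw [plu_range a ha J hJ x (fun l j => by rw [hx, mul_div_cancel₀ _ hJ]),
    plu_range b hb J hJb x (fun l j => by
      rw [hx, h J, h (Function.update J j l)]
      field_simp)]

end Pool.Agent.SS
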