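import Pool.Agent.Lib_helper64.SS.Base
import Pool.Agent.Lib_helper64.SS.Notions
-- NEEDS:

set_option autoImplicit false
set_option linter.unusedSectionVars false

open Filter Topology Metric Set
open scoped Manifold ContDiff

namespace Pool.Agent.SS

/-- Jensen's inequality -/
theorem jen_ineq (f : ℂ → ℂ) (hf : Differentiable ℂ f) (h0 : f 0 ≠ 0) :
    Real.log ‖f 0‖ ≤ Real.circleAverage (fun z => Real.log ‖f z‖) 0 1 := by
  have han : AnalyticOnNhd ℂ f (closedBall 0 |(1 : ℝ)|) := fun z _ => hf.analyticAt z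
  have h1 := MeromorphicOn.circleAverage_log_norm (c := 0) (R := 1) (f := f) one_ne_zero
    han.meromorphicOn
  rw [(hf.analyticAt 0).meromorphicTrailingCoeffAt_of_ne_zero h0, Real.log_one, mul_zero,
    add_zero] at h1
  have h2 : 0 ≤ ∑ᶠ u, (MeromorphicOn.divisor f (closedBall 0 |(1 : ℝ)|) u : ℝ) *
      Real.log (1 * ‖(0 : ℂ) - u‖⁻¹) := by
    apply finsum_nonneg
    intro u
    by_cases hu : u ∈ closedBall (0 : ℂ) |(1 : ℝ)|
    · apply mul_nonneg
      · exact_mod_cast MeromorphicOn.AnalyticOnNhd.divisor_nonneg han u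
      · rw [one_mul, zero_sub, norm_neg]
        rcases eq_or_ne u 0 with rfl | hu0
        · simp
        · apply Real.log_nonneg
          rw [one_le_inv₀ (norm_pos_iff.2 hu0)]
          simpa using hu
    · rw [Function.locallyFinsuppWithin.apply_eq_zero_of_notMem _ hu]
      simp
  linarith

theorem jen_ae (f : ℂ → ℂ) (hf : Differentiable ℂ f) (h0 : f 0 ≠ 0) :
    ∀ᵐ θ : ℝ, f (circleMap 0 1 θ) ≠ 0 := by
  have han : AnalyticOnNhd ℂ f univ := fun z _ => hf.analyticAt z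
  have h1 : f ⁻¹' {0}ᶜ ∈ codiscrete ℂ := han.preimage_zero_mem_codiscrete (x := 0) h0
  have h2 : f ⁻¹' {0}ᶜ ∈ codiscreteWithin (sphere (0 : ℂ) |(1 : ℝ)|) :=
    codiscreteWithin_mono (subset_univ _) h1
  have h3 := circleMap_preimage_codiscrete (c := 0) (R := 1) one_ne_zero h2
  have h4 := ae_restrict_le_codiscreteWithin (μ := MeasureTheory.volume)
    (U := (univ : Set ℝ)) MeasurableSet.univ h3
  rw [MeasureTheory.Measure.restrict_univ] at h4
  exact h4

/-- JEN: Jensen's inequality for nowhere vanishing vector valued functions, and the case of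
equality -/
theorem jensen_vec {W : Type} [NormedAddCommGroup W] [InnerProductSpace ℂ W] (a : ℂ → W)
    (ha : Differentiable ℂ a) (hne : ∀ z, a z ≠ 0) :
    Real.log ‖a 0‖ ≤ Real.circleAverage (fun z => Real.log ‖a z‖) 0 1 ∧
      (Real.circleAverage (fun z => Real.log ‖a z‖) 0 1 = Real.log ‖a 0‖ →
        ∃ b : ℂ, a 1 = b • a 0) := by
  set ℓ : ℂ → ℂ := fun z => inner ℂ (a 0) (a z) with hℓ
  have hℓd : Differentiable ℂ ℓ := (innerSL ℂ (a 0)).differentiable.comp ha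
  have hℓ0 : ‖ℓ 0‖ = ‖a 0‖ * ‖a 0‖ := by
    show ‖inner ℂ (a 0) (a 0)‖ = _
    rw [inner_self_eq_norm_sq_to_K]
    simp [sq]
  have hpos : ∀ z, 0 < ‖a z‖ := fun z => norm_pos_iff.2 (hne z)
  have hℓne : ℓ 0 ≠ 0 := by
    rw [← norm_pos_iff, hℓ0]
    exact mul_pos (hpos 0) (hpos 0)
  have hle : ∀ z, ‖ℓ z‖ ≤ ‖a 0‖ * ‖a z‖ := fun z => norm_inner_le_norm _ _
  set m1 : ℝ → ℝ := fun θ => Real.log ‖a 0‖ + Real.log ‖a (circleMap 0 1 θ)‖ with hm1
  set m2 : ℝ → ℝ := fun θ => Real.log ‖ℓ (circleMap 0 1 θ)‖ with hm2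
  have hac : Continuous fun θ : ℝ => ‖a (circleMap 0 1 θ)‖ :=
    (ha.continuous.comp (continuous_circleMap 0 1)).norm
  have hm1c : Continuous m1 := continuous_const.add (hac.log fun θ => (hpos _).ne')
  have hm2i : IntervalIntegrable m2 MeasureTheory.volume 0 (2 * Real.pi) := by
    have : MeromorphicOn ℓ (sphere 0 |(1 : ℝ)|) :=
      fun z _ => (hℓd.analyticAt z).meromorphicAt
    exact this.circleIntegrable_log_norm
  have hae : ∀ᵐ θ : ℝ, m2 θ ≤ m1 θ := by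
    filter_upwards [jen_ae ℓ hℓd hℓne] with θ hθ
    show Real.log ‖ℓ (circleMap 0 1 θ)‖ ≤ Real.log ‖a 0‖ + Real.log ‖a (circleMap 0 1 θ)‖
    rw [← Real.log_mul (hpos 0).ne' (hpos _).ne']
    exact Real.log_le_log (norm_pos_iff.2 hθ) (hle _)
  have hpi : (0 : ℝ) ≤ 2 * Real.pi := Real.two_pi_pos.le
  have hint : ∫ θ in (0 : ℝ)..(2 * Real.pi), m2 θ ≤ ∫ θ in (0 : ℝ)..(2 * Real.pi), m1 θ :=
    intervalIntegral.integral_mono_ae hpi hm2i (hm1c.intervalIntegrable _ _) hae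
  have hJ := jen_ineq ℓ hℓd hℓne
  rw [hℓ0, Real.log_mul (hpos 0).ne' (hpos 0).ne', Real.circleAverage] at hJ
  have hm1i : (2 * Real.pi)⁻¹ • ∫ θ in (0 : ℝ)..(2 * Real.pi), m1 θ = Real.log ‖a 0‖ +
      Real.circleAverage (fun z => Real.log ‖a z‖) 0 1 := by
    rw [Real.circleAverage]
    have : ∫ θ in (0 : ℝ)..(2 * Real.pi), m1 θ = (∫ _ in (0 : ℝ)..(2 * Real.pi), Real.log ‖a 0‖) +
        ∫ θ in (0 : ℝ)..(2 * Real.pi), Real.log ‖a (circleMap 0 1 θ)‖ :=
      intervalIntegral.integral_add (continuous_const.intervalIntegrable _ _)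
        ((hac.log fun θ => (hpos _).ne').intervalIntegrable _ _)
    rw [this, smul_add, intervalIntegral.integral_const, sub_zero, smul_smul,
      inv_mul_cancel₀ Real.two_pi_pos.ne', one_smul]
  have hJ' : Real.log ‖a 0‖ + Real.log ‖a 0‖ ≤ (2 * Real.pi)⁻¹ •
      ∫ θ in (0 : ℝ)..(2 * Real.pi), m2 θ := hJ
  have hsm : (2 * Real.pi)⁻¹ • ∫ θ in (0 : ℝ)..(2 * Real.pi), m2 θ ≤
      (2 * Real.pi)⁻¹ • ∫ θ in (0 : ℝ)..(2 * Real.pi), m1 θ := by
    rw [smul_eq_mul, smul_eq_mul]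
    exact mul_le_mul_of_nonneg_left hint (by positivity)
  constructor
  · linarith
  · intro heq
    have hz : (2 * Real.pi)⁻¹ • ∫ θ in (0 : ℝ)..(2 * Real.pi), m2 θ =
        (2 * Real.pi)⁻¹ • ∫ θ in (0 : ℝ)..(2 * Real.pi), m1 θ := by
      apply le_antisymm hsm
      linarith
    have hz2 : ∫ θ in (0 : ℝ)..(2 * Real.pi), m2 θ = ∫ θ in (0 : ℝ)..(2 * Real.pi), m1 θ := by
      rw [smul_eq_mul, smul_eq_mul] at hz
      exact mul_left_cancel₀ (inv_ne_zero Real.two_pi_pos.ne') hz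
    have hz3 : ∫ θ in (0 : ℝ)..(2 * Real.pi), (m1 θ - m2 θ) = 0 := by
      rw [intervalIntegral.integral_sub (hm1c.intervalIntegrable _ _) hm2i, hz2, sub_self]
    rw [intervalIntegral.integral_eq_zero_iff_of_le_of_nonneg_ae hpi
      (MeasureTheory.ae_restrict_of_ae (by
        filter_upwards [hae] with θ hθ
        simpa using hθ)) ((hm1c.intervalIntegrable _ _).sub hm2i)] at hz3
    have hz4 : (fun θ : ℝ => ‖ℓ (circleMap 0 1 θ)‖)
        =ᵐ[MeasureTheory.volume.restrict (Ioc 0 (2 * Real.pi))]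
        fun θ => ‖a 0‖ * ‖a (circleMap 0 1 θ)‖ := by
      filter_upwards [hz3, MeasureTheory.ae_restrict_of_ae (jen_ae ℓ hℓd hℓne)] with θ h1 h2
      have h3 : Real.log ‖a 0‖ + Real.log ‖a (circleMap 0 1 θ)‖ -
        Real.log ‖ℓ (circleMap 0 1 θ)‖ = 0 := h1
      rw [← Real.log_mul (hpos 0).ne' (hpos _).ne'] at h3
      exact (Real.log_injOn_pos (mem_Ioi.2 (mul_pos (hpos 0) (hpos _)))
        (mem_Ioi.2 (norm_pos_iff.2 h2)) (by linarith)).symm
    have hz5 := MeasureTheory.Measure.eqOn_Ioc_of_ae_eq MeasureTheory.volume hz4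
      ((hℓd.continuous.comp (continuous_circleMap 0 1)).norm.continuousOn)
      ((continuous_const.mul hac).continuousOn)
    have hz6 := hz5 (x := 2 * Real.pi) ⟨Real.two_pi_pos, le_rfl⟩
    have hone : circleMap 0 1 (2 * Real.pi) = 1 := by
      simp [circleMap, Complex.exp_two_pi_mul_I]
    simp only [hone] at hz6
    obtain ⟨r, -, hr⟩ := (norm_inner_eq_norm_iff (𝕜 := ℂ) (hne 0) (hne 1)).1 hz6
    exact ⟨r, hr⟩

end Pool.Agent.SS
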