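import Pool.Agent.Lib_helper64.SS.Base
import Pool.Agent.Lib_helper64.SS.Notions
import Pool.Agent.Lib_helper64.SS.B.AVG
import Pool.Agent.Lib_helper64.SS.B.COV
import Pool.Agent.Lib_helper64.SS.B.JEN

/-! Block PTA for MP_45e720_ag. -/
-- NEEDS: JEN AVG COV

set_option autoImplicit false
set_option linter.unusedSectionVars false

open Filter Topology Metric Set
open scoped Manifold ContDiff

namespace Pool.Agent.SS

/-- the circle average depends continuously on the parameter -/
theorem pta_continuous_avg {T : Type} [TopologicalSpace T] (f : T → ℂ → ℝ)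
    (hf : Continuous fun p : T × ℂ => f p.1 p.2) :
    Continuous fun F => Real.circleAverage (f F) 0 1 := by
  have h1 : Continuous (Function.uncurry fun (F : T) (θ : ℝ) => f F (circleMap 0 1 θ)) :=
    hf.comp (continuous_fst.prodMk ((continuous_circleMap 0 1).comp continuous_snd))
  exact (intervalIntegral.continuous_parametric_intervalIntegral_of_continuous' h1 0
    (2 * Real.pi)).const_smul (2 * Real.pi)⁻¹

theorem projective_const {T V W : Type} [TopologicalSpace T] [CompactSpace T]
    [NormedAddCommGroup V] [NormedSpace ℂ V] [NormedAddCommGroup W] [InnerProductSpace ℂ W]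
    (act : V → T → T) (hadd : ∀ s t F, act (s + t) F = act s (act t F))
    (hc : ∀ t, Continuous (act t))
    (hmin : ∀ (F : T) (U : Set T), IsOpen U → U.Nonempty → ∃ t, act t F ∈ U)
    (A : T → V → W) (hA : ∀ F, Differentiable ℂ (A F)) (hne : ∀ F t, A F t ≠ 0)
    (hcoc : ∀ F s, ∃ a : ℂ, a ≠ 0 ∧ ∀ t, A (act s F) t = a • A F (t + s))
    (hcont : Continuous fun p : T × V => ‖A p.1 p.2‖ / ‖A p.1 0‖) (F : T) (t : V) :
    ∃ a : ℂ, A F t = a • A F 0 := by
  set φ : T → ℂ → ℝ := fun F z => Real.log (‖A F (z • t)‖ / ‖A F 0‖) with hφdef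
  have hφc : Continuous fun p : T × ℂ => φ p.1 p.2 := by
    have h1 : Continuous fun p : T × ℂ => ‖A p.1 (p.2 • t)‖ / ‖A p.1 0‖ :=
      hcont.comp (continuous_fst.prodMk (continuous_snd.smul continuous_const))
    exact h1.log fun p => div_ne_zero (norm_ne_zero_iff.2 (hne _ _)) (norm_ne_zero_iff.2 (hne _ _))
  have hφ1 : ∀ F, Continuous (φ F) := fun F => hφc.comp (continuous_const.prodMk continuous_id)
  have hcocφ : ∀ F z z', φ (act (z' • t) F) z = φ F (z + z') - φ F z' := by
    intro F z z'
    obtain ⟨a, ha, h⟩ := hcoc F (z' • t)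
    have n1 := norm_ne_zero_iff.2 (hne F ((z + z') • t))
    have n2 := norm_ne_zero_iff.2 (hne F (z' • t))
    have n3 := norm_ne_zero_iff.2 (hne F 0)
    have na := norm_ne_zero_iff.2 ha
    simp only [hφdef]
    rw [h, h, zero_add, ← add_smul, norm_smul, norm_smul, mul_div_mul_left _ _ na,
      Real.log_div n1 n2, Real.log_div n1 n3, Real.log_div n2 n3]
    ring
  obtain ⟨B, hB⟩ := (isCompact_univ.prod (isCompact_closedBall (0 : ℂ) 1) :
    IsCompact ((univ : Set T) ×ˢ closedBall (0 : ℂ) 1)).exists_bound_of_continuousOn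
    hφc.continuousOn
  have hB' : ∀ F w, ‖w‖ ≤ 1 → |φ F w| ≤ B := by
    intro F w hw
    have := hB (F, w) ⟨mem_univ _, by simpa using hw⟩
    simpa [Real.norm_eq_abs] using this
  have hlog : ∀ F z, φ F z = Real.log ‖A F (z • t)‖ - Real.log ‖A F 0‖ := by
    intro F z
    simp only [hφdef]
    rw [Real.log_div (norm_ne_zero_iff.2 (hne _ _)) (norm_ne_zero_iff.2 (hne _ _))]
  have hdiff : ∀ F, Differentiable ℂ fun z : ℂ => A F (z • t) := fun F =>
    (hA F).comp (differentiable_id.smul_const t)
  have hlc : ∀ F, Continuous fun z : ℂ => Real.log ‖A F (z • t)‖ := fun F =>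
    (hdiff F).continuous.norm.log fun z => norm_ne_zero_iff.2 (hne _ _)
  have hav : ∀ F, Real.circleAverage (φ F) 0 1 =
      Real.circleAverage (fun z : ℂ => Real.log ‖A F (z • t)‖) 0 1 - Real.log ‖A F 0‖ := by
    intro F
    have e : φ F = fun z : ℂ => Real.log ‖A F (z • t)‖ - Real.log ‖A F 0‖ := funext (hlog F)
    rw [e, Real.circleAverage_fun_sub, Real.circleAverage_const]
    · exact (hlc F).continuousOn.circleIntegrable'
    · exact continuousOn_const.circleIntegrable'
  have hJ : ∀ F, Real.log ‖A F 0‖ ≤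
        Real.circleAverage (fun z : ℂ => Real.log ‖A F (z • t)‖) 0 1 ∧
      (Real.circleAverage (fun z : ℂ => Real.log ‖A F (z • t)‖) 0 1 = Real.log ‖A F 0‖ →
        ∃ b : ℂ, A F t = b • A F 0) := by
    intro F
    have := jensen_vec (fun z : ℂ => A F (z • t)) (hdiff F) fun z => hne _ _
    simpa only [zero_smul, one_smul] using this
  have hzero := cov_zero act hadd hc hmin (fun F => Real.circleAverage (φ F) 0 1)
    (pta_continuous_avg φ hφc) (fun F => by
      have := (hJ F).1
      show 0 ≤ Real.circleAverage (φ F) 0 1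
      rw [hav F]; linarith) t (fun F => by
      have e : (fun z : ℂ => Real.circleAverage (φ (act (z • t) F)) 0 1) =
          fun z : ℂ => Real.circleAverage (fun w => φ F (w + z) - φ F z) 0 1 := by
        funext z
        congr 1
        funext w
        exact hcocφ F w z
      show Continuous fun z : ℂ => Real.circleAverage (φ (act (z • t) F)) 0 1
      rw [e]
      apply pta_continuous_avg fun z w => φ F (w + z) - φ F z
      exact ((hφ1 F).comp (continuous_snd.add continuous_fst)).sub
        ((hφ1 F).comp continuous_fst)) (4 * B) (fun F R hR => by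
      exact avg_cocycle (fun z => act (z • t)) φ B hB' hφ1 hcocφ F R hR)
  have h0 := hzero F
  have h0' : Real.circleAverage (φ F) 0 1 = 0 := h0
  rw [hav F] at h0'
  exact (hJ F).2 (by linarith)

end Pool.Agent.SS
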