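import Pool.Agent.Lib_helper64.SS.Base
import Pool.Agent.Lib_helper64.SS.Notions
import Pool.Agent.Lib_helper64.SS.B.DER
import Pool.Agent.Lib_helper64.SS.B.ZFN

-- NEEDS: ZFN DER

/-! Block ZDM: the dimension of the Zariski tangent space is constant (MP_45e720_ag). -/

set_option autoImplicit false
set_option linter.unusedSectionVars false

open Filter Topology Metric Set
open scoped Manifold ContDiff

namespace Pool.Agent.SS

variable {E X : Type} [NormedAddCommGroup E] [NormedSpace ℂ E] [FiniteDimensional ℂ E]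
  [TopologicalSpace X] {G : Geo E X}
  {V : Type} [NormedAddCommGroup V] [NormedSpace ℂ V] [FiniteDimensional ℂ V]

/-- surjectivity is an open condition -/
theorem zdm_surj_open {F : Type} [NormedAddCommGroup F] [NormedSpace ℂ F] [FiniteDimensional ℂ F]
    (L₀ : E →L[ℂ] F) (h : Function.Surjective L₀) :
    ∀ᶠ L in 𝓝 L₀, Function.Surjective (L : E →L[ℂ] F) := by
  obtain ⟨R, hR⟩ := L₀.toLinearMap.exists_rightInverse_of_surjective
    (LinearMap.range_eq_top.2 h)
  set R' : F →L[ℂ] E := LinearMap.toContinuousLinearMap R with hR'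
  have h0 : L₀.comp R' = 1 := by
    ext x
    have := congrArg (fun f => f x) hR
    simpa [hR'] using this
  have hc : Continuous fun L : E →L[ℂ] F => L.comp R' := by fun_prop
  have h1 : ∀ᶠ L in 𝓝 L₀, IsUnit ((L : E →L[ℂ] F).comp R') := by
    apply hc.continuousAt.eventually
    show ∀ᶠ y : F →L[ℂ] F in 𝓝 (L₀.comp R'), IsUnit y
    rw [h0]
    exact Units.isOpen.mem_nhds isUnit_one
  filter_upwards [h1] with L hL
  obtain ⟨u, hu⟩ := hL
  intro x
  refine ⟨R' ((↑u⁻¹ : F →L[ℂ] F) x), ?_⟩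
  have h2 : L (R' ((↑u⁻¹ : F →L[ℂ] F) x)) = (L.comp R') ((↑u⁻¹ : F →L[ℂ] F) x) := rfl
  rw [h2, ← hu]
  have h3 : ((u : F →L[ℂ] F) * (↑u⁻¹ : F →L[ℂ] F)) x = x := by
    rw [Units.mul_inv]
    rfl
  exact h3

/-- the dimension of the kernel -/
theorem zdm_ker {r : ℕ} (L : E →L[ℂ] (Fin r → ℂ)) (h : Function.Surjective L) :
    Module.finrank ℂ (LinearMap.ker L.toLinearMap) = Module.finrank ℂ E - r := by
  have h1 := LinearMap.finrank_range_add_finrank_ker L.toLinearMap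
  have h2 : LinearMap.range L.toLinearMap = ⊤ := LinearMap.range_eq_top.2 h
  rw [h2, finrank_top, Module.finrank_fin_fun] at h1
  omega

theorem zdm_le [CompactSpace X] [T2Space X] (A : Sys G V) {F : V → X} (hF : F ∈ A.M) {y y' : X}
    {t : V} (hy : F 0 ∈ (G.ch y).source) (hy' : F t ∈ (G.ch y').source) :
    Module.finrank ℂ (A.Z y F) ≤ Module.finrank ℂ (A.Z y' (tr t F)) := by
  have key : ∀ u ∈ A.Z y F, A.D y' y (tr t F) (-t) (A.D y y' F t u) = u := by
    intro u hu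
    rw [d_comp A hF (s := -t) hy hy' (by rwa [neg_add_cancel]) hu, neg_add_cancel,
      d_zero A hF hy hu]
  let L : A.Z y F →ₗ[ℂ] A.Z y' (tr t F) :=
    ((A.D y y' F t).toLinearMap.comp (A.Z y F).subtype).codRestrict (A.Z y' (tr t F))
      (fun u => d_mem A hF hy hy' u.2)
  refine LinearMap.finrank_le_finrank_of_injective (f := L) ?_
  intro a b hab
  have h1 : A.D y y' F t a = A.D y y' F t b := congrArg Subtype.val hab
  apply Subtype.ext
  rw [← key a a.2, ← key b b.2, h1]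

theorem zdm_eq [CompactSpace X] [T2Space X] (A : Sys G V) {F : V → X} (hF : F ∈ A.M) {y y' : X}
    {t : V} (hy : F 0 ∈ (G.ch y).source) (hy' : F t ∈ (G.ch y').source) :
    Module.finrank ℂ (A.Z y F) = Module.finrank ℂ (A.Z y' (tr t F)) := by
  refine le_antisymm (zdm_le A hF hy hy') ?_
  have h1 : tr t F 0 ∈ (G.ch y').source := by
    simp only [tr, zero_add]
    exact hy'
  have h2 : tr t F (-t) ∈ (G.ch y).source := by
    simp only [tr, neg_add_cancel]
    exact hy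
  have h3 := zdm_le A (A.inv t F hF) (t := -t) h1 h2
  rwa [tr_tr, neg_add_cancel, tr_zero] at h3

/-- the initial point in the chart is continuous -/
theorem zdm_tendsto (A : Sys G V) {F : V → X} {y : X} (hy : F 0 ∈ (G.ch y).source) :
    Tendsto (fun F' : V → X => G.ch y (F' 0)) (𝓝[A.M] F) (𝓝 (G.ch y (F 0))) := by
  have h1 : Tendsto (fun F' : V → X => F' 0) (𝓝[A.M] F) (𝓝 (F 0)) :=
    ((continuous_apply (0 : V)).tendsto F).mono_left nhdsWithin_le_nhds
  exact ((G.ch y).continuousAt hy).tendsto.comp h1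

theorem zdm_semi (A : Sys G V) {F : V → X} (hF : F ∈ A.M) {y : X}
    (hy : F 0 ∈ (G.ch y).source) :
    ∀ᶠ F' in 𝓝[A.M] F, F' 0 ∈ (G.ch y).source ∧
      Module.finrank ℂ (A.Z y F') ≤ Module.finrank ℂ (A.Z y F) := by
  obtain ⟨r, f, hfa, hf0, hfs, hfZ⟩ := z_fun A hF hy
  have hT := zdm_tendsto A hy
  have h1 : ∀ᶠ F' in 𝓝[A.M] F, F' 0 ∈ (G.ch y).source := by
    have h1 : Tendsto (fun F' : V → X => F' 0) (𝓝[A.M] F) (𝓝 (F 0)) :=
      ((continuous_apply (0 : V)).tendsto F).mono_left nhdsWithin_le_nhds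
    exact h1.eventually ((G.ch y).open_source.mem_nhds hy)
  have h2 : ∀ᶠ F' in 𝓝[A.M] F, AnalyticAt ℂ f (G.ch y (F' 0)) :=
    hT.eventually hfa.eventually_analyticAt
  have h3 : ∀ᶠ F' in 𝓝[A.M] F, Function.Surjective (fderiv ℂ f (G.ch y (F' 0))) :=
    hT.eventually (hfa.fderiv.continuousAt.eventually (zdm_surj_open _ hfs))
  have h4 : ∀ᶠ F' in 𝓝[A.M] F, ∀ᶠ F'' in 𝓝[A.M] F', f (G.ch y (F'' 0)) = 0 :=
    eventually_eventually_nhdsWithin.2 hf0
  filter_upwards [h1, h2, h3, h4] with F' g1 g2 g3 g4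
  refine ⟨g1, ?_⟩
  have h5 : A.Z y F' ≤ LinearMap.ker (fderiv ℂ f (G.ch y (F' 0))).toLinearMap := by
    intro u hu
    rw [LinearMap.mem_ker]
    funext i
    have h6 : A.Van y F' (fun ξ => f ξ i) := by
      refine ⟨?_, ?_⟩
      · exact (ContinuousLinearMap.proj (R := ℂ) (φ := fun _ : Fin r => ℂ) i).analyticAt _ |>.comp g2
      · filter_upwards [g4] with F'' hF''
        rw [hF'']
        rfl
    have h7 := hu _ h6
    have h8 : fderiv ℂ (fun ξ => f ξ i) (G.ch y (F' 0)) u = fderiv ℂ f (G.ch y (F' 0)) u i := by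
      have h9 : HasFDerivAt (fun ξ => f ξ i)
          ((ContinuousLinearMap.proj (R := ℂ) (φ := fun _ : Fin r => ℂ) i).comp
            (fderiv ℂ f (G.ch y (F' 0)))) (G.ch y (F' 0)) :=
        (ContinuousLinearMap.proj (R := ℂ) (φ := fun _ : Fin r => ℂ) i).hasFDerivAt.comp _
          g2.differentiableAt.hasFDerivAt
      rw [h9.fderiv]
      rfl
    rw [h8] at h7
    exact h7
  have h10 : A.Z y F = LinearMap.ker (fderiv ℂ f (G.ch y (F 0))).toLinearMap := by
    ext u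
    rw [hfZ u, LinearMap.mem_ker]
    rfl
  rw [h10, zdm_ker _ hfs, ← zdm_ker _ g3]
  exact Submodule.finrank_mono h5

theorem z_dim [CompactSpace X] [T2Space X] (A : Sys G V) :
    ∃ e : ℕ, ∀ F ∈ A.M, ∀ y, F 0 ∈ (G.ch y).source → Module.finrank ℂ (A.Z y F) = e := by
  classical
  let P : ℕ → Prop := fun n => ∃ F ∈ A.M, ∃ y, F 0 ∈ (G.ch y).source ∧
    Module.finrank ℂ (A.Z y F) = n
  have hP : ∃ n, P n := by
    obtain ⟨F, hF⟩ := A.ne
    exact ⟨_, F, hF, F 0, G.mem (F 0), rfl⟩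
  obtain ⟨F₁, hF₁, y₁, hy₁, he⟩ := Nat.find_spec hP
  refine ⟨Nat.find hP, fun F hF y hy => le_antisymm ?_ (Nat.find_min' hP ⟨F, hF, y, hy, rfl⟩)⟩
  have h1 := zdm_semi A hF₁ hy₁
  rw [eventually_nhdsWithin_iff, eventually_iff_exists_mem] at h1
  obtain ⟨U, hU, hUP⟩ := h1
  obtain ⟨t, ht⟩ := A.dense F hF F₁ hF₁ U hU
  obtain ⟨h2, h3⟩ := hUP (tr t F) ht (A.inv t F hF)
  have h4 : F t ∈ (G.ch y₁).source := by
    simpa only [tr, zero_add] using h2
  rw [zdm_eq A hF hy h4, ← he]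
  exact h3

end Pool.Agent.SS
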