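import Pool.Agent.Lib_helper64.SS.Base
import Pool.Agent.Lib_helper64.SS.Notions
import Pool.Agent.Lib_helper64.SS.B.FRM
import Pool.Agent.Lib_helper64.SS.B.PLU
import Pool.Agent.Lib_helper64.SS.B.PTA
import Pool.Agent.Lib_helper64.SS.B.ZDM

/-! Block CSP for MP_45e720_ag. -/
-- NEEDS: ZDM FRM PTA PLU

set_option autoImplicit false
set_option linter.unusedSectionVars false

open Filter Topology Metric Set
open scoped Manifold ContDiff

namespace Pool.Agent.SS

section minors

variable {L e : ℕ}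

/-- the vector of the maximal minors -/
noncomputable def cspM (a : Fin e → Fin L → ℂ) : EuclideanSpace ℂ (Fin e → Fin L) :=
  WithLp.toLp 2 fun J => (Matrix.of fun i j => a i (J j)).det

theorem csp_apply (a : Fin e → Fin L → ℂ) (J : Fin e → Fin L) :
    cspM a J = (Matrix.of fun i j => a i (J j)).det := rfl

theorem csp_diff : Differentiable ℂ (cspM : (Fin e → Fin L → ℂ) → _) := by
  have h : Differentiable ℂ fun (a : Fin e → Fin L → ℂ) (J : Fin e → Fin L) =>
      (Matrix.of fun i j => a i (J j)).det := by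
    refine differentiable_pi.2 fun J => ?_
    simp only [Matrix.det_apply, Matrix.of_apply]
    refine Differentiable.fun_sum fun σ _ => ?_
    refine Differentiable.const_smul ?_ _
    have h1 : ∀ i ∈ (Finset.univ : Finset (Fin e)),
        ContDiff ℂ 1 fun a : Fin e → Fin L → ℂ => a (σ i) (J i) := fun i _ => by fun_prop
    exact (contDiff_prod h1).differentiable one_ne_zero
  exact ((EuclideanSpace.equiv (Fin e → Fin L) ℂ).symm.differentiable).comp h

theorem csp_ne {a : Fin e → Fin L → ℂ} (ha : LinearIndependent ℂ a) : cspM a ≠ 0 := by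
  obtain ⟨J, hJ⟩ := exists_minor a ha
  intro h
  apply hJ
  rw [← csp_apply, h]
  rfl

theorem csp_mul {a b : Fin e → Fin L → ℂ} {g : Fin e → Fin e → ℂ}
    (h : ∀ i, b i = ∑ j, g i j • a j) : cspM b = (Matrix.of g).det • cspM a := by
  ext J
  rw [PiLp.smul_apply, csp_apply, csp_apply, smul_eq_mul, ← Matrix.det_mul]
  congr 1
  ext i j
  rw [Matrix.of_apply, Matrix.mul_apply, h i, Finset.sum_apply]
  rfl

theorem csp_det_ne {a b : Fin e → Fin L → ℂ} {g : Fin e → Fin e → ℂ}
    (h : ∀ i, b i = ∑ j, g i j • a j) (hb : LinearIndependent ℂ b) :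
    (Matrix.of g).det ≠ 0 ∧ cspM a ≠ 0 := by
  have h1 := csp_ne hb
  rw [csp_mul h] at h1
  exact ⟨fun h0 => h1 (by rw [h0, zero_smul]), fun h0 => h1 (by rw [h0, smul_zero])⟩

theorem csp_span {a b : Fin e → Fin L → ℂ} {g : Fin e → Fin e → ℂ}
    (h : ∀ i, b i = ∑ j, g i j • a j) (hb : LinearIndependent ℂ b) :
    Submodule.span ℂ (range b) = Submodule.span ℂ (range a) := by
  apply Submodule.eq_of_le_of_finrank_le
  · rw [Submodule.span_le]
    rintro _ ⟨i, rfl⟩
    rw [h i]
    exact Submodule.sum_mem _ fun j _ => Submodule.smul_mem _ _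
      (Submodule.subset_span (mem_range_self j))
  · rw [finrank_span_eq_card hb]
    exact finrank_range_le_card a

end minors

variable {E X : Type} [NormedAddCommGroup E] [NormedSpace ℂ E] [FiniteDimensional ℂ E]
  [TopologicalSpace X] {G : Geo E X}
  {V : Type} [NormedAddCommGroup V] [NormedSpace ℂ V] [FiniteDimensional ℂ V]

/-- CSP: the span of the frames is the same subspace for all members of `M` and all times -/
theorem exists_span [CompactSpace X] [T2Space X] (A : Sys G V) :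
    ∃ W : Submodule ℂ (Fin G.L → ℂ), ∀ F ∈ A.M, ∀ y, F 0 ∈ (G.ch y).source →
      (A.Z y F).map (A.jm y F).toLinearMap = W := by
  obtain ⟨e, he⟩ := z_dim A
  obtain ⟨al, hal⟩ := exists_frames A he
  have hcpt : CompactSpace ↥A.M := isCompact_iff_compactSpace.1 A.cpt
  set act : V → ↥A.M → ↥A.M := fun t F => ⟨tr t F.1, A.inv t F.1 F.2⟩ with hact
  have hadd : ∀ s t F, act (s + t) F = act s (act t F) := fun s t F =>
    Subtype.ext (tr_tr s t F.1).symm
  have hc : ∀ t, Continuous (act t) := fun t =>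
    ((continuous_tr t).comp continuous_subtype_val).subtype_mk _
  have hmin : ∀ (F : ↥A.M) (U : Set ↥A.M), IsOpen U → U.Nonempty → ∃ t, act t F ∈ U := by
    rintro F U hU ⟨F', hF'⟩
    obtain ⟨O, hO, rfl⟩ := isOpen_induced_iff.1 hU
    obtain ⟨t, ht⟩ := A.dense F.1 F.2 F'.1 F'.2 O (hO.mem_nhds hF')
    exact ⟨t, ht⟩
  -- the translation cocycle of the minors
  have hcoc : ∀ (F : ↥A.M) s, ∃ a : ℂ, a ≠ 0 ∧ ∀ t,
      cspM (al (act s F).1 t) = a • cspM (al F.1 (t + s)) := by
    intro F s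
    obtain ⟨g, hg⟩ := (hal F.1 F.2).2.2.2.1 s
    refine ⟨(Matrix.of g).det, ?_, fun t => csp_mul (hg t)⟩
    exact (csp_det_ne (hg 0) ((hal _ (act s F).2).2.1 0)).1
  have hcont : Continuous fun p : ↥A.M × V => ‖cspM (al p.1.1 p.2)‖ / ‖cspM (al p.1.1 0)‖ := by
    rw [continuous_iff_continuousAt]
    rintro ⟨F, t₀⟩
    obtain ⟨y, a, a₀, hy, ha, ha₀, hev⟩ := (hal F.1 F.2).2.2.2.2 t₀
    have hval : Tendsto (fun F : ↥A.M => F.1) (𝓝 F) (𝓝[A.M] F.1) := by
      rw [tendsto_nhdsWithin_iff]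
      exact ⟨continuous_subtype_val.continuousAt, Eventually.of_forall fun F => F.2⟩
    have hpair : Tendsto (fun p : ↥A.M × V => (p.1.1, p.2)) (𝓝 (F, t₀))
        (𝓝[A.M] F.1 ×ˢ 𝓝 t₀) := by
      rw [nhds_prod_eq]
      exact hval.prodMap tendsto_id
    have hξ : ContinuousAt (fun p : ↥A.M × V => G.ch y (p.1.1 0)) (F, t₀) := by
      have h1 : ContinuousAt (fun p : ↥A.M × V => p.1.1 0) (F, t₀) :=
        ((continuous_apply 0).comp (continuous_subtype_val.comp continuous_fst)).continuousAt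
      have h2 : ContinuousAt (G.ch y) ((fun p : ↥A.M × V => p.1.1 0) (F, t₀)) :=
        (G.ch y).continuousAt hy
      exact ContinuousAt.comp (f := fun p : ↥A.M × V => p.1.1 0) h2 h1
    have c1 : ContinuousAt (fun p : ↥A.M × V => cspM (a (G.ch y (p.1.1 0), p.2))) (F, t₀) := by
      have h1 : ContinuousAt (fun p : ↥A.M × V => (G.ch y (p.1.1 0), p.2)) (F, t₀) :=
        hξ.prodMk continuousAt_snd
      have h2 : ContinuousAt a ((fun p : ↥A.M × V => (G.ch y (p.1.1 0), p.2)) (F, t₀)) :=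
        ha.continuousAt
      exact csp_diff.continuous.continuousAt.comp
        (ContinuousAt.comp (f := fun p : ↥A.M × V => (G.ch y (p.1.1 0), p.2)) h2 h1)
    have c2 : ContinuousAt (fun p : ↥A.M × V => cspM (a₀ (G.ch y (p.1.1 0)))) (F, t₀) := by
      have h2 : ContinuousAt a₀ ((fun p : ↥A.M × V => G.ch y (p.1.1 0)) (F, t₀)) :=
        ha₀.continuousAt
      exact csp_diff.continuous.continuousAt.comp
        (ContinuousAt.comp (f := fun p : ↥A.M × V => G.ch y (p.1.1 0)) h2 hξ)
    have hev' := hpair.eventually hev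
    have hn0 : cspM (a₀ (G.ch y (F.1 0))) ≠ 0 := by
      obtain ⟨g, -, hg⟩ := hev'.self_of_nhds
      exact (csp_det_ne hg ((hal F.1 F.2).2.1 0)).2
    have c3 : ContinuousAt (fun p : ↥A.M × V => ‖cspM (a (G.ch y (p.1.1 0), p.2))‖ /
        ‖cspM (a₀ (G.ch y (p.1.1 0)))‖) (F, t₀) :=
      c1.norm.div c2.norm (norm_ne_zero_iff.2 hn0)
    refine c3.congr ?_
    filter_upwards [hev'] with p hp
    obtain ⟨g, hg1, hg2⟩ := hp
    have hd := (csp_det_ne hg1 ((hal p.1.1 p.1.2).2.1 p.2)).1
    rw [csp_mul hg1, csp_mul hg2, norm_smul, norm_smul,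
      mul_div_mul_left _ _ (norm_ne_zero_iff.2 hd)]
  -- the span does not depend on the time
  have hspan : ∀ F ∈ A.M, ∀ t, Submodule.span ℂ (range (al F t)) =
      Submodule.span ℂ (range (al F 0)) := by
    intro F hF t
    obtain ⟨r, hr⟩ := projective_const act hadd hc hmin (fun F t => cspM (al F.1 t))
      (fun F => csp_diff.comp (hal F.1 F.2).1) (fun F t => csp_ne ((hal F.1 F.2).2.1 t))
      hcoc hcont ⟨F, hF⟩ t
    refine (plucker (al F 0) (al F t) ((hal F hF).2.1 0) ((hal F hF).2.1 t) r fun J => ?_).symm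
    have h1 : cspM (al F t) = r • cspM (al F 0) := hr
    rw [← csp_apply, h1]
    rfl
  -- the span of a member of `M` in the terms of the Zariski tangent space
  have hZ : ∀ F ∈ A.M, ∀ y, F 0 ∈ (G.ch y).source →
      (A.Z y F).map (A.jm y F).toLinearMap = Submodule.span ℂ (range (al F 0)) := by
    intro F hF y hy
    have := (hal F hF).2.2.1 0 y hy
    rw [tr_zero] at this
    exact this.symm
  have htr : ∀ F ∈ A.M, ∀ t, Submodule.span ℂ (range (al (tr t F) 0)) =
      Submodule.span ℂ (range (al F 0)) := by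
    intro F hF t
    have h1 := (hal F hF).2.2.1 t (F t) (G.mem _)
    have h2 := hZ (tr t F) (A.inv t F hF) (F t) (by
      show F (0 + t) ∈ _
      rw [zero_add]
      exact G.mem _)
    rw [← h2, ← h1, hspan F hF t]
  -- comparison of two members
  have hle : ∀ F ∈ A.M, ∀ F' ∈ A.M, Submodule.span ℂ (range (al F' 0)) ≤
      Submodule.span ℂ (range (al F 0)) := by
    intro F hF F' hF'
    obtain ⟨y, a, a₀, hy, ha, ha₀, hev⟩ := (hal F' hF').2.2.2.2 0
    have hev0 : ∀ᶠ F'' in 𝓝[A.M] F', ∃ g : Fin e → Fin e → ℂ,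
        ∀ b, al F'' 0 b = ∑ b', g b b' • a₀ (G.ch y (F'' 0)) b' := by
      have h1 : Tendsto (fun F'' : V → X => (F'', (0 : V))) (𝓝[A.M] F')
          (𝓝[A.M] F' ×ˢ 𝓝 (0 : V)) := tendsto_id.prodMk tendsto_const_nhds
      filter_upwards [h1.eventually hev] with F'' h2
      obtain ⟨g, -, hg⟩ := h2
      exact ⟨g, hg⟩
    have hmem : ∀ b, a₀ (G.ch y (F' 0)) b ∈ Submodule.span ℂ (range (al F 0)) := by
      intro b
      by_contra hcon
      have hcl : IsClosed (Submodule.span ℂ (range (al F 0)) : Set (Fin G.L → ℂ)) :=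
        Submodule.closed_of_finiteDimensional _
      have hcF : ContinuousAt (fun F'' : V → X => a₀ (G.ch y (F'' 0)) b) F' := by
        have h1 : ContinuousAt (fun F'' : V → X => F'' 0) F' := (continuous_apply 0).continuousAt
        have h2 : ContinuousAt (G.ch y) ((fun F'' : V → X => F'' 0) F') :=
          (G.ch y).continuousAt hy
        have h3 : ContinuousAt (fun F'' : V → X => G.ch y (F'' 0)) F' :=
          ContinuousAt.comp (f := fun F'' : V → X => F'' 0) h2 h1
        have h4 : ContinuousAt (fun ξ => a₀ ξ b) ((fun F'' : V → X => G.ch y (F'' 0)) F') :=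
          (continuous_apply b).continuousAt.comp ha₀.continuousAt
        exact ContinuousAt.comp (f := fun F'' : V → X => G.ch y (F'' 0)) h4 h3
      have h5 : ∀ᶠ F'' in 𝓝 F', a₀ (G.ch y (F'' 0)) b ∉ Submodule.span ℂ (range (al F 0)) :=
        hcF.eventually (hcl.isOpen_compl.mem_nhds hcon)
      have h6 : ∀ᶠ F'' in 𝓝 F', F'' ∈ A.M → ∃ g : Fin e → Fin e → ℂ,
          ∀ b, al F'' 0 b = ∑ b', g b b' • a₀ (G.ch y (F'' 0)) b' :=
        eventually_nhdsWithin_iff.1 hev0
      obtain ⟨t, ht5, ht6⟩ := A.dense F hF F' hF' _ (h5.and h6)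
      obtain ⟨g, hg⟩ := ht6 (A.inv t F hF)
      apply ht5
      rw [← htr F hF t, csp_span hg ((hal _ (A.inv t F hF)).2.1 0)]
      exact Submodule.subset_span (mem_range_self b)
    obtain ⟨g, hg⟩ := hev0.self_of_nhdsWithin hF'
    rw [csp_span hg ((hal F' hF').2.1 0), Submodule.span_le]
    rintro _ ⟨b, rfl⟩
    exact hmem b
  obtain ⟨F, hF⟩ := A.ne
  refine ⟨Submodule.span ℂ (range (al F 0)), fun F' hF' y hy => ?_⟩
  rw [hZ F' hF' y hy]
  exact le_antisymm (hle F hF F' hF') (hle F' hF' F hF)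

end Pool.Agent.SS
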