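import Pool.Agent.Lib_helper64.SS.Base
import Pool.Agent.Lib_helper64.SS.Notions
-- NEEDS:

set_option autoImplicit false
set_option linter.unusedSectionVars false

open Filter Topology Metric Set
open scoped Manifold ContDiff

namespace Pool.Agent.SS

/-- the coordinates -/
noncomputable def div_ι : (Fin 3 → ℝ) →L[ℝ] ℝ × ℝ × ℝ :=
  (ContinuousLinearMap.proj 0).prod ((ContinuousLinearMap.proj 1).prod (ContinuousLinearMap.proj 2))

theorem div_ι_apply (q : Fin 3 → ℝ) : div_ι q = (q 0, q 1, q 2) := rfl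

theorem div_vol (a b : Fin 2 → ℝ) (h : a ≤ b) :
    MeasureTheory.volume.real (Icc a b) = (b 0 - a 0) * (b 1 - a 1) := by
  rw [MeasureTheory.measureReal_def, Real.volume_Icc_pi_toReal h, Fin.prod_univ_two]

theorem div_bound (a b : Fin 2 → ℝ) (h : a ≤ b) (g : (Fin 2 → ℝ) → ℝ) (B : ℝ)
    (hB : ∀ y ∈ Icc a b, |g y| ≤ B) :
    |∫ y in Icc a b, g y| ≤ B * ((b 0 - a 0) * (b 1 - a 1)) := by
  have h1 := MeasureTheory.norm_setIntegral_le_of_norm_le_const (μ := MeasureTheory.volume)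
    (s := Icc a b) (f := g) (C := B) isCompact_Icc.measure_lt_top (fun y hy => hB y hy)
  rw [div_vol a b h] at h1
  exact h1

theorem div_le (a b : Fin 2 → ℝ) (h : a ≤ b) (g : (Fin 2 → ℝ) → ℝ) (hg : Continuous g) (m : ℝ)
    (hm : ∀ y, g y ≤ m) : ∫ y in Icc a b, g y ≤ m * ((b 0 - a 0) * (b 1 - a 1)) := by
  have h1 : ∫ y in Icc a b, g y ≤ ∫ _ in Icc a b, m := by
    apply MeasureTheory.setIntegral_mono
    · exact hg.continuousOn.integrableOn_compact isCompact_Icc
    · exact continuous_const.continuousOn.integrableOn_compact isCompact_Icc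
    · intro y
      exact hm y
  rw [MeasureTheory.setIntegral_const, div_vol a b h, smul_eq_mul, mul_comm] at h1
  exact h1

/-- DIV: a consequence of the divergence theorem on `[0, x] × [-T, T] × [-T, T]` -/
theorem div_est (p r₁ r₂ : ℝ × ℝ × ℝ → ℝ) (hp : ContDiff ℝ 1 p) (h₁ : ContDiff ℝ 1 r₁)
    (h₂ : ContDiff ℝ 1 r₂)
    (hdiv : ∀ q, fderiv ℝ p q (1, 0, 0) = fderiv ℝ r₁ q (0, 1, 0) + fderiv ℝ r₂ q (0, 0, 1))
    (x T B m₀ m₁ : ℝ) (hx : 0 ≤ x) (hT : 0 < T)
    (hB₁ : ∀ q : ℝ × ℝ × ℝ, q.1 ∈ Icc 0 x → |r₁ q| ≤ B)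
    (hB₂ : ∀ q : ℝ × ℝ × ℝ, q.1 ∈ Icc 0 x → |r₂ q| ≤ B)
    (hm₀ : ∀ s : ℝ × ℝ, p (0, s) ≤ m₀) (hm₁ : ∀ s : ℝ × ℝ, m₁ ≤ p (x, s)) :
    T * (m₁ - m₀) ≤ 2 * B * x := by
  set a : Fin 3 → ℝ := ![0, -T, -T] with ha
  set b : Fin 3 → ℝ := ![x, T, T] with hb
  have hab : a ≤ b := by
    intro i
    fin_cases i
    · simpa [ha, hb] using hx
    · simp [ha, hb]; linarith
    · simp [ha, hb]; linarith
  set f : Fin 3 → (Fin 3 → ℝ) → ℝ := ![fun q => -p (div_ι q), fun q => r₁ (div_ι q),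
    fun q => r₂ (div_ι q)] with hf
  set f' : Fin 3 → (Fin 3 → ℝ) → (Fin 3 → ℝ) →L[ℝ] ℝ :=
    ![fun q => -(fderiv ℝ p (div_ι q)).comp div_ι, fun q => (fderiv ℝ r₁ (div_ι q)).comp div_ι,
      fun q => (fderiv ℝ r₂ (div_ι q)).comp div_ι] with hf'
  have hpd : ∀ q, HasFDerivAt p (fderiv ℝ p q) q := fun q =>
    (hp.differentiable (by norm_num) q).hasFDerivAt
  have h1d : ∀ q, HasFDerivAt r₁ (fderiv ℝ r₁ q) q := fun q =>
    (h₁.differentiable (by norm_num) q).hasFDerivAt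
  have h2d : ∀ q, HasFDerivAt r₂ (fderiv ℝ r₂ q) q := fun q =>
    (h₂.differentiable (by norm_num) q).hasFDerivAt
  have hder : ∀ q i, HasFDerivAt (f i) (f' i q) q := by
    intro q i
    fin_cases i
    · exact ((hpd (div_ι q)).comp q div_ι.hasFDerivAt).neg
    · exact (h1d (div_ι q)).comp q div_ι.hasFDerivAt
    · exact (h2d (div_ι q)).comp q div_ι.hasFDerivAt
  have hzero : ∀ q : Fin 3 → ℝ, ∑ i, f' i q (Pi.single i 1) = 0 := by
    intro q
    have e0 : div_ι (Pi.single (0 : Fin 3) (1 : ℝ)) = (1, 0, 0) := by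
      rw [div_ι_apply]; simp
    have e1 : div_ι (Pi.single (1 : Fin 3) (1 : ℝ)) = (0, 1, 0) := by
      rw [div_ι_apply]; simp
    have e2 : div_ι (Pi.single (2 : Fin 3) (1 : ℝ)) = (0, 0, 1) := by
      rw [div_ι_apply]; simp
    rw [Fin.sum_univ_three]
    show -(fderiv ℝ p (div_ι q)) (div_ι (Pi.single (0 : Fin 3) (1 : ℝ))) +
      (fderiv ℝ r₁ (div_ι q)) (div_ι (Pi.single (1 : Fin 3) (1 : ℝ))) +
      (fderiv ℝ r₂ (div_ι q)) (div_ι (Pi.single (2 : Fin 3) (1 : ℝ))) = 0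
    rw [e0, e1, e2, hdiv]
    ring
  have hmain := MeasureTheory.integral_divergence_of_hasFDerivAt_off_countable' a b hab f f' ∅
    countable_empty (fun i => (continuous_iff_continuousAt.2
      fun q => (hder q i).continuousAt).continuousOn) (fun q _ i => hder q i) (by
      simp only [hzero]
      exact MeasureTheory.integrableOn_zero)
  simp only [hzero, MeasureTheory.integral_zero] at hmain
  rw [Fin.sum_univ_three] at hmain
  -- the faces
  have hT2 : (-T) ≤ T := by linarith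
  have v0 : ((b ∘ (0 : Fin 3).succAbove) 0 - (a ∘ (0 : Fin 3).succAbove) 0) *
      ((b ∘ (0 : Fin 3).succAbove) 1 - (a ∘ (0 : Fin 3).succAbove) 1) = (2 * T) * (2 * T) := by
    have s0 : (0 : Fin 3).succAbove 0 = 1 := rfl
    have s1 : (0 : Fin 3).succAbove 1 = 2 := rfl
    simp only [Function.comp_apply, s0, s1]
    simp only [ha, hb, Matrix.cons_val_one, Matrix.cons_val]
    ring
  have t0 : (∫ y in Icc (a ∘ (0 : Fin 3).succAbove) (b ∘ (0 : Fin 3).succAbove),
      f 0 ((0 : Fin 3).insertNth (b 0) y)) ≤ -m₁ * ((2 * T) * (2 * T)) := by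
    have := div_le (a ∘ (0 : Fin 3).succAbove) (b ∘ (0 : Fin 3).succAbove)
      (fun i => hab _) (fun y => f 0 ((0 : Fin 3).insertNth (b 0) y)) (by
        have h3 : Continuous (f 0) := continuous_iff_continuousAt.2
          fun q => (hder q 0).continuousAt
        refine h3.comp ?_
        exact continuous_const.finInsertNth 0 continuous_id) (-m₁) (by
        intro y
        show -p (div_ι ((0 : Fin 3).insertNth (b 0) y)) ≤ -m₁
        have e : div_ι ((0 : Fin 3).insertNth (b 0) y) = (x, y 0, y 1) := rfl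
        rw [e]
        exact neg_le_neg (hm₁ _))
    rwa [v0] at this
  have t0' : -(m₀ * ((2 * T) * (2 * T))) ≤
      (∫ y in Icc (a ∘ (0 : Fin 3).succAbove) (b ∘ (0 : Fin 3).succAbove),
      f 0 ((0 : Fin 3).insertNth (a 0) y)) := by
    have := div_le (a ∘ (0 : Fin 3).succAbove) (b ∘ (0 : Fin 3).succAbove)
      (fun i => hab _) (fun y => -f 0 ((0 : Fin 3).insertNth (a 0) y)) (by
        have h3 : Continuous (f 0) := continuous_iff_continuousAt.2
          fun q => (hder q 0).continuousAt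
        refine (h3.comp ?_).neg
        exact continuous_const.finInsertNth 0 continuous_id) m₀ (by
        intro y
        show - -p (div_ι ((0 : Fin 3).insertNth (a 0) y)) ≤ m₀
        have e : div_ι ((0 : Fin 3).insertNth (a 0) y) = (0, y 0, y 1) := rfl
        rw [e, neg_neg]
        exact hm₀ _)
    rw [MeasureTheory.integral_neg] at this
    rw [v0] at this
    linarith
  have hmem1 : ∀ y ∈ Icc (a ∘ (1 : Fin 3).succAbove) (b ∘ (1 : Fin 3).succAbove),
      y 0 ∈ Icc 0 x := fun y hy => ⟨by simpa [ha] using hy.1 0, by simpa [hb] using hy.2 0⟩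
  have hmem2 : ∀ y ∈ Icc (a ∘ (2 : Fin 3).succAbove) (b ∘ (2 : Fin 3).succAbove),
      y 0 ∈ Icc 0 x := fun y hy => ⟨by simpa [ha] using hy.1 0, by simpa [hb] using hy.2 0⟩
  have v1 : ((b ∘ (1 : Fin 3).succAbove) 0 - (a ∘ (1 : Fin 3).succAbove) 0) *
      ((b ∘ (1 : Fin 3).succAbove) 1 - (a ∘ (1 : Fin 3).succAbove) 1) = x * (2 * T) := by
    have s0 : (1 : Fin 3).succAbove 0 = 0 := rfl
    have s1 : (1 : Fin 3).succAbove 1 = 2 := rfl
    simp only [Function.comp_apply, s0, s1]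
    simp [ha, hb]
    left
    ring
  have v2 : ((b ∘ (2 : Fin 3).succAbove) 0 - (a ∘ (2 : Fin 3).succAbove) 0) *
      ((b ∘ (2 : Fin 3).succAbove) 1 - (a ∘ (2 : Fin 3).succAbove) 1) = x * (2 * T) := by
    have s0 : (2 : Fin 3).succAbove 0 = 0 := rfl
    have s1 : (2 : Fin 3).succAbove 1 = 1 := rfl
    simp only [Function.comp_apply, s0, s1]
    simp [ha, hb]
    left
    ring
  have b1 : ∀ c : ℝ, |∫ y in Icc (a ∘ (1 : Fin 3).succAbove) (b ∘ (1 : Fin 3).succAbove),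
      f 1 ((1 : Fin 3).insertNth c y)| ≤ B * (x * (2 * T)) := by
    intro c
    have := div_bound (a ∘ (1 : Fin 3).succAbove) (b ∘ (1 : Fin 3).succAbove)
      (fun i => hab _) (fun y => f 1 ((1 : Fin 3).insertNth c y)) B (by
        intro y hy
        show |r₁ (div_ι ((1 : Fin 3).insertNth c y))| ≤ B
        apply hB₁
        exact hmem1 y hy)
    rwa [v1] at this
  have b2 : ∀ c : ℝ, |∫ y in Icc (a ∘ (2 : Fin 3).succAbove) (b ∘ (2 : Fin 3).succAbove),
      f 2 ((2 : Fin 3).insertNth c y)| ≤ B * (x * (2 * T)) := by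
    intro c
    have := div_bound (a ∘ (2 : Fin 3).succAbove) (b ∘ (2 : Fin 3).succAbove)
      (fun i => hab _) (fun y => f 2 ((2 : Fin 3).insertNth c y)) B (by
        intro y hy
        show |r₂ (div_ι ((2 : Fin 3).insertNth c y))| ≤ B
        apply hB₂
        exact hmem2 y hy)
    rwa [v2] at this
  have b1b := (abs_le.1 (b1 (b 1))).2
  have b1a := (abs_le.1 (b1 (a 1))).1
  have b2b := (abs_le.1 (b2 (b 2))).2
  have b2a := (abs_le.1 (b2 (a 2))).1
  have hfin : 4 * T * (T * (m₁ - m₀)) ≤ 4 * T * (2 * B * x) := by nlinarith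
  exact le_of_mul_le_mul_left hfin (by linarith)

end Pool.Agent.SS
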