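import Pool.Agent.Lib_helper64.SS.Base
import Pool.Agent.Lib_helper64.SS.Notions

set_option autoImplicit false
set_option linter.unusedSectionVars false

open Filter Topology Metric Set
open scoped Manifold ContDiff

namespace Pool.Agent.SS

variable {E X : Type} [NormedAddCommGroup E] [NormedSpace ℂ E] [FiniteDimensional ℂ E]
  [TopologicalSpace X] {G : Geo E X}
  {V : Type} [NormedAddCommGroup V] [NormedSpace ℂ V] [FiniteDimensional ℂ V]

-- NEEDS: (nothing)

/-- FLX: flatness propagates -/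
theorem flat_extend (c : V → Fin G.L → ℂ) (Θ Θi : V → V →L[ℂ] V)
    (hΘ : ∀ t, AnalyticAt ℂ Θ t) (hi : ∀ t u, Θ t (Θi t u) = u) {D : Set V} (hD : IsOpen D)
    (hp : IsPreconnected D) {F : V → X} (hF : ∀ t ∈ D, G.HolAt F t) {t₀ : V} (ht₀ : t₀ ∈ D)
    (he : ∀ᶠ t in 𝓝 t₀, G.FlAt c Θ F t) : ∀ t ∈ D, G.FlAt c Θ F t := by
  have hc : ∀ i, ∀ u, AnalyticAt ℂ (fun u => c u i) u := by
    intro i u
    have h0 : G.FlAt c Θ F t₀ := he.self_of_nhds
    have hy : F t₀ ∈ (G.ch (F t₀)).source := G.mem _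
    have h1 : (fun u => c u i) = fun u => G.S (F t₀) i (G.ch (F t₀) (F t₀))
        (((fderiv ℂ (G.loc (F t₀) F) t₀).comp (Θi t₀)) u) := by
      funext u
      have h2 := h0.2 (F t₀) hy i (Θi t₀ u)
      rw [hi] at h2
      exact h2.symm
    rw [h1]
    have h3 : AnalyticAt ℂ (G.S (F t₀) i (G.ch (F t₀) (F t₀)))
        (((fderiv ℂ (G.loc (F t₀) F) t₀).comp (Θi t₀)) u) :=
      G.S_an ((G.ch (F t₀)).map_source hy) i _
    exact h3.comp (((fderiv ℂ (G.loc (F t₀) F) t₀).comp (Θi t₀)).analyticAt u)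
  set U : Set V := {t | ∀ᶠ s in 𝓝 t, G.FlAt c Θ F s} with hU
  have hUo : IsOpen U := by
    rw [isOpen_iff_mem_nhds]
    intro t ht
    exact ht.eventually_nhds
  have hsub : D ⊆ U := by
    refine hp.subset_of_closure_inter_subset hUo ⟨t₀, ht₀, he⟩ ?_
    rintro t₁ ⟨ht1, ht1D⟩
    have hy : F t₁ ∈ (G.ch (F t₁)).source := G.mem _
    set y := F t₁ with hydef
    have hol1 := hF t₁ ht1D
    have ev0 : ∀ᶠ s in 𝓝 t₁, s ∈ D := hD.mem_nhds ht1D
    have ev : ∀ᶠ s in 𝓝 t₁, s ∈ D ∧ F s ∈ (G.ch y).source := ev0.and (hol1.loc_mem hy)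
    obtain ⟨r, hr, hball⟩ := Metric.eventually_nhds_iff_ball.1 ev
    have hlocan : ∀ s ∈ ball t₁ r, AnalyticAt ℂ (G.loc y F) s := fun s hs =>
      (hF s (hball s hs).1).2 y (hball s hs).2
    have hzero : ∀ (i : Fin G.L) (u : V), ∀ s ∈ ball t₁ r,
        G.S y i (G.ch y (F s)) (fderiv ℂ (G.loc y F) s u) - c (Θ s u) i = 0 := by
      intro i u
      have hA : AnalyticOnNhd ℂ (fun s => G.S y i (G.loc y F s) (fderiv ℂ (G.loc y F) s u)
          - c (Θ s u) i) (ball t₁ r) := by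
        intro s hs
        have h1 := hlocan s hs
        have h2 : AnalyticAt ℂ (fun s => fderiv ℂ (G.loc y F) s u) s :=
          (ContinuousLinearMap.apply ℂ E u).analyticAt _ |>.comp h1.fderiv
        have h3 : AnalyticAt ℂ (fun s => (G.loc y F s, fderiv ℂ (G.loc y F) s u)) s := h1.prod h2
        have h4 : AnalyticAt ℂ (fun p : E × E => G.S y i p.1 p.2)
            (G.loc y F s, fderiv ℂ (G.loc y F) s u) :=
          G.hol y i _ ((G.ch y).map_source (hball s hs).2) _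
        have h5 : AnalyticAt ℂ (fun s => G.S y i (G.loc y F s) (fderiv ℂ (G.loc y F) s u)) s :=
          h4.comp_of_eq h3 rfl
        have h6 : AnalyticAt ℂ (fun s => Θ s u) s :=
          (ContinuousLinearMap.apply ℂ V u).analyticAt _ |>.comp (hΘ s)
        have h7 : AnalyticAt ℂ (fun s => c (Θ s u) i) s := (hc i (Θ s u)).comp_of_eq h6 rfl
        exact h5.sub h7
      obtain ⟨t₂, ht2b, ht2U⟩ := mem_closure_iff.1 ht1 (ball t₁ r) isOpen_ball (mem_ball_self hr)
      have hev : (fun s => G.S y i (G.loc y F s) (fderiv ℂ (G.loc y F) s u)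
          - c (Θ s u) i) =ᶠ[𝓝 t₂] 0 := by
        have h8 : ∀ᶠ s in 𝓝 t₂, G.FlAt c Θ F s := ht2U
        filter_upwards [h8, isOpen_ball.mem_nhds ht2b] with s hs hsb
        have h9 := hs.2 y (hball s hsb).2 i u
        simp only [Pi.zero_apply, sub_eq_zero]
        exact h9
      have h10 := hA.eqOn_zero_of_preconnected_of_eventuallyEq_zero
        (convex_ball t₁ r).isPreconnected ht2b hev
      intro s hs
      exact h10 hs
    show ∀ᶠ s in 𝓝 t₁, G.FlAt c Θ F s
    filter_upwards [isOpen_ball.mem_nhds (mem_ball_self hr)] with s hs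
    refine Geo.flAt_of_chart (hF s (hball s hs).1).1 (hball s hs).2 (hlocan s hs) ?_
    intro i u
    exact sub_eq_zero.1 (hzero i u s hs)
  intro t ht
  exact (hsub ht).self_of_nhds

end Pool.Agent.SS
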