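import Pool.Agent.Lib_helper64.SS.Base
import Pool.Agent.Lib_helper64.SS.Notions
import Pool.Agent.Lib_helper64.SS.B.BND
import Pool.Agent.Lib_helper64.SS.B.FLX
import Pool.Agent.Lib_helper64.SS.B.RIG

-- NEEDS: RIG BND FLX

set_option autoImplicit false
set_option linter.unusedSectionVars false

open Filter Topology Metric Set
open scoped Manifold ContDiff

namespace Pool.Agent.SS

variable {E X : Type} [NormedAddCommGroup E] [NormedSpace ℂ E] [FiniteDimensional ℂ E]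
  [TopologicalSpace X] {G : Geo E X}
  {V : Type} [NormedAddCommGroup V] [NormedSpace ℂ V] [FiniteDimensional ℂ V]

/-- the conclusion of UDL with the radius `δ` -/
def udl_C (G : Geo E X) (c : V → Fin G.L → ℂ) (Θ : V → V →L[ℂ] V) (δ : ℝ) (F : V → X) (s : V)
    (r : ℝ) : Prop :=
  ∃ F' : V → X, (∀ t ∈ ball s δ, G.FlAt c Θ F' t) ∧ ∀ t ∈ ball s (min r δ), F' t = F t

theorem udl_C_mono {c : V → Fin G.L → ℂ} {Θ : V → V →L[ℂ] V} {δ δ' : ℝ} (h : δ' ≤ δ) {F : V → X}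
    {s : V} {r : ℝ} (hC : udl_C G c Θ δ F s r) : udl_C G c Θ δ' F s r := by
  obtain ⟨F', h1, h2⟩ := hC
  exact ⟨F', fun t ht => h1 t (ball_subset_ball h ht),
    fun t ht => h2 t (ball_subset_ball (min_le_min le_rfl h) ht)⟩

/-- the property of a point, a time and a state -/
def udl_Q (G : Geo E X) (c : V → Fin G.L → ℂ) (Θ Θi : V → V →L[ℂ] V) (y : X) (δ : ℝ)
    (ξ : E) (s : V) (b : V →L[ℂ] E) : Prop :=
  G.State c y ξ b → ∀ (F : V → X) (r : ℝ), 0 < r → F s ∈ (G.ch y).source → G.ch y (F s) = ξ →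
    (fderiv ℂ (G.loc y F) s).comp (Θi s) = b → (∀ t ∈ ball s r, G.FlAt c Θ F t) →
    udl_C G c Θ δ F s r

theorem udl_Q_mono {c : V → Fin G.L → ℂ} {Θ Θi : V → V →L[ℂ] V} {y : X} {δ δ' : ℝ} (h : δ' ≤ δ)
    {ξ : E} {s : V} {b : V →L[ℂ] E} (hQ : udl_Q G c Θ Θi y δ ξ s b) :
    udl_Q G c Θ Θi y δ' ξ s b := by
  intro hb F r hr h1 h2 h3 h4
  exact udl_C_mono h (hQ hb F r hr h1 h2 h3 h4)

/-- near a state -/
theorem udl_near [T2Space X] (c : V → Fin G.L → ℂ) (hc : ∀ u, c u = 0 → u = 0)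
    (Θ Θi : V → V →L[ℂ] V) (hΘ : ∀ t, AnalyticAt ℂ Θ t) (hΘi : Continuous Θi)
    (hi : ∀ t u, Θ t (Θi t u) = u) (hi' : ∀ t u, Θi t (Θ t u) = u)
    {y : X} {ξ₀ : E} (hξ : ξ₀ ∈ (G.ch y).target) (b₀ : V →L[ℂ] E) (s₀ : V) :
    ∃ δ > 0, ∀ᶠ q : E × V × (V →L[ℂ] E) in 𝓝 (ξ₀, s₀, b₀),
      udl_Q G c Θ Θi y δ q.1 q.2.1 q.2.2 := by
  by_cases hb : G.State c y ξ₀ b₀
  · obtain ⟨δ, v, Ψ, hδ, -, -, hΨ, hΨ0, hev⟩ := rigid c hc Θ Θi hΘ hΘi hi hi' hξ hb s₀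
    refine ⟨δ, hδ, ?_⟩
    have h1 : ∀ᶠ q : E × V × (V →L[ℂ] E) in 𝓝 (ξ₀, s₀, b₀), q.1 ∈ ball ξ₀ δ :=
      (continuous_fst.tendsto (ξ₀, s₀, b₀)).eventually (isOpen_ball.mem_nhds (mem_ball_self hδ))
    have h2 : ∀ᶠ q : E × V × (V →L[ℂ] E) in 𝓝 (ξ₀, s₀, b₀), q.2.1 ∈ ball s₀ δ :=
      ((continuous_fst.comp continuous_snd).tendsto (ξ₀, s₀, b₀)).eventually
        (isOpen_ball.mem_nhds (mem_ball_self hδ))
    filter_upwards [hev, h1, h2] with q hq hq1 hq2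
    intro hst F r hr k1 k2 k3 k4
    have hFu := hq.2 F r k1 k2 k3 k4
    set s := q.2.1 with hs
    set F' : V → X := fun t => (G.ch y).symm (Ψ (q.1, s, t - s)) with hF'
    have hsub : ∀ t ∈ ball s δ, t - s ∈ ball (0 : V) δ := by
      intro t ht
      rw [mem_ball_zero_iff]
      rwa [mem_ball, dist_eq_norm] at ht
    have hhol : ∀ t ∈ ball s δ, G.HolAt F' t := by
      intro t ht
      obtain ⟨m1, m2⟩ := hΨ q.1 hq1 s hq2 (t - s) (hsub t ht)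
      have m3 : AnalyticAt ℂ (fun t : V => (q.1, s, t - s)) t :=
        analyticAt_const.prod (analyticAt_const.prod (analyticAt_id.sub analyticAt_const))
      have m4 : AnalyticAt ℂ (fun t : V => Ψ (q.1, s, t - s)) t :=
        AnalyticAt.fun_comp (g := Ψ) (f := fun t : V => (q.1, s, t - s)) m1 m3
      have m5 : ContinuousAt F' t :=
        ContinuousAt.comp (g := (G.ch y).symm) ((G.ch y).continuousAt_symm m2) m4.continuousAt
      refine Geo.holAt_of_chart m5 ((G.ch y).map_target m2) (m4.congr ?_)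
      filter_upwards [isOpen_ball.mem_nhds ht] with t' ht'
      rw [Geo.loc, hF']
      exact ((G.ch y).right_inv (hΨ q.1 hq1 s hq2 (t' - s) (hsub t' ht')).2).symm
    have heq : ∀ t ∈ ball s (min r δ), F' t = F t := by
      intro t ht
      have h3 := hFu (t - s) (by
        rw [mem_ball_zero_iff]
        rwa [mem_ball, dist_eq_norm] at ht)
      rw [add_sub_cancel] at h3
      rw [h3]
    refine ⟨F', ?_, heq⟩
    refine flat_extend c Θ Θi hΘ hi isOpen_ball (convex_ball s δ).isPreconnected hhol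
      (mem_ball_self hδ) ?_
    filter_upwards [isOpen_ball.mem_nhds (mem_ball_self (x := s) (lt_min hr hδ))] with t ht
    refine (k4 t (ball_subset_ball (min_le_left _ _) ht)).congr ?_
    filter_upwards [isOpen_ball.mem_nhds ht] with t' ht'
    exact (heq t' ht').symm
  · refine ⟨1, one_pos, ?_⟩
    have : ∃ i u, G.S y i ξ₀ (b₀ u) ≠ c u i := by
      by_contra hcon
      push Not at hcon
      exact hb hcon
    obtain ⟨i, u, hiu⟩ := this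
    have hcont : ContinuousAt (fun q : E × V × (V →L[ℂ] E) => G.S y i q.1 (q.2.2 u))
        (ξ₀, s₀, b₀) := by
      have h1 : ContinuousAt (fun p : E × E => G.S y i p.1 p.2) (ξ₀, b₀ u) :=
        (G.hol y i ξ₀ hξ (b₀ u)).continuousAt
      have h2 : ContinuousAt (fun q : E × V × (V →L[ℂ] E) => (q.1, q.2.2 u)) (ξ₀, s₀, b₀) := by
        fun_prop
      exact ContinuousAt.comp (g := fun p : E × E => G.S y i p.1 p.2)
        (f := fun q : E × V × (V →L[ℂ] E) => (q.1, q.2.2 u)) (x := (ξ₀, s₀, b₀)) h1 h2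
    have hne := hcont.eventually (isOpen_ne.mem_nhds hiu)
    filter_upwards [hne] with q hq
    intro hst
    exact absurd (hst i u) hq

/-- states over points near `ξ₀` are bounded -/
theorem udl_bdd (c : V → Fin G.L → ℂ) {y : X} {ξ₀ : E} (hξ : ξ₀ ∈ (G.ch y).target) :
    ∃ B : ℝ, ∀ᶠ ξ in 𝓝 ξ₀, ∀ b : V →L[ℂ] E, G.State c y ξ b → b ∈ closedBall (0 : V →L[ℂ] E) B := by
  obtain ⟨C, hC, hev⟩ := vec_bound (G := G) hξ
  let e := Module.finBasis ℂ V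
  -- bound of the values on the basis
  let Mv : Fin (Module.finrank ℂ V) → ℝ := fun j => 1 + ∑ i, ‖c (e j) i‖
  have hMv : ∀ j i, ‖c (e j) i‖ ≤ Mv j ^ G.deg i := by
    intro j i
    have h1 : ‖c (e j) i‖ ≤ Mv j := by
      have := Finset.single_le_sum (f := fun i => ‖c (e j) i‖) (fun i _ => norm_nonneg _)
        (Finset.mem_univ i)
      have h2 : Mv j = 1 + ∑ i, ‖c (e j) i‖ := rfl
      linarith
    have h2 : 1 ≤ Mv j := by
      have h3 : Mv j = 1 + ∑ i, ‖c (e j) i‖ := rfl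
      have : 0 ≤ ∑ i, ‖c (e j) i‖ := Finset.sum_nonneg fun i _ => norm_nonneg _
      linarith
    exact h1.trans (le_self_pow₀ h2 (G.deg_pos i).ne')
  have hMv0 : ∀ j, 0 ≤ Mv j := by
    intro j
    have h3 : Mv j = 1 + ∑ i, ‖c (e j) i‖ := rfl
    have : 0 ≤ ∑ i, ‖c (e j) i‖ := Finset.sum_nonneg fun i _ => norm_nonneg _
    linarith
  obtain ⟨C2, hC2, hbd⟩ := e.exists_opNorm_le (F := E)
  refine ⟨C2 * (C * ∑ j, Mv j), ?_⟩
  filter_upwards [hev] with ξ hξ' b hb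
  rw [mem_closedBall_zero_iff]
  have hsum0 : 0 ≤ ∑ j, Mv j := Finset.sum_nonneg fun j _ => hMv0 j
  refine hbd (M := C * ∑ j, Mv j) (mul_nonneg hC.le hsum0) fun j => ?_
  have h1 : ‖b (e j)‖ ≤ C * Mv j := by
    refine hξ' (b (e j)) (Mv j) (hMv0 j) fun i => ?_
    rw [hb i (e j)]
    exact hMv j i
  refine h1.trans (mul_le_mul_of_nonneg_left ?_ hC.le)
  exact Finset.single_le_sum (f := Mv) (fun j _ => hMv0 j) (Finset.mem_univ j)

/-- local version of UDL -/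
theorem udl_local [T2Space X] (c : V → Fin G.L → ℂ) (hc : ∀ u, c u = 0 → u = 0)
    (Θ Θi : V → V →L[ℂ] V) (hΘ : ∀ t, AnalyticAt ℂ Θ t) (hΘi : Continuous Θi)
    (hi : ∀ t u, Θ t (Θi t u) = u) (hi' : ∀ t u, Θi t (Θ t u) = u) (x₀ : X) (s₀ : V) :
    ∃ δ > 0, ∀ᶠ p : X × V in 𝓝 (x₀, s₀), ∀ (F : V → X) (r : ℝ), F p.2 = p.1 → 0 < r →
      (∀ t ∈ ball p.2 r, G.FlAt c Θ F t) → udl_C G c Θ δ F p.2 r := by
  have hsrc := G.mem x₀
  have hξ : G.ch x₀ x₀ ∈ (G.ch x₀).target := (G.ch x₀).map_source hsrc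
  set ξ₀ := G.ch x₀ x₀ with hξ₀
  obtain ⟨B, hB⟩ := udl_bdd (G := G) c hξ
  have hK : IsCompact (closedBall (0 : V →L[ℂ] E) B) := isCompact_closedBall _ _
  have h1 : ∃ δ > 0, ∀ᶠ q : E × V in 𝓝 (ξ₀, s₀), ∀ b ∈ closedBall (0 : V →L[ℂ] E) B,
      udl_Q G c Θ Θi x₀ δ q.1 q.2 b := by
    refine hK.induction_on (p := fun S => ∃ δ > 0, ∀ᶠ q : E × V in 𝓝 (ξ₀, s₀), ∀ b ∈ S,
      udl_Q G c Θ Θi x₀ δ q.1 q.2 b) ?_ ?_ ?_ ?_
    · exact ⟨1, one_pos, Eventually.of_forall fun q b hb => absurd hb (notMem_empty b)⟩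
    · rintro S T hST ⟨δ, hδ, hT⟩
      refine ⟨δ, hδ, ?_⟩
      filter_upwards [hT] with q hq b hb
      exact hq b (hST hb)
    · rintro S T ⟨δ, hδ, hS⟩ ⟨δ', hδ', hT⟩
      refine ⟨min δ δ', lt_min hδ hδ', ?_⟩
      filter_upwards [hS, hT] with q hq hq' b hb
      rcases hb with hb | hb
      · exact udl_Q_mono (min_le_left _ _) (hq b hb)
      · exact udl_Q_mono (min_le_right _ _) (hq' b hb)
    · intro b _
      obtain ⟨δ, hδ, hev⟩ := udl_near (G := G) c hc Θ Θi hΘ hΘi hi hi' hξ b s₀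
      have hmap : Tendsto (fun z : (E × V) × (V →L[ℂ] E) => (z.1.1, z.1.2, z.2))
          (𝓝 (ξ₀, s₀) ×ˢ 𝓝 b) (𝓝 (ξ₀, s₀, b)) := by
        rw [← nhds_prod_eq]
        have hc : Continuous (fun z : (E × V) × (V →L[ℂ] E) => (z.1.1, z.1.2, z.2)) := by
          fun_prop
        exact hc.tendsto ((ξ₀, s₀), b)
      have hev2 := hmap.eventually hev
      obtain ⟨pa, hpa, pb, hpb, hab⟩ := eventually_prod_iff.1 hev2
      refine ⟨{b | pb b}, mem_nhdsWithin_of_mem_nhds hpb, δ, hδ, ?_⟩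
      filter_upwards [hpa] with q hq b' hb'
      exact hab hq hb'
  obtain ⟨δ, hδ, h2⟩ := h1
  refine ⟨δ, hδ, ?_⟩
  have h3 : Tendsto (fun p : X × V => (G.ch x₀ p.1, p.2)) (𝓝 (x₀, s₀)) (𝓝 (ξ₀, s₀)) := by
    have h4 : ContinuousAt (fun p : X × V => (G.ch x₀ p.1, p.2)) (x₀, s₀) := by
      have h5 : ContinuousAt (fun p : X × V => G.ch x₀ p.1) (x₀, s₀) :=
        ContinuousAt.comp (g := G.ch x₀) ((G.ch x₀).continuousAt hsrc) continuousAt_fst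
      exact h5.prodMk continuousAt_snd
    exact h4
  have h5 : ∀ᶠ p : X × V in 𝓝 (x₀, s₀), p.1 ∈ (G.ch x₀).source :=
    (continuous_fst.tendsto (x₀, s₀)).eventually ((G.ch x₀).open_source.mem_nhds hsrc)
  have h6 : ∀ᶠ p : X × V in 𝓝 (x₀, s₀), ∀ b : V →L[ℂ] E, G.State c x₀ (G.ch x₀ p.1) b →
      b ∈ closedBall (0 : V →L[ℂ] E) B := by
    have h7 : Tendsto (fun p : X × V => G.ch x₀ p.1) (𝓝 (x₀, s₀)) (𝓝 ξ₀) :=
      (continuous_fst.tendsto (ξ₀, s₀)).comp h3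
    exact h7.eventually hB
  filter_upwards [h3.eventually h2, h5, h6] with p hp2 hp5 hp6
  intro F r hF hr hfl
  have hFs : F p.2 ∈ (G.ch x₀).source := by rw [hF]; exact hp5
  have hst := (hfl p.2 (mem_ball_self hr)).state hFs (Θi := Θi p.2) (hi p.2)
  rw [hF] at hst
  exact hp2 _ (hp6 _ hst) hst F r hr hFs (by rw [hF]) rfl hfl

/-- UDL: flat maps extend to balls of uniform size -/
theorem uniform_delta [CompactSpace X] [T2Space X] (c : V → Fin G.L → ℂ)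
    (hc : ∀ u, c u = 0 → u = 0) (Θ Θi : V → V →L[ℂ] V) (hΘ : ∀ t, AnalyticAt ℂ Θ t)
    (hΘi : Continuous Θi) (hi : ∀ t u, Θ t (Θi t u) = u) (hi' : ∀ t u, Θi t (Θ t u) = u)
    (R : ℝ) :
    ∃ δ > 0, ∀ (F : V → X) (s : V) (r : ℝ), ‖s‖ ≤ R → 0 < r →
      (∀ t ∈ ball s r, G.FlAt c Θ F t) →
      ∃ F' : V → X, (∀ t ∈ ball s δ, G.FlAt c Θ F' t) ∧ ∀ t ∈ ball s (min r δ), F' t = F t := by
  have hK : IsCompact ((univ : Set X) ×ˢ closedBall (0 : V) R) :=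
    isCompact_univ.prod (isCompact_closedBall _ _)
  have h1 : ∃ δ > 0, ∀ p ∈ (univ : Set X) ×ˢ closedBall (0 : V) R, ∀ (F : V → X) (r : ℝ),
      F p.2 = p.1 → 0 < r → (∀ t ∈ ball p.2 r, G.FlAt c Θ F t) → udl_C G c Θ δ F p.2 r := by
    refine hK.induction_on (p := fun S => ∃ δ > 0, ∀ p ∈ S, ∀ (F : V → X) (r : ℝ),
      F p.2 = p.1 → 0 < r → (∀ t ∈ ball p.2 r, G.FlAt c Θ F t) → udl_C G c Θ δ F p.2 r)
      ?_ ?_ ?_ ?_
    · exact ⟨1, one_pos, fun p hp => absurd hp (notMem_empty p)⟩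
    · rintro S T hST ⟨δ, hδ, hT⟩
      exact ⟨δ, hδ, fun p hp => hT p (hST hp)⟩
    · rintro S T ⟨δ, hδ, hS⟩ ⟨δ', hδ', hT⟩
      refine ⟨min δ δ', lt_min hδ hδ', fun p hp F r h1 h2 h3 => ?_⟩
      rcases hp with hp | hp
      · exact udl_C_mono (min_le_left _ _) (hS p hp F r h1 h2 h3)
      · exact udl_C_mono (min_le_right _ _) (hT p hp F r h1 h2 h3)
    · rintro ⟨x, s⟩ _
      obtain ⟨δ, hδ, hev⟩ := udl_local (G := G) c hc Θ Θi hΘ hΘi hi hi' x s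
      exact ⟨_, mem_nhdsWithin_of_mem_nhds hev, δ, hδ, fun p hp => hp⟩
  obtain ⟨δ, hδ, h2⟩ := h1
  refine ⟨δ, hδ, fun F s r hs hr hfl => ?_⟩
  exact h2 (F s, s) ⟨mem_univ _, by simpa using hs⟩ F r rfl hr hfl

end Pool.Agent.SS
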