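import Pool.Agent.Lib_helper64.SS.Base
import Pool.Agent.Lib_helper64.SS.Notions
-- NEEDS:

set_option autoImplicit false
set_option linter.unusedSectionVars false

open Filter Topology Metric Set
open scoped Manifold ContDiff

namespace Pool.Agent.SS

variable {E X : Type} [NormedAddCommGroup E] [NormedSpace ℂ E] [FiniteDimensional ℂ E]
  [TopologicalSpace X] {G : Geo E X}
  {V : Type} [NormedAddCommGroup V] [NormedSpace ℂ V] [FiniteDimensional ℂ V]

/-- UNI: uniqueness of analytic continuation -/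
theorem hol_unique [T2Space X] {D : Set V} (hD : IsOpen D) (hp : IsPreconnected D)
    {F F' : V → X} (hF : ∀ t ∈ D, G.HolAt F t) (hF' : ∀ t ∈ D, G.HolAt F' t) {t₀ : V}
    (ht₀ : t₀ ∈ D) (he : F =ᶠ[𝓝 t₀] F') : ∀ t ∈ D, F t = F' t := by
  set u : Set V := {t | F =ᶠ[𝓝 t] F'} with hu
  have huo : IsOpen u := by
    rw [isOpen_iff_mem_nhds]
    intro t ht
    exact eventually_eventually_nhds.2 ht
  have hsub : D ⊆ u := by
    apply hp.subset_of_closure_inter_subset huo ⟨t₀, ht₀, he⟩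
    rintro t1 ⟨hcl, ht1⟩
    have hne : (𝓝[u] t1).NeBot := mem_closure_iff_nhdsWithin_neBot.1 hcl
    have heq : F t1 = F' t1 := by
      have l1 : Tendsto F (𝓝[u] t1) (𝓝 (F t1)) := (hF t1 ht1).1.mono_left nhdsWithin_le_nhds
      have l2 : Tendsto F' (𝓝[u] t1) (𝓝 (F' t1)) := (hF' t1 ht1).1.mono_left nhdsWithin_le_nhds
      have l3 : F =ᶠ[𝓝[u] t1] F' := by
        filter_upwards [self_mem_nhdsWithin] with t ht
        have ht' : F =ᶠ[𝓝 t] F' := ht
        exact ht'.eq_of_nhds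
      exact tendsto_nhds_unique (l1.congr' l3) l2
    have hy : F t1 ∈ (G.ch (F t1)).source := G.mem (F t1)
    have hy' : F' t1 ∈ (G.ch (F t1)).source := by rw [← heq]; exact hy
    have a1 := ((hF t1 ht1).2 _ hy).eventually_analyticAt
    have a2 := ((hF' t1 ht1).2 _ hy').eventually_analyticAt
    have s1 := (hF t1 ht1).loc_mem hy
    have s2 := (hF' t1 ht1).loc_mem hy'
    obtain ⟨ε, hε, hb⟩ := Metric.eventually_nhds_iff_ball.1 (a1.and a2)
    obtain ⟨t2, ht2, ht2b⟩ := Metric.mem_closure_iff.1 hcl ε hε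
    have ht2' : F =ᶠ[𝓝 t2] F' := ht2
    have hloc : G.loc (F t1) F =ᶠ[𝓝 t2] G.loc (F t1) F' := by
      filter_upwards [ht2'] with t ht
      rw [Geo.loc, Geo.loc, ht]
    have heqOn := AnalyticOnNhd.eqOn_of_preconnected_of_eventuallyEq
      (f := G.loc (F t1) F) (g := G.loc (F t1) F') (U := ball t1 ε)
      (fun t ht => (hb t ht).1) (fun t ht => (hb t ht).2)
      (convex_ball t1 ε).isPreconnected (by rw [mem_ball, dist_comm]; exact ht2b) hloc
    show F =ᶠ[𝓝 t1] F'
    filter_upwards [s1, s2, ball_mem_nhds t1 hε] with t h1 h2 h3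
    exact (G.ch (F t1)).injOn h1 h2 (heqOn h3)
  intro t ht
  have : F =ᶠ[𝓝 t] F' := hsub ht
  exact this.eq_of_nhds

end Pool.Agent.SS
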