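import Pool.Agent.Lib_helper64.SS.Base
import Pool.Agent.Lib_helper64.SS.Notions
import Pool.Agent.Lib_helper64.SS.B.UDL
import Pool.Agent.Lib_helper64.SS.B.UNI

-- NEEDS: UDL UNI

set_option autoImplicit false
set_option linter.unusedSectionVars false

open Filter Topology Metric Set
open scoped Manifold ContDiff

namespace Pool.Agent.SS

variable {E X : Type} [NormedAddCommGroup E] [NormedSpace ℂ E] [FiniteDimensional ℂ E]
  [TopologicalSpace X] {G : Geo E X}
  {V : Type} [NormedAddCommGroup V] [NormedSpace ℂ V] [FiniteDimensional ℂ V]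

theorem ext_agree [T2Space X] {c : V → Fin G.L → ℂ} {Θ : V → V →L[ℂ] V} {F A B : V → X}
    {a b ε : ℝ} (hε : 0 < ε) (ha : 0 < a) (hb : 0 < b) (hA : ∀ t ∈ ball (0 : V) a, G.FlAt c Θ A t)
    (hB : ∀ t ∈ ball (0 : V) b, G.FlAt c Θ B t) (hAF : ∀ t ∈ ball (0 : V) ε, A t = F t)
    (hBF : ∀ t ∈ ball (0 : V) ε, B t = F t) : ∀ t ∈ ball (0 : V) (min a b), A t = B t := by
  refine hol_unique (G := G) isOpen_ball (convex_ball (0 : V) (min a b)).isPreconnected
    (fun t ht => (hA t (ball_subset_ball (min_le_left _ _) ht)).1)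
    (fun t ht => (hB t (ball_subset_ball (min_le_right _ _) ht)).1)
    (mem_ball_self (lt_min ha hb)) ?_
  filter_upwards [isOpen_ball.mem_nhds (mem_ball_self hε)] with t ht
  rw [hAF t ht, hBF t ht]

/-- one step of the extension -/
theorem ext_step [T2Space X] {c : V → Fin G.L → ℂ} {Θ : V → V →L[ℂ] V} {R δ : ℝ} (hδ : 0 < δ)
    (hU : ∀ (F : V → X) (s : V) (r : ℝ), ‖s‖ ≤ R → 0 < r →
      (∀ t ∈ ball s r, G.FlAt c Θ F t) →
      ∃ F' : V → X, (∀ t ∈ ball s δ, G.FlAt c Θ F' t) ∧ ∀ t ∈ ball s (min r δ), F' t = F t)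
    {F : V → X} {ρ : ℝ} (hρ : 0 < ρ) (hρR : ρ ≤ R) (hF : ∀ t ∈ ball (0 : V) ρ, G.FlAt c Θ F t) :
    ∃ F' : V → X, (∀ t ∈ ball (0 : V) (ρ + δ / 2), G.FlAt c Θ F' t) ∧
      ∀ t ∈ ball (0 : V) ρ, F' t = F t := by
  classical
  have : Nonempty (V → X) := ⟨F⟩
  -- local extensions
  have h1 : ∀ s : V, s ∈ ball (0 : V) ρ → ∃ F' : V → X, (∀ t ∈ ball s δ, G.FlAt c Θ F' t) ∧
      ∀ t ∈ ball s δ ∩ ball (0 : V) ρ, F' t = F t := by
    intro s hs
    have hs' : ‖s‖ < ρ := by simpa using hs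
    have hr : 0 < ρ - ‖s‖ := by linarith
    have hsub : ball s (ρ - ‖s‖) ⊆ ball (0 : V) ρ := by
      intro t ht
      rw [mem_ball, dist_eq_norm] at ht
      rw [mem_ball_zero_iff]
      calc ‖t‖ = ‖(t - s) + s‖ := by rw [sub_add_cancel]
        _ ≤ ‖t - s‖ + ‖s‖ := norm_add_le _ _
        _ < ρ := by linarith
    obtain ⟨F', hF', hF''⟩ := hU F s (ρ - ‖s‖) (hs'.le.trans hρR) hr
      (fun t ht => hF t (hsub ht))
    refine ⟨F', hF', ?_⟩
    refine hol_unique (G := G) (isOpen_ball.inter isOpen_ball)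
      ((convex_ball s δ).inter (convex_ball (0 : V) ρ)).isPreconnected
      (fun t ht => (hF' t ht.1).1) (fun t ht => (hF t ht.2).1)
      (t₀ := s) ⟨mem_ball_self hδ, hs⟩ ?_
    filter_upwards [isOpen_ball.mem_nhds (mem_ball_self (x := s) (lt_min hr hδ))] with t ht
    exact hF'' t ht
  choose! L hL1 hL2 using h1
  have h2 : ∀ s ∈ ball (0 : V) ρ, ∀ s' ∈ ball (0 : V) ρ, ∀ t ∈ ball s δ ∩ ball s' δ,
      L s t = L s' t := by
    intro s hs s' hs' t ht
    have hmid : midpoint ℝ s s' ∈ ball (0 : V) ρ :=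
      (convex_ball (0 : V) ρ).midpoint_mem hs hs'
    have hdist : dist s s' < 2 * δ := by
      calc dist s s' ≤ dist s t + dist t s' := dist_triangle _ _ _
        _ < 2 * δ := by
          have h3 := ht.1
          have h4 := ht.2
          rw [mem_ball] at h3 h4
          rw [dist_comm s t]
          linarith
    have hm1 : midpoint ℝ s s' ∈ ball s δ := by
      rw [mem_ball, dist_midpoint_left]
      rw [show ‖(2 : ℝ)‖⁻¹ = 1 / 2 by norm_num]
      linarith
    have hm2 : midpoint ℝ s s' ∈ ball s' δ := by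
      rw [mem_ball, dist_midpoint_right]
      rw [show ‖(2 : ℝ)‖⁻¹ = 1 / 2 by norm_num]
      linarith
    refine hol_unique (G := G) (isOpen_ball.inter isOpen_ball)
      ((convex_ball s δ).inter (convex_ball s' δ)).isPreconnected
      (fun t ht => (hL1 s hs t ht.1).1) (fun t ht => (hL1 s' hs' t ht.2).1)
      (t₀ := midpoint ℝ s s') ⟨hm1, hm2⟩ ?_ t ht
    filter_upwards [isOpen_ball.mem_nhds hm1, isOpen_ball.mem_nhds hm2,
      isOpen_ball.mem_nhds hmid] with r r1 r2 r3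
    rw [hL2 s hs r ⟨r1, r3⟩, hL2 s' hs' r ⟨r2, r3⟩]
  have h3 : ∀ t ∈ ball (0 : V) (ρ + δ / 2), ∃ s, s ∈ ball (0 : V) ρ ∧ t ∈ ball s δ := by
    intro t ht
    have ht' : ‖t‖ < ρ + δ / 2 := by simpa using ht
    have hpos : 0 < ρ + δ / 2 := by linarith
    set a : ℝ := ρ / (ρ + δ / 2) with ha
    have ha0 : 0 < a := div_pos hρ hpos
    have ha1 : a * (ρ + δ / 2) = ρ := by rw [ha]; field_simp
    have ha2 : (1 - a) * (ρ + δ / 2) = δ / 2 := by linarith
    have ha3 : 0 < 1 - a := by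
      by_contra hcon
      push Not at hcon
      nlinarith
    refine ⟨(a : ℂ) • t, ?_, ?_⟩
    · rw [mem_ball_zero_iff, norm_smul, Complex.norm_real, Real.norm_of_nonneg ha0.le]
      calc a * ‖t‖ < a * (ρ + δ / 2) := mul_lt_mul_of_pos_left ht' ha0
        _ = ρ := ha1
    · rw [mem_ball, dist_eq_norm]
      have h4 : t - (a : ℂ) • t = ((1 - a : ℝ) : ℂ) • t := by
        push_cast
        rw [sub_smul, one_smul]
      rw [h4, norm_smul, Complex.norm_real, Real.norm_of_nonneg ha3.le]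
      calc (1 - a) * ‖t‖ < (1 - a) * (ρ + δ / 2) := mul_lt_mul_of_pos_left ht' ha3
        _ = δ / 2 := ha2
        _ < δ := by linarith
  choose! S hS1 hS2 using h3
  have h4 : ∀ t ∈ ball (0 : V) (ρ + δ / 2), ∀ s ∈ ball (0 : V) ρ, t ∈ ball s δ →
      L (S t) t = L s t := fun t ht s hs hts =>
    h2 (S t) (hS1 t ht) s hs t ⟨hS2 t ht, hts⟩
  refine ⟨fun t => L (S t) t, ?_, ?_⟩
  · intro t ht
    refine (hL1 (S t) (hS1 t ht) t (hS2 t ht)).congr ?_
    filter_upwards [isOpen_ball.mem_nhds ht, isOpen_ball.mem_nhds (hS2 t ht)] with r hr1 hr2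
    exact (h4 r hr1 (S t) (hS1 t ht) hr2).symm
  · intro t ht
    have ht' : t ∈ ball (0 : V) (ρ + δ / 2) := ball_subset_ball (by linarith) ht
    exact hL2 (S t) (hS1 t ht') t ⟨hS2 t ht', ht⟩

/-- EXT: flat germs extend to entire flat maps -/
theorem flat_entire [CompactSpace X] [T2Space X] (c : V → Fin G.L → ℂ)
    (hc : ∀ u, c u = 0 → u = 0) (Θ Θi : V → V →L[ℂ] V) (hΘ : ∀ t, AnalyticAt ℂ Θ t)
    (hΘi : Continuous Θi) (hi : ∀ t u, Θ t (Θi t u) = u) (hi' : ∀ t u, Θi t (Θ t u) = u)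
    (F : V → X) (ε : ℝ) (hε : 0 < ε) (hF : ∀ t ∈ ball (0 : V) ε, G.FlAt c Θ F t) :
    ∃ F' : V → X, (∀ t, G.FlAt c Θ F' t) ∧ ∀ t ∈ ball (0 : V) ε, F' t = F t := by
  classical
  -- extension to every ball
  have hball : ∀ R : ℝ, ∃ F' : V → X, (∀ t ∈ ball (0 : V) R, G.FlAt c Θ F' t) ∧
      ∀ t ∈ ball (0 : V) ε, F' t = F t := by
    intro R
    obtain ⟨δ, hδ, hU⟩ := uniform_delta (G := G) c hc Θ Θi hΘ hΘi hi hi' R
    have hk : ∀ k : ℕ, ∃ F' : V → X,
        (∀ t ∈ ball (0 : V) (min R (ε + k * (δ / 2))), G.FlAt c Θ F' t) ∧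
        ∀ t ∈ ball (0 : V) ε, F' t = F t := by
      intro k
      induction k with
      | zero =>
        refine ⟨F, fun t ht => hF t (ball_subset_ball ?_ ht), fun t _ => rfl⟩
        refine (min_le_right _ _).trans ?_
        simp
      | succ k ih =>
        obtain ⟨F1, h1, h2⟩ := ih
        by_cases hR : R ≤ ε + k * (δ / 2)
        · refine ⟨F1, fun t ht => h1 t (ball_subset_ball ?_ ht), h2⟩
          rw [min_eq_left hR]
          exact min_le_left _ _
        · push Not at hR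
          rw [min_eq_right hR.le] at h1
          have hpos : 0 < ε + k * (δ / 2) := by positivity
          obtain ⟨F2, h3, h4⟩ := ext_step (G := G) hδ hU hpos hR.le h1
          refine ⟨F2, fun t ht => h3 t (ball_subset_ball ?_ ht), fun t ht => ?_⟩
          · refine (min_le_right _ _).trans ?_
            push_cast
            linarith
          · rw [h4 t (ball_subset_ball ?_ ht), h2 t ht]
            have : 0 ≤ k * (δ / 2) := by positivity
            linarith
    obtain ⟨k, hk'⟩ := exists_nat_ge (R / (δ / 2))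
    obtain ⟨F', h1, h2⟩ := hk k
    refine ⟨F', fun t ht => h1 t ?_, h2⟩
    rw [min_eq_left]
    · exact ht
    · rw [div_le_iff₀ (by positivity)] at hk'
      linarith
  choose B hB1 hB2 using hball
  set n : V → ℝ := fun t => ‖t‖ + 1 with hn
  have hn0 : ∀ t : V, 0 < n t := fun t => by
    have := norm_nonneg t
    rw [hn]; simp only; linarith
  have hmem : ∀ t : V, t ∈ ball (0 : V) (n t) := fun t => by
    rw [mem_ball_zero_iff, hn]; simp only; linarith
  have hag : ∀ t r : V, r ∈ ball (0 : V) (n t) → B (n r) r = B (n t) r := by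
    intro t r hr
    refine ext_agree (G := G) hε (hn0 r) (hn0 t) (hB1 _) (hB1 _) (hB2 _) (hB2 _) r ?_
    rw [mem_ball, lt_min_iff]
    exact ⟨hmem r, hr⟩
  refine ⟨fun t => B (n t) t, fun t => ?_, fun t ht => hB2 _ t ht⟩
  refine (hB1 (n t) t (hmem t)).congr ?_
  filter_upwards [isOpen_ball.mem_nhds (hmem t)] with r hr
  exact (hag t r hr).symm

end Pool.Agent.SS
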