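import Pool.Agent.Lib_helper64.SS.Base
import Pool.Agent.Lib_helper64.SS.Notions

set_option autoImplicit false
set_option linter.unusedSectionVars false

open Filter Topology Metric Set
open scoped Manifold ContDiff

namespace Pool.Agent.SS

variable {E X : Type} [NormedAddCommGroup E] [NormedSpace ℂ E] [FiniteDimensional ℂ E]
  [TopologicalSpace X] {G : Geo E X}
  {V : Type} [NormedAddCommGroup V] [NormedSpace ℂ V] [FiniteDimensional ℂ V]

-- NEEDS: (nothing)

/-- FLB: entire curves with bounded derivative are flat -/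
theorem flat_of_bounded (g : ℂ → X) (hg : ∀ t, G.HolAt g t)
    (hb : ∀ t y, g t ∈ (G.ch y).source → ∀ i,
      ‖G.S y i (G.ch y (g t)) (fderiv ℂ (G.loc y g) t 1)‖ ≤ 1)
    (hne : ∀ y, g 0 ∈ (G.ch y).source → ∃ i,
      G.S y i (G.ch y (g 0)) (fderiv ℂ (G.loc y g) 0 1) ≠ 0) :
    ∃ c : ℂ → Fin G.L → ℂ, (∀ u, c u = 0 → u = 0) ∧ g ∈ G.K c := by
  set h : Fin G.L → ℂ → ℂ := fun i t =>
    G.S (g t) i (G.ch (g t) (g t)) (fderiv ℂ (G.loc (g t) g) t 1) with hh
  have hch : ∀ i t y, g t ∈ (G.ch y).source →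
      G.S y i (G.ch y (g t)) (fderiv ℂ (G.loc y g) t 1) = h i t := by
    intro i t y hy
    rw [hh]
    simp only
    rw [G.compat y (g t) (g t) hy (G.mem _), ← Geo.fderiv_loc (hg t) hy (G.mem _)]
  have han : ∀ i t, AnalyticAt ℂ (h i) t := by
    intro i t
    have hy : g t ∈ (G.ch (g t)).source := G.mem _
    have h1 : AnalyticAt ℂ (G.loc (g t) g) t := (hg t).2 _ hy
    have h2 : AnalyticAt ℂ (fun s => fderiv ℂ (G.loc (g t) g) s 1) t :=
      (ContinuousLinearMap.apply ℂ E (1 : ℂ)).analyticAt _ |>.comp h1.fderiv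
    have h3 : AnalyticAt ℂ (fun s => (G.loc (g t) g s, fderiv ℂ (G.loc (g t) g) s 1)) t :=
      h1.prod h2
    have h4 : AnalyticAt ℂ (fun p : E × E => G.S (g t) i p.1 p.2)
        (G.loc (g t) g t, fderiv ℂ (G.loc (g t) g) t 1) :=
      G.hol (g t) i _ ((G.ch (g t)).map_source hy) _
    have h5 : AnalyticAt ℂ (fun s => G.S (g t) i (G.loc (g t) g s)
        (fderiv ℂ (G.loc (g t) g) s 1)) t := h4.comp_of_eq h3 rfl
    refine h5.congr ?_
    filter_upwards [(hg t).loc_mem hy] with s hs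
    exact hch i s (g t) hs
  have hconst : ∀ i t, h i t = h i 0 := by
    intro i t
    have hd : Differentiable ℂ (h i) := fun t => (han i t).differentiableAt
    refine hd.apply_eq_apply_of_bounded ?_ t 0
    refine isBounded_iff_forall_norm_le.2 ⟨1, ?_⟩
    rintro _ ⟨s, rfl⟩
    exact hb s (g s) (G.mem _) i
  refine ⟨fun u i => u ^ G.deg i * h i 0, ?_, ?_⟩
  · intro u hu
    obtain ⟨i, hi⟩ := hne (g 0) (G.mem _)
    have h1 := congrFun hu i
    simp only [Pi.zero_apply] at h1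
    rcases mul_eq_zero.1 h1 with h2 | h2
    · exact pow_eq_zero_iff (G.deg_pos i).ne' |>.1 h2
    · exact absurd h2 hi
  · intro t
    refine ⟨hg t, fun y hy i u => ?_⟩
    have h1 : fderiv ℂ (G.loc y g) t u = u • fderiv ℂ (G.loc y g) t 1 := by
      rw [← map_smul, smul_eq_mul, mul_one]
    rw [h1, G.homog y i _ ((G.ch y).map_source hy), hch i t y hy, hconst i t]
    rfl

end Pool.Agent.SS
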