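import Pool.Agent.Lib_helper64.SS.Base
import Pool.Agent.Lib_helper64.SS.Notions

/-! Block FSM for MP_45e720_ag. -/
-- NEEDS:

set_option autoImplicit false
set_option linter.unusedSectionVars false

open Filter Topology Metric Set
open scoped Manifold ContDiff

namespace Pool.Agent.SS

section dzcalc

variable {W : Type} [NormedAddCommGroup W] [NormedSpace ℂ W]
  {W' : Type} [NormedAddCommGroup W'] [NormedSpace ℂ W']

theorem fsm_dz_congr {f g : W → ℂ} {p : W} (h : f =ᶠ[𝓝 p] g) (A : W) : dz f p A = dz g p A := by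
  have e : fderiv ℝ f p = fderiv ℝ g p := h.fderiv_eq
  unfold dz
  rw [e]

theorem fsm_dz_mul {f g : W → ℂ} {p : W} (hf : DifferentiableAt ℝ f p)
    (hg : DifferentiableAt ℝ g p) (A : W) :
    dz (fun q => f q * g q) p A = dz f p A * g p + f p * dz g p A := by
  have h := hf.hasFDerivAt.mul hg.hasFDerivAt
  unfold dz
  have e : fderiv ℝ (fun q => f q * g q) p = f p • fderiv ℝ g p + g p • fderiv ℝ f p := h.fderiv
  rw [e]
  simp only [add_apply, smul_apply, smul_eq_mul]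
  ring

theorem fsm_dz_sum {ι : Type} (s : Finset ι) {f : ι → W → ℂ} {p : W}
    (hf : ∀ i ∈ s, DifferentiableAt ℝ (f i) p) (A : W) :
    dz (fun q => ∑ i ∈ s, f i q) p A = ∑ i ∈ s, dz (f i) p A := by
  have e : fderiv ℝ (fun q => ∑ i ∈ s, f i q) p = ∑ i ∈ s, fderiv ℝ (f i) p :=
    (HasFDerivAt.fun_sum fun i hi => (hf i hi).hasFDerivAt).fderiv
  unfold dz
  rw [e]
  simp only [sum_apply, Finset.sum_sub_distrib, Finset.mul_sum]

theorem fsm_dz_hol {f : W → ℂ} {f' : W →L[ℂ] ℂ} {p : W} (h : HasFDerivAt f f' p) (A : W) :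
    dz f p A = 2 * f' A := by
  have h1 : HasFDerivAt f (f'.restrictScalars ℝ) p := h.restrictScalars ℝ
  unfold dz
  rw [h1.fderiv]
  simp only [ContinuousLinearMap.coe_restrictScalars', map_smul, smul_eq_mul]
  linear_combination (-(f' A)) * Complex.I_mul_I

theorem fsm_dz_conj {f : W → ℂ} {f' : W →L[ℂ] ℂ} {p : W} (h : HasFDerivAt f f' p) (A : W) :
    dz (fun q => star (f q)) p A = 0 := by
  have h1 : HasFDerivAt f (f'.restrictScalars ℝ) p := h.restrictScalars ℝ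
  have h2 : HasFDerivAt (fun q => star (f q))
      ((Complex.conjCLE : ℂ →L[ℝ] ℂ).comp (f'.restrictScalars ℝ)) p :=
    (Complex.conjCLE : ℂ →L[ℝ] ℂ).hasFDerivAt.comp p h1
  unfold dz
  rw [h2.fderiv]
  simp only [ContinuousLinearMap.comp_apply, ContinuousLinearMap.coe_restrictScalars', map_smul,
    smul_eq_mul, ContinuousLinearEquiv.coe_coe, Complex.conjCLE_apply, map_mul, Complex.conj_I]
  linear_combination (starRingEnd ℂ (f' A)) * Complex.I_mul_I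

theorem fsm_dz_comp {f : W' → ℂ} {φ : W → W'} {φ' : W →L[ℂ] W'} {p : W}
    (hf : DifferentiableAt ℝ f (φ p)) (h : HasFDerivAt φ φ' p) (A : W) :
    dz (fun q => f (φ q)) p A = dz f (φ p) (φ' A) := by
  have h1 : HasFDerivAt φ (φ'.restrictScalars ℝ) p := h.restrictScalars ℝ
  have h2 : HasFDerivAt (fun q => f (φ q)) ((fderiv ℝ f (φ p)).comp (φ'.restrictScalars ℝ)) p :=
    hf.hasFDerivAt.comp p h1
  unfold dz
  rw [h2.fderiv]
  simp only [ContinuousLinearMap.comp_apply, ContinuousLinearMap.coe_restrictScalars', map_smul]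

theorem fsm_dz_const_mul {f : W → ℂ} {p : W} (hf : DifferentiableAt ℝ f p) (a : ℂ) (A : W) :
    dz (fun q => a * f q) p A = a * dz f p A := by
  have h0 : dz (fun _ : W => a) p A = 0 := by
    have : HasFDerivAt (fun _ : W => a) (0 : W →L[ℂ] ℂ) p := hasFDerivAt_const a p
    rw [fsm_dz_hol this]; simp
  rw [fsm_dz_mul (differentiableAt_const a) hf, h0, zero_mul, zero_add]


theorem fsm_dz_inv {f : W → ℂ} {p : W} (hf : DifferentiableAt ℝ f p) (h0 : f p ≠ 0) (A : W) :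
    dz (fun q => (f q)⁻¹) p A = -(dz f p A) * ((f p)⁻¹ * (f p)⁻¹) := by
  have hi : DifferentiableAt ℝ (fun q => (f q)⁻¹) p := hf.inv h0
  have h1 := fsm_dz_mul hf hi A
  have he : (fun q => f q * (f q)⁻¹) =ᶠ[𝓝 p] fun _ => (1 : ℂ) := by
    filter_upwards [hf.continuousAt.eventually_ne h0] with q hq
    exact mul_inv_cancel₀ hq
  have h2 : dz (fun _ : W => (1 : ℂ)) p A = 0 := by
    have : HasFDerivAt (fun _ : W => (1 : ℂ)) (0 : W →L[ℂ] ℂ) p := hasFDerivAt_const 1 p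
    rw [fsm_dz_hol this]; simp
  rw [fsm_dz_congr he, h2] at h1
  field_simp
  field_simp at h1
  linear_combination -h1

theorem fsm_dz_sub {f g : W → ℂ} {p : W} (hf : DifferentiableAt ℝ f p)
    (hg : DifferentiableAt ℝ g p) (A : W) :
    dz (fun q => f q - g q) p A = dz f p A - dz g p A := by
  have h := hf.hasFDerivAt.sub hg.hasFDerivAt
  unfold dz
  have e : fderiv ℝ (fun q => f q - g q) p = fderiv ℝ f p - fderiv ℝ g p := h.fderiv
  rw [e]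
  simp only [sub_apply]
  ring

theorem fsm_dz_inner {U : Type} [NormedAddCommGroup U] [InnerProductSpace ℂ U] {u v : W → U}
    {u' v' : W →L[ℂ] U} {p : W} (hu : HasFDerivAt u u' p) (hv : HasFDerivAt v v' p) (A : W) :
    dz (fun q => inner ℂ (u q) (v q)) p A = 2 * inner ℂ (u p) (v' A) := by
  have h1 : HasFDerivAt u (u'.restrictScalars ℝ) p := hu.restrictScalars ℝ
  have h2 : HasFDerivAt v (v'.restrictScalars ℝ) p := hv.restrictScalars ℝ
  have h3 := h1.inner ℂ h2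
  unfold dz
  rw [h3.fderiv]
  simp only [ContinuousLinearMap.comp_apply, ContinuousLinearMap.prod_apply,
    fderivInnerCLM_apply, ContinuousLinearMap.coe_restrictScalars', map_smul,
    inner_smul_left, inner_smul_right, Complex.conj_I]
  linear_combination (inner ℂ (u' A) (v p) - inner ℂ (u p) (v' A)) * Complex.I_mul_I

end dzcalc

section alg

variable {U : Type} [NormedAddCommGroup U] [InnerProductSpace ℂ U]

/-- the Fubini-Study form at `v` -/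
noncomputable def fsmF (v a b : U) : ℂ :=
  inner ℂ b a * (inner ℂ v v)⁻¹ -
    inner ℂ v a * inner ℂ b v * ((inner ℂ v v)⁻¹ * (inner ℂ v v)⁻¹)

theorem fsm_proj {v : U} (hv : v ≠ 0) {r : ℂ} (hr : r ≠ 0) (a b : U) (μ ν : ℂ) :
    fsmF (r • v) (r • a + μ • v) (r • b + ν • v) = fsmF v a b := by
  have hn : (inner ℂ v v : ℂ) ≠ 0 := inner_self_ne_zero.2 hv
  have hr' : (starRingEnd ℂ) r ≠ 0 := (map_ne_zero _).2 hr
  unfold fsmF
  simp only [inner_add_left, inner_add_right, inner_smul_left, inner_smul_right]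
  field_simp
  ring

theorem fsm_add (v a a' b : U) : fsmF v (a + a') b = fsmF v a b + fsmF v a' b := by
  unfold fsmF
  simp only [inner_add_right]
  ring

theorem fsm_smul (v : U) (r : ℂ) (a b : U) : fsmF v (r • a) b = r * fsmF v a b := by
  unfold fsmF
  simp only [inner_smul_right]
  ring

theorem fsm_herm (v a b : U) : fsmF v b a = star (fsmF v a b) := by
  unfold fsmF
  have h : ∀ x y : U, star (inner ℂ x y : ℂ) = inner ℂ y x := fun x y => inner_conj_symm y x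
  simp only [star_sub, star_mul, h]
  have h2 : star ((inner ℂ v v : ℂ)⁻¹) = (inner ℂ v v : ℂ)⁻¹ := by
    have := map_inv₀ (starRingEnd ℂ) (inner ℂ v v : ℂ)
    rw [inner_conj_symm] at this
    exact this
  simp only [h2]
  ring

theorem fsm_pos {v : U} (hv : v ≠ 0) {a : U} (ha : ∀ c : ℂ, a ≠ c • v) :
    0 < (fsmF v a a).re := by
  have hn : 0 < ‖v‖ ^ 2 := by have := norm_pos_iff.2 hv; positivity
  have hvv : (inner ℂ v v : ℂ) = ((‖v‖ ^ 2 : ℝ) : ℂ) := by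
    rw [inner_self_eq_norm_sq_to_K]; push_cast; rfl
  have haa : (inner ℂ a a : ℂ) = ((‖a‖ ^ 2 : ℝ) : ℂ) := by
    rw [inner_self_eq_norm_sq_to_K]; push_cast; rfl
  have hva : (inner ℂ v a : ℂ) * inner ℂ a v = ((‖(inner ℂ v a : ℂ)‖ ^ 2 : ℝ) : ℂ) := by
    rw [← inner_conj_symm a v, Complex.mul_conj, Complex.normSq_eq_norm_sq]
  have hcs : ‖(inner ℂ v a : ℂ)‖ < ‖v‖ * ‖a‖ := by
    refine lt_of_le_of_ne (norm_inner_le_norm v a) fun h => ?_
    obtain ⟨r, hr⟩ := (norm_inner_eq_norm_iff hv (by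
      intro h0; exact ha 0 (by rw [h0, zero_smul]))).1 h
    exact ha r hr.2
  have e : fsmF v a a =
      ((‖a‖ ^ 2 / ‖v‖ ^ 2 - ‖(inner ℂ v a : ℂ)‖ ^ 2 / (‖v‖ ^ 2 * ‖v‖ ^ 2) : ℝ) : ℂ) := by
    unfold fsmF
    rw [hva, haa, hvv]
    push_cast
    have : ((‖v‖ : ℂ)) ≠ 0 := by
      have := norm_ne_zero_iff.2 hv
      exact_mod_cast this
    field_simp
  rw [e, Complex.ofReal_re, sub_pos, div_lt_div_iff₀ (by positivity) hn]
  have h3 : ‖(inner ℂ v a : ℂ)‖ ^ 2 < (‖v‖ * ‖a‖) ^ 2 :=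
    pow_lt_pow_left₀ hcs (norm_nonneg _) two_ne_zero
  nlinarith [mul_lt_mul_of_pos_right h3 hn]

end alg

variable {E X : Type} [NormedAddCommGroup E] [NormedSpace ℂ E] [FiniteDimensional ℂ E]
  [TopologicalSpace X] {G : Geo E X}

/-- `g` is a local lift at the point `ξ` of the chart `ch y` -/
def FsmLift (P : Prj G) (y : X) (g : E → EuclideanSpace ℂ (Fin P.N)) (ξ : E) : Prop :=
  AnalyticAt ℂ g ξ ∧
    ∀ᶠ ξ' in 𝓝 ξ, g ξ' ≠ 0 ∧ P.line ((G.ch y).symm ξ') = Submodule.span ℂ {g ξ'}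

/-- the Fubini-Study form of a lift -/
noncomputable def fsmG {N : ℕ} (g : E → EuclideanSpace ℂ (Fin N)) (ξ A B : E) : ℂ :=
  fsmF (g ξ) (fderiv ℂ g ξ A) (fderiv ℂ g ξ B)

section lift

variable (P : Prj G)

theorem fsm_unique {y : X} {ξ : E} {g g' : E → EuclideanSpace ℂ (Fin P.N)}
    (h : FsmLift P y g ξ) (h' : FsmLift P y g' ξ) (A B : E) :
    fsmG g ξ A B = fsmG g' ξ A B := by
  have hg0 : g ξ ≠ 0 := h.2.self_of_nhds.1
  have hg0' : g' ξ ≠ 0 := h'.2.self_of_nhds.1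
  have he : (inner ℂ (g ξ) (g ξ) : ℂ) ≠ 0 := inner_self_ne_zero.2 hg0
  have hd : HasFDerivAt g (fderiv ℂ g ξ) ξ := h.1.differentiableAt.hasFDerivAt
  have hd' : HasFDerivAt g' (fderiv ℂ g' ξ) ξ := h'.1.differentiableAt.hasFDerivAt
  have hi : DifferentiableAt ℂ (fun ξ' => (inner ℂ (g ξ) (g ξ') : ℂ)) ξ :=
    (innerSL ℂ (g ξ)).differentiableAt.comp ξ hd.differentiableAt
  have hi' : DifferentiableAt ℂ (fun ξ' => (inner ℂ (g ξ) (g' ξ') : ℂ)) ξ :=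
    (innerSL ℂ (g ξ)).differentiableAt.comp ξ hd'.differentiableAt
  set r : E → ℂ := fun ξ' => inner ℂ (g ξ) (g' ξ') / inner ℂ (g ξ) (g ξ') with hrdef
  have hr : DifferentiableAt ℂ r ξ := by
    have h1 : r = fun ξ' => (inner ℂ (g ξ) (g' ξ') : ℂ) * (inner ℂ (g ξ) (g ξ') : ℂ)⁻¹ := by
      funext ξ'
      exact div_eq_mul_inv _ _
    rw [h1]
    exact DifferentiableAt.fun_mul hi' (hi.inv he)
  have heq : g' =ᶠ[𝓝 ξ] fun ξ' => r ξ' • g ξ' := by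
    filter_upwards [h.2, h'.2, hi.continuousAt.eventually_ne he] with ξ' h1 h2 h3
    have h4 : g' ξ' ∈ Submodule.span ℂ {g ξ'} := by
      rw [← h1.2, h2.2]; exact Submodule.mem_span_singleton_self _
    obtain ⟨μ, hμ⟩ := Submodule.mem_span_singleton.1 h4
    show g' ξ' = (inner ℂ (g ξ) (g' ξ') / inner ℂ (g ξ) (g ξ') : ℂ) • g ξ'
    rw [← hμ, inner_smul_right, mul_div_assoc, div_self h3, mul_one]
  have hder : HasFDerivAt (fun ξ' => r ξ' • g ξ')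
      (r ξ • fderiv ℂ g ξ + (fderiv ℂ r ξ).smulRight (g ξ)) ξ := hr.hasFDerivAt.smul hd
  have e2 : fderiv ℂ g' ξ = r ξ • fderiv ℂ g ξ + (fderiv ℂ r ξ).smulRight (g ξ) :=
    heq.fderiv_eq.trans hder.fderiv
  have e1 : g' ξ = r ξ • g ξ := heq.eq_of_nhds
  have hr0 : r ξ ≠ 0 := by
    intro h0
    rw [h0, zero_smul] at e1
    exact hg0' e1
  unfold fsmG
  rw [e1, e2]
  simp only [add_apply, smul_apply, ContinuousLinearMap.smulRight_apply]
  rw [fsm_proj hg0 hr0]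

theorem fsm_near {y : X} {ξ : E} {g : E → EuclideanSpace ℂ (Fin P.N)}
    (h : FsmLift P y g ξ) : ∀ᶠ ξ' in 𝓝 ξ, FsmLift P y g ξ' :=
  h.1.eventually_analyticAt.and (eventually_eventually_nhds.2 h.2)

open Classical in
/-- the metric -/
noncomputable def fsmH (y : X) (ξ A B : E) : ℂ :=
  if hξ : ξ ∈ (G.ch y).target then fsmG (P.lift y ξ hξ).choose ξ A B else 0

theorem fsm_eq {y : X} {ξ : E} (hξ : ξ ∈ (G.ch y).target)
    {g : E → EuclideanSpace ℂ (Fin P.N)} (h : FsmLift P y g ξ) (A B : E) :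
    fsmH P y ξ A B = fsmG g ξ A B := by
  unfold fsmH
  rw [dif_pos hξ]
  have h1 := (P.lift y ξ hξ).choose_spec
  exact fsm_unique P ⟨h1.1, h1.2.1⟩ h A B

theorem fsm_loc {y : X} {ξ : E} (hξ : ξ ∈ (G.ch y).target)
    {g : E → EuclideanSpace ℂ (Fin P.N)} (h : FsmLift P y g ξ) (A B : E) :
    (fun ξ => fsmH P y ξ A B) =ᶠ[𝓝 ξ] fun ξ => fsmG g ξ A B := by
  filter_upwards [G.target_mem hξ, fsm_near P h] with ξ' h1 h2
  exact fsm_eq P h1 h2 A B

end lift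

section smooth

variable {N : ℕ} {g : E → EuclideanSpace ℂ (Fin N)} {ξ : E}

theorem fsm_der (hg : AnalyticAt ℂ g ξ) (A : E) : AnalyticAt ℂ (fun ξ => fderiv ℂ g ξ A) ξ :=
  ((ContinuousLinearMap.apply ℂ (EuclideanSpace ℂ (Fin N)) A).analyticAt _).comp hg.fderiv

theorem fsm_smooth (hg : AnalyticAt ℂ g ξ) (h0 : g ξ ≠ 0) (A B : E) :
    ContDiffAt ℝ 1 (fun ξ => fsmG g ξ A B) ξ := by
  have c0 : ContDiffAt ℝ 1 g ξ := hg.contDiffAt.restrict_scalars ℝ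
  have c1 : ∀ A, ContDiffAt ℝ 1 (fun ξ => fderiv ℂ g ξ A) ξ := fun A =>
    (fsm_der hg A).contDiffAt.restrict_scalars ℝ
  have hw : ContDiffAt ℝ 1 (fun ξ => (inner ℂ (g ξ) (g ξ) : ℂ)⁻¹) ξ :=
    (c0.inner ℂ c0).inv (inner_self_ne_zero.2 h0)
  unfold fsmG fsmF
  exact (((c1 B).inner ℂ (c1 A)).mul hw).sub
    (((c0.inner ℂ (c1 A)).mul ((c1 B).inner ℂ c0)).mul (hw.mul hw))

theorem fsm_kahler (hg : AnalyticAt ℂ g ξ) (h0 : g ξ ≠ 0) (A B C : E) :
    dz (fun ξ => fsmG g ξ B C) ξ A = dz (fun ξ => fsmG g ξ A C) ξ B := by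
  have hd0 : HasFDerivAt g (fderiv ℂ g ξ) ξ := hg.differentiableAt.hasFDerivAt
  have hd1 : ∀ A, HasFDerivAt (fun ξ => fderiv ℂ g ξ A) (fderiv ℂ (fun ξ => fderiv ℂ g ξ A) ξ) ξ :=
    fun A => (fsm_der hg A).differentiableAt.hasFDerivAt
  have r0 : DifferentiableAt ℝ g ξ := (hd0.restrictScalars ℝ).differentiableAt
  have r1 : ∀ A, DifferentiableAt ℝ (fun ξ => fderiv ℂ g ξ A) ξ := fun A =>
    ((hd1 A).restrictScalars ℝ).differentiableAt
  have hn : (inner ℂ (g ξ) (g ξ) : ℂ) ≠ 0 := inner_self_ne_zero.2 h0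
  have i00 : DifferentiableAt ℝ (fun ξ => (inner ℂ (g ξ) (g ξ) : ℂ)) ξ := r0.inner ℂ r0
  have i01 : ∀ A, DifferentiableAt ℝ (fun ξ => (inner ℂ (g ξ) (fderiv ℂ g ξ A) : ℂ)) ξ :=
    fun A => r0.inner ℂ (r1 A)
  have i10 : ∀ A, DifferentiableAt ℝ (fun ξ => (inner ℂ (fderiv ℂ g ξ A) (g ξ) : ℂ)) ξ :=
    fun A => (r1 A).inner ℂ r0
  have i11 : ∀ A B,
      DifferentiableAt ℝ (fun ξ => (inner ℂ (fderiv ℂ g ξ A) (fderiv ℂ g ξ B) : ℂ)) ξ :=
    fun A B => (r1 A).inner ℂ (r1 B)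
  have iw : DifferentiableAt ℝ (fun ξ => (inner ℂ (g ξ) (g ξ) : ℂ)⁻¹) ξ := i00.inv hn
  have key : ∀ A B C, dz (fun ξ => fsmG g ξ B C) ξ A =
      (2 * inner ℂ (fderiv ℂ g ξ C) (fderiv ℂ (fun ξ => fderiv ℂ g ξ B) ξ A)) *
          (inner ℂ (g ξ) (g ξ))⁻¹ +
        inner ℂ (fderiv ℂ g ξ C) (fderiv ℂ g ξ B) *
          (-(2 * inner ℂ (g ξ) (fderiv ℂ g ξ A)) *
            ((inner ℂ (g ξ) (g ξ))⁻¹ * (inner ℂ (g ξ) (g ξ))⁻¹)) -
      (((2 * inner ℂ (g ξ) (fderiv ℂ (fun ξ => fderiv ℂ g ξ B) ξ A)) *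
            inner ℂ (fderiv ℂ g ξ C) (g ξ) +
          inner ℂ (g ξ) (fderiv ℂ g ξ B) * (2 * inner ℂ (fderiv ℂ g ξ C) (fderiv ℂ g ξ A))) *
          ((inner ℂ (g ξ) (g ξ))⁻¹ * (inner ℂ (g ξ) (g ξ))⁻¹) +
        inner ℂ (g ξ) (fderiv ℂ g ξ B) * inner ℂ (fderiv ℂ g ξ C) (g ξ) *
          ((-(2 * inner ℂ (g ξ) (fderiv ℂ g ξ A)) *
            ((inner ℂ (g ξ) (g ξ))⁻¹ * (inner ℂ (g ξ) (g ξ))⁻¹)) * (inner ℂ (g ξ) (g ξ))⁻¹ +
           (inner ℂ (g ξ) (g ξ))⁻¹ * (-(2 * inner ℂ (g ξ) (fderiv ℂ g ξ A)) *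
            ((inner ℂ (g ξ) (g ξ))⁻¹ * (inner ℂ (g ξ) (g ξ))⁻¹)))) := by
    intro A B C
    have iww : DifferentiableAt ℝ (fun ξ => (inner ℂ (g ξ) (g ξ) : ℂ)⁻¹ *
      (inner ℂ (g ξ) (g ξ) : ℂ)⁻¹) ξ := iw.mul iw
    have im : DifferentiableAt ℝ (fun ξ => (inner ℂ (g ξ) (fderiv ℂ g ξ B) : ℂ) *
      inner ℂ (fderiv ℂ g ξ C) (g ξ)) ξ := (i01 B).mul (i10 C)
    have im1 : DifferentiableAt ℝ (fun ξ => (inner ℂ (fderiv ℂ g ξ C) (fderiv ℂ g ξ B) : ℂ) *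
      (inner ℂ (g ξ) (g ξ) : ℂ)⁻¹) ξ := (i11 C B).mul iw
    have im2 : DifferentiableAt ℝ (fun ξ => ((inner ℂ (g ξ) (fderiv ℂ g ξ B) : ℂ) *
      inner ℂ (fderiv ℂ g ξ C) (g ξ)) * ((inner ℂ (g ξ) (g ξ) : ℂ)⁻¹ *
      (inner ℂ (g ξ) (g ξ) : ℂ)⁻¹)) ξ := im.mul iww
    unfold fsmG fsmF
    rw [fsm_dz_sub im1 im2, fsm_dz_mul (i11 C B) iw, fsm_dz_mul im iww,
      fsm_dz_mul (i01 B) (i10 C), fsm_dz_mul iw iw, fsm_dz_inv i00 hn,
      fsm_dz_inner hd0 hd0, fsm_dz_inner hd0 (hd1 B), fsm_dz_inner (hd1 C) hd0,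
      fsm_dz_inner (hd1 C) (hd1 B)]
  have hsym : fderiv ℂ (fun ξ => fderiv ℂ g ξ B) ξ A = fderiv ℂ (fun ξ => fderiv ℂ g ξ A) ξ B := by
    have h2 : ∀ A B : E, fderiv ℂ (fun p => fderiv ℂ g p A) ξ B =
        fderiv ℂ (fderiv ℂ g) ξ B A := by
      intro A B
      have h3 := hg.fderiv.differentiableAt.hasFDerivAt
      have h4 : HasFDerivAt (fun p => fderiv ℂ g p A)
          ((ContinuousLinearMap.apply ℂ (EuclideanSpace ℂ (Fin N)) A).comp
            (fderiv ℂ (fderiv ℂ g) ξ)) ξ :=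
        (ContinuousLinearMap.apply ℂ (EuclideanSpace ℂ (Fin N)) A).hasFDerivAt.comp ξ h3
      rw [h4.fderiv]
      rfl
    rw [h2, h2]
    have h5 : IsSymmSndFDerivAt ℂ g ξ := hg.contDiffAt.isSymmSndFDerivAt (n := 2) (by simp)
    exact h5 A B
  rw [key A B C, key B A C, hsym]
  ring

end smooth

/-- FSM: the Fubini-Study metric -/
theorem exists_kah (P : Prj G) : Nonempty (Kah G) := by
  have hlift : ∀ y, ∀ ξ ∈ (G.ch y).target, ∃ g : E → EuclideanSpace ℂ (Fin P.N),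
      FsmLift P y g ξ ∧ ∀ (u : E) (a : ℂ), fderiv ℂ g ξ u = a • g ξ → u = 0 := by
    intro y ξ hξ
    obtain ⟨g, h1, h2, h3⟩ := P.lift y ξ hξ
    exact ⟨g, ⟨h1, h2⟩, h3⟩
  refine ⟨{
    h := fsmH P
    smooth := ?_
    add_left := ?_
    smul_left := ?_
    herm := ?_
    pos := ?_
    compat := ?_
    kahler := ?_ }⟩
  · intro y ξ hξ A B
    obtain ⟨g, hg, -⟩ := hlift y ξ hξ
    exact (fsm_smooth hg.1 hg.2.self_of_nhds.1 A B).congr_of_eventuallyEq (fsm_loc P hξ hg A B)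
  · intro y ξ hξ A A' B
    obtain ⟨g, hg, -⟩ := hlift y ξ hξ
    rw [fsm_eq P hξ hg, fsm_eq P hξ hg, fsm_eq P hξ hg, fsmG, map_add, fsm_add]
    rfl
  · intro y ξ hξ a A B
    obtain ⟨g, hg, -⟩ := hlift y ξ hξ
    rw [fsm_eq P hξ hg, fsm_eq P hξ hg, fsmG, map_smul, fsm_smul]
    rfl
  · intro y ξ hξ A B
    obtain ⟨g, hg, -⟩ := hlift y ξ hξ
    rw [fsm_eq P hξ hg, fsm_eq P hξ hg]
    exact fsm_herm _ _ _
  · intro y ξ hξ A hA
    obtain ⟨g, hg, hinj⟩ := hlift y ξ hξ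
    rw [fsm_eq P hξ hg]
    exact fsm_pos hg.2.self_of_nhds.1 fun c hc => hA (hinj A c hc)
  · intro y y' x hx hx' A B
    have hξ := (G.ch y).map_source hx
    have hξ' := (G.ch y').map_source hx'
    obtain ⟨g, hg, -⟩ := hlift y' _ hξ'
    set θ : E → E := fun ξ => G.ch y' ((G.ch y).symm ξ) with hθ
    have hθa : AnalyticAt ℂ θ (G.ch y x) := G.trans y y' x hx hx'
    have hθx : θ (G.ch y x) = G.ch y' x := by
      rw [hθ]
      show G.ch y' ((G.ch y).symm (G.ch y x)) = G.ch y' x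
      rw [(G.ch y).left_inv hx]
    have hg1 : AnalyticAt ℂ g (θ (G.ch y x)) := by rw [hθx]; exact hg.1
    have hlg : FsmLift P y (fun ξ => g (θ ξ)) (G.ch y x) := by
      refine ⟨hg1.comp hθa, ?_⟩
      have h1 : ∀ᶠ ξ in 𝓝 (G.ch y x), g (θ ξ) ≠ 0 ∧
          P.line ((G.ch y').symm (θ ξ)) = Submodule.span ℂ {g (θ ξ)} := by
        have h3 : ∀ᶠ ξ' in 𝓝 (θ (G.ch y x)), g ξ' ≠ 0 ∧
            P.line ((G.ch y').symm ξ') = Submodule.span ℂ {g ξ'} := by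
          rw [hθx]
          exact hg.2
        exact hθa.continuousAt.eventually h3
      have h2 : ∀ᶠ ξ in 𝓝 (G.ch y x), (G.ch y).symm ξ ∈ (G.ch y').source := by
        refine ((G.ch y).continuousAt_symm hξ).eventually ?_
        rw [(G.ch y).left_inv hx]
        exact (G.ch y').open_source.mem_nhds hx'
      filter_upwards [h1, h2] with ξ h1 h2
      refine ⟨h1.1, ?_⟩
      rw [← h1.2, hθ]
      show P.line ((G.ch y).symm ξ) = P.line ((G.ch y').symm (G.ch y' ((G.ch y).symm ξ)))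
      rw [(G.ch y').left_inv h2]
    rw [fsm_eq P hξ hlg, fsm_eq P hξ' hg]
    have hd : HasFDerivAt (fun ξ => g (θ ξ))
        ((fderiv ℂ g (G.ch y' x)).comp (fderiv ℂ θ (G.ch y x))) (G.ch y x) := by
      have h3 : HasFDerivAt g (fderiv ℂ g (G.ch y' x)) (θ (G.ch y x)) := by
        rw [hθx]; exact hg.1.differentiableAt.hasFDerivAt
      exact h3.comp _ hθa.differentiableAt.hasFDerivAt
    unfold fsmG
    rw [hd.fderiv]
    show fsmF (g (θ (G.ch y x))) _ _ = _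
    rw [hθx]
    rfl
  · intro y ξ hξ A B C
    obtain ⟨g, hg, -⟩ := hlift y ξ hξ
    rw [fsm_dz_congr (fsm_loc P hξ hg B C), fsm_dz_congr (fsm_loc P hξ hg A C)]
    exact fsm_kahler hg.1 hg.2.self_of_nhds.1 A B C

end Pool.Agent.SS
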