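import Pool.Agent.Lib_helper64.SS.Base
import Pool.Agent.Lib_helper64.SS.Notions
import Pool.Agent.Lib_helper64.SS.B.DER
import Pool.Agent.Lib_helper64.SS.B.ODE
import Pool.Agent.Lib_helper64.SS.B.PKG

/-! GRM: the flat germ in one more variable -/
-- NEEDS: PKG ODE DER

set_option autoImplicit false
set_option linter.unusedSectionVars false

open Filter Topology Metric Set
open scoped Manifold ContDiff

namespace Pool.Agent.SS

variable {E X : Type} [NormedAddCommGroup E] [NormedSpace ℂ E] [FiniteDimensional ℂ E]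
  [TopologicalSpace X] {G : Geo E X}
  {V : Type} [NormedAddCommGroup V] [NormedSpace ℂ V] [FiniteDimensional ℂ V]

theorem grm_apply {P A B : Type} [NormedAddCommGroup P] [NormedSpace ℂ P]
    [NormedAddCommGroup A] [NormedSpace ℂ A] [NormedAddCommGroup B] [NormedSpace ℂ B]
    {f : P → A →L[ℂ] B} {g : P → A} {x : P} (hf : AnalyticAt ℂ f x) (hg : AnalyticAt ℂ g x) :
    AnalyticAt ℂ (fun p => f p (g p)) x := by
  have h := (ContinuousLinearMap.id ℂ (A →L[ℂ] B)).analyticAt_bilinear (f x, g x)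
  exact AnalyticAt.comp (g := fun q : (A →L[ℂ] B) × A => q.1 q.2) (f := fun p => (f p, g p)) h
    (hf.prod hg)

/-- the Lie derivative in the direction `om w` preserves the germs vanishing on `M` -/
theorem grm_lie (A : Sys G V) (P : Par A) (w : P.W) {F : V → X} (hF : F ∈ A.M) {y : X}
    (hy : F 0 ∈ (G.ch y).source) (om : E → P.W →L[ℂ] E) (hom : AnalyticAt ℂ om (G.ch y (F 0)))
    (home : ∀ᶠ F' in 𝓝[A.M] F, P.w y F' = om (G.ch y (F' 0)))
    {f : E → ℂ} (hf : A.Van y F f) :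
    A.Van y F (fun ξ => fderiv ℂ f ξ (om ξ w)) := by
  have hcont : Tendsto (fun F' : V → X => G.ch y (F' 0)) (𝓝[A.M] F) (𝓝 (G.ch y (F 0))) := by
    have h1 : ContinuousAt (fun F' : V → X => F' 0) F := (continuous_apply (0 : V)).continuousAt
    have h2 : ContinuousAt (G.ch y) (F 0) := (G.ch y).continuousAt hy
    have h3 : ContinuousAt (fun F' : V → X => G.ch y (F' 0)) F :=
      ContinuousAt.comp (f := fun F' : V → X => F' 0) h2 h1
    exact h3.tendsto.mono_left nhdsWithin_le_nhds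
  have hsrc : ∀ᶠ F' in 𝓝[A.M] F, F' 0 ∈ (G.ch y).source := by
    have h1 : ContinuousAt (fun F' : V → X => F' 0) F := (continuous_apply (0 : V)).continuousAt
    exact (h1.eventually ((G.ch y).open_source.mem_nhds hy)).filter_mono nhdsWithin_le_nhds
  refine ⟨grm_apply hf.1.fderiv (grm_apply hom analyticAt_const), ?_⟩
  have h1 : ∀ᶠ F' in 𝓝[A.M] F, AnalyticAt ℂ f (G.ch y (F' 0)) :=
    hcont.eventually hf.1.eventually_analyticAt
  have h2 : ∀ᶠ F' in 𝓝[A.M] F, ∀ᶠ F'' in 𝓝[A.M] F', f (G.ch y (F'' 0)) = 0 :=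
    eventually_eventually_nhdsWithin.mpr hf.2
  filter_upwards [h1, h2, home, hsrc, self_mem_nhdsWithin] with F' a1 a2 a3 a4 a5
  have h3 := P.w_mem F' a5 y a4 w f ⟨a1, a2⟩
  rw [a3] at h3
  exact h3

/-- germs vanishing on `M` vanish along the integral curve -/
theorem grm_curve (A : Sys G V) (P : Par A) (w : P.W) {F : V → X} (hF : F ∈ A.M) {y : X}
    (hy : F 0 ∈ (G.ch y).source) (om : E → P.W →L[ℂ] E) (hom : AnalyticAt ℂ om (G.ch y (F 0)))
    (home : ∀ᶠ F' in 𝓝[A.M] F, P.w y F' = om (G.ch y (F' 0)))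
    (γ : ℂ → E) (hγ0 : γ 0 = G.ch y (F 0)) (hγa : AnalyticAt ℂ γ 0)
    (hγ : ∀ᶠ s in 𝓝 (0 : ℂ), HasDerivAt γ (om (γ s) w) s)
    {f : E → ℂ} (hf : A.Van y F f) : ∀ᶠ s in 𝓝 (0 : ℂ), f (γ s) = 0 := by
  have key : ∀ n : ℕ, ∀ f : E → ℂ, A.Van y F f → iteratedDeriv n (fun s => f (γ s)) 0 = 0 := by
    intro n
    induction n with
    | zero =>
      intro f hf
      rw [iteratedDeriv_zero, hγ0]
      exact hf.2.self_of_nhdsWithin hF
    | succ n ih =>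
      intro f hf
      rw [iteratedDeriv_succ']
      have h1 : deriv (fun s => f (γ s)) =ᶠ[𝓝 0] fun s => fderiv ℂ f (γ s) (om (γ s) w) := by
        have h2 : ∀ᶠ s in 𝓝 (0 : ℂ), AnalyticAt ℂ f (γ s) := by
          have h3 : ContinuousAt γ 0 := hγa.continuousAt
          apply h3.eventually
          rw [hγ0]
          exact hf.1.eventually_analyticAt
        filter_upwards [h2, hγ] with s a1 a2
        exact (a1.differentiableAt.hasFDerivAt.comp_hasDerivAt s a2).deriv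
      rw [h1.iteratedDeriv_eq n]
      exact ih _ (grm_lie A P w hF hy om hom home hf)
  have han : AnalyticAt ℂ (fun s => f (γ s)) 0 := by
    have h1 : AnalyticAt ℂ f (γ 0) := by rw [hγ0]; exact hf.1
    exact h1.comp hγa
  have h2 := han.hasFPowerSeriesAt
  have h3 : (FormalMultilinearSeries.ofScalars ℂ
      (fun n ↦ iteratedDeriv n (fun s => f (γ s)) 0 / (n.factorial : ℂ))) = 0 := by
    have : (fun n : ℕ ↦ iteratedDeriv n (fun s => f (γ s)) 0 / (n.factorial : ℂ)) = 0 := by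
      funext n
      rw [key n f hf, zero_div]
      rfl
    rw [this]
    ext n
    simp [FormalMultilinearSeries.ofScalars]
  rw [h3] at h2
  exact h2.eventually_eq_zero

theorem exists_germ [CompactSpace X] [T2Space X] (A : Sys G V) (P : Par A) (w : P.W)
    (χ : V → ℂ) (β : V → V) (hχ : Differentiable ℂ χ) (hβ : Differentiable ℂ β)
    (hθ : ∀ t, P.θ t w = χ t • w + P.α (β t)) :
    ∃ H : V × ℂ → X, ∃ ε > 0, ∀ p ∈ ball (0 : V × ℂ) ε,
      G.FlAt (fun q : V × ℂ => P.cc (P.α q.1 + q.2 • w)) (fun p => shear χ β p.1) H p := by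
  obtain ⟨F, hF⟩ := A.ne
  set y : X := F 0 with hydef
  have hy : F 0 ∈ (G.ch y).source := G.mem y
  set ξ₀ : E := G.ch y (F 0) with hξ₀
  obtain ⟨om, hom, home⟩ := P.w_loc F hF y hy
  obtain ⟨δ, v, Ψ, hδ, -, hΨan, hΨe⟩ := pkg A.c A.c_inj (A.sub hF) hy
  have hΨe' : ∀ᶠ F' in 𝓝[A.M] F, F' 0 ∈ (G.ch y).source ∧
      ∀ t ∈ ball (0 : V) δ, F' t ∈ (G.ch y).source ∧ G.ch y (F' t) = Ψ (G.ch y (F' 0), t) := by
    filter_upwards [hΨe.filter_mono (nhdsWithin_mono F A.sub)] with F' a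
    exact ⟨a.1, a.2.2⟩
  have hcont : Tendsto (fun F' : V → X => G.ch y (F' 0)) (𝓝[A.M] F) (𝓝 ξ₀) := by
    have h1 : ContinuousAt (fun F' : V → X => F' 0) F := (continuous_apply (0 : V)).continuousAt
    have h2 : ContinuousAt (G.ch y) (F 0) := (G.ch y).continuousAt hy
    have h3 : ContinuousAt (fun F' : V → X => G.ch y (F' 0)) F :=
      ContinuousAt.comp (f := fun F' : V → X => F' 0) h2 h1
    exact h3.tendsto.mono_left nhdsWithin_le_nhds
  -- the radius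
  have hΨ0 : Ψ (ξ₀, 0) = ξ₀ := by
    have := (hΨe'.self_of_nhdsWithin hF).2 0 (mem_ball_self hδ)
    exact this.2.symm
  have hξt : ξ₀ ∈ (G.ch y).target := (G.ch y).map_source hy
  have hΨan0 : AnalyticAt ℂ Ψ (ξ₀, 0) := hΨan 0 (mem_ball_self hδ)
  have hev : ∀ᶠ p : E × V in 𝓝 (ξ₀, 0), AnalyticAt ℂ Ψ p ∧ Ψ p ∈ (G.ch y).target := by
    refine hΨan0.eventually_analyticAt.and ?_
    apply hΨan0.continuousAt.eventually
    rw [hΨ0]
    exact G.target_mem hξt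
  have hev2 : ∀ᶠ ξ in 𝓝 ξ₀, AnalyticAt ℂ om ξ := hom.eventually_analyticAt
  obtain ⟨ρ₁, hρ₁, hb₁⟩ := Metric.eventually_nhds_iff_ball.mp hev
  obtain ⟨ρ₂, hρ₂, hb₂⟩ := Metric.eventually_nhds_iff_ball.mp hev2
  set ρ := min δ (min ρ₁ ρ₂) with hρdef
  have hρ : 0 < ρ := lt_min hδ (lt_min hρ₁ hρ₂)
  have hρδ : ρ ≤ δ := min_le_left _ _
  have hρ1 : ρ ≤ ρ₁ := (min_le_right _ _).trans (min_le_left _ _)
  have hρ2 : ρ ≤ ρ₂ := (min_le_right _ _).trans (min_le_right _ _)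
  have hΨ1 : ∀ ξ ∈ ball ξ₀ ρ, ∀ t ∈ ball (0 : V) ρ,
      AnalyticAt ℂ Ψ (ξ, t) ∧ Ψ (ξ, t) ∈ (G.ch y).target := by
    intro ξ hξ t ht
    apply hb₁
    rw [← ball_prod_same]
    exact ⟨ball_subset_ball hρ1 hξ, ball_subset_ball hρ1 ht⟩
  have hom1 : ∀ ξ ∈ ball ξ₀ ρ, AnalyticAt ℂ om ξ := fun ξ hξ => hb₂ ξ (ball_subset_ball hρ2 hξ)
  -- the identity on `M`
  have hId : ∀ᶠ F' in 𝓝[A.M] F, ∀ t ∈ ball (0 : V) ρ, ∀ (τ : V) (ς : ℂ) (i : Fin G.L),
      G.S y i (Ψ (G.ch y (F' 0), t))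
        (fderiv ℂ Ψ (G.ch y (F' 0), t) (ς • om (G.ch y (F' 0)) w, τ)) =
      P.cc (P.α τ + ς • P.θ t w) i := by
    have e1 := eventually_eventually_nhdsWithin.mpr hΨe'
    filter_upwards [hΨe', e1, home, hcont.eventually (ball_mem_nhds ξ₀ hρ), self_mem_nhdsWithin]
      with F' a1 a2 a3 a4 a5
    intro t ht τ ς i
    have ht' : t ∈ ball (0 : V) δ := ball_subset_ball hρδ ht
    have hFt := a1.2 t ht'
    have hΨt := hΨ1 _ a4 t ht
    -- the transport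
    have hTrf : A.Trf y y F' t Ψ := by
      refine ⟨a1.1, hFt.1, hΨt.1, ?_⟩
      have h1 : ∀ᶠ t' in 𝓝 t, t' ∈ ball (0 : V) δ := isOpen_ball.mem_nhds ht'
      filter_upwards [a2.prod_mk h1] with p hp
      exact hp.1.2 p.2 hp.2
    have hZ : P.w y F' w ∈ A.Z y F' := P.w_mem F' a5 y a1.1 w
    have hD := d_eq A a5 hTrf hZ
    have hflow := P.w_flow F' a5 y y t a1.1 hFt.1 w
    have hpart1 : fderiv ℂ (fun ξ => Ψ (ξ, t)) (G.ch y (F' 0)) (P.w y F' w) =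
        fderiv ℂ Ψ (G.ch y (F' 0), t) (P.w y F' w, 0) := by
      have h1 : HasFDerivAt (fun ξ : E => (ξ, t)) (ContinuousLinearMap.inl ℂ E V)
          (G.ch y (F' 0)) := hasFDerivAt_prodMk_left _ _
      have h2 := hΨt.1.differentiableAt.hasFDerivAt.comp (G.ch y (F' 0)) h1
      have h3 : fderiv ℂ (fun ξ => Ψ (ξ, t)) (G.ch y (F' 0)) = _ := h2.fderiv
      rw [h3]
      simp
    have hloc : G.loc y F' =ᶠ[𝓝 t] fun t' => Ψ (G.ch y (F' 0), t') := by
      filter_upwards [isOpen_ball.mem_nhds ht'] with t' ht''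
      exact (a1.2 t' ht'').2
    have hpart2 : fderiv ℂ (G.loc y F') t τ = fderiv ℂ Ψ (G.ch y (F' 0), t) (0, τ) := by
      rw [hloc.fderiv_eq]
      have h1 : HasFDerivAt (fun t' : V => (G.ch y (F' 0), t')) (ContinuousLinearMap.inr ℂ E V)
          t := hasFDerivAt_prodMk_right _ _
      have h2 := hΨt.1.differentiableAt.hasFDerivAt.comp t h1
      have h3 : fderiv ℂ (fun t' => Ψ (G.ch y (F' 0), t')) t = _ := h2.fderiv
      rw [h3]
      simp
    have hT : tr t F' ∈ A.M := A.inv t F' a5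
    have hT0 : (tr t F') 0 ∈ (G.ch y).source := by
      show F' (0 + t) ∈ _
      rw [zero_add]; exact hFt.1
    have hvel := P.w_vel (tr t F') hT y hT0 τ
    rw [Geo.fderiv_loc_tr, zero_add] at hvel
    have hsum : fderiv ℂ Ψ (G.ch y (F' 0), t) (ς • om (G.ch y (F' 0)) w, τ) =
        P.w y (tr t F') (P.α τ + ς • P.θ t w) := by
      rw [map_add, map_smul, ← hvel, ← hflow, hD, hpart1, hpart2, a3,
        ← map_smul (fderiv ℂ Ψ (G.ch y (F' 0), t)), ← map_add (fderiv ℂ Ψ (G.ch y (F' 0), t))]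
      simp
    rw [hsum]
    have hS := P.w_S (tr t F') hT y hT0 (P.α τ + ς • P.θ t w) i
    have hpt : G.ch y ((tr t F') 0) = Ψ (G.ch y (F' 0), t) := by
      show G.ch y (F' (0 + t)) = _
      rw [zero_add]; exact hFt.2
    rw [hpt] at hS
    exact hS
  -- the integral curve
  obtain ⟨Ψ', δ', hδ', hΨ'an, hΨ'0, hΨ'd⟩ := ode_flow (P := E) (V := ℂ)
    (fun p => ContinuousLinearMap.smulRight (1 : ℂ →L[ℂ] ℂ) (om p w)) ξ₀ (by
      have h1 : AnalyticAt ℂ (fun p => om p w) ξ₀ := grm_apply hom analyticAt_const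
      have h2 := (ContinuousLinearMap.smulRightL ℂ ℂ E (1 : ℂ →L[ℂ] ℂ)).analyticAt (om ξ₀ w)
      exact AnalyticAt.comp (g := ContinuousLinearMap.smulRightL ℂ ℂ E (1 : ℂ →L[ℂ] ℂ))
        (f := fun p => om p w) h2 h1)
  set γ : ℂ → E := fun s => Ψ' (ξ₀, s) with hγdef
  have hγ0 : γ 0 = ξ₀ := hΨ'0 ξ₀ (mem_ball_self hδ')
  have hγd : ∀ s : ℂ, ‖s‖ < δ' → HasDerivAt γ (om (γ s) w) s := by
    intro s hs
    have h1 := hΨ'd ξ₀ (mem_ball_self hδ') 1 s (by simpa using hs)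
    simpa [hγdef] using h1
  have hγa : ∀ s ∈ ball (0 : ℂ) δ', AnalyticAt ℂ γ s := by
    intro s hs
    have h1 := hΨ'an ξ₀ (mem_ball_self hδ') s hs
    have h2 : AnalyticAt ℂ (fun s : ℂ => ((ξ₀ : E), s)) s := analyticAt_const.prod analyticAt_id
    exact h1.comp h2
  have hγa0 : AnalyticAt ℂ γ 0 := hγa 0 (mem_ball_self hδ')
  have hγev : ∀ᶠ s in 𝓝 (0 : ℂ), γ s ∈ ball ξ₀ ρ := by
    apply hγa0.continuousAt.eventually
    rw [hγ0]
    exact ball_mem_nhds ξ₀ hρ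
  obtain ⟨r₁, hr₁, hbr⟩ := Metric.eventually_nhds_iff_ball.mp hγev
  set r := min r₁ δ' with hrdef
  have hr : 0 < r := lt_min hr₁ hδ'
  have hγball : ∀ s ∈ ball (0 : ℂ) r, γ s ∈ ball ξ₀ ρ := fun s hs =>
    hbr s (ball_subset_ball (min_le_left _ _) hs)
  have hγan : ∀ s ∈ ball (0 : ℂ) r, AnalyticAt ℂ γ s := fun s hs =>
    hγa s (ball_subset_ball (min_le_right _ _) hs)
  have hγder : ∀ s ∈ ball (0 : ℂ) r, HasDerivAt γ (om (γ s) w) s := fun s hs =>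
    hγd s (by simpa using (ball_subset_ball (min_le_right _ _) hs))
  -- analyticity of the left hand side
  have hLan : ∀ t ∈ ball (0 : V) ρ, ∀ (τ : V) (ς : ℂ) (i : Fin G.L), ∀ ξ ∈ ball ξ₀ ρ,
      AnalyticAt ℂ (fun ξ => G.S y i (Ψ (ξ, t)) (fderiv ℂ Ψ (ξ, t) (ς • om ξ w, τ)) -
        P.cc (P.α τ + ς • P.θ t w) i) ξ := by
    intro t ht τ ς i ξ hξ
    have h0 := hΨ1 ξ hξ t ht
    have h1 : AnalyticAt ℂ (fun ξ : E => (ξ, t)) ξ := analyticAt_id.prod analyticAt_const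
    have h2 : AnalyticAt ℂ (fun ξ : E => Ψ (ξ, t)) ξ :=
      AnalyticAt.comp (g := Ψ) (f := fun ξ : E => (ξ, t)) (x := ξ) h0.1 h1
    have h3 : AnalyticAt ℂ (fun ξ : E => fderiv ℂ Ψ (ξ, t)) ξ :=
      AnalyticAt.comp (g := fderiv ℂ Ψ) (f := fun ξ : E => (ξ, t)) (x := ξ) h0.1.fderiv h1
    have h4 : AnalyticAt ℂ (fun ξ : E => (ς • om ξ w, τ)) ξ := by
      refine AnalyticAt.prod ?_ analyticAt_const
      exact analyticAt_const.smul (grm_apply (hom1 ξ hξ) analyticAt_const)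
    have h5 := grm_apply h3 h4
    have h6 := h2.prod h5
    have h7 := G.hol y i (Ψ (ξ, t)) h0.2 (fderiv ℂ Ψ (ξ, t) (ς • om ξ w, τ))
    have h8 := AnalyticAt.comp (g := fun p : E × E => G.S y i p.1 p.2)
      (f := fun ξ : E => (Ψ (ξ, t), fderiv ℂ Ψ (ξ, t) (ς • om ξ w, τ))) h7 h6
    exact h8.sub analyticAt_const
  -- the identity along the curve
  have hCur : ∀ t ∈ ball (0 : V) ρ, ∀ (τ : V) (ς : ℂ) (i : Fin G.L), ∀ s ∈ ball (0 : ℂ) r,
      G.S y i (Ψ (γ s, t)) (fderiv ℂ Ψ (γ s, t) (ς • om (γ s) w, τ)) =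
        P.cc (P.α τ + ς • P.θ t w) i := by
    intro t ht τ ς i
    have hVan : A.Van y F (fun ξ => G.S y i (Ψ (ξ, t)) (fderiv ℂ Ψ (ξ, t) (ς • om ξ w, τ)) -
        P.cc (P.α τ + ς • P.θ t w) i) := by
      refine ⟨hLan t ht τ ς i ξ₀ (mem_ball_self hρ), ?_⟩
      filter_upwards [hId] with F' hF'
      rw [hF' t ht τ ς i, sub_self]
    have h1 := grm_curve A P w hF hy om hom home γ hγ0 hγa0
      (by filter_upwards [ball_mem_nhds (0 : ℂ) hr] with s hs; exact hγder s hs) hVan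
    have h2 : AnalyticOnNhd ℂ (fun s : ℂ => G.S y i (Ψ (γ s, t))
        (fderiv ℂ Ψ (γ s, t) (ς • om (γ s) w, τ)) - P.cc (P.α τ + ς • P.θ t w) i)
        (ball (0 : ℂ) r) := by
      intro s hs
      exact AnalyticAt.comp (g := fun ξ => G.S y i (Ψ (ξ, t))
        (fderiv ℂ Ψ (ξ, t) (ς • om ξ w, τ)) - P.cc (P.α τ + ς • P.θ t w) i) (f := γ)
        (hLan t ht τ ς i (γ s) (hγball s hs)) (hγan s hs)
    have h3 := h2.eqOn_zero_of_preconnected_of_eventuallyEq_zero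
      (convex_ball (0 : ℂ) r).isPreconnected (mem_ball_self hr) h1
    intro s hs
    exact sub_eq_zero.mp (h3 hs)
  -- the map
  refine ⟨fun p => (G.ch y).symm (Ψ (γ p.2, p.1)), min ρ r, lt_min hρ hr, ?_⟩
  rintro ⟨t, s⟩ hp
  have hp1 : ((t, s) : V × ℂ) ∈ ball ((0 : V), (0 : ℂ)) (min ρ r) := hp
  rw [← ball_prod_same] at hp1
  have ht : t ∈ ball (0 : V) ρ := ball_subset_ball (min_le_left _ _) hp1.1
  have hs : s ∈ ball (0 : ℂ) r := ball_subset_ball (min_le_right _ _) hp1.2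
  have h0 := hΨ1 (γ s) (hγball s hs) t ht
  have hin : AnalyticAt ℂ (fun p : V × ℂ => (γ p.2, p.1)) (t, s) := by
    refine AnalyticAt.prod ?_ analyticAt_fst
    exact AnalyticAt.comp (g := γ) (f := fun p : V × ℂ => p.2) (x := (t, s)) (hγan s hs)
      analyticAt_snd
  have hΦ : AnalyticAt ℂ (fun p : V × ℂ => Ψ (γ p.2, p.1)) (t, s) :=
    AnalyticAt.comp (g := Ψ) (f := fun p : V × ℂ => (γ p.2, p.1)) (x := (t, s)) h0.1 hin
  have hΦt : ∀ᶠ p : V × ℂ in 𝓝 (t, s), Ψ (γ p.2, p.1) ∈ (G.ch y).target :=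
    hΦ.continuousAt.eventually ((G.ch y).open_target.mem_nhds h0.2)
  have hloc : (G.loc y fun p : V × ℂ => (G.ch y).symm (Ψ (γ p.2, p.1))) =ᶠ[𝓝 (t, s)]
      fun p : V × ℂ => Ψ (γ p.2, p.1) := by
    filter_upwards [hΦt] with p hp'
    exact (G.ch y).right_inv hp'
  have hder : fderiv ℂ (G.loc y fun p : V × ℂ => (G.ch y).symm (Ψ (γ p.2, p.1))) (t, s) =
      (fderiv ℂ Ψ (γ s, t)).comp
        ((((1 : ℂ →L[ℂ] ℂ).smulRight (om (γ s) w)).comp (ContinuousLinearMap.snd ℂ V ℂ)).prod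
          (ContinuousLinearMap.fst ℂ V ℂ)) := by
    rw [hloc.fderiv_eq]
    have h1 : HasFDerivAt γ ((1 : ℂ →L[ℂ] ℂ).smulRight (om (γ s) w)) s := (hγder s hs).hasFDerivAt
    have h2 : HasFDerivAt (fun p : V × ℂ => γ p.2)
        (((1 : ℂ →L[ℂ] ℂ).smulRight (om (γ s) w)).comp (ContinuousLinearMap.snd ℂ V ℂ)) (t, s) :=
      HasFDerivAt.comp (g := γ) (f := fun p : V × ℂ => p.2) (t, s) h1 hasFDerivAt_snd
    have h3 := h2.prodMk (hasFDerivAt_fst (𝕜 := ℂ) (p := (t, s)))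
    have h4 : HasFDerivAt Ψ (fderiv ℂ Ψ (γ s, t)) ((fun p : V × ℂ => (γ p.2, p.1)) (t, s)) :=
      h0.1.differentiableAt.hasFDerivAt
    exact (h4.comp (t, s) h3).fderiv
  refine Geo.flAt_of_chart (y := y) ?_ ?_ ?_ ?_
  · have h1 : ContinuousAt (G.ch y).symm (Ψ (γ s, t)) := (G.ch y).continuousAt_symm h0.2
    exact ContinuousAt.comp (f := fun p : V × ℂ => Ψ (γ p.2, p.1)) (x := (t, s)) h1
      hΦ.continuousAt
  · exact (G.ch y).map_target h0.2
  · exact hΦ.congr hloc.symm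
  · rintro i ⟨τ, ς⟩
    rw [hder]
    have h1 := hCur t ht τ ς i s hs
    have h2 : G.ch y ((G.ch y).symm (Ψ (γ s, t))) = Ψ (γ s, t) := (G.ch y).right_inv h0.2
    show G.S y i (G.ch y ((G.ch y).symm (Ψ (γ s, t)))) _ = _
    rw [h2]
    have h3 : ((fderiv ℂ Ψ (γ s, t)).comp
        ((((1 : ℂ →L[ℂ] ℂ).smulRight (om (γ s) w)).comp (ContinuousLinearMap.snd ℂ V ℂ)).prod
          (ContinuousLinearMap.fst ℂ V ℂ))) (τ, ς) =
        fderiv ℂ Ψ (γ s, t) (ς • om (γ s) w, τ) := by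
      simp
    rw [h3, h1, hθ t]
    have h4 : P.α τ + ς • (χ t • w + P.α (β t)) =
        P.α (shear χ β t (τ, ς)).1 + (shear χ β t (τ, ς)).2 • w := by
      have h5 : shear χ β t (τ, ς) = (τ + ς • β t, χ t * ς) := by
        simp [shear]
      rw [h5]
      simp only [map_add, map_smul, smul_add, smul_smul]
      rw [mul_comm (χ t) ς]
      abel
    rw [h4]

end Pool.Agent.SS
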