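import Pool.Agent.Lib_helper64.SS.Base
import Pool.Agent.Lib_helper64.SS.Notions

set_option autoImplicit false
set_option linter.unusedSectionVars false

open Filter Topology Metric Set
open scoped Manifold ContDiff

namespace Pool.Agent.SS

variable {E X : Type} [NormedAddCommGroup E] [NormedSpace ℂ E] [FiniteDimensional ℂ E]
  [TopologicalSpace X] {G : Geo E X}
  {V : Type} [NormedAddCommGroup V] [NormedSpace ℂ V] [FiniteDimensional ℂ V]

-- NEEDS: (nothing)

section manifold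

variable [ChartedSpace E X] [IsManifold 𝓘(ℂ, E) ω X]

/-- IN3: strongly semiample implies immersive -/
theorem immersive_of_stronglySemiample (h : StronglySemiample E X) : Immersive E X := by
  obtain ⟨m, hm, h⟩ := h
  intro x w hw u hu
  by_contra hu0
  obtain ⟨ℓ, hlw, hlu⟩ : ∃ ℓ : E →L[ℂ] ℂ, ℓ w ≠ 0 ∧ ℓ u ≠ 0 := by
    obtain ⟨a, ha⟩ := SeparatingDual.exists_ne_zero (R := ℂ) hw
    obtain ⟨b, hb⟩ := SeparatingDual.exists_ne_zero (R := ℂ) hu0
    by_cases h1 : a u = 0
    · by_cases h2 : b w = 0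
      · exact ⟨a + b, by simpa [h2] using ha, by simpa [h1] using hb⟩
      · exact ⟨b, h2, hb⟩
    · exact ⟨a, ha, h1⟩
  have hp : IsSymForm m (fun w : E => ℓ w ^ m) := by
    refine ⟨(ContinuousMultilinearMap.mkPiAlgebraFin ℂ m ℂ).compContinuousLinearMap
      (fun _ => ℓ), fun w => ?_⟩
    simp
  obtain ⟨σ, hσ, hσx⟩ := h x _ hp
  have h1 := hu m σ hσ
  have h2 : (fun w : E => σ ⟨x, w⟩) = fun w : E => ℓ w ^ m := funext hσx
  rw [h2] at h1
  have h3 : HasFDerivAt (fun w : E => ℓ w ^ m) ((m • ℓ w ^ (m - 1)) • ℓ) w :=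
    (ℓ.hasFDerivAt).pow m
  rw [h3.fderiv] at h1
  have h4 : (m : ℂ) * ℓ w ^ (m - 1) * ℓ u = 0 := by
    simpa [nsmul_eq_mul] using h1
  rcases mul_eq_zero.1 h4 with h5 | h5
  · rcases mul_eq_zero.1 h5 with h6 | h6
    · have : m = 0 := by exact_mod_cast h6
      omega
    · exact pow_ne_zero _ hlw h6
  · exact hlu h5

end manifold

end Pool.Agent.SS
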