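import Pool.Agent.Lib_helper64.SS.Base
import Pool.Agent.Lib_helper64.SS.Notions

/-! Block KCM for MP_45e720_ag. -/
-- NEEDS:

set_option autoImplicit false
set_option linter.unusedSectionVars false

open Filter Topology Metric Set
open scoped Manifold ContDiff

namespace Pool.Agent.SS

section hom

variable {P A : Type} [TopologicalSpace P] [NormedAddCommGroup A] [NormedSpace ℝ A]
  [ProperSpace A] {L : ℕ} (deg : Fin L → ℕ) (hdeg : ∀ i, 0 < deg i)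
  (f : P → A → Fin L → ℂ) (p₀ : P) (hf : ∀ a, ContinuousAt (fun q : P × A => f q.1 q.2) (p₀, a))
  (hom : ∀ᶠ p in 𝓝 p₀, ∀ (r : ℝ) a i, f p (r • a) i = (r : ℂ) ^ deg i * f p a i)

include hf in
theorem kcm_cont : Continuous (f p₀) := by
  rw [continuous_iff_continuousAt]
  intro a
  have h1 : ContinuousAt (fun a : A => (p₀, a)) a :=
    (continuous_const.prodMk continuous_id).continuousAt
  exact ContinuousAt.comp (f := fun a : A => (p₀, a)) (hf a) h1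

theorem kcm_scale {p : P}
    (hp : ∀ (r : ℝ) a i, f p (r • a) i = (r : ℂ) ^ deg i * f p a i) {a : A} (ha : a ≠ 0)
    (i : Fin L) : ‖a‖⁻¹ • a ∈ sphere (0 : A) 1 ∧
      ‖f p a i‖ = ‖a‖ ^ deg i * ‖f p (‖a‖⁻¹ • a) i‖ := by
  have hn : ‖a‖ ≠ 0 := norm_ne_zero_iff.2 ha
  constructor
  · rw [mem_sphere_zero_iff_norm, norm_smul, norm_inv, norm_norm, inv_mul_cancel₀ hn]
  · have h := hp ‖a‖ (‖a‖⁻¹ • a) i
    rw [smul_smul, mul_inv_cancel₀ hn, one_smul] at h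
    rw [h, norm_mul, norm_pow, Complex.norm_real, norm_norm]

include hdeg hf hom in
theorem kcm_upper : ∃ C > 0, ∀ᶠ p in 𝓝 p₀, ∀ a i, ‖f p a i‖ ≤ (C * ‖a‖) ^ deg i := by
  obtain ⟨B, hB⟩ := (isCompact_sphere (0 : A) 1).exists_bound_of_continuousOn
    (kcm_cont f p₀ hf).continuousOn
  have h1 : ∀ᶠ p in 𝓝 p₀, ∀ a ∈ sphere (0 : A) 1, ‖f p a‖ < |B| + 1 := by
    refine (isCompact_sphere (0 : A) 1).eventually_forall_of_forall_eventually fun a ha => ?_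
    have h2 : ‖f p₀ a‖ < |B| + 1 := (hB a ha).trans_lt (by have := le_abs_self B; linarith)
    exact (hf a).norm.eventually_lt continuousAt_const h2
  refine ⟨|B| + 1, by positivity, ?_⟩
  filter_upwards [h1, hom] with p hp hp' a i
  have hd := (hdeg i).ne'
  by_cases ha : a = 0
  · have := hp' 0 0 i
    rw [zero_smul, Complex.ofReal_zero, zero_pow hd, zero_mul] at this
    rw [ha, this, norm_zero]
    positivity
  obtain ⟨h2, h3⟩ := kcm_scale deg f hp' ha i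
  have h4 : ‖f p (‖a‖⁻¹ • a) i‖ ≤ |B| + 1 := (norm_le_pi_norm _ i).trans (hp _ h2).le
  rw [h3, mul_pow, mul_comm]
  refine mul_le_mul_of_nonneg_right (h4.trans ?_) (by positivity)
  exact le_self_pow₀ (by have := abs_nonneg B; linarith) hd

include hdeg hf hom in
theorem kcm_lower (hne : ∀ a, f p₀ a = 0 → a = 0) :
    ∃ C > 0, ∀ᶠ p in 𝓝 p₀, ∀ a (M : ℝ), 0 ≤ M → (∀ i, ‖f p a i‖ ≤ M ^ deg i) →
      ‖a‖ ≤ C * M := by
  obtain ⟨ε, hε, h1⟩ : ∃ ε > 0, ∀ᶠ p in 𝓝 p₀, ∀ a ∈ sphere (0 : A) 1, ε < ‖f p a‖ := by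
    rcases (sphere (0 : A) 1).eq_empty_or_nonempty with hS | hS
    · exact ⟨1, one_pos, Eventually.of_forall fun p a ha => by rw [hS] at ha; exact ha.elim⟩
    obtain ⟨a₁, ha₁, hmin⟩ := (isCompact_sphere (0 : A) 1).exists_isMinOn hS
      (kcm_cont f p₀ hf).norm.continuousOn
    have hm : 0 < ‖f p₀ a₁‖ := by
      rw [norm_pos_iff]
      intro h
      rw [hne a₁ h] at ha₁
      simp at ha₁
    refine ⟨‖f p₀ a₁‖ / 2, by positivity, ?_⟩
    refine (isCompact_sphere (0 : A) 1).eventually_forall_of_forall_eventually fun a ha => ?_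
    have h2 : ‖f p₀ a₁‖ / 2 < ‖f p₀ a‖ := by
      have : ‖f p₀ a₁‖ ≤ ‖f p₀ a‖ := hmin ha
      linarith
    exact continuousAt_const.eventually_lt (hf a).norm h2
  set η := min ε 1 with hη
  have hη0 : 0 < η := lt_min hε one_pos
  have hη1 : η ≤ 1 := min_le_right _ _
  refine ⟨η⁻¹, by positivity, ?_⟩
  filter_upwards [h1, hom] with p hp hp' a M hM hi
  by_cases ha : a = 0
  · rw [ha, norm_zero]; positivity
  by_contra hcon
  push Not at hcon
  have h2 : ∀ i, ‖f p (‖a‖⁻¹ • a) i‖ ≤ η := by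
    intro i
    obtain ⟨h2, h3⟩ := kcm_scale deg f hp' ha i
    have h4 := hi i
    rw [h3] at h4
    have h5 : M < η * ‖a‖ := by
      rwa [inv_mul_lt_iff₀ hη0] at hcon
    have h6 : M ^ deg i ≤ (η * ‖a‖) ^ deg i := pow_le_pow_left₀ hM h5.le _
    have h7 : (η * ‖a‖) ^ deg i ≤ η * ‖a‖ ^ deg i := by
      rw [mul_pow]
      exact mul_le_mul_of_nonneg_right (pow_le_of_le_one hη0.le hη1 (hdeg i).ne')
        (by positivity)
    have h8 : ‖a‖ ^ deg i * ‖f p (‖a‖⁻¹ • a) i‖ ≤ ‖a‖ ^ deg i * η := by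
      calc _ ≤ _ := h4
        _ ≤ _ := h6
        _ ≤ _ := h7
        _ = _ := mul_comm _ _
    exact le_of_mul_le_mul_left h8 (by have := norm_pos_iff.2 ha; positivity)
  have hn : ‖a‖ ≠ 0 := norm_ne_zero_iff.2 ha
  have h3 : ‖a‖⁻¹ • a ∈ sphere (0 : A) 1 := by
    rw [mem_sphere_zero_iff_norm, norm_smul, norm_inv, norm_norm, inv_mul_cancel₀ hn]
  have h4 := hp _ h3
  have h5 : ‖f p (‖a‖⁻¹ • a)‖ ≤ η := (pi_norm_le_iff_of_nonneg hη0.le).2 h2
  have h6 : η ≤ ε := min_le_left _ _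
  linarith

end hom

variable {E X : Type} [NormedAddCommGroup E] [NormedSpace ℂ E] [FiniteDimensional ℂ E]
  [TopologicalSpace X] {G : Geo E X}

section tri

/-- the coordinates in a basis of `E` -/
noncomputable def kcmC (E : Type) [NormedAddCommGroup E] [NormedSpace ℂ E]
    [FiniteDimensional ℂ E] (j : Fin (Module.finrank ℂ E)) : E →L[ℂ] ℂ :=
  LinearMap.toContinuousLinearMap ((Module.finBasis ℂ E).coord j)

theorem kcm_sum (A : E) : A = ∑ j, kcmC E j A • Module.finBasis ℂ E j :=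
  ((Module.finBasis ℂ E).sum_repr A).symm

variable (K : Kah G) {y : X}

theorem kcm_expand {ξ : E} (hξ : ξ ∈ (G.ch y).target) (A B : E) :
    K.h y ξ A B = ∑ j, ∑ k, (kcmC E j A * star (kcmC E k B)) *
      K.h y ξ (Module.finBasis ℂ E j) (Module.finBasis ℂ E k) := by
  have h1 : ∀ A B, K.h y ξ A B = ∑ j, kcmC E j A * K.h y ξ (Module.finBasis ℂ E j) B := by
    intro A B
    let L : E →ₗ[ℂ] ℂ :=
      { toFun := fun A => K.h y ξ A B
        map_add' := fun A A' => K.add_left y ξ hξ A A' B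
        map_smul' := fun a A => K.smul_left y ξ hξ a A B }
    have h2 : L A = ∑ j, kcmC E j A * L (Module.finBasis ℂ E j) := by
      conv_lhs => rw [kcm_sum A]
      simp only [map_sum, map_smul, smul_eq_mul]
    exact h2
  have h3 : ∀ A B, K.h y ξ A B = ∑ k, star (kcmC E k B) * K.h y ξ A (Module.finBasis ℂ E k) := by
    intro A B
    rw [K.herm y ξ hξ B A, h1 B A, star_sum]
    refine Finset.sum_congr rfl fun k _ => ?_
    rw [star_mul, ← K.herm y ξ hξ (Module.finBasis ℂ E k) A, mul_comm]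
  rw [h1 A B]
  refine Finset.sum_congr rfl fun j _ => ?_
  rw [h3 _ B, Finset.mul_sum]
  refine Finset.sum_congr rfl fun k _ => ?_
  ring

variable {P : Type} [NormedAddCommGroup P] [NormedSpace ℂ P]

theorem kcm_contDiffAt {φ β γ : P → E} {p₀ : P} (hφ : ContDiffAt ℝ 1 φ p₀)
    (hβ : ContDiffAt ℝ 1 β p₀) (hγ : ContDiffAt ℝ 1 γ p₀) (hξ : φ p₀ ∈ (G.ch y).target) :
    ContDiffAt ℝ 1 (fun p => K.h y (φ p) (β p) (γ p)) p₀ := by
  have he : (fun p => K.h y (φ p) (β p) (γ p)) =ᶠ[𝓝 p₀] fun p => ∑ j, ∑ k,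
      (kcmC E j (β p) * star (kcmC E k (γ p))) *
        K.h y (φ p) (Module.finBasis ℂ E j) (Module.finBasis ℂ E k) := by
    filter_upwards [hφ.continuousAt.eventually (G.target_mem hξ)] with p hp
    exact kcm_expand K hp _ _
  refine ContDiffAt.congr_of_eventuallyEq ?_ he
  refine ContDiffAt.sum fun j _ => ContDiffAt.sum fun k _ => ?_
  refine ContDiffAt.mul (ContDiffAt.mul ?_ ?_) ?_
  · exact ((kcmC E j).restrictScalars ℝ).contDiff.contDiffAt.comp p₀ hβ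
  · exact (Complex.conjCLE : ℂ →L[ℝ] ℂ).contDiff.contDiffAt.comp p₀
      (((kcmC E k).restrictScalars ℝ).contDiff.contDiffAt.comp p₀ hγ)
  · exact (K.smooth y (φ p₀) hξ _ _).comp p₀ hφ

end tri

/-- the local form of the comparison -/
theorem kcm_local (K : Kah G) {A : Type} [NormedAddCommGroup A]
    [NormedSpace ℂ A] [FiniteDimensional ℂ A] (cc : A → Fin G.L → ℂ) (hcont : Continuous cc)
    (hhom : ∀ (r : ℂ) a i, cc (r • a) i = r ^ G.deg i * cc a i)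
    (hne : ∀ a, cc a = 0 → a = 0) (x₀ : X) :
    ∃ C > 0, ∀ᶠ ξ in 𝓝 (G.ch x₀ x₀), ∀ (v : E) (a : A), (∀ i, G.S x₀ i ξ v = cc a i) →
      ‖a‖ ^ 2 ≤ C * (K.h x₀ ξ v v).re ∧ (K.h x₀ ξ v v).re ≤ C * ‖a‖ ^ 2 := by
  have hξ₀ := (G.ch x₀).map_source (G.mem x₀)
  have pE : ProperSpace E := FiniteDimensional.proper ℂ E
  have pA : ProperSpace A := FiniteDimensional.proper ℂ A
  -- the forms
  have fS : ∀ w, ContinuousAt (fun q : E × E => fun i => G.S x₀ i q.1 q.2) (G.ch x₀ x₀, w) :=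
    fun w => continuousAt_pi.2 fun i => (G.hol x₀ i _ hξ₀ w).continuousAt
  have hS : ∀ᶠ ξ in 𝓝 (G.ch x₀ x₀), ∀ (r : ℝ) (a : E) (i : Fin G.L),
      G.S x₀ i ξ (r • a) = (r : ℂ) ^ G.deg i * G.S x₀ i ξ a := by
    filter_upwards [G.target_mem hξ₀] with ξ hξ r a i
    rw [← Complex.coe_smul, G.homog x₀ i ξ hξ]
  obtain ⟨c₁, hc₁, h₁⟩ := kcm_upper G.deg G.deg_pos (fun ξ w i => G.S x₀ i ξ w) _ fS hS
  obtain ⟨c₂, hc₂, h₂⟩ := kcm_lower G.deg G.deg_pos (fun ξ w i => G.S x₀ i ξ w) _ fS hS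
    (fun a ha => G.S_eq_zero hξ₀ fun i => congrFun ha i)
  -- the symbol
  have fc : ∀ a, ContinuousAt (fun q : Unit × A => cc q.2) ((), a) := fun a =>
    (hcont.comp continuous_snd).continuousAt
  have hc : ∀ᶠ p in 𝓝 (), ∀ (r : ℝ) (a : A) (i : Fin G.L),
      (fun (_ : Unit) a => cc a) p (r • a) i =
        (r : ℂ) ^ G.deg i * (fun (_ : Unit) a => cc a) p a i :=
    Eventually.of_forall fun _ r a i => by
      show cc (r • a) i = (r : ℂ) ^ G.deg i * cc a i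
      rw [← Complex.coe_smul, hhom]
  obtain ⟨c₃, hc₃, h₃⟩ := kcm_upper G.deg G.deg_pos (fun (_ : Unit) a => cc a) () fc hc
  obtain ⟨c₄, hc₄, h₄⟩ := kcm_lower G.deg G.deg_pos (fun (_ : Unit) a => cc a) () fc hc hne
  have h₃' := h₃.self_of_nhds
  have h₄' := h₄.self_of_nhds
  -- the metric
  have fh : ∀ v, ContinuousAt (fun q : E × E => fun _ : Fin 1 => K.h x₀ q.1 q.2 q.2)
      (G.ch x₀ x₀, v) := fun v => continuousAt_pi.2 fun _ =>
    (kcm_contDiffAt K (P := E × E) (φ := Prod.fst) (β := Prod.snd) (γ := Prod.snd)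
      contDiffAt_fst contDiffAt_snd contDiffAt_snd hξ₀).continuousAt
  have hh : ∀ᶠ ξ in 𝓝 (G.ch x₀ x₀), ∀ (r : ℝ) (a : E) (i : Fin 1),
      (fun ξ v (_ : Fin 1) => K.h x₀ ξ v v) ξ (r • a) i =
        (r : ℂ) ^ (fun _ : Fin 1 => 2) i * (fun ξ v (_ : Fin 1) => K.h x₀ ξ v v) ξ a i := by
    filter_upwards [G.target_mem hξ₀] with ξ hξ r a i
    show K.h x₀ ξ (r • a) (r • a) = (r : ℂ) ^ 2 * K.h x₀ ξ a a
    rw [← Complex.coe_smul, K.smul_left x₀ ξ hξ, K.herm x₀ ξ hξ _ a, K.smul_left x₀ ξ hξ,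
      star_mul, ← K.herm x₀ ξ hξ a a]
    have : star (r : ℂ) = r := Complex.conj_ofReal r
    rw [this]
    ring
  obtain ⟨c₅, hc₅, h₅⟩ := kcm_upper (fun _ : Fin 1 => 2) (fun _ => two_pos)
    (fun ξ v (_ : Fin 1) => K.h x₀ ξ v v) _ fh hh
  obtain ⟨c₆, hc₆, h₆⟩ := kcm_lower (fun _ : Fin 1 => 2) (fun _ => two_pos)
    (fun ξ v (_ : Fin 1) => K.h x₀ ξ v v) _ fh hh (fun a ha => by
      by_contra h0
      have := K.pos x₀ _ hξ₀ a h0
      have h := congrFun ha 0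
      simp only [Pi.zero_apply] at h
      rw [h] at this
      simp at this)
  refine ⟨(c₄ * c₁ * c₆) ^ 2 + (c₅ * (c₂ * c₃)) ^ 2, by positivity, ?_⟩
  filter_upwards [h₁, h₂, h₅, h₆, G.target_mem hξ₀] with ξ h₁ h₂ h₅ h₆ hξ v a hva
  have hre0 : 0 ≤ (K.h x₀ ξ v v).re := by
    by_cases h : v = 0
    · have := K.smul_left x₀ ξ hξ 0 0 0
      rw [zero_smul, zero_mul] at this
      rw [h, this]; simp
    · exact (K.pos x₀ ξ hξ v h).le
  have him : (K.h x₀ ξ v v).im = 0 := by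
    have h2 := congrArg Complex.im (K.herm x₀ ξ hξ v v)
    have h3 : (star (K.h x₀ ξ v v)).im = -(K.h x₀ ξ v v).im := Complex.conj_im _
    rw [h3] at h2
    linarith
  have hnorm : ‖K.h x₀ ξ v v‖ = (K.h x₀ ξ v v).re := by
    have : K.h x₀ ξ v v = (((K.h x₀ ξ v v).re : ℝ) : ℂ) := Complex.ext (by simp) (by simp [him])
    rw [this, Complex.norm_real, Complex.ofReal_re, Real.norm_eq_abs, abs_of_nonneg hre0]
  set t := Real.sqrt (K.h x₀ ξ v v).re with ht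
  have ht2 : t ^ 2 = (K.h x₀ ξ v v).re := Real.sq_sqrt hre0
  have hv : ‖v‖ ≤ c₆ * t := h₆ v t (Real.sqrt_nonneg _) fun _ => by rw [hnorm, ht2]
  have hav : ‖a‖ ≤ c₄ * (c₁ * ‖v‖) := h₄' a (c₁ * ‖v‖) (by positivity) fun i => by
    rw [← hva i]; exact h₁ v i
  have hva' : ‖v‖ ≤ c₂ * (c₃ * ‖a‖) := h₂ v (c₃ * ‖a‖) (by positivity) fun i => by
    rw [hva i]; exact h₃' a i
  have hh5 : (K.h x₀ ξ v v).re ≤ (c₅ * ‖v‖) ^ 2 := by
    have := h₅ v 0
    rwa [hnorm] at this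
  constructor
  · have h7 : ‖a‖ ≤ c₄ * c₁ * c₆ * t := by
      calc ‖a‖ ≤ c₄ * (c₁ * ‖v‖) := hav
        _ ≤ c₄ * (c₁ * (c₆ * t)) := by gcongr
        _ = _ := by ring
    calc ‖a‖ ^ 2 ≤ (c₄ * c₁ * c₆ * t) ^ 2 := pow_le_pow_left₀ (norm_nonneg _) h7 2
      _ = (c₄ * c₁ * c₆) ^ 2 * (K.h x₀ ξ v v).re := by rw [mul_pow, ht2]
      _ ≤ _ := by
        apply mul_le_mul_of_nonneg_right _ hre0
        have : 0 ≤ (c₅ * (c₂ * c₃)) ^ 2 := by positivity
        linarith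
  · calc (K.h x₀ ξ v v).re ≤ (c₅ * ‖v‖) ^ 2 := hh5
      _ ≤ (c₅ * (c₂ * (c₃ * ‖a‖))) ^ 2 := by gcongr
      _ = (c₅ * (c₂ * c₃)) ^ 2 * ‖a‖ ^ 2 := by ring
      _ ≤ _ := by
        apply mul_le_mul_of_nonneg_right _ (by positivity)
        have : 0 ≤ (c₄ * c₁ * c₆) ^ 2 := by positivity
        linarith

/-- KCM: comparison of the metric with the forms -/
theorem kah_compare [CompactSpace X] (K : Kah G) {A : Type} [NormedAddCommGroup A]
    [NormedSpace ℂ A] [FiniteDimensional ℂ A] (cc : A → Fin G.L → ℂ) (hcont : Continuous cc)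
    (hhom : ∀ (r : ℂ) a i, cc (r • a) i = r ^ G.deg i * cc a i)
    (hne : ∀ a, cc a = 0 → a = 0) :
    ∃ C > 0, ∀ x y, x ∈ (G.ch y).source → ∀ (v : E) (a : A),
      (∀ i, G.S y i (G.ch y x) v = cc a i) →
      ‖a‖ ^ 2 ≤ C * (K.h y (G.ch y x) v v).re ∧ (K.h y (G.ch y x) v v).re ≤ C * ‖a‖ ^ 2 := by
  have hre : ∀ x y, x ∈ (G.ch y).source → ∀ v, 0 ≤ (K.h y (G.ch y x) v v).re := by
    intro x y hx v
    have hξ := (G.ch y).map_source hx
    by_cases h : v = 0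
    · have := K.smul_left y _ hξ 0 0 0
      rw [zero_smul, zero_mul] at this
      rw [h, this]; simp
    · exact (K.pos y _ hξ v h).le
  have key : ∃ C > 0, ∀ x ∈ (univ : Set X), ∀ y, x ∈ (G.ch y).source → ∀ (v : E) (a : A),
      (∀ i, G.S y i (G.ch y x) v = cc a i) →
      ‖a‖ ^ 2 ≤ C * (K.h y (G.ch y x) v v).re ∧
        (K.h y (G.ch y x) v v).re ≤ C * ‖a‖ ^ 2 := by
    refine isCompact_univ.induction_on (p := fun s => ∃ C > 0, ∀ x ∈ s, ∀ y,
      x ∈ (G.ch y).source → ∀ (v : E) (a : A), (∀ i, G.S y i (G.ch y x) v = cc a i) →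
      ‖a‖ ^ 2 ≤ C * (K.h y (G.ch y x) v v).re ∧
        (K.h y (G.ch y x) v v).re ≤ C * ‖a‖ ^ 2) ?_ ?_ ?_ ?_
    · exact ⟨1, one_pos, fun x hx => hx.elim⟩
    · rintro s t hst ⟨C, hC, h⟩
      exact ⟨C, hC, fun x hx => h x (hst hx)⟩
    · rintro s t ⟨C, hC, h⟩ ⟨C', hC', h'⟩
      refine ⟨C + C', by positivity, fun x hx y hy v a hva => ?_⟩
      have hn := hre x y hy v
      rcases hx with hx | hx
      · obtain ⟨h1, h2⟩ := h x hx y hy v a hva
        constructor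
        · nlinarith [mul_nonneg hC'.le hn]
        · nlinarith [mul_nonneg hC'.le (sq_nonneg ‖a‖)]
      · obtain ⟨h1, h2⟩ := h' x hx y hy v a hva
        constructor
        · nlinarith [mul_nonneg hC.le hn]
        · nlinarith [mul_nonneg hC.le (sq_nonneg ‖a‖)]
    · intro x₀ _
      obtain ⟨C, hC, h⟩ := kcm_local K cc hcont hhom hne x₀
      have h1 : ∀ᶠ x in 𝓝 x₀, x ∈ (G.ch x₀).source ∧ ∀ (v : E) (a : A),
          (∀ i, G.S x₀ i (G.ch x₀ x) v = cc a i) →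
          ‖a‖ ^ 2 ≤ C * (K.h x₀ (G.ch x₀ x) v v).re ∧
            (K.h x₀ (G.ch x₀ x) v v).re ≤ C * ‖a‖ ^ 2 :=
        Filter.Eventually.and ((G.ch x₀).open_source.mem_nhds (G.mem x₀))
          (((G.ch x₀).continuousAt (G.mem x₀)).eventually h)
      refine ⟨_, mem_nhdsWithin_of_mem_nhds h1, C, hC, ?_⟩
      rintro x ⟨hx, hx'⟩ y hy v a hva
      rw [K.compat y x₀ x hy hx]
      refine hx' _ a fun i => ?_
      rw [← G.compat y x₀ x hy hx]
      exact hva i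
  obtain ⟨C, hC, h⟩ := key
  exact ⟨C, hC, fun x => h x (mem_univ x)⟩

end Pool.Agent.SS
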