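import Pool.Agent.Lib_helper64.SS.Base
import Pool.Agent.Lib_helper64.SS.Notions

/-! Block KPB for MP_45e720_ag. -/
-- NEEDS:

set_option autoImplicit false
set_option linter.unusedSectionVars false

open Filter Topology Metric Set
open scoped Manifold ContDiff

namespace Pool.Agent.SS

section dzcalc

variable {W : Type} [NormedAddCommGroup W] [NormedSpace ℂ W]
  {W' : Type} [NormedAddCommGroup W'] [NormedSpace ℂ W']

theorem kpb_dz_congr {f g : W → ℂ} {p : W} (h : f =ᶠ[𝓝 p] g) (A : W) : dz f p A = dz g p A := by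
  have e : fderiv ℝ f p = fderiv ℝ g p := h.fderiv_eq
  unfold dz
  rw [e]

theorem kpb_dz_mul {f g : W → ℂ} {p : W} (hf : DifferentiableAt ℝ f p)
    (hg : DifferentiableAt ℝ g p) (A : W) :
    dz (fun q => f q * g q) p A = dz f p A * g p + f p * dz g p A := by
  have h := hf.hasFDerivAt.mul hg.hasFDerivAt
  unfold dz
  have e : fderiv ℝ (fun q => f q * g q) p = f p • fderiv ℝ g p + g p • fderiv ℝ f p := h.fderiv
  rw [e]
  simp only [add_apply, smul_apply, smul_eq_mul]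
  ring

theorem kpb_dz_sum {ι : Type} (s : Finset ι) {f : ι → W → ℂ} {p : W}
    (hf : ∀ i ∈ s, DifferentiableAt ℝ (f i) p) (A : W) :
    dz (fun q => ∑ i ∈ s, f i q) p A = ∑ i ∈ s, dz (f i) p A := by
  have e : fderiv ℝ (fun q => ∑ i ∈ s, f i q) p = ∑ i ∈ s, fderiv ℝ (f i) p :=
    (HasFDerivAt.fun_sum fun i hi => (hf i hi).hasFDerivAt).fderiv
  unfold dz
  rw [e]
  simp only [sum_apply, Finset.sum_sub_distrib, Finset.mul_sum]

theorem kpb_dz_hol {f : W → ℂ} {f' : W →L[ℂ] ℂ} {p : W} (h : HasFDerivAt f f' p) (A : W) :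
    dz f p A = 2 * f' A := by
  have h1 : HasFDerivAt f (f'.restrictScalars ℝ) p := h.restrictScalars ℝ
  unfold dz
  rw [h1.fderiv]
  simp only [ContinuousLinearMap.coe_restrictScalars', map_smul, smul_eq_mul]
  linear_combination (-(f' A)) * Complex.I_mul_I

theorem kpb_dz_conj {f : W → ℂ} {f' : W →L[ℂ] ℂ} {p : W} (h : HasFDerivAt f f' p) (A : W) :
    dz (fun q => star (f q)) p A = 0 := by
  have h1 : HasFDerivAt f (f'.restrictScalars ℝ) p := h.restrictScalars ℝ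
  have h2 : HasFDerivAt (fun q => star (f q))
      ((Complex.conjCLE : ℂ →L[ℝ] ℂ).comp (f'.restrictScalars ℝ)) p :=
    (Complex.conjCLE : ℂ →L[ℝ] ℂ).hasFDerivAt.comp p h1
  unfold dz
  rw [h2.fderiv]
  simp only [ContinuousLinearMap.comp_apply, ContinuousLinearMap.coe_restrictScalars', map_smul,
    smul_eq_mul, ContinuousLinearEquiv.coe_coe, Complex.conjCLE_apply, map_mul, Complex.conj_I]
  linear_combination (starRingEnd ℂ (f' A)) * Complex.I_mul_I

theorem kpb_dz_comp {f : W' → ℂ} {φ : W → W'} {φ' : W →L[ℂ] W'} {p : W}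
    (hf : DifferentiableAt ℝ f (φ p)) (h : HasFDerivAt φ φ' p) (A : W) :
    dz (fun q => f (φ q)) p A = dz f (φ p) (φ' A) := by
  have h1 : HasFDerivAt φ (φ'.restrictScalars ℝ) p := h.restrictScalars ℝ
  have h2 : HasFDerivAt (fun q => f (φ q)) ((fderiv ℝ f (φ p)).comp (φ'.restrictScalars ℝ)) p :=
    hf.hasFDerivAt.comp p h1
  unfold dz
  rw [h2.fderiv]
  simp only [ContinuousLinearMap.comp_apply, ContinuousLinearMap.coe_restrictScalars', map_smul]

theorem kpb_dz_const_mul {f : W → ℂ} {p : W} (hf : DifferentiableAt ℝ f p) (a : ℂ) (A : W) :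
    dz (fun q => a * f q) p A = a * dz f p A := by
  have h0 : dz (fun _ : W => a) p A = 0 := by
    have : HasFDerivAt (fun _ : W => a) (0 : W →L[ℂ] ℂ) p := hasFDerivAt_const a p
    rw [kpb_dz_hol this]; simp
  rw [kpb_dz_mul (differentiableAt_const a) hf, h0, zero_mul, zero_add]

end dzcalc

variable {E X : Type} [NormedAddCommGroup E] [NormedSpace ℂ E] [FiniteDimensional ℂ E]
  [TopologicalSpace X] {G : Geo E X}

section tri

/-- the coordinates in a basis of `E` -/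
noncomputable def kpbC (E : Type) [NormedAddCommGroup E] [NormedSpace ℂ E]
    [FiniteDimensional ℂ E] (j : Fin (Module.finrank ℂ E)) : E →L[ℂ] ℂ :=
  LinearMap.toContinuousLinearMap ((Module.finBasis ℂ E).coord j)

theorem kpb_sum (A : E) : A = ∑ j, kpbC E j A • Module.finBasis ℂ E j :=
  ((Module.finBasis ℂ E).sum_repr A).symm

variable (K : Kah G) {y : X}

theorem kpb_expand {ξ : E} (hξ : ξ ∈ (G.ch y).target) (A B : E) :
    K.h y ξ A B = ∑ j, ∑ k, (kpbC E j A * star (kpbC E k B)) *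
      K.h y ξ (Module.finBasis ℂ E j) (Module.finBasis ℂ E k) := by
  have h1 : ∀ A B, K.h y ξ A B = ∑ j, kpbC E j A * K.h y ξ (Module.finBasis ℂ E j) B := by
    intro A B
    let L : E →ₗ[ℂ] ℂ :=
      { toFun := fun A => K.h y ξ A B
        map_add' := fun A A' => K.add_left y ξ hξ A A' B
        map_smul' := fun a A => K.smul_left y ξ hξ a A B }
    have h2 : L A = ∑ j, kpbC E j A * L (Module.finBasis ℂ E j) := by
      conv_lhs => rw [kpb_sum A]
      simp only [map_sum, map_smul, smul_eq_mul]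
    exact h2
  have h3 : ∀ A B, K.h y ξ A B = ∑ k, star (kpbC E k B) * K.h y ξ A (Module.finBasis ℂ E k) := by
    intro A B
    rw [K.herm y ξ hξ B A, h1 B A, star_sum]
    refine Finset.sum_congr rfl fun k _ => ?_
    rw [star_mul, ← K.herm y ξ hξ (Module.finBasis ℂ E k) A, mul_comm]
  rw [h1 A B]
  refine Finset.sum_congr rfl fun j _ => ?_
  rw [h3 _ B, Finset.mul_sum]
  refine Finset.sum_congr rfl fun k _ => ?_
  ring

variable {P : Type} [NormedAddCommGroup P] [NormedSpace ℂ P]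

theorem kpb_contDiffAt {φ β γ : P → E} {p₀ : P} (hφ : ContDiffAt ℝ 1 φ p₀)
    (hβ : ContDiffAt ℝ 1 β p₀) (hγ : ContDiffAt ℝ 1 γ p₀) (hξ : φ p₀ ∈ (G.ch y).target) :
    ContDiffAt ℝ 1 (fun p => K.h y (φ p) (β p) (γ p)) p₀ := by
  have he : (fun p => K.h y (φ p) (β p) (γ p)) =ᶠ[𝓝 p₀] fun p => ∑ j, ∑ k,
      (kpbC E j (β p) * star (kpbC E k (γ p))) *
        K.h y (φ p) (Module.finBasis ℂ E j) (Module.finBasis ℂ E k) := by
    filter_upwards [hφ.continuousAt.eventually (G.target_mem hξ)] with p hp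
    exact kpb_expand K hp _ _
  refine ContDiffAt.congr_of_eventuallyEq ?_ he
  refine ContDiffAt.sum fun j _ => ContDiffAt.sum fun k _ => ?_
  refine ContDiffAt.mul (ContDiffAt.mul ?_ ?_) ?_
  · exact ((kpbC E j).restrictScalars ℝ).contDiff.contDiffAt.comp p₀ hβ
  · exact (Complex.conjCLE : ℂ →L[ℝ] ℂ).contDiff.contDiffAt.comp p₀
      (((kpbC E k).restrictScalars ℝ).contDiff.contDiffAt.comp p₀ hγ)
  · exact (K.smooth y (φ p₀) hξ _ _).comp p₀ hφ

theorem kpb_dz_tri {φ β γ : P → E} {φ' β' γ' : P →L[ℂ] E} {p₀ : P} (hφ : HasFDerivAt φ φ' p₀)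
    (hβ : HasFDerivAt β β' p₀) (hγ : HasFDerivAt γ γ' p₀) (hξ : φ p₀ ∈ (G.ch y).target) (v : P) :
    dz (fun p => K.h y (φ p) (β p) (γ p)) p₀ v =
      dz (fun ξ => K.h y ξ (β p₀) (γ p₀)) (φ p₀) (φ' v) +
        2 * K.h y (φ p₀) (β' v) (γ p₀) := by
  have hdg : ∀ A B, DifferentiableAt ℝ (fun ξ => K.h y ξ A B) (φ p₀) := fun A B =>
    (K.smooth y (φ p₀) hξ A B).differentiableAt one_ne_zero
  have hφr : DifferentiableAt ℝ φ p₀ := (hφ.restrictScalars ℝ).differentiableAt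
  have hg : ∀ A B, DifferentiableAt ℝ (fun p => K.h y (φ p) A B) p₀ := fun A B =>
    (hdg A B).comp p₀ hφr
  have hβj : ∀ j, HasFDerivAt (fun p => kpbC E j (β p)) ((kpbC E j).comp β') p₀ := fun j =>
    (kpbC E j).hasFDerivAt.comp p₀ hβ
  have hγk : ∀ k, HasFDerivAt (fun p => kpbC E k (γ p)) ((kpbC E k).comp γ') p₀ := fun k =>
    (kpbC E k).hasFDerivAt.comp p₀ hγ
  have hβd : ∀ j, DifferentiableAt ℝ (fun p => kpbC E j (β p)) p₀ := fun j =>
    ((hβj j).restrictScalars ℝ).differentiableAt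
  have hγd : ∀ k, DifferentiableAt ℝ (fun p => star (kpbC E k (γ p))) p₀ := fun k =>
    (Complex.conjCLE : ℂ →L[ℝ] ℂ).differentiableAt.comp p₀
      ((hγk k).restrictScalars ℝ).differentiableAt
  have he : (fun p => K.h y (φ p) (β p) (γ p)) =ᶠ[𝓝 p₀] fun p => ∑ j, ∑ k,
      (kpbC E j (β p) * star (kpbC E k (γ p))) *
        K.h y (φ p) (Module.finBasis ℂ E j) (Module.finBasis ℂ E k) := by
    filter_upwards [hφ.continuousAt.eventually (G.target_mem hξ)] with p hp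
    exact kpb_expand K hp _ _
  have he2 : (fun ξ => K.h y ξ (β p₀) (γ p₀)) =ᶠ[𝓝 (φ p₀)] fun ξ => ∑ j, ∑ k,
      (kpbC E j (β p₀) * star (kpbC E k (γ p₀))) *
        K.h y ξ (Module.finBasis ℂ E j) (Module.finBasis ℂ E k) := by
    filter_upwards [G.target_mem hξ] with ξ hξ'
    exact kpb_expand K hξ' _ _
  rw [kpb_dz_congr he, kpb_dz_congr he2, kpb_dz_sum, kpb_dz_sum,
    kpb_expand K hξ (β' v) (γ p₀), Finset.mul_sum, ← Finset.sum_add_distrib]
  · refine Finset.sum_congr rfl fun j _ => ?_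
    rw [kpb_dz_sum, kpb_dz_sum, Finset.mul_sum, ← Finset.sum_add_distrib]
    · refine Finset.sum_congr rfl fun k _ => ?_
      have hm : DifferentiableAt ℝ (fun p => kpbC E j (β p) * star (kpbC E k (γ p))) p₀ :=
        (hβd j).mul (hγd k)
      rw [kpb_dz_mul hm (hg _ _), kpb_dz_mul (hβd j) (hγd k),
        kpb_dz_hol (hβj j), kpb_dz_conj (hγk k), kpb_dz_comp (hdg _ _) hφ,
        kpb_dz_const_mul (hdg _ _)]
      simp only [ContinuousLinearMap.comp_apply]
      ring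
    · intro k _
      exact (hdg _ _).const_mul _
    · intro k _
      exact ((hβd j).mul (hγd k)).mul (hg _ _)
  · intro j _
    exact DifferentiableAt.fun_sum fun k _ => (hdg _ _).const_mul _
  · intro j _
    exact DifferentiableAt.fun_sum fun k _ => ((hβd j).mul (hγd k)).mul (hg _ _)

end tri

/-- KPB: the pull-back of the Kähler metric -/
theorem kah_pull (K : Kah G) (H : ℂ × ℂ → X) (hH : ∀ p, G.HolAt H p) :
    ∃ Q : ℂ × ℂ → ℂ × ℂ → ℂ × ℂ → ℂ,
      (∀ p y, H p ∈ (G.ch y).source → ∀ A B, Q p A B =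
        K.h y (G.ch y (H p)) (fderiv ℂ (G.loc y H) p A) (fderiv ℂ (G.loc y H) p B)) ∧
      (∀ A B, ContDiff ℝ 1 fun p => Q p A B) ∧
      ∀ p A B C, dz (fun p => Q p B C) p A = dz (fun p => Q p A C) p B := by
  set Q : ℂ × ℂ → ℂ × ℂ → ℂ × ℂ → ℂ := fun p A B =>
    K.h (H p) (G.ch (H p) (H p)) (fderiv ℂ (G.loc (H p) H) p A)
      (fderiv ℂ (G.loc (H p) H) p B) with hQdef
  have hQ : ∀ p y, H p ∈ (G.ch y).source → ∀ A B, Q p A B =
      K.h y (G.ch y (H p)) (fderiv ℂ (G.loc y H) p A) (fderiv ℂ (G.loc y H) p B) := by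
    intro p y hy A B
    rw [Geo.fderiv_loc (hH p) (G.mem (H p)) hy, Geo.fderiv_loc (hH p) (G.mem (H p)) hy,
      ← K.compat (H p) y (H p) (G.mem (H p)) hy]
  have hloc : ∀ p₀ A B, (fun p => Q p A B) =ᶠ[𝓝 p₀] fun p => K.h (H p₀)
      (G.loc (H p₀) H p) (fderiv ℂ (G.loc (H p₀) H) p A) (fderiv ℂ (G.loc (H p₀) H) p B) := by
    intro p₀ A B
    filter_upwards [(hH p₀).loc_mem (G.mem (H p₀))] with p hp
    exact hQ p _ hp A B
  have hder : ∀ p₀ (A : ℂ × ℂ), AnalyticAt ℂ (fun p => fderiv ℂ (G.loc (H p₀) H) p A) p₀ := by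
    intro p₀ A
    have h1 := ((hH p₀).2 _ (G.mem (H p₀))).fderiv
    exact (ContinuousLinearMap.apply ℂ E A).analyticAt _ |>.comp h1
  refine ⟨Q, hQ, fun A B => ?_, fun p₀ A B C => ?_⟩
  · rw [contDiff_iff_contDiffAt]
    intro p₀
    refine ContDiffAt.congr_of_eventuallyEq ?_ (hloc p₀ A B)
    refine kpb_contDiffAt K ?_ ?_ ?_ ((G.ch (H p₀)).map_source (G.mem (H p₀)))
    · exact ((hH p₀).2 _ (G.mem (H p₀))).contDiffAt.restrict_scalars ℝ
    · exact (hder p₀ A).contDiffAt.restrict_scalars ℝ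
    · exact (hder p₀ B).contDiffAt.restrict_scalars ℝ
  · rw [kpb_dz_congr (hloc p₀ B C), kpb_dz_congr (hloc p₀ A C)]
    have hφ := ((hH p₀).2 _ (G.mem (H p₀))).differentiableAt.hasFDerivAt
    have hξ : G.loc (H p₀) H p₀ ∈ (G.ch (H p₀)).target :=
      (G.ch (H p₀)).map_source (G.mem (H p₀))
    rw [kpb_dz_tri K hφ (hder p₀ B).differentiableAt.hasFDerivAt
        (hder p₀ C).differentiableAt.hasFDerivAt hξ A,
      kpb_dz_tri K hφ (hder p₀ A).differentiableAt.hasFDerivAt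
        (hder p₀ C).differentiableAt.hasFDerivAt hξ B,
      K.kahler (H p₀) _ hξ]
    congr 3
    have h2 : ∀ A B : ℂ × ℂ, fderiv ℂ (fun p => fderiv ℂ (G.loc (H p₀) H) p A) p₀ B =
        fderiv ℂ (fderiv ℂ (G.loc (H p₀) H)) p₀ B A := by
      intro A B
      have h3 := ((hH p₀).2 _ (G.mem (H p₀))).fderiv.differentiableAt.hasFDerivAt
      have h4 : HasFDerivAt (fun p => fderiv ℂ (G.loc (H p₀) H) p A)
          ((ContinuousLinearMap.apply ℂ E A).comp
            (fderiv ℂ (fderiv ℂ (G.loc (H p₀) H)) p₀)) p₀ :=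
        (ContinuousLinearMap.apply ℂ E A).hasFDerivAt.comp p₀ h3
      rw [h4.fderiv]
      rfl
    rw [h2, h2]
    have h5 : IsSymmSndFDerivAt ℂ (G.loc (H p₀) H) p₀ :=
      ((hH p₀).2 _ (G.mem (H p₀))).contDiffAt.isSymmSndFDerivAt (n := 2) (by simp)
    exact h5 A B

end Pool.Agent.SS
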