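import Pool.Agent.Lib_helper64.SS.Base
import Pool.Agent.Lib_helper64.SS.Notions
import Pool.Agent.Lib_helper64.SS.B.DIV
import Pool.Agent.Lib_helper64.SS.B.KCM
import Pool.Agent.Lib_helper64.SS.B.KPB

/-! Block KLM for MP_45e720_ag. -/
-- NEEDS: KCM KPB DIV

set_option autoImplicit false
set_option linter.unusedSectionVars false

open Filter Topology Metric Set
open scoped Manifold ContDiff

namespace Pool.Agent.SS

variable {E X : Type} [NormedAddCommGroup E] [NormedSpace ℂ E] [FiniteDimensional ℂ E]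
  [TopologicalSpace X] {G : Geo E X}
  {V : Type} [NormedAddCommGroup V] [NormedSpace ℂ V] [FiniteDimensional ℂ V]

section form

variable (K : Kah G) {y : X} {ξ : E} (hξ : ξ ∈ (G.ch y).target)

include hξ

theorem klm_im (A : E) : (K.h y ξ A A).im = 0 := by
  have h := K.herm y ξ hξ A A
  have h2 := congrArg Complex.im h
  have h3 : (star (K.h y ξ A A)).im = -(K.h y ξ A A).im := Complex.conj_im _
  rw [h3] at h2
  linarith

theorem klm_zero_left (B : E) : K.h y ξ 0 B = 0 := by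
  have h := K.smul_left y ξ hξ 0 0 B
  rwa [zero_smul, zero_mul] at h

theorem klm_zero_right (A : E) : K.h y ξ A 0 = 0 := by
  rw [K.herm y ξ hξ 0 A, klm_zero_left K hξ, star_zero]

theorem klm_nonneg (A : E) : 0 ≤ (K.h y ξ A A).re := by
  by_cases h : A = 0
  · rw [h, klm_zero_left K hξ]; simp
  · exact (K.pos y ξ hξ A h).le

theorem klm_add_right (A B B' : E) : K.h y ξ A (B + B') = K.h y ξ A B + K.h y ξ A B' := by
  rw [K.herm y ξ hξ (B + B') A, K.add_left y ξ hξ, star_add, ← K.herm y ξ hξ B A,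
    ← K.herm y ξ hξ B' A]

theorem klm_smul_right (a : ℂ) (A B : E) : K.h y ξ A (a • B) = star a * K.h y ξ A B := by
  rw [K.herm y ξ hξ (a • B) A, K.smul_left y ξ hξ, star_mul, ← K.herm y ξ hξ B A, mul_comm]

/-- Cauchy-Schwarz -/
theorem klm_cs (A B : E) :
    ‖K.h y ξ A B‖ ^ 2 ≤ (K.h y ξ A A).re * (K.h y ξ B B).re := by
  by_cases hB : B = 0
  · rw [hB, klm_zero_right K hξ, klm_zero_left K hξ]; simp
  have hpos := K.pos y ξ hξ B hB
  set p := (K.h y ξ A A).re with hp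
  set q := (K.h y ξ B B).re with hq
  set r := K.h y ξ A B with hr
  have hAA : K.h y ξ A A = (p : ℂ) := Complex.ext (by simp [hp]) (by simp [klm_im K hξ A])
  have hBB : K.h y ξ B B = (q : ℂ) := Complex.ext (by simp [hq]) (by simp [klm_im K hξ B])
  have hBA : K.h y ξ B A = star r := K.herm y ξ hξ A B
  have key := klm_nonneg K hξ (A + (-(r / q)) • B)
  have hq0 : (q : ℂ) ≠ 0 := by exact_mod_cast hpos.ne'
  have e : K.h y ξ (A + (-(r / q)) • B) (A + (-(r / q)) • B) =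
      ((p - ‖r‖ ^ 2 / q : ℝ) : ℂ) := by
    rw [K.add_left y ξ hξ, klm_add_right K hξ, klm_add_right K hξ, K.smul_left y ξ hξ,
      K.smul_left y ξ hξ, klm_smul_right K hξ, klm_smul_right K hξ, hAA, hBB, hBA, ← hr]
    have h1 : r * star r = ((‖r‖ ^ 2 : ℝ) : ℂ) := by
      have := Complex.mul_conj r
      rw [Complex.normSq_eq_norm_sq] at this
      exact this
    have h2 : star (-(r / q)) = -(star r / q) := by
      rw [star_neg]
      congr 1
      have := map_div₀ (starRingEnd ℂ) r (q : ℂ)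
      rw [Complex.conj_ofReal] at this
      exact this
    rw [h2]
    push_cast at h1 ⊢
    field_simp
    linear_combination (-1 : ℂ) * h1
  rw [e, Complex.ofReal_re] at key
  have h3 : ‖r‖ ^ 2 / q ≤ p := by linarith
  rwa [div_le_iff₀ hpos] at h3

end form

/-- the inclusion of the real three-dimensional slice -/
noncomputable def klmM : ℝ × ℝ × ℝ →L[ℝ] ℂ × ℂ :=
  (Complex.ofRealCLM.comp (ContinuousLinearMap.fst ℝ ℝ (ℝ × ℝ))).prod
    (Complex.ofRealCLM.comp ((ContinuousLinearMap.fst ℝ ℝ ℝ).comp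
        (ContinuousLinearMap.snd ℝ ℝ (ℝ × ℝ))) +
      (Complex.I • Complex.ofRealCLM).comp ((ContinuousLinearMap.snd ℝ ℝ ℝ).comp
        (ContinuousLinearMap.snd ℝ ℝ (ℝ × ℝ))))

theorem klmM_apply (q : ℝ × ℝ × ℝ) :
    klmM q = ((q.1 : ℂ), (q.2.1 : ℂ) + Complex.I * (q.2.2 : ℂ)) := by
  simp [klmM]

/-- the divergence identity on the slice -/
theorem klm_div (P R : ℂ × ℂ → ℂ) (hP : ContDiff ℝ 1 P) (hR : ContDiff ℝ 1 R)
    (hreal : ∀ p, (P p).im = 0)
    (h : ∀ p, dz P p (1, 0) = dz R p (0, 1)) (q : ℝ × ℝ × ℝ) :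
    fderiv ℝ (fun q => (P (klmM q)).re) q (1, 0, 0) =
      fderiv ℝ (fun q => (R (klmM q)).re) q (0, 1, 0) +
        fderiv ℝ (fun q => (R (klmM q)).im) q (0, 0, 1) := by
  have dP : HasFDerivAt P (fderiv ℝ P (klmM q)) (klmM q) :=
    (hP.differentiable one_ne_zero (klmM q)).hasFDerivAt
  have dR : HasFDerivAt R (fderiv ℝ R (klmM q)) (klmM q) :=
    (hR.differentiable one_ne_zero (klmM q)).hasFDerivAt
  have d1 : HasFDerivAt (fun q => P (klmM q)) ((fderiv ℝ P (klmM q)).comp klmM) q :=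
    dP.comp q klmM.hasFDerivAt
  have d2 : HasFDerivAt (fun q => R (klmM q)) ((fderiv ℝ R (klmM q)).comp klmM) q :=
    dR.comp q klmM.hasFDerivAt
  have d1' : HasFDerivAt (fun q => (P (klmM q)).re)
      (Complex.reCLM.comp ((fderiv ℝ P (klmM q)).comp klmM)) q :=
    Complex.reCLM.hasFDerivAt.comp q d1
  have d2' : HasFDerivAt (fun q => (R (klmM q)).re)
      (Complex.reCLM.comp ((fderiv ℝ R (klmM q)).comp klmM)) q :=
    Complex.reCLM.hasFDerivAt.comp q d2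
  have d3' : HasFDerivAt (fun q => (R (klmM q)).im)
      (Complex.imCLM.comp ((fderiv ℝ R (klmM q)).comp klmM)) q :=
    Complex.imCLM.hasFDerivAt.comp q d2
  rw [d1'.fderiv, d2'.fderiv, d3'.fderiv]
  simp only [ContinuousLinearMap.comp_apply, klmM_apply, Complex.reCLM_apply,
    Complex.imCLM_apply, Complex.ofReal_one, Complex.ofReal_zero, mul_zero, mul_one, add_zero,
    zero_add]
  have hk := congrArg Complex.re (h (klmM q))
  simp only [dz] at hk
  have him : (fderiv ℝ P (klmM q) (Complex.I • ((1 : ℂ), (0 : ℂ)))).im = 0 := by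
    have d4 : HasFDerivAt (fun p => (P p).im) (Complex.imCLM.comp (fderiv ℝ P (klmM q)))
        (klmM q) := Complex.imCLM.hasFDerivAt.comp _ dP
    have e : (fun p => (P p).im) = fun _ => (0 : ℝ) := funext hreal
    rw [e] at d4
    have := d4.unique (hasFDerivAt_const (0 : ℝ) (klmM q))
    have h5 := DFunLike.congr_fun this (Complex.I • ((1 : ℂ), (0 : ℂ)))
    simpa using h5
  have e1 : Complex.I • ((0 : ℂ), (1 : ℂ)) = (0, Complex.I) := by simp
  rw [e1] at hk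
  rw [klmM_apply] at hk him
  simp only [Complex.sub_re, Complex.mul_re, Complex.I_re, Complex.I_im, zero_mul, one_mul,
    zero_sub, him, sub_zero, sub_neg_eq_add] at hk
  exact hk

/-- KLM: the key estimate -/
theorem kah_bound [CompactSpace X] (K : Kah G) {A : Type} [NormedAddCommGroup A]
    [NormedSpace ℂ A] [FiniteDimensional ℂ A] (cc : A → Fin G.L → ℂ) (hcont : Continuous cc)
    (hhom : ∀ (r : ℂ) a i, cc (r • a) i = r ^ G.deg i * cc a i)
    (hne : ∀ a, cc a = 0 → a = 0) (α : V →L[ℂ] A) (ht : V → A) (hd : Differentiable ℂ ht)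
    (H : V × ℂ → X) (hH : ∀ p, G.HolAt H p)
    (hS : ∀ p y, H p ∈ (G.ch y).source → ∀ i (q : V × ℂ),
      G.S y i (G.ch y (H p)) (fderiv ℂ (G.loc y H) p q) = cc (α q.1 + q.2 • ht p.1) i) :
    ∃ C, ∀ t, ‖ht t‖ ≤ C := by
  obtain ⟨C, hC, hcmp⟩ := kah_compare K cc hcont hhom hne
  refine ⟨C * ‖ht 0‖, fun u => ?_⟩
  -- the map of two variables
  set ℓ : ℂ × ℂ →L[ℂ] V × ℂ :=
    ((ContinuousLinearMap.fst ℂ ℂ ℂ).smulRight u).prod (ContinuousLinearMap.snd ℂ ℂ ℂ) with hℓ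
  have hℓa : ∀ p : ℂ × ℂ, ℓ p = (p.1 • u, p.2) := fun p => by simp [hℓ]
  set Hu : ℂ × ℂ → X := fun p => H (ℓ p) with hHu
  have hol : ∀ p, G.HolAt Hu p := by
    intro p
    refine ⟨(hH (ℓ p)).1.comp ℓ.continuous.continuousAt, fun y hy => ?_⟩
    exact ((hH (ℓ p)).2 y hy).comp (f := fun q : ℂ × ℂ => ℓ q) (ℓ.analyticAt p)
  have hfd : ∀ p y, Hu p ∈ (G.ch y).source → ∀ q,
      fderiv ℂ (G.loc y Hu) p q = fderiv ℂ (G.loc y H) (ℓ p) (ℓ q) := by
    intro p y hy q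
    have h1 : HasFDerivAt (G.loc y H) (fderiv ℂ (G.loc y H) (ℓ p)) (ℓ p) :=
      ((hH (ℓ p)).2 y hy).differentiableAt.hasFDerivAt
    have h2 : HasFDerivAt (G.loc y Hu) ((fderiv ℂ (G.loc y H) (ℓ p)).comp ℓ) p :=
      h1.comp p ℓ.hasFDerivAt
    rw [h2.fderiv]
    rfl
  have hSu : ∀ p y, Hu p ∈ (G.ch y).source → ∀ i (q : ℂ × ℂ),
      G.S y i (G.ch y (Hu p)) (fderiv ℂ (G.loc y Hu) p q) =
        cc (q.1 • α u + q.2 • ht (p.1 • u)) i := by
    intro p y hy i q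
    rw [hfd p y hy q]
    have := hS (ℓ p) y hy i (ℓ q)
    rw [hℓa p, hℓa q] at this
    simp only [map_smul] at this
    rw [← this, hℓa p, hℓa q]
    rfl
  obtain ⟨Q, hQ, hQd, hQk⟩ := kah_pull K Hu hol
  have hP : ∀ p, (Q p (0, 1) (0, 1)).im = 0 ∧
      ‖ht (p.1 • u)‖ ^ 2 ≤ C * (Q p (0, 1) (0, 1)).re ∧
      (Q p (0, 1) (0, 1)).re ≤ C * ‖ht (p.1 • u)‖ ^ 2 ∧
      ‖Q p (1, 0) (0, 1)‖ ≤ C * ‖α u‖ * ‖ht (p.1 • u)‖ := by
    intro p
    have hy := G.mem (Hu p)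
    have hξ := (G.ch (Hu p)).map_source hy
    rw [hQ p (Hu p) hy, hQ p (Hu p) hy]
    have h1 := hcmp (Hu p) (Hu p) hy (fderiv ℂ (G.loc (Hu p) Hu) p (0, 1)) (ht (p.1 • u))
      (fun i => by rw [hSu p (Hu p) hy i]; simp)
    have h2 := hcmp (Hu p) (Hu p) hy (fderiv ℂ (G.loc (Hu p) Hu) p (1, 0)) (α u)
      (fun i => by rw [hSu p (Hu p) hy i]; simp)
    refine ⟨klm_im K hξ _, h1.1, h1.2, ?_⟩
    have hcs := klm_cs K hξ (fderiv ℂ (G.loc (Hu p) Hu) p (1, 0))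
      (fderiv ℂ (G.loc (Hu p) Hu) p (0, 1))
    have hn := klm_nonneg K hξ (fderiv ℂ (G.loc (Hu p) Hu) p (0, 1))
    refine le_of_sq_le_sq ?_ (by positivity)
    calc _ ≤ _ := hcs
      _ ≤ (C * ‖α u‖ ^ 2) * (C * ‖ht (p.1 • u)‖ ^ 2) :=
          mul_le_mul h2.2 h1.2 hn (by positivity)
      _ = (C * ‖α u‖ * ‖ht (p.1 • u)‖) ^ 2 := by ring
  -- bound on the segment
  have hcx : Continuous fun x : ℝ => ‖ht ((x : ℂ) • u)‖ :=
    (hd.continuous.comp (Complex.continuous_ofReal.smul continuous_const)).norm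
  obtain ⟨M, hM⟩ := (isCompact_Icc (a := (0 : ℝ)) (b := 1)).exists_bound_of_continuousOn
    hcx.continuousOn
  have hMx : ∀ x ∈ Icc (0 : ℝ) 1, ‖ht ((x : ℂ) • u)‖ ≤ M := by
    intro x hx
    have := hM x hx
    rwa [norm_norm] at this
  have hB : ∀ q : ℝ × ℝ × ℝ, q.1 ∈ Icc (0 : ℝ) 1 →
      ‖Q (klmM q) (1, 0) (0, 1)‖ ≤ C * ‖α u‖ * M := by
    intro q hq
    refine (hP (klmM q)).2.2.2.trans ?_
    rw [klmM_apply]
    exact mul_le_mul_of_nonneg_left (hMx q.1 hq) (by positivity)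
  have key : ∀ T : ℝ, 0 < T →
      T * (C⁻¹ * ‖ht u‖ ^ 2 - C * ‖ht 0‖ ^ 2) ≤ 2 * (C * ‖α u‖ * M) * 1 := by
    intro T hT
    refine div_est (fun q => (Q (klmM q) (0, 1) (0, 1)).re)
      (fun q => (Q (klmM q) (1, 0) (0, 1)).re) (fun q => (Q (klmM q) (1, 0) (0, 1)).im)
      ?_ ?_ ?_ (fun q => klm_div (fun p => Q p (0, 1) (0, 1)) (fun p => Q p (1, 0) (0, 1))
        (hQd _ _) (hQd _ _) (fun p => (hP p).1) (fun p => hQk p _ _ _) q)
      1 T (C * ‖α u‖ * M) (C * ‖ht 0‖ ^ 2) (C⁻¹ * ‖ht u‖ ^ 2) zero_le_one hT ?_ ?_ ?_ ?_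
    · exact Complex.reCLM.contDiff.comp ((hQd _ _).comp klmM.contDiff)
    · exact Complex.reCLM.contDiff.comp ((hQd _ _).comp klmM.contDiff)
    · exact Complex.imCLM.contDiff.comp ((hQd _ _).comp klmM.contDiff)
    · intro q hq
      exact (Complex.abs_re_le_norm _).trans (hB q hq)
    · intro q hq
      exact (Complex.abs_im_le_norm _).trans (hB q hq)
    · intro s
      have := (hP (klmM (0, s))).2.2.1
      rw [klmM_apply] at this ⊢
      simpa using this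
    · intro s
      have := (hP (klmM (1, s))).2.1
      rw [klmM_apply] at this ⊢
      simp only [Complex.ofReal_one, one_smul] at this
      rw [inv_mul_le_iff₀ hC]
      simpa using this
  have hle : C⁻¹ * ‖ht u‖ ^ 2 - C * ‖ht 0‖ ^ 2 ≤ 0 := by
    by_contra hcon
    push Not at hcon
    set δ := C⁻¹ * ‖ht u‖ ^ 2 - C * ‖ht 0‖ ^ 2 with hδ
    set S := 2 * (C * ‖α u‖ * M) * 1 with hSdef
    have h1 := key ((|S| + 1) / δ) (by positivity)
    rw [div_mul_cancel₀ _ hcon.ne'] at h1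
    have := le_abs_self S
    linarith
  have h2 : ‖ht u‖ ^ 2 ≤ (C * ‖ht 0‖) ^ 2 := by
    have h3 : C⁻¹ * ‖ht u‖ ^ 2 ≤ C * ‖ht 0‖ ^ 2 := by linarith
    rw [inv_mul_le_iff₀ hC] at h3
    calc ‖ht u‖ ^ 2 ≤ C * (C * ‖ht 0‖ ^ 2) := h3
      _ = (C * ‖ht 0‖) ^ 2 := by ring
  exact le_of_sq_le_sq h2 (by positivity)

end Pool.Agent.SS
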