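import Pool.Agent.Lib_helper64.SS.Base
import Pool.Agent.Lib_helper64.SS.Notions

/-! LIN: a common eigenvector modulo the image of `α` (MP_45e720_ag). -/
-- NEEDS:

set_option autoImplicit false
set_option linter.unusedSectionVars false
set_option linter.unusedVariables false

open Filter Topology Metric Set
open scoped Manifold ContDiff

namespace Pool.Agent.SS

/-- a commuting family of endomorphisms of a nonzero finite-dimensional space has a common
eigenvector -/
theorem lin_common {Q ι : Type} [AddCommGroup Q] [Module ℂ Q] [Module.Finite ℂ Q] [Nontrivial Q]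
    (T : ι → Q →ₗ[ℂ] Q) (hT : ∀ i j q, T i (T j q) = T j (T i q)) :
    ∃ q : Q, q ≠ 0 ∧ ∀ i, ∃ μ : ℂ, T i q = μ • q := by
  let P : Set (Submodule ℂ Q) := {N | N ≠ ⊥ ∧ ∀ i, ∀ q ∈ N, T i q ∈ N}
  have hne : P.Nonempty := ⟨⊤, top_ne_bot, fun _ _ _ => Submodule.mem_top⟩
  obtain ⟨N, hN, hmin⟩ := (wellFounded_lt (α := Submodule ℂ Q)).has_min P hne
  obtain ⟨hN0, hNi⟩ := hN
  have hsc : ∀ i, ∃ μ : ℂ, ∀ q ∈ N, T i q = μ • q := by
    intro i
    have hnt : Nontrivial N := (Submodule.nontrivial_iff_ne_bot).2 hN0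
    have hfin : Module.Finite ℂ N := Module.IsNoetherian.finite _ _
    obtain ⟨μ, hμ⟩ := Module.End.exists_eigenvalue ((T i).restrict (hNi i))
    obtain ⟨v, hv⟩ := hμ.exists_hasEigenvector
    refine ⟨μ, ?_⟩
    let N' : Submodule ℂ Q := N ⊓ LinearMap.ker (T i - μ • LinearMap.id)
    have hN'P : N' ∈ P := by
      refine ⟨?_, ?_⟩
      · intro h0
        have h1 : (v : Q) ∈ N' := by
          refine ⟨v.2, ?_⟩
          have h2 := congrArg (Submodule.subtype N) hv.apply_eq_smul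
          have h3 : T i (v : Q) = μ • (v : Q) := h2
          change T i (v : Q) - μ • (v : Q) = 0
          rw [h3, sub_self]
        rw [h0, Submodule.mem_bot] at h1
        exact hv.2 (Subtype.ext h1)
      · rintro j q ⟨hq1, hq2⟩
        refine ⟨hNi j q hq1, ?_⟩
        have h1 : T i q = μ • q := by
          have : T i q - μ • q = 0 := hq2
          exact sub_eq_zero.1 this
        change T i (T j q) - μ • T j q = 0
        rw [hT i j q, h1, map_smul, sub_self]
    have hnlt := hmin N' hN'P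
    have hle : N' ≤ N := inf_le_left
    have heq : N' = N := by
      by_contra hne'
      exact hnlt (lt_of_le_of_ne hle hne')
    intro q hq
    rw [← heq] at hq
    have h1 : T i q - μ • q = 0 := hq.2
    exact sub_eq_zero.1 h1
  obtain ⟨q, hq, hq0⟩ := Submodule.exists_mem_ne_zero_of_ne_bot hN0
  refine ⟨q, hq0, fun i => ?_⟩
  obtain ⟨μ, hμ⟩ := hsc i
  exact ⟨μ, hμ q hq⟩

theorem eigen_mod {A V : Type} [NormedAddCommGroup A] [NormedSpace ℂ A] [FiniteDimensional ℂ A]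
    [NormedAddCommGroup V] [NormedSpace ℂ V] [FiniteDimensional ℂ V] (θ : V → A →L[ℂ] A)
    (hd : Differentiable ℂ θ) (hadd : ∀ s t, θ (s + t) = (θ s).comp (θ t))
    (h0 : θ 0 = ContinuousLinearMap.id ℂ A) (α : V →L[ℂ] A) (hα : Function.Injective α)
    (hfix : ∀ t τ, θ t (α τ) = α τ) (hne : ¬ Function.Surjective α) :
    ∃ (w : A) (χ : V → ℂ) (β : V → V), (∀ τ, α τ ≠ w) ∧ Differentiable ℂ χ ∧
      Differentiable ℂ β ∧ (∀ t, χ t ≠ 0) ∧ ∀ t, θ t w = χ t • w + α (β t) := by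
  let S : Submodule ℂ A := LinearMap.range α.toLinearMap
  have hmem : ∀ a, a ∈ S ↔ ∃ τ, α τ = a := fun a => Iff.rfl
  have hinv : ∀ t, S ≤ S.comap (θ t).toLinearMap := by
    rintro t _ ⟨τ, rfl⟩
    exact ⟨τ, (hfix t τ).symm⟩
  let T : V → (A ⧸ S) →ₗ[ℂ] (A ⧸ S) := fun t => S.mapQ S (θ t).toLinearMap (hinv t)
  have hTmk : ∀ t a, T t (Submodule.Quotient.mk a) = Submodule.Quotient.mk (θ t a) :=
    fun t a => rfl
  have hcomm : ∀ s t q, T s (T t q) = T t (T s q) := by
    intro s t q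
    obtain ⟨a, rfl⟩ := Submodule.Quotient.mk_surjective S q
    rw [hTmk, hTmk, hTmk, hTmk]
    have h1 : θ s (θ t a) = θ (s + t) a := by rw [hadd]; rfl
    have h2 : θ t (θ s a) = θ (t + s) a := by rw [hadd]; rfl
    rw [h1, h2, add_comm]
  have hnt : Nontrivial (A ⧸ S) := by
    rw [Submodule.Quotient.nontrivial_iff]
    intro h1
    apply hne
    exact LinearMap.range_eq_top.1 h1
  obtain ⟨q, hq0, hq⟩ := lin_common T hcomm
  obtain ⟨w, rfl⟩ := Submodule.Quotient.mk_surjective S q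
  have hwS : w ∉ S := fun h1 => hq0 ((Submodule.Quotient.mk_eq_zero S).2 h1)
  -- a functional
  obtain ⟨ℓ₀, hℓ₀, hℓS⟩ := Submodule.exists_le_ker_of_notMem hwS
  let ℓ : A →L[ℂ] ℂ := LinearMap.toContinuousLinearMap ((ℓ₀ w)⁻¹ • ℓ₀)
  have hℓw : ℓ w = 1 := by
    change (ℓ₀ w)⁻¹ * ℓ₀ w = 1
    exact inv_mul_cancel₀ hℓ₀
  have hℓα : ∀ a ∈ S, ℓ a = 0 := by
    intro a ha
    have h1 : ℓ₀ a = 0 := hℓS ha
    change (ℓ₀ w)⁻¹ * ℓ₀ a = 0
    rw [h1, mul_zero]
  -- a left inverse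
  obtain ⟨lam₀, hlam₀⟩ := α.toLinearMap.exists_leftInverse_of_injective
    (LinearMap.ker_eq_bot.2 hα)
  let lam : A →L[ℂ] V := LinearMap.toContinuousLinearMap lam₀
  have hlam : ∀ a ∈ S, α (lam a) = a := by
    rintro _ ⟨τ, rfl⟩
    have h1 : lam₀ (α τ) = τ := LinearMap.congr_fun hlam₀ τ
    change α (lam₀ (α τ)) = α τ
    rw [h1]
  have hdw : Differentiable ℂ fun t => θ t w := hd.clm_apply (differentiable_const w)
  have hχd : Differentiable ℂ fun t => ℓ (θ t w) := ℓ.differentiable.comp hdw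
  have hmemS : ∀ t, θ t w - ℓ (θ t w) • w ∈ S := by
    intro t
    obtain ⟨μ, hμ⟩ := hq t
    rw [hTmk, ← Submodule.Quotient.mk_smul, Submodule.Quotient.eq] at hμ
    have h1 := hℓα _ hμ
    rw [map_sub, map_smul, hℓw, smul_eq_mul, mul_one, sub_eq_zero] at h1
    rw [h1]
    exact hμ
  have hform : ∀ t, θ t w = ℓ (θ t w) • w + α (lam (θ t w - ℓ (θ t w) • w)) := by
    intro t
    rw [hlam _ (hmemS t)]
    abel
  refine ⟨w, fun t => ℓ (θ t w), fun t => lam (θ t w - ℓ (θ t w) • w), ?_, hχd, ?_, ?_, hform⟩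
  · intro τ hτ
    exact hwS ⟨τ, hτ⟩
  · exact lam.differentiable.comp (hdw.sub (hχd.smul (differentiable_const w)))
  · intro t ht
    apply hwS
    have h1 := hform t
    simp only at ht
    rw [ht, zero_smul, zero_add] at h1
    have h2 : θ (-t) (θ t w) = w := by
      have h3 := hadd (-t) t
      rw [neg_add_cancel, h0] at h3
      have h4 := congrArg (fun f : A →L[ℂ] A => f w) h3
      exact h4.symm
    rw [h1, hfix] at h2
    exact ⟨_, h2⟩

end Pool.Agent.SS
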