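import Pool.Agent.Lib_helper64.SS.Base
import Pool.Agent.Lib_helper64.SS.Notions

/-! LIO: Liouville's theorem on a minimal set (MP_45e720_ag). -/
-- NEEDS:

set_option autoImplicit false
set_option linter.unusedSectionVars false

open Filter Topology Metric Set
open scoped Manifold ContDiff

namespace Pool.Agent.SS

variable {E X : Type} [NormedAddCommGroup E] [NormedSpace ℂ E] [FiniteDimensional ℂ E]
  [TopologicalSpace X] {G : Geo E X}
  {V : Type} [NormedAddCommGroup V] [NormedSpace ℂ V] [FiniteDimensional ℂ V]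

theorem lio_cont_tr (A : Sys G V) {F : V → X} (hF : F ∈ A.M) :
    Continuous fun t : V => tr t F := by
  refine continuous_pi fun s => ?_
  have hc : Continuous F := continuous_iff_continuousAt.2 fun t => (A.sub hF t).1.1
  exact hc.comp (continuous_const.add continuous_id)

theorem lio_tendsto_tr (A : Sys G V) {F : V → X} (hF : F ∈ A.M) (t₀ : V) :
    Tendsto (fun t : V => tr t F) (𝓝 t₀) (𝓝[A.M] (tr t₀ F)) := by
  refine tendsto_nhdsWithin_iff.2 ⟨(lio_cont_tr A hF).continuousAt, ?_⟩
  exact Eventually.of_forall fun t => A.inv t F hF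

theorem liouville_sys [T2Space X] (A : Sys G V) {Y : Type} [NormedAddCommGroup Y]
    [NormedSpace ℂ Y] (h : (V → X) → Y)
    (hl : ∀ F ∈ A.M, ∃ y, F 0 ∈ (G.ch y).source ∧ ∃ h' : E → Y,
      AnalyticAt ℂ h' (G.ch y (F 0)) ∧ ∀ᶠ F' in 𝓝[A.M] F, h F' = h' (G.ch y (F' 0))) :
    ∀ F ∈ A.M, ∀ F' ∈ A.M, h F = h F' := by
  have hcont : ContinuousOn h A.M := by
    intro F hF
    obtain ⟨y, hy, h', ha, he⟩ := hl F hF
    have h1 : ContinuousAt (fun F' : V → X => h' (G.ch y (F' 0))) F := by
      have h2 : ContinuousAt (fun F' : V → X => F' 0) F := (continuous_apply 0).continuousAt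
      have h3 : ContinuousAt (G.ch y) (F 0) := (G.ch y).continuousAt hy
      have h4 : ContinuousAt (fun F' : V → X => G.ch y (F' 0)) F := ContinuousAt.comp (f := fun F' : V → X => F' 0) h3 h2
      exact ContinuousAt.comp (f := fun F' : V → X => G.ch y (F' 0)) ha.continuousAt h4
    exact h1.continuousWithinAt.congr_of_eventuallyEq he (he.self_of_nhdsWithin hF)
  have hbdd : Bornology.IsBounded (h '' A.M) := (A.cpt.image_of_continuousOn hcont).isBounded
  have horb : ∀ F ∈ A.M, ∀ t, h (tr t F) = h F := by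
    intro F hF t
    have hd : Differentiable ℂ fun t : V => h (tr t F) := by
      intro t₁
      obtain ⟨y, hy, h', ha, he⟩ := hl (tr t₁ F) (A.inv t₁ F hF)
      have h1 := (lio_tendsto_tr A hF t₁).eventually he
      have hzero : ∀ t : V, tr t F 0 = F t := fun t => by simp only [tr, zero_add]
      have h2 : (fun t : V => h (tr t F)) =ᶠ[𝓝 t₁] fun t => h' (G.loc y F t) := by
        filter_upwards [h1] with t ht
        rw [ht, hzero]
        rfl
      rw [hzero] at ha hy
      have h3 : AnalyticAt ℂ (G.loc y F) t₁ := (A.sub hF t₁).1.2 y hy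
      have h4 : AnalyticAt ℂ (fun t => h' (G.loc y F t)) t₁ := by
        have : AnalyticAt ℂ h' (G.loc y F t₁) := ha
        exact this.comp h3
      exact (h4.congr h2.symm).differentiableAt
    have hb : Bornology.IsBounded (range fun t : V => h (tr t F)) := by
      refine hbdd.subset ?_
      rintro _ ⟨t, rfl⟩
      exact ⟨tr t F, A.inv t F hF, rfl⟩
    have h5 : h (tr t F) = h (tr 0 F) := hd.apply_eq_apply_of_bounded hb t 0
    rw [h5, tr_zero]
  intro F hF F' hF'
  have hcl : ∀ ε > 0, dist (h F) (h F') < ε := by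
    intro ε hε
    have h1 : ∀ᶠ F'' in 𝓝[A.M] F', dist (h F'') (h F') < ε := by
      have h2 := hcont F' hF'
      exact h2 (Metric.ball_mem_nhds _ hε)
    obtain ⟨U, hU, hUs⟩ := mem_nhdsWithin_iff_exists_mem_nhds_inter.1 h1
    obtain ⟨t, ht⟩ := A.dense F hF F' hF' U hU
    have h3 : dist (h (tr t F)) (h F') < ε := hUs ⟨ht, A.inv t F hF⟩
    rwa [horb F hF] at h3
  by_contra hne
  exact lt_irrefl _ (hcl _ (dist_pos.2 hne))

end Pool.Agent.SS
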