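import Pool.Agent.Lib_helper64.SS.Base
import Pool.Agent.Lib_helper64.SS.Notions
import Pool.Agent.Lib_helper64.SS.B.CPT

-- NEEDS: CPT

/-! Block MIN: existence of minimal sets of flat maps (MP_45e720_ag). -/

set_option autoImplicit false
set_option linter.unusedSectionVars false

open Filter Topology Metric Set
open scoped Manifold ContDiff

namespace Pool.Agent.SS

variable {E X : Type} [NormedAddCommGroup E] [NormedSpace ℂ E] [FiniteDimensional ℂ E]
  [TopologicalSpace X] {G : Geo E X}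
  {V : Type} [NormedAddCommGroup V] [NormedSpace ℂ V] [FiniteDimensional ℂ V]

theorem exists_sys [CompactSpace X] [T2Space X] [Nontrivial V] (c : V → Fin G.L → ℂ)
    (hc : ∀ u, c u = 0 → u = 0) (hne : (G.K c).Nonempty) : ∃ A : Sys G V, A.c = c := by
  set S : Set (Set (V → X)) := {M | IsClosed M ∧ M ⊆ G.K c ∧ M.Nonempty ∧
    ∀ t, ∀ F ∈ M, tr t F ∈ M} with hS
  have hK : IsCompact (G.K c) := isCompact_K c hc
  obtain ⟨M, hM⟩ : ∃ M, Minimal (· ∈ S) M := by
    refine zorn_superset S fun C hCS hC => ?_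
    rcases C.eq_empty_or_nonempty with rfl | hCn
    · exact ⟨G.K c, ⟨hK.isClosed, subset_rfl, hne, fun t F hF => Geo.K_tr hF t⟩, by simp⟩
    · refine ⟨⋂₀ C, ⟨isClosed_sInter fun s hs => (hCS hs).1, ?_, ?_, ?_⟩,
        fun s hs => sInter_subset_of_mem hs⟩
      · obtain ⟨s, hs⟩ := hCn
        exact (sInter_subset_of_mem hs).trans (hCS hs).2.1
      · have : Nonempty C := hCn.to_subtype
        refine IsCompact.nonempty_sInter_of_directed_nonempty_isCompact_isClosed ?_
          (fun s hs => (hCS hs).2.2.1)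
          (fun s hs => hK.of_isClosed_subset (hCS hs).1 (hCS hs).2.1) (fun s hs => (hCS hs).1)
        intro a ha b hb
        rcases hC.total ha hb with h | h
        · exact ⟨a, ha, subset_rfl, h⟩
        · exact ⟨b, hb, h, subset_rfl⟩
      · intro t F hF
        rw [mem_sInter] at hF ⊢
        exact fun s hs => (hCS hs).2.2.2 t F (hF s hs)
  obtain ⟨⟨hMc, hMK, hMn, hMi⟩, hmin⟩ := hM
  obtain ⟨e₀, he₀⟩ := exists_ne (0 : V)
  refine ⟨{ c := c, c_inj := hc, M := M, sub := hMK, ne := hMn,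
            cpt := hK.of_isClosed_subset hMc hMK, inv := hMi, dense := ?_, e₀ := e₀,
            e₀_ne := he₀ }, rfl⟩
  intro F hF F' hF' U hU
  set O : Set (V → X) := closure (range fun t : V => tr t F) with hO
  have hOM : O ⊆ M := closure_minimal (by rintro _ ⟨t, rfl⟩; exact hMi t F hF) hMc
  have hOS : O ∈ S := by
    refine ⟨isClosed_closure, hOM.trans hMK, ⟨F, subset_closure ⟨0, tr_zero F⟩⟩, fun t F₁ hF₁ => ?_⟩
    have h1 : MapsTo (tr t : (V → X) → V → X) (range fun s : V => tr s F)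
        (range fun s : V => tr s F) := by
      rintro _ ⟨s, rfl⟩
      exact ⟨t + s, (tr_tr t s F).symm⟩
    exact h1.closure (continuous_tr t) hF₁
  have h2 : F' ∈ O := hmin hOS hOM hF'
  rw [hO, mem_closure_iff_nhds] at h2
  obtain ⟨_, h3, t, rfl⟩ := h2 U hU
  exact ⟨t, h3⟩

end Pool.Agent.SS
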