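import Pool.Agent.Lib_helper64.SS.Base
import Pool.Agent.Lib_helper64.SS.Notions
import Pool.Agent.Lib_helper64.SS.B.CSP
import Pool.Agent.Lib_helper64.SS.B.DER
import Pool.Agent.Lib_helper64.SS.B.JMP
import Pool.Agent.Lib_helper64.SS.B.LIO
import Pool.Agent.Lib_helper64.SS.B.TRF
import Pool.Agent.Lib_helper64.SS.B.ZDM
import Pool.Agent.Lib_helper64.SS.B.ZFR

/-! # Block PAR (MP_45e720_ag).  Imports the file of block FRM (helper89) for the auxiliary lemmas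
`frm_...`. -/
-- NEEDS: CSP DER JMP ZFR ZDM TRF LIO (and the file FRM)

set_option autoImplicit false
set_option linter.unusedSectionVars false

open Filter Topology Metric Set
open scoped Manifold ContDiff

namespace Pool.Agent.SS

variable {E X : Type} [NormedAddCommGroup E] [NormedSpace ℂ E] [FiniteDimensional ℂ E]
  [TopologicalSpace X] {G : Geo E X}
  {V : Type} [NormedAddCommGroup V] [NormedSpace ℂ V] [FiniteDimensional ℂ V]

/-- the transport at time zero is the change of charts -/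
theorem par_chg [CompactSpace X] [T2Space X] (A : Sys G V) {F : V → X} (hF : F ∈ A.M)
    {y y' : X} (hy : F 0 ∈ (G.ch y).source) (hy' : F 0 ∈ (G.ch y').source) {u : E}
    (hu : u ∈ A.Z y F) :
    A.D y y' F 0 u = fderiv ℂ (fun ξ => G.ch y' ((G.ch y).symm ξ)) (G.ch y (F 0)) u := by
  obtain ⟨Φ, hΦ⟩ := exists_trf A hF (t₀ := 0) hy hy'
  rw [d_eq A hF hΦ hu]
  have hcs : CompleteSpace E := FiniteDimensional.complete ℂ E
  have h1 : AnalyticAt ℂ (fun ξ => Φ (ξ, 0)) (G.ch y (F 0)) := by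
    have h2 : AnalyticAt ℂ (fun ξ : E => (ξ, (0 : V))) (G.ch y (F 0)) :=
      analyticAt_id.prod analyticAt_const
    exact AnalyticAt.comp (f := fun ξ : E => (ξ, (0 : V))) hΦ.2.2.1 h2
  have h3 : AnalyticAt ℂ (fun ξ => G.ch y' ((G.ch y).symm ξ)) (G.ch y (F 0)) :=
    G.trans y y' (F 0) hy hy'
  -- the difference vanishes on `M`
  have h4 : ∀ ℓ : E →L[ℂ] ℂ, A.Van y F (fun ξ => ℓ (Φ (ξ, 0) - G.ch y' ((G.ch y).symm ξ))) := by
    intro ℓ
    refine ⟨ℓ.analyticAt _ |>.comp (h1.sub h3), ?_⟩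
    have h5 : ∀ᶠ F' in 𝓝[A.M] F, F' 0 ∈ (G.ch y').source ∧
        G.ch y' (F' 0) = Φ (G.ch y (F' 0), 0) := by
      have h6 : Tendsto (fun F' : V → X => (F', (0 : V))) (𝓝[A.M] F) (𝓝[A.M] F ×ˢ 𝓝 0) :=
        tendsto_id.prodMk (tendsto_const_pure.mono_right (pure_le_nhds 0))
      exact h6.eventually hΦ.2.2.2
    filter_upwards [h5, frm_src A hy] with F' h7 h8
    rw [← h7.2, (G.ch y).left_inv h8, sub_self, map_zero]
  have h9 : ∀ ℓ : E →L[ℂ] ℂ, ℓ (fderiv ℂ (fun ξ => Φ (ξ, 0)) (G.ch y (F 0)) u -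
      fderiv ℂ (fun ξ => G.ch y' ((G.ch y).symm ξ)) (G.ch y (F 0)) u) = 0 := by
    intro ℓ
    have h10 := hu _ (h4 ℓ)
    have h11 : HasFDerivAt (fun ξ => ℓ (Φ (ξ, 0) - G.ch y' ((G.ch y).symm ξ)))
        (ℓ.comp (fderiv ℂ (fun ξ => Φ (ξ, 0)) (G.ch y (F 0)) -
          fderiv ℂ (fun ξ => G.ch y' ((G.ch y).symm ξ)) (G.ch y (F 0)))) (G.ch y (F 0)) :=
      ℓ.hasFDerivAt.comp (G.ch y (F 0))
        (h1.differentiableAt.hasFDerivAt.sub h3.differentiableAt.hasFDerivAt)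
    rw [h11.fderiv] at h10
    exact h10
  rw [← sub_eq_zero]
  by_contra hne
  obtain ⟨ℓ, hℓ⟩ := exists_dual_vector ℂ _ (norm_ne_zero_iff.2 hne)
  have := h9 ℓ
  rw [hℓ.2] at this
  exact hne (norm_eq_zero.1 (by simpa using this))

/-- local analyticity of the inverse of `jm` -/
theorem par_loc [CompactSpace X] [T2Space X] (A : Sys G V) {e : ℕ}
    (he : ∀ F ∈ A.M, ∀ y, F 0 ∈ (G.ch y).source → Module.finrank ℂ (A.Z y F) = e)
    {W : Submodule ℂ (Fin G.L → ℂ)}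
    (hW : ∀ F ∈ A.M, ∀ y, F 0 ∈ (G.ch y).source → (A.Z y F).map (A.jm y F).toLinearMap = W)
    (w : X → (V → X) → W →L[ℂ] E)
    (huniq : ∀ F ∈ A.M, ∀ y, F 0 ∈ (G.ch y).source → ∀ (a : W) (u : E), u ∈ A.Z y F →
      A.jm y F u = a → u = w y F a)
    (π : (Fin G.L → ℂ) →L[ℂ] W) (hπ : ∀ a : W, π a = a)
    {F : V → X} (hF : F ∈ A.M) {y : X} (hy : F 0 ∈ (G.ch y).source) :
    ∃ om : E → W →L[ℂ] E, AnalyticAt ℂ om (G.ch y (F 0)) ∧
      ∀ᶠ F' in 𝓝[A.M] F, w y F' = om (G.ch y (F' 0)) := by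
  classical
  have hcs : CompleteSpace E := FiniteDimensional.complete ℂ E
  obtain ⟨ζ, hζ, hζe⟩ := z_frame A he hF hy
  obtain ⟨j, hj, hje⟩ := jm_loc A hF hy
  have hjm : ∀ F' ∈ A.M, F' 0 ∈ (G.ch y).source → ∀ u ∈ A.Z y F', A.jm y F' u ∈ W := by
    intro F' hF' hy' u hu
    rw [← hW F' hF' y hy']
    exact Submodule.mem_map_of_mem hu
  -- the map `c ↦ ∑ c b • z b`
  let Z₁ : (Fin e → E) →L[ℂ] ((Fin e → ℂ) →L[ℂ] E) :=
    ∑ b, (ContinuousLinearMap.smulRightL ℂ (Fin e → ℂ) E (ContinuousLinearMap.proj b)).comp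
      (ContinuousLinearMap.proj b)
  have hZ₁ : ∀ z c, Z₁ z c = ∑ b, c b • z b := by
    intro z c
    simp only [Z₁, _root_.sum_apply, ContinuousLinearMap.comp_apply,
      ContinuousLinearMap.proj_apply]
    rfl
  have hZan : AnalyticAt ℂ (fun ξ => Z₁ (ζ ξ)) (G.ch y (F 0)) := (Z₁.analyticAt _).comp hζ
  let T : E → (Fin e → ℂ) →L[ℂ] W := fun ξ => π.comp ((j ξ).comp (Z₁ (ζ ξ)))
  have hT : AnalyticAt ℂ T (G.ch y (F 0)) := frm_comp analyticAt_const (frm_comp hj hZan)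
  have hself : ∀ {P : (V → X) → Prop}, (∀ᶠ F' in 𝓝[A.M] F, P F') → P F := fun h =>
    Filter.eventually_pure.1 (h.filter_mono (pure_le_nhdsWithin hF))
  -- facts at the members of `M` near `F`
  have hnear : ∀ᶠ F' in 𝓝[A.M] F, F' ∈ A.M ∧ F' 0 ∈ (G.ch y).source ∧
      LinearIndependent ℂ (ζ (G.ch y (F' 0))) ∧ (∀ b, ζ (G.ch y (F' 0)) b ∈ A.Z y F') ∧
      ∀ c, ((T (G.ch y (F' 0)) c : W) : Fin G.L → ℂ) = A.jm y F' (Z₁ (ζ (G.ch y (F' 0))) c) := by
    filter_upwards [hζe, hje, frm_src A hy, eventually_mem_nhdsWithin] with F' h1 h2 h3 h4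
    refine ⟨h4, h3, h1.1, h1.2, fun c => ?_⟩
    have h5 : Z₁ (ζ (G.ch y (F' 0))) c ∈ A.Z y F' := by
      rw [hZ₁]
      exact Submodule.sum_mem _ fun b _ => Submodule.smul_mem _ _ (h1.2 b)
    have h6 := hjm F' h4 h3 _ h5
    show ((π (j (G.ch y (F' 0)) (Z₁ (ζ (G.ch y (F' 0))) c)) : W) : Fin G.L → ℂ) = _
    rw [← h2]
    have h7 := hπ ⟨_, h6⟩
    exact congrArg Subtype.val h7
  have hnearF := hself hnear
  -- the map at `F`
  have hTinj : Function.Injective (T (G.ch y (F 0))) := by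
    rw [injective_iff_map_eq_zero]
    intro c hc
    have h1 := hnearF.2.2.2.2 c
    rw [hc] at h1
    have h2 : Z₁ (ζ (G.ch y (F 0))) c = 0 := by
      apply jm_inj A hF hy
      rw [map_zero, ← h1]
      rfl
    rw [hZ₁] at h2
    funext b
    exact (Fintype.linearIndependent_iff.1 hnearF.2.2.1) c h2 b
  have hfW : Module.finrank ℂ W = e := by
    have h1 : LinearMap.range ((A.jm y F).toLinearMap.domRestrict (A.Z y F)) = W := by
      rw [← hW F hF y hy]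
      ext z
      simp only [LinearMap.mem_range, Submodule.mem_map]
      constructor
      · rintro ⟨u, rfl⟩
        exact ⟨u.1, u.2, rfl⟩
      · rintro ⟨u, hu, rfl⟩
        exact ⟨⟨u, hu⟩, rfl⟩
    rw [← h1, LinearMap.finrank_range_of_inj, he F hF y hy]
    intro u v huv
    exact Subtype.ext (jm_inj A hF hy huv)
  let T₀ : (Fin e → ℂ) ≃L[ℂ] W :=
    (LinearEquiv.ofInjectiveOfFinrankEq (T (G.ch y (F 0))).toLinearMap hTinj
      (by rw [hfW, Module.finrank_fin_fun])).toContinuousLinearEquiv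
  have hT₀ : ∀ c, T₀ c = T (G.ch y (F 0)) c := fun c => rfl
  let T₁ : E → (Fin e → ℂ) →L[ℂ] (Fin e → ℂ) := fun ξ => (T₀.symm : W →L[ℂ] _).comp (T ξ)
  have hT₁ : AnalyticAt ℂ T₁ (G.ch y (F 0)) := frm_comp analyticAt_const hT
  have hT₁1 : T₁ (G.ch y (F 0)) = 1 := by
    ext1 c
    show T₀.symm (T (G.ch y (F 0)) c) = c
    rw [← hT₀, T₀.symm_apply_apply]
  have hcs2 : CompleteSpace ((Fin e → ℂ) →L[ℂ] (Fin e → ℂ)) := inferInstance
  have hinv : AnalyticAt ℂ (fun ξ => Ring.inverse (T₁ ξ)) (G.ch y (F 0)) := by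
    have h1 : AnalyticAt ℂ Ring.inverse (T₁ (G.ch y (F 0))) := by
      rw [hT₁1]
      exact analyticAt_inverse (1 : ((Fin e → ℂ) →L[ℂ] (Fin e → ℂ))ˣ)
    exact h1.comp hT₁
  have hinv2 : AnalyticAt ℂ (fun ξ => (Ring.inverse (T₁ ξ)).comp (T₀.symm : W →L[ℂ] (Fin e → ℂ)))
      (G.ch y (F 0)) := by
    apply frm_comp (f := fun ξ => Ring.inverse (T₁ ξ))
      (g := fun _ => (T₀.symm : W →L[ℂ] (Fin e → ℂ))) hinv
    exact analyticAt_const
  refine ⟨fun ξ => (Z₁ (ζ ξ)).comp ((Ring.inverse (T₁ ξ)).comp (T₀.symm : W →L[ℂ] (Fin e → ℂ))),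
    frm_comp hZan hinv2, ?_⟩
  have hunit : ∀ᶠ ξ in 𝓝 (G.ch y (F 0)), IsUnit (T₁ ξ) := by
    have h1 : ∀ᶠ x in 𝓝 (T₁ (G.ch y (F 0))), IsUnit x := by
      rw [hT₁1]
      exact Units.nhds (1 : ((Fin e → ℂ) →L[ℂ] (Fin e → ℂ))ˣ)
    exact hT₁.continuousAt.eventually h1
  filter_upwards [hnear, (frm_xi A hy).eventually hunit] with F' h1 h2
  obtain ⟨k1, k2, k3, k4, k5⟩ := h1
  ext1 a
  symm
  set ξ' := G.ch y (F' 0) with hξ'
  set c := Ring.inverse (T₁ ξ') (T₀.symm a) with hc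
  have h3 : T₁ ξ' c = T₀.symm a := by
    have h4 : (T₁ ξ' * Ring.inverse (T₁ ξ')) (T₀.symm a) = T₀.symm a := by
      rw [Ring.mul_inverse_cancel _ h2]
      rfl
    exact h4
  have h5 : T ξ' c = a := by
    have h6 : T₀.symm (T ξ' c) = T₀.symm a := h3
    exact T₀.symm.injective h6
  show Z₁ (ζ ξ') c = w y F' a
  apply huniq F' k1 y k2
  · rw [hZ₁]
    exact Submodule.sum_mem _ fun b _ => Submodule.smul_mem _ _ (k4 b)
  · rw [← k5 c, h5]

theorem exists_par [CompactSpace X] [T2Space X] (A : Sys G V) : Nonempty (Par A) := by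
  classical
  obtain ⟨W, hW⟩ := exists_span A
  obtain ⟨e, he⟩ := z_dim A
  have hjm : ∀ F' ∈ A.M, ∀ y, F' 0 ∈ (G.ch y).source → ∀ u ∈ A.Z y F', A.jm y F' u ∈ W := by
    intro F' hF' y hy' u hu
    rw [← hW F' hF' y hy']
    exact Submodule.mem_map_of_mem hu
  -- the inverse of `jm`
  have hwex : ∀ (y : X) (F : V → X), ∃ w : W →L[ℂ] E, F ∈ A.M → F 0 ∈ (G.ch y).source →
      ∀ a, w a ∈ A.Z y F ∧ A.jm y F (w a) = a := by
    intro y F
    by_cases hF : F ∈ A.M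
    · by_cases hy : F 0 ∈ (G.ch y).source
      · have hex : ∀ a : W, ∃ u ∈ A.Z y F, A.jm y F u = a := by
          intro a
          have h1 : (a : Fin G.L → ℂ) ∈ (A.Z y F).map (A.jm y F).toLinearMap := by
            rw [hW F hF y hy]
            exact a.2
          obtain ⟨u, hu, hu'⟩ := h1
          exact ⟨u, hu, hu'⟩
        choose f hf1 hf2 using hex
        let L : W →ₗ[ℂ] E :=
          { toFun := f
            map_add' := by
              intro a b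
              apply jm_inj A hF hy
              rw [map_add, hf2, hf2, hf2]
              rfl
            map_smul' := by
              intro r a
              apply jm_inj A hF hy
              rw [map_smul, hf2, hf2]
              rfl }
        exact ⟨L.toContinuousLinearMap, fun _ _ a => ⟨hf1 a, hf2 a⟩⟩
      · exact ⟨0, fun _ h => absurd h hy⟩
    · exact ⟨0, fun h => absurd h hF⟩
  choose w hw using hwex
  have huniq : ∀ F ∈ A.M, ∀ y, F 0 ∈ (G.ch y).source → ∀ (a : W) (u : E), u ∈ A.Z y F →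
      A.jm y F u = a → u = w y F a := by
    intro F hF y hy a u _ h
    apply jm_inj A hF hy
    rw [h, (hw y F hF hy a).2]
  obtain ⟨π', hπ'⟩ := W.subtype.exists_leftInverse_of_injective W.ker_subtype
  let π : (Fin G.L → ℂ) →L[ℂ] W := π'.toContinuousLinearMap
  have hπ : ∀ a : W, π a = a := fun a => LinearMap.congr_fun hπ' a
  have hloc : ∀ F ∈ A.M, ∀ y, F 0 ∈ (G.ch y).source → ∃ om : E → W →L[ℂ] E,
      AnalyticAt ℂ om (G.ch y (F 0)) ∧ ∀ᶠ F' in 𝓝[A.M] F, w y F' = om (G.ch y (F' 0)) :=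
    fun F hF y hy => par_loc A he hW w huniq π hπ hF hy
  -- change of charts
  have hwchart : ∀ F ∈ A.M, ∀ y y', F 0 ∈ (G.ch y).source → F 0 ∈ (G.ch y').source → ∀ a,
      A.D y y' F 0 (w y F a) = w y' F a := by
    intro F hF y y' hy hy' a
    have h1 := (hw y F hF hy a).1
    apply huniq F hF y' hy' a _ (frm_init_mem A hF hy hy' h1)
    rw [jm_chart A hF hy hy' h1, (hw y F hF hy a).2]
  obtain ⟨F₁, hF₁⟩ := A.ne
  -- the constants `cc`
  let cc : W → Fin G.L → ℂ := fun a i => G.S (F₁ 0) i (G.ch (F₁ 0) (F₁ 0)) (w (F₁ 0) F₁ a)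
  have hccinv : ∀ F ∈ A.M, ∀ y y', F 0 ∈ (G.ch y).source → F 0 ∈ (G.ch y').source → ∀ a i,
      G.S y i (G.ch y (F 0)) (w y F a) = G.S y' i (G.ch y' (F 0)) (w y' F a) := by
    intro F hF y y' hy hy' a i
    rw [G.compat y y' (F 0) hy hy', ← par_chg A hF hy hy' (hw y F hF hy a).1,
      hwchart F hF y y' hy hy' a]
  have hwS : ∀ F ∈ A.M, ∀ y, F 0 ∈ (G.ch y).source → ∀ a i,
      G.S y i (G.ch y (F 0)) (w y F a) = cc a i := by
    intro F hF y hy a i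
    have h1 := liouville_sys A (fun F : V → X => G.S (F 0) i (G.ch (F 0) (F 0)) (w (F 0) F a)) ?_
      F hF F₁ hF₁
    · rw [hccinv F hF y (F 0) hy (G.mem _)]
      exact h1
    · intro F hF
      obtain ⟨om, hom, home⟩ := hloc F hF (F 0) (G.mem _)
      refine ⟨F 0, G.mem _, fun ξ => G.S (F 0) i ξ (om ξ a), ?_, ?_⟩
      · have h2 := G.hol (F 0) i (G.ch (F 0) (F 0)) ((G.ch (F 0)).map_source (G.mem _))
          (om (G.ch (F 0) (F 0)) a)
        have h3 : AnalyticAt ℂ (fun ξ => (ξ, om ξ a)) (G.ch (F 0) (F 0)) :=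
          analyticAt_id.prod (frm_apply hom analyticAt_const)
        exact AnalyticAt.comp (g := fun p : E × E => G.S (F 0) i p.1 p.2)
          (f := fun ξ => (ξ, om ξ a)) h2 h3
      · filter_upwards [home, frm_src A (G.mem (F 0)), eventually_mem_nhdsWithin] with F' h4 h5 h6
        rw [hccinv F' h6 (F' 0) (F 0) (G.mem _) h5, h4]
  -- the transports
  have hTmem : ∀ F ∈ A.M, ∀ y y' t, F 0 ∈ (G.ch y).source → F t ∈ (G.ch y').source → ∀ a,
      A.jm y' (tr t F) (A.D y y' F t (w y F a)) ∈ W := by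
    intro F hF y y' t hy hy' a
    apply hjm _ (A.inv t F hF) y' (by rw [frm_tr0]; exact hy')
    exact d_mem A hF hy hy' (hw y F hF hy a).1
  let θ : V → W →L[ℂ] W := fun t =>
    ((A.jm (F₁ t) (tr t F₁)).comp ((A.D (F₁ 0) (F₁ t) F₁ t).comp (w (F₁ 0) F₁))).codRestrict W
      (fun a => hTmem F₁ hF₁ (F₁ 0) (F₁ t) t (G.mem _) (G.mem _) a)
  have hTinv : ∀ F ∈ A.M, ∀ y y' z z' t, F 0 ∈ (G.ch y).source → F t ∈ (G.ch y').source →
      F 0 ∈ (G.ch z).source → F t ∈ (G.ch z').source → ∀ a,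
      A.jm y' (tr t F) (A.D y y' F t (w y F a)) = A.jm z' (tr t F) (A.D z z' F t (w z F a)) := by
    intro F hF y y' z z' t hy hy' hz hz' a
    have h1 := (hw y F hF hy a).1
    rw [frm_chart A hF hy hz' hy' h1, ← frm_init A hF hy hz hz' h1, hwchart F hF y z hy hz a]
  have hTH : ∀ F ∈ A.M, ∀ y y' t, F 0 ∈ (G.ch y).source → F t ∈ (G.ch y').source → ∀ a,
      A.jm y' (tr t F) (A.D y y' F t (w y F a)) = (θ t a : Fin G.L → ℂ) := by
    intro F hF y y' t hy hy' a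
    have h1 := liouville_sys A (fun F : V → X =>
      A.jm (F t) (tr t F) (A.D (F 0) (F t) F t (w (F 0) F a))) ?_ F hF F₁ hF₁
    · rw [hTinv F hF y y' (F 0) (F t) t hy hy' (G.mem _) (G.mem _) a]
      exact h1
    · intro F hF
      obtain ⟨om, hom, home⟩ := hloc F hF (F 0) (G.mem _)
      obtain ⟨a', ha', hae⟩ := frm_main A hF (y := F 0) (y' := F t) (t₀ := t) (G.mem _) (G.mem _)
      refine ⟨F 0, G.mem _, fun ξ => a' (ξ, t) (om ξ a), ?_, ?_⟩
      · have h2 : AnalyticAt ℂ (fun ξ : E => a' (ξ, t)) (G.ch (F 0) (F 0)) :=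
          AnalyticAt.comp (g := a') (f := fun ξ : E => (ξ, t)) ha'
            (analyticAt_id.prod analyticAt_const)
        exact frm_apply h2 (frm_apply hom analyticAt_const)
      · have h3 : Tendsto (fun F' : V → X => (F', t)) (𝓝[A.M] F) (𝓝[A.M] F ×ˢ 𝓝 t) :=
          tendsto_id.prodMk (tendsto_const_pure.mono_right (pure_le_nhds t))
        filter_upwards [home, h3.eventually hae] with F' h4 h5
        obtain ⟨k1, k2, k3, k4⟩ := h5
        rw [hTinv F' k1 (F' 0) (F' t) (F 0) (F t) t (G.mem _) (G.mem _) k2 k3 a,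
          k4 _ (hw (F 0) F' k1 k2 a).1, h4]
  have hwflow : ∀ F ∈ A.M, ∀ y y' t, F 0 ∈ (G.ch y).source → F t ∈ (G.ch y').source → ∀ a,
      A.D y y' F t (w y F a) = w y' (tr t F) (θ t a) := by
    intro F hF y y' t hy hy' a
    exact huniq _ (A.inv t F hF) y' (by rw [frm_tr0]; exact hy') _ _
      (d_mem A hF hy hy' (hw y F hF hy a).1) (hTH F hF y y' t hy hy' a)
  -- velocities
  have hvW : ∀ F ∈ A.M, ∀ y, F 0 ∈ (G.ch y).source → ∀ τ,
      A.jm y F (fderiv ℂ (G.loc y F) 0 τ) =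
        (ContinuousLinearMap.pi fun i => fderiv ℂ (fun u => A.c u i) A.e₀) τ := by
    intro F hF y hy τ
    funext i
    rw [jm_vel A hF hy τ i]
    rfl
  let α : V →L[ℂ] W := (ContinuousLinearMap.pi fun i => fderiv ℂ (fun u => A.c u i) A.e₀).codRestrict
    W (fun τ => by
      rw [← hvW F₁ hF₁ (F₁ 0) (G.mem _) τ]
      exact hjm F₁ hF₁ (F₁ 0) (G.mem _) _ (vel_mem A hF₁ (G.mem _) τ))
  have hwvel : ∀ F ∈ A.M, ∀ y, F 0 ∈ (G.ch y).source → ∀ τ,
      fderiv ℂ (G.loc y F) 0 τ = w y F (α τ) := by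
    intro F hF y hy τ
    exact huniq F hF y hy _ _ (vel_mem A hF hy τ) (hvW F hF y hy τ)
  refine ⟨⟨W, w, cc, θ, α, hloc, fun F hF y hy a => (hw y F hF hy a).1, ?_, hwS, ?_, ?_, ?_, ?_,
    hwflow, hwvel, ?_, ?_⟩⟩
  · -- surjectivity
    intro F hF y hy u hu
    exact ⟨⟨A.jm y F u, hjm F hF y hy u hu⟩, (huniq F hF y hy _ u hu rfl).symm⟩
  · -- cc_inj
    intro a ha
    have h1 : w (F₁ 0) F₁ a = 0 :=
      G.S_eq_zero ((G.ch (F₁ 0)).map_source (G.mem _)) fun i => congrFun ha i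
    have h2 := (hw (F₁ 0) F₁ hF₁ (G.mem _) a).2
    rw [h1, map_zero] at h2
    exact Subtype.ext h2.symm
  · -- θ differentiable
    intro t₁
    obtain ⟨a', ha', hae⟩ := frm_main A hF₁ (y := F₁ 0) (y' := F₁ t₁) (t₀ := t₁) (G.mem _)
      (G.mem _)
    have h2 : Tendsto (fun t : V => (F₁, t)) (𝓝 t₁) (𝓝[A.M] F₁ ×ˢ 𝓝 t₁) :=
      (tendsto_const_pure.mono_right (pure_le_nhdsWithin hF₁)).prodMk tendsto_id
    have h3 : ∀ᶠ t in 𝓝 t₁, θ t =
        π.comp ((a' (G.ch (F₁ 0) (F₁ 0), t)).comp (w (F₁ 0) F₁)) := by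
      filter_upwards [h2.eventually hae] with t ht
      obtain ⟨k1, k2, k3, k4⟩ := ht
      ext1 a
      have h4 := hTH F₁ hF₁ (F₁ 0) (F₁ t₁) t (G.mem _) k3 a
      rw [k4 _ (hw (F₁ 0) F₁ hF₁ (G.mem _) a).1] at h4
      rw [← hπ (θ t a), ← h4]
      rfl
    have h5 : AnalyticAt ℂ (fun t : V => a' (G.ch (F₁ 0) (F₁ 0), t)) t₁ :=
      AnalyticAt.comp (g := a') (f := fun t : V => (G.ch (F₁ 0) (F₁ 0), t)) ha'
        (analyticAt_const.prod analyticAt_id)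
    have h6 : AnalyticAt ℂ (fun t : V =>
        π.comp ((a' (G.ch (F₁ 0) (F₁ 0), t)).comp (w (F₁ 0) F₁))) t₁ :=
      frm_comp analyticAt_const (frm_comp h5 analyticAt_const)
    exact h6.differentiableAt.congr_of_eventuallyEq h3
  · -- θ_add
    intro s t
    ext1 a
    apply Subtype.ext
    have hy : F₁ 0 ∈ (G.ch (F₁ 0)).source := G.mem _
    have hy' : F₁ t ∈ (G.ch (F₁ t)).source := G.mem _
    have hy'' : F₁ (s + t) ∈ (G.ch (F₁ (s + t))).source := G.mem _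
    have hFt := A.inv t F₁ hF₁
    have h0 : tr t F₁ 0 ∈ (G.ch (F₁ t)).source := by rw [frm_tr0]; exact hy'
    have h1 := hTH (tr t F₁) hFt (F₁ t) (F₁ (s + t)) s h0 hy'' (θ t a)
    rw [← hwflow F₁ hF₁ (F₁ 0) (F₁ t) t hy hy' a,
      d_comp A hF₁ hy hy' hy'' (hw (F₁ 0) F₁ hF₁ hy a).1, tr_tr,
      hTH F₁ hF₁ (F₁ 0) (F₁ (s + t)) (s + t) hy hy'' a] at h1
    exact h1
  · -- θ_zero
    ext1 a
    apply Subtype.ext
    have hy : F₁ 0 ∈ (G.ch (F₁ 0)).source := G.mem _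
    have h1 := hTH F₁ hF₁ (F₁ 0) (F₁ 0) 0 hy hy a
    rw [tr_zero, d_zero A hF₁ hy (hw (F₁ 0) F₁ hF₁ hy a).1, (hw (F₁ 0) F₁ hF₁ hy a).2] at h1
    exact h1.symm
  · -- α_inj
    rw [injective_iff_map_eq_zero]
    intro τ hτ
    have hy : F₁ 0 ∈ (G.ch (F₁ 0)).source := G.mem _
    have h1 := hwvel F₁ hF₁ (F₁ 0) hy τ
    rw [hτ, map_zero] at h1
    have h2 := (A.sub hF₁ 0).2 (F₁ 0) hy
    have h3 : G.State A.c (F₁ 0) (G.ch (F₁ 0) (F₁ 0)) (fderiv ℂ (G.loc (F₁ 0) F₁) 0) := by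
      intro i u
      exact h2 i u
    exact Geo.State.ne_zero A.c_inj ((G.ch (F₁ 0)).map_source hy) h3 h1
  · -- θ_α
    intro t τ
    apply Subtype.ext
    have hy : F₁ 0 ∈ (G.ch (F₁ 0)).source := G.mem _
    have hy' : F₁ t ∈ (G.ch (F₁ t)).source := G.mem _
    have h0 : tr t F₁ 0 ∈ (G.ch (F₁ t)).source := by rw [frm_tr0]; exact hy'
    rw [← hTH F₁ hF₁ (F₁ 0) (F₁ t) t hy hy' (α τ), ← hwvel F₁ hF₁ (F₁ 0) hy τ,
      d_vel A hF₁ hy hy' τ, hvW _ (A.inv t F₁ hF₁) (F₁ t) h0 τ]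
    rfl

end Pool.Agent.SS
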