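import Pool.Agent.Lib_helper64.SS.Base
import Pool.Agent.Lib_helper64.SS.Notions
import Pool.Agent.Lib_helper64.SS.ProjAux
import Pool.Agent.Lib_helper64.SS.B.OSG

set_option autoImplicit false
set_option linter.unusedSectionVars false

open Filter Topology Metric Set
open scoped Manifold ContDiff

namespace Pool.Agent.SS

variable {E X : Type} [NormedAddCommGroup E] [NormedSpace ℂ E] [FiniteDimensional ℂ E]
  [TopologicalSpace X] {G : Geo E X}
  {V : Type} [NormedAddCommGroup V] [NormedSpace ℂ V] [FiniteDimensional ℂ V]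

-- NEEDS: OSG

section manifold

variable [ChartedSpace E X] [IsManifold 𝓘(ℂ, E) ω X]

/-- a map differentiable near a point is analytic there -/
theorem prj_analytic {Y Y' : Type} [NormedAddCommGroup Y] [NormedSpace ℂ Y]
    [FiniteDimensional ℂ Y] [NormedAddCommGroup Y'] [NormedSpace ℂ Y'] [CompleteSpace Y']
    {f : Y → Y'} {x : Y} (hf : ∀ᶠ x in 𝓝 x, DifferentiableAt ℂ f x) : AnalyticAt ℂ f x := by
  obtain ⟨U, hUs, hU, hxU⟩ := _root_.eventually_nhds_iff.1 hf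
  refine osgood hU (fun x hx => (hUs x hx).continuousAt.continuousWithinAt) ?_ x hxU
  intro x hx v
  have h1 : DifferentiableAt ℂ (fun z : ℂ => x + z • v) 0 := by fun_prop
  have h2 : DifferentiableAt ℂ f ((fun z : ℂ => x + z • v) 0) := by
    simpa using hUs x hx
  exact h2.comp (0 : ℂ) h1

/-- PRJ: projective manifolds -/
theorem exists_prj (G : Geo E X) (hG : ∀ y, G.ch y = chartAt E y) (h : IsProjectiveAux E X) :
    Nonempty (Prj G) := by
  haveI : IsManifold 𝓘(ℂ, E) 1 X := IsManifold.of_le (n := ω) le_top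
  obtain ⟨N, ι, -, h⟩ := h
  let e : (Fin (N + 1) → ℂ) ≃L[ℂ] EuclideanSpace ℂ (Fin (N + 1)) :=
    (EuclideanSpace.equiv (Fin (N + 1)) ℂ).symm
  refine ⟨⟨N + 1, fun x => (ι x).submodule.map e.toLinearMap, ?_⟩⟩
  intro y ξ₀ hξ
  have hξ' : ξ₀ ∈ (chartAt E y).target := by rw [← hG y]; exact hξ
  set x := (chartAt E y).symm ξ₀ with hx
  obtain ⟨g, hg1, hg2, hg3⟩ := h x
  have hsymmc : ContinuousAt (chartAt E y).symm ξ₀ := (chartAt E y).symm.continuousAt hξ'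
  have hchm : (chartAt E y).MDifferentiable 𝓘(ℂ, E) 𝓘(ℂ, E) := mdifferentiable_chart y
  have htar : ∀ᶠ ξ in 𝓝 ξ₀, ξ ∈ (chartAt E y).target :=
    (chartAt E y).open_target.mem_nhds hξ'
  have hdiff : ∀ᶠ ξ in 𝓝 ξ₀, DifferentiableAt ℂ (fun ξ => g ((chartAt E y).symm ξ)) ξ := by
    filter_upwards [hsymmc.eventually hg1, htar] with ξ h1 h2
    have h3 : MDifferentiableAt 𝓘(ℂ, E) 𝓘(ℂ, E) (chartAt E y).symm ξ :=
      hchm.mdifferentiableAt_symm h2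
    have h4 : MDifferentiableAt 𝓘(ℂ, E) 𝓘(ℂ, Fin (N + 1) → ℂ) (g ∘ (chartAt E y).symm) ξ :=
      h1.comp ξ h3
    rw [mdifferentiableAt_iff_differentiableAt] at h4
    exact h4
  refine ⟨fun ξ => e (g ((chartAt E y).symm ξ)), ?_, ?_, ?_⟩
  · exact prj_analytic (hdiff.mono fun ξ h1 => e.differentiableAt.comp ξ h1)
  · filter_upwards [hsymmc.eventually hg2] with ξ h1
    obtain ⟨h2, h3⟩ := h1
    refine ⟨fun h4 => h2 (e.injective (by rw [h4, map_zero])), ?_⟩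
    rw [hG y, h3, Projectivization.submodule_mk, Submodule.map_span, Set.image_singleton]
    rfl
  · intro u a hu
    have h1 : DifferentiableAt ℂ (fun ξ => g ((chartAt E y).symm ξ)) ξ₀ := hdiff.self_of_nhds
    have h2 : fderiv ℂ (fun ξ => e (g ((chartAt E y).symm ξ))) ξ₀ u =
        e (fderiv ℂ (fun ξ => g ((chartAt E y).symm ξ)) ξ₀ u) := by
      have h3 : HasFDerivAt (fun ξ => e (g ((chartAt E y).symm ξ)))
          ((e : (Fin (N + 1) → ℂ) →L[ℂ] EuclideanSpace ℂ (Fin (N + 1))).comp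
            (fderiv ℂ (fun ξ => g ((chartAt E y).symm ξ)) ξ₀)) ξ₀ :=
        e.hasFDerivAt.comp ξ₀ h1.hasFDerivAt
      rw [h3.fderiv]
      rfl
    rw [h2, ← map_smul] at hu
    have h4 := e.injective hu
    have h5 : MDifferentiableAt 𝓘(ℂ, E) 𝓘(ℂ, E) (chartAt E y).symm ξ₀ :=
      hchm.mdifferentiableAt_symm hξ'
    have h6 : MDifferentiableAt 𝓘(ℂ, E) 𝓘(ℂ, Fin (N + 1) → ℂ) g ((chartAt E y).symm ξ₀) :=
      hg1.self_of_nhds
    have h7 : mfderiv 𝓘(ℂ, E) 𝓘(ℂ, Fin (N + 1) → ℂ) (g ∘ (chartAt E y).symm) ξ₀ =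
        (mfderiv 𝓘(ℂ, E) 𝓘(ℂ, Fin (N + 1) → ℂ) g ((chartAt E y).symm ξ₀)).comp
          (mfderiv 𝓘(ℂ, E) 𝓘(ℂ, E) (chartAt E y).symm ξ₀) := mfderiv_comp ξ₀ h6 h5
    have h8 : fderiv ℂ (fun ξ => g ((chartAt E y).symm ξ)) ξ₀ =
        (mfderiv 𝓘(ℂ, E) 𝓘(ℂ, Fin (N + 1) → ℂ) g ((chartAt E y).symm ξ₀)).comp
          (mfderiv 𝓘(ℂ, E) 𝓘(ℂ, E) (chartAt E y).symm ξ₀) := by
      rw [← h7, mfderiv_eq_fderiv]
      rfl
    rw [h8] at h4
    have h9 := hg3 (mfderiv 𝓘(ℂ, E) 𝓘(ℂ, E) (chartAt E y).symm ξ₀ u) a h4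
    have h10 := hchm.symm.mfderiv_injective (x := ξ₀) hξ'
    exact h10 (h9.trans (map_zero (mfderiv 𝓘(ℂ, E) 𝓘(ℂ, E) (chartAt E y).symm ξ₀)).symm)

end manifold

end Pool.Agent.SS
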