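import Pool.Agent.Lib_helper64.SS.Base
import Pool.Agent.Lib_helper64.SS.Notions
import Pool.Agent.Lib_helper64.SS.B.PKG
import Pool.Agent.Lib_helper64.SS.B.UNI
import Pool.Agent.Lib_helper64.SS.B.ZFN

-- NEEDS: PKG ZFN UNI

set_option autoImplicit false
set_option linter.unusedSectionVars false

open Filter Topology Metric Set
open scoped Manifold ContDiff

namespace Pool.Agent.SS

/-- a map with an injective strict derivative is injective near the point -/
theorem tor_inj {P Q : Type} [NormedAddCommGroup P] [NormedSpace ℂ P] [FiniteDimensional ℂ P]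
    [NormedAddCommGroup Q] [NormedSpace ℂ Q] [FiniteDimensional ℂ Q] (g : P → Q)
    (g' : P →L[ℂ] Q) (p : P) (hg : HasStrictFDerivAt g g' p) (hinj : Function.Injective g') :
    ∃ W ∈ 𝓝 p, Set.InjOn g W := by
  have : CompleteSpace P := FiniteDimensional.complete ℂ P
  obtain ⟨l, hl⟩ := LinearMap.exists_leftInverse_of_injective (g' : P →ₗ[ℂ] Q)
    (LinearMap.ker_eq_bot.2 hinj)
  set lc : Q →L[ℂ] P := LinearMap.toContinuousLinearMap l with hlc
  have h1 : HasStrictFDerivAt (fun x => lc (g x))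
      ((ContinuousLinearEquiv.refl ℂ P : P ≃L[ℂ] P) : P →L[ℂ] P) p := by
    have h2 := (lc.hasStrictFDerivAt (x := g p)).comp p hg
    have h3 : lc.comp g' = ((ContinuousLinearEquiv.refl ℂ P : P ≃L[ℂ] P) : P →L[ℂ] P) := by
      ext x
      exact LinearMap.congr_fun hl x
    rw [h3] at h2
    exact h2
  refine ⟨(h1.toOpenPartialHomeomorph _).source,
    (h1.toOpenPartialHomeomorph _).open_source.mem_nhds h1.mem_toOpenPartialHomeomorph_source,
    fun x hx x' hx' h => ?_⟩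
  apply (h1.toOpenPartialHomeomorph _).injOn hx hx'
  show lc (g x) = lc (g x')
  rw [h]

variable {E X : Type} [NormedAddCommGroup E] [NormedSpace ℂ E] [FiniteDimensional ℂ E]
  [TopologicalSpace X] {G : Geo E X}
  {V : Type} [NormedAddCommGroup V] [NormedSpace ℂ V] [FiniteDimensional ℂ V]

theorem tor_fderiv_inj (A : Sys G V) {F : V → X} (hF : F ∈ A.M) {y : X}
    (hy : F 0 ∈ (G.ch y).source) : Function.Injective (fderiv ℂ (G.loc y F) 0) := by
  have hst : G.State A.c y (G.ch y (F 0)) (fderiv ℂ (G.loc y F) 0) := fun i u => by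
    have := (A.sub hF 0).2 y hy i u
    simpa using this
  rw [injective_iff_map_eq_zero]
  intro u hu
  exact hst.ne_zero A.c_inj ((G.ch y).map_source hy) hu

theorem tor_cont (A : Sys G V) {F : V → X} (hF : F ∈ A.M) : Continuous F :=
  continuous_iff_continuousAt.2 fun t => (A.sub hF t).1.1

theorem tor_tr_cont (A : Sys G V) {F : V → X} (hF : F ∈ A.M) :
    Continuous fun t : V => tr t F :=
  continuous_pi fun _ => (tor_cont A hF).comp (continuous_const.add continuous_id)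

theorem tor_tr_tendsto (A : Sys G V) {F : V → X} (hF : F ∈ A.M) :
    Tendsto (fun t : V => tr t F) (𝓝 0) (𝓝[A.M] F) := by
  refine tendsto_nhdsWithin_iff.2 ⟨?_, Eventually.of_forall fun t => A.inv t F hF⟩
  have := (tor_tr_cont A hF).tendsto 0
  rwa [tr_zero] at this

/-- members near `F` with the same initial point are equal -/
theorem tor_eq [CompactSpace X] [T2Space X] (A : Sys G V) {F : V → X} (hF : F ∈ A.M) :
    ∃ U ∈ 𝓝[A.M] F, ∀ F' ∈ U, ∀ F'' ∈ U, F' ∈ A.M → F'' ∈ A.M → F' 0 = F'' 0 → F' = F'' := by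
  obtain ⟨δ, v, Ψ, hδ, -, -, hev⟩ := pkg A.c A.c_inj (A.sub hF) (G.mem (F 0))
  have hev' := hev.filter_mono (nhdsWithin_mono F A.sub)
  refine ⟨_, hev', ?_⟩
  intro F' hF' F'' hF'' hM' hM'' h0
  have hloc : F' =ᶠ[𝓝 (0 : V)] F'' := by
    filter_upwards [ball_mem_nhds (0 : V) hδ] with t ht
    obtain ⟨a1, a2⟩ := hF'.2.2 t ht
    obtain ⟨b1, b2⟩ := hF''.2.2 t ht
    apply (G.ch (F 0)).injOn a1 b1
    rw [a2, b2, h0]
  funext t
  exact hol_unique (G := G) isOpen_univ isPreconnected_univ (fun t _ => (A.sub hM' t).1)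
    (fun t _ => (A.sub hM'' t).1) (mem_univ (0 : V)) hloc t (mem_univ t)

/-- orbits are open -/
theorem tor_open [CompactSpace X] [T2Space X] (A : Sys G V)
    (h : ∀ F ∈ A.M, ∀ y, F 0 ∈ (G.ch y).source → ∀ u ∈ A.Z y F,
      ∃ τ, fderiv ℂ (G.loc y F) 0 τ = u) {F : V → X} (hF : F ∈ A.M) {W : Set V}
    (hW : W ∈ 𝓝 (0 : V)) : ∀ᶠ F' in 𝓝[A.M] F, ∃ t ∈ W, F' = tr t F := by
  have : CompleteSpace V := FiniteDimensional.complete ℂ V
  obtain ⟨U, hU, hUe⟩ := tor_eq A hF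
  have hy : F 0 ∈ (G.ch (F 0)).source := G.mem (F 0)
  set y : X := F 0 with hydef
  set φ : V → E := G.loc y F with hφ
  have hφa : AnalyticAt ℂ φ 0 := (A.sub hF 0).1.2 y hy
  set L : V →L[ℂ] E := fderiv ℂ φ 0 with hL
  have hLinj : Function.Injective L := tor_fderiv_inj A hF hy
  obtain ⟨r, f, hfa, hf0, -, hfZ⟩ := z_fun A hF hy
  obtain ⟨πl, hπ⟩ := LinearMap.exists_leftInverse_of_injective (L : V →ₗ[ℂ] E)
    (LinearMap.ker_eq_bot.2 hLinj)
  set π : E →L[ℂ] V := LinearMap.toContinuousLinearMap πl with hπdef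
  have hπL : ∀ τ, π (L τ) = τ := fun τ => by
    exact LinearMap.congr_fun hπ τ
  -- local injectivity of `(f, π)`
  have hgs : HasStrictFDerivAt (fun ξ => (f ξ, π ξ)) ((fderiv ℂ f (G.ch y (F 0))).prod π)
      (G.ch y (F 0)) := hfa.hasStrictFDerivAt.prodMk π.hasStrictFDerivAt
  have hginj : Function.Injective ((fderiv ℂ f (G.ch y (F 0))).prod π) := by
    rw [injective_iff_map_eq_zero]
    intro u hu
    have h1 : fderiv ℂ f (G.ch y (F 0)) u = 0 := congrArg Prod.fst hu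
    have h2 : π u = 0 := congrArg Prod.snd hu
    obtain ⟨τ, hτ⟩ := h F hF y hy u ((hfZ u).2 h1)
    rw [← hτ] at h2 ⊢
    have h3 : π (L τ) = 0 := h2
    rw [hπL] at h3
    rw [h3, map_zero]
  obtain ⟨W₁, hW₁, hinj⟩ := tor_inj _ _ _ hgs hginj
  -- the open map `π ∘ φ`
  have hps : HasStrictFDerivAt (fun t => π (φ t))
      ((ContinuousLinearEquiv.refl ℂ V : V ≃L[ℂ] V) : V →L[ℂ] V) 0 := by
    have h2 := (π.hasStrictFDerivAt (x := φ 0)).comp 0 hφa.hasStrictFDerivAt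
    have h3 : π.comp (fderiv ℂ φ 0) = ((ContinuousLinearEquiv.refl ℂ V : V ≃L[ℂ] V) :
        V →L[ℂ] V) := by
      ext x
      exact hπL x
    rw [h3] at h2
    exact h2
  have hmap := hps.map_nhds_eq_of_equiv
  -- good times
  have hφ0 : φ 0 = G.ch y (F 0) := rfl
  have hgood : ∀ᶠ t in 𝓝 (0 : V), t ∈ W ∧ tr t F ∈ U ∧ F t ∈ (G.ch y).source ∧ f (φ t) = 0 ∧
      φ t ∈ W₁ := by
    have e1 := (tor_tr_tendsto A hF).eventually hU
    have e2 := (tor_tr_tendsto A hF).eventually hf0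
    have e3 : ∀ᶠ t in 𝓝 (0 : V), F t ∈ (G.ch y).source := (A.sub hF 0).1.loc_mem hy
    have e4 : ∀ᶠ t in 𝓝 (0 : V), φ t ∈ W₁ := hφa.continuousAt.eventually hW₁
    filter_upwards [hW, e1, e2, e3, e4] with t a1 a2 a3 a4 a5
    refine ⟨a1, a2, a4, ?_, a5⟩
    have h1 : tr t F 0 = F t := by simp [tr]
    rw [h1] at a3
    exact a3
  -- members near `F`
  have c0 : Tendsto (fun F' : V → X => F' 0) (𝓝[A.M] F) (𝓝 (F 0)) :=
    ((continuous_apply (0 : V)).tendsto F).mono_left nhdsWithin_le_nhds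
  have c1 : Tendsto (fun F' : V → X => G.ch y (F' 0)) (𝓝[A.M] F) (𝓝 (G.ch y (F 0))) :=
    ((G.ch y).continuousAt hy).tendsto.comp c0
  have c2 : Tendsto (fun F' : V → X => π (G.ch y (F' 0))) (𝓝[A.M] F) (𝓝 (π (φ 0))) :=
    (π.continuous.tendsto _).comp c1
  rw [← hmap] at c2
  have e5 := c2.eventually (Filter.image_mem_map hgood)
  filter_upwards [e5, hU, hf0, c1.eventually hW₁, c0.eventually ((G.ch y).open_source.mem_nhds hy),
    self_mem_nhdsWithin] with F' a1 a2 a3 a4 a5 a6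
  obtain ⟨t, ⟨b1, b2, b3, b4, b5⟩, b6⟩ := a1
  have hξ : φ t = G.ch y (F' 0) := by
    apply hinj b5 a4
    exact Prod.ext (b4.trans a3.symm) b6
  have h00 : F t = F' 0 := (G.ch y).injOn b3 a5 hξ
  refine ⟨t, b1, hUe F' a2 _ b2 a6 (A.inv t F hF) ?_⟩
  rw [← h00]
  simp [tr]

/-- TOR: if the Zariski tangent spaces are spanned by the velocities, the members of `M` are
periodic -/
theorem exists_torus [CompactSpace X] [T2Space X] (A : Sys G V)
    (h : ∀ F ∈ A.M, ∀ y, F 0 ∈ (G.ch y).source → ∀ u ∈ A.Z y F,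
      ∃ τ, fderiv ℂ (G.loc y F) 0 τ = u) :
    ∃ F ∈ A.M, ∃ (Λ : Submodule ℤ V) (_ : DiscreteTopology Λ), IsZLattice ℝ Λ ∧
      ∀ l ∈ Λ, ∀ t, F (t + l) = F t := by
  obtain ⟨F, hF⟩ := A.ne
  -- one orbit
  have horb : ∀ F' ∈ A.M, ∃ t, F' = tr t F := by
    intro F' hF'
    have h1 := tor_open A h hF' (univ_mem : (univ : Set V) ∈ 𝓝 0)
    rw [Filter.Eventually, mem_nhdsWithin_iff_exists_mem_nhds_inter] at h1
    obtain ⟨U, hU, hUs⟩ := h1
    obtain ⟨t, ht⟩ := A.dense F hF F' hF' U hU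
    obtain ⟨s, -, hs⟩ := hUs ⟨ht, A.inv t F hF⟩
    refine ⟨-s + t, ?_⟩
    rw [← tr_tr, hs, tr_tr, neg_add_cancel, tr_zero]
  -- bounded times
  obtain ⟨R, hR⟩ : ∃ R : ℝ, ∀ F' ∈ A.M, ∃ t, ‖t‖ ≤ R ∧ F' = tr t F := by
    obtain ⟨T, hTM, hT⟩ := A.cpt.elim_nhdsWithin_subcover
      (fun F' => {F'' | ∃ t ∈ ball (0 : V) 1, F'' = tr t F'})
      (fun F' hF' => tor_open A h hF' (ball_mem_nhds (0 : V) one_pos))
    choose! τ hτ using horb
    refine ⟨1 + ∑ F' ∈ T, ‖τ F'‖, fun F' hF' => ?_⟩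
    obtain ⟨F₁, hF₁, t, ht, hF'⟩ := mem_iUnion₂.1 (hT hF')
    refine ⟨t + τ F₁, ?_, ?_⟩
    · have h1 : ‖τ F₁‖ ≤ ∑ F' ∈ T, ‖τ F'‖ :=
        Finset.single_le_sum (f := fun F' => ‖τ F'‖) (fun _ _ => norm_nonneg _) hF₁
      have h2 : ‖t‖ < 1 := by simpa using ht
      have h3 := norm_add_le t (τ F₁)
      linarith
    · rw [← tr_tr, ← hτ F₁ (hTM F₁ hF₁)]
      exact hF'
  -- the lattice
  let Γ : AddSubgroup V :=
    { carrier := {l | tr l F = F}
      zero_mem' := tr_zero F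
      add_mem' := fun {a b} ha hb => by
        show tr (a + b) F = F
        rw [← tr_tr]
        rw [show tr b F = F from hb]
        exact ha
      neg_mem' := fun {a} ha => by
        show tr (-a) F = F
        have h1 : tr a F = F := ha
        conv_lhs => rw [← h1]
        rw [tr_tr, neg_add_cancel, tr_zero] }
  have hΓ : ∀ l, l ∈ Γ ↔ tr l F = F := fun l => Iff.rfl
  let Λ : Submodule ℤ V := AddSubgroup.toIntSubmodule Γ
  have hΛ : ∀ l, l ∈ Λ ↔ tr l F = F := fun l => Iff.rfl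
  have hnear : ∀ t : V, ∃ l ∈ Λ, ‖t - l‖ ≤ R := by
    intro t
    obtain ⟨s, hs, hts⟩ := hR _ (A.inv t F hF)
    refine ⟨-s + t, ?_, ?_⟩
    · rw [hΛ, ← tr_tr, hts, tr_tr, neg_add_cancel, tr_zero]
    · have : t - (-s + t) = s := by abel
      rw [this]
      exact hs
  have hdisc : DiscreteTopology Λ := by
    have hy : F 0 ∈ (G.ch (F 0)).source := G.mem (F 0)
    have hφa : AnalyticAt ℂ (G.loc (F 0) F) 0 := (A.sub hF 0).1.2 _ hy
    obtain ⟨W, hW, hinj⟩ := tor_inj _ _ _ hφa.hasStrictFDerivAt (tor_fderiv_inj A hF hy)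
    obtain ⟨δ, hδ, hδW⟩ := Metric.mem_nhds_iff.1 hW
    apply discreteTopology_of_isOpen_singleton_zero
    have h1 : ({0} : Set Λ) = (Subtype.val : Λ → V) ⁻¹' ball 0 δ := by
      ext l
      rw [mem_singleton_iff, mem_preimage]
      constructor
      · rintro rfl
        simpa using hδ
      · intro hl
        have h2 : tr (l : V) F = F := (hΛ l).1 l.2
        have h3 : F (l : V) = F 0 := by
          have := congrFun h2 0
          simpa [tr] using this
        have h4 : (l : V) = 0 := by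
          apply hinj (hδW hl) (hδW (mem_ball_self hδ))
          show G.ch (F 0) (F (l : V)) = G.ch (F 0) (F 0)
          rw [h3]
        exact Subtype.ext h4
    rw [h1]
    exact isOpen_ball.preimage continuous_subtype_val
  refine ⟨F, hF, Λ, hdisc, ⟨?_⟩, ?_⟩
  · by_contra hne
    obtain ⟨ℓ, hℓ0, hℓ⟩ := Submodule.exists_le_ker_of_lt_top _ (lt_top_iff_ne_top.2 hne)
    have : FiniteDimensional ℝ V := FiniteDimensional.complexToReal V
    obtain ⟨v, hv⟩ : ∃ v, ℓ v ≠ 0 := by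
      by_contra hcon
      push Not at hcon
      exact hℓ0 (LinearMap.ext hcon)
    set lc : V →L[ℝ] ℝ := LinearMap.toContinuousLinearMap ℓ with hlc
    have hlcv : ∀ w, lc w = ℓ w := fun w => rfl
    have hb : ∀ a : ℝ, |a| * |ℓ v| ≤ ‖lc‖ * R := by
      intro a
      obtain ⟨l, hl, hlR⟩ := hnear (a • v)
      have h1 : ℓ l = 0 := hℓ (Submodule.subset_span hl)
      have h2 : lc (a • v - l) = a * ℓ v := by
        rw [hlcv, map_sub, h1, sub_zero, map_smul, smul_eq_mul]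
      have h3 := lc.le_opNorm (a • v - l)
      rw [h2, Real.norm_eq_abs, abs_mul] at h3
      exact h3.trans (mul_le_mul_of_nonneg_left hlR (norm_nonneg _))
    have hpos : 0 < |ℓ v| := abs_pos.2 hv
    have hR0 : 0 ≤ ‖lc‖ * R := (mul_nonneg (abs_nonneg 0) (abs_nonneg _)).trans (hb 0)
    have h5 := hb ((‖lc‖ * R + 1) / |ℓ v|)
    rw [abs_of_nonneg (by positivity), div_mul_cancel₀ _ hpos.ne'] at h5
    linarith
  · intro l hl t
    exact congrFun ((hΛ l).1 hl) t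

end Pool.Agent.SS
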